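import Pool.Agent.Work.MP_8e9dbb.Iface

/-!
The comparison relation between quarter domain data (interface between C and A).
-/

open Real Set

namespace Pool.MP8e

/-- `D` and `D'` are compared by the map `Φ (p, θ) = (φ (p, θ), θ)` of the quarter domains, which
preserves the sides, and whose derivative changes the norms at most by the factor `e^ε`. -/
def QComp (D D' : QD) (ε : ℝ) : Prop := ∃ φ : ℝ × ℝ → ℝ,
  (∀ θ ∈ Icc 0 (π / 2), φ (0, θ) = 0 ∧ φ (D.β θ, θ) = D'.β θ) ∧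
  ∀ q : ℝ × ℝ, q.2 ∈ Icc 0 (π / 2) → 0 ≤ q.1 → q.1 ≤ D.β q.2 →
    ∃ φ' : ℝ × ℝ →L[ℝ] ℝ, HasStrictFDerivAt φ φ' q ∧ 0 < φ' (1, 0) ∧
      ∀ u : ℝ × ℝ, D'.nm (φ q) (φ' u, u.2) ≤ exp ε * D.nm q.1 u ∧
        D.nm q.1 u ≤ exp ε * D'.nm (φ q) (φ' u, u.2)

end Pool.MP8e
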