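import Pool.Agent.Work.MP_8e9dbb.C.Families
import Pool.Agent.Work.MP_8e9dbb.Top

/-! Monotonicity of the area, respectively of `σ`, along the four phases (fields `aR`, `aR'`,
`aS`, `aF`, `aT` of `CThy`). -/

open Real Set

namespace Pool.MP8e.C

theorem ar_eq (D : QD) : D.ar = D.area4 := rfl

/-- the coefficient of `t²` is positive -/
theorem coef_pos : 0 < 1 / 2 - π / 8 := by
  have := pi_lt_d2
  linarith

theorem ar_famR {t : ℝ} (h : 0 < t) (h1 : t ≤ 1) :
    (famR t).ar = 2 * π * (2 - (1 / 2 - π / 8) * t ^ 2) := by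
  rcases h1.eq_or_lt with h2 | h2
  · subst h2
    rw [famR_one, ar_eq, area_S]
    unfold a1
    ring
  · rw [famR_of h h2, ar_eq, area_R]

theorem ar_famF {t : ℝ} (h : 0 ≤ t) (h1 : t ≤ 1) : (famF t).ar = 2 * π * a1 := by
  rw [famF_of h h1, ar_eq, area_F]

theorem ar_famS {t : ℝ} (h : 0 ≤ t) (h1 : t ≤ 1) : (famS t).ar = 2 * π * a1 := by
  rcases h1.eq_or_lt with h2 | h2
  · subst h2
    rw [← famF_zero, ar_famF le_rfl zero_le_one]
  · rw [famS_of h h2, ar_eq, area_S]

theorem aR_fam : AntitoneOn (fun t => (famR t).ar) (Ioc 0 1) := by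
  intro s hs t ht hst
  simp only
  rw [ar_famR hs.1 hs.2, ar_famR ht.1 ht.2]
  have h1 : s ^ 2 ≤ t ^ 2 := pow_le_pow_left₀ hs.1.le hst 2
  have h2 := coef_pos
  have h3 := pi_pos
  have h4 : (1 / 2 - π / 8) * s ^ 2 ≤ (1 / 2 - π / 8) * t ^ 2 := mul_le_mul_of_nonneg_left h1 h2.le
  nlinarith

theorem aR'_fam : ∀ t ∈ Ioc (0:ℝ) 1, (famR t).ar ≤ 4 * Real.pi := by
  intro t ht
  rw [ar_famR ht.1 ht.2]
  have h2 := coef_pos
  have h3 := pi_pos
  have h4 : 0 ≤ (1 / 2 - π / 8) * t ^ 2 := by positivity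
  nlinarith

theorem aS_fam : AntitoneOn (fun t => (famS t).ar) (Icc 0 1) := by
  intro s hs t ht _
  simp only
  rw [ar_famS hs.1 hs.2, ar_famS ht.1 ht.2]

theorem aF_fam : AntitoneOn (fun t => (famF t).ar) (Icc 0 1) := by
  intro s hs t ht _
  simp only
  rw [ar_famF hs.1 hs.2, ar_famF ht.1 ht.2]

/-- `σ` along phase T -/
theorem sigT_famT {t : ℝ} (h : 0 ≤ t) (h1 : t ≤ 1) :
    Pool.MP8e.sigT famT t = sigT (π * t / 3) := by
  have hpi := pi_pos
  unfold Pool.MP8e.sigT
  rcases h.eq_or_lt with h2 | h2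
  · subst h2
    rw [if_pos rfl, famT_zero, ar_famF zero_le_one le_rfl]
    simp only [mul_zero, zero_div]
    rw [sigT_zero]
    unfold a1
    field_simp
    ring
  · rw [if_neg h2.ne', famT_of h2 h1, ar_eq]
    have hg : 0 < π * t / 3 := by positivity
    have hg1 : π * t / 3 ≤ π / 3 := by nlinarith
    rw [area_T hg.le hg1]
    have hs : (CT (π * t / 3) hg.le hg1).toQD.sysT =
        2 * π * ρT (π * t / 3) * sinc (π * t / 3 / 2) := by
      unfold QD.sysT
      have e1 : (CT (π * t / 3) hg.le hg1).toQD.ρf = ρT (π * t / 3) := ρf_T hg.le hg1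
      have e2 : (CT (π * t / 3) hg.le hg1).toQD.κ = π * t / 3 / π := rfl
      rw [e1, e2, sinc_of_ne_zero (by positivity)]
      have e3 : π * t / 3 / π * π / 2 = π * t / 3 / 2 := by field_simp
      rw [e3]
      field_simp
      ring
    rw [hs]
    apply mul_div_cancel_right₀
    have h5 := ρT_ge hg.le hg1
    have h6 := sinc_T hg.le hg1
    positivity

theorem aT_fam : AntitoneOn (Pool.MP8e.sigT famT) (Icc 0 1) := by
  intro s hs t ht hst
  rw [sigT_famT hs.1 hs.2, sigT_famT ht.1 ht.2]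
  have hpi := pi_pos
  apply sigT_strictAnti.antitoneOn
  · exact ⟨by have := hs.1; positivity, by have := hs.2; nlinarith⟩
  · exact ⟨by have := ht.1; positivity, by have := ht.2; nlinarith⟩
  · gcongr

end Pool.MP8e.C
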