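import Pool.Agent.Work.MP_8e9dbb.C.DataF

/-!
Phase T (parameter `g = γ ∈ [0, π/3]`) and its area.
-/

open Real Set intervalIntegral
open scoped ContDiff

namespace Pool.MP8e.C

/-- `(cos y - sinc y)/y` -/
noncomputable def c1 (y : ℝ) : ℝ := (cos y - sinc y) / y

/-- `(ρf² - 1)/κ` -/
noncomputable def YT (g : ℝ) : ℝ :=
  (π * c1 (g / 2) / (2 * sinc (g / 2)) + 2 * d0 * (cos (g / 2) / sinc (g / 2)) +
    4 * π * (1 / 16 + g / 18) * sinc g) / (1 - 4 * (1 / 16 + g / 18) * sin g)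

/-- the foot radius -/
noncomputable def ρT (g : ℝ) : ℝ := √(1 + g / π * YT g)

/-- `(ρf - 1)/κ` -/
noncomputable def mT (g : ℝ) : ℝ := YT g / (1 + ρT g)

theorem c1_le {y : ℝ} (hy : 0 ≤ y) (hy1 : y ≤ 1) : c1 y ≤ 0 := by
  unfold c1
  rcases hy.eq_or_lt with h | h
  · rw [← h]; simp
  · apply div_nonpos_of_nonpos_of_nonneg _ hy
    rw [sinc_of_ne_zero h.ne', sub_nonpos, le_div_iff₀ h]
    have h1 := cos_le4 hy
    have h2 := sin_ge3 hy
    have h3 : cos y * y ≤ (1 - y ^ 2 / 2 + y ^ 4 / 24) * y := mul_le_mul_of_nonneg_right h1 hy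
    have h4 : y ^ 5 ≤ y ^ 3 := pow_le_pow_of_le_one hy hy1 (by norm_num)
    have h5 : 0 ≤ y ^ 3 := by positivity
    nlinarith

theorem c1_ge {y : ℝ} (hy : 0 ≤ y) : -(y / 3 + y ^ 3 / 120) ≤ c1 y := by
  unfold c1
  rcases hy.eq_or_lt with h | h
  · rw [← h]; simp
  · rw [le_div_iff₀ h, sinc_of_ne_zero h.ne']
    have h1 := cos_ge2 y
    have h2 := sin_le5 hy
    have h3 : sin y / y ≤ 1 - y ^ 2 / 6 + y ^ 4 / 120 := by
      rw [div_le_iff₀ h]; nlinarith
    nlinarith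

theorem sin_le_T {g : ℝ} (h : 0 ≤ g) (h1 : g ≤ π / 3) : sin g ≤ 0.8661 := by
  have h2 : sin g ≤ sin (π / 3) :=
    sin_le_sin_of_le_of_le_pi_div_two (by linarith [pi_pos]) (by linarith [pi_pos]) h1
  rw [sin_pi_div_three] at h2
  have h3 : √3 ≤ 1.7321 := by
    rw [sqrt_le_left (by norm_num)]; norm_num
  linarith

theorem sin_nonneg_T {g : ℝ} (h : 0 ≤ g) (h1 : g ≤ π / 3) : 0 ≤ sin g :=
  sin_nonneg_of_nonneg_of_le_pi h (by linarith [pi_pos])

theorem den_ge {g : ℝ} (h : 0 ≤ g) (h1 : g ≤ π / 3) :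
    0.58 ≤ 1 - 4 * (1 / 16 + g / 18) * sin g := by
  have h2 := sin_le_T h h1
  have h3 := sin_nonneg_T h h1
  have hpi := pi_lt_d4
  have h4 : 4 * (1 / 16 + g / 18) * sin g ≤ 4 * (1 / 16 + (π / 3) / 18) * 0.8661 := by
    apply mul_le_mul _ h2 h3 (by positivity)
    linarith
  linarith

theorem den_le {g : ℝ} (h : 0 ≤ g) (h1 : g ≤ π / 3) :
    1 - 4 * (1 / 16 + g / 18) * sin g ≤ 1 := by
  have h3 := sin_nonneg_T h h1
  have : 0 ≤ 4 * (1 / 16 + g / 18) * sin g := by positivity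
  linarith

theorem sinc_T {g : ℝ} (h : 0 ≤ g) (h1 : g ≤ π / 3) : 0.954 ≤ sinc (g / 2) := by
  have h2 := sinc_ge (z := g / 2) (by linarith)
  have hpi := pi_lt_d4
  have h3 : (g / 2) ^ 2 ≤ (0.5236 : ℝ) ^ 2 := pow_le_pow_left₀ (by linarith) (by linarith) 2
  norm_num at h3 ⊢
  linarith

theorem num_ge {g : ℝ} (h : 0 ≤ g) (h1 : g ≤ π / 3) :
    0.49 ≤ π * c1 (g / 2) / (2 * sinc (g / 2)) + 2 * d0 * (cos (g / 2) / sinc (g / 2)) +
    4 * π * (1 / 16 + g / 18) * sinc g := by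
  have hpi := pi_lt_d4
  have hpi2 := pi_gt_d4
  have hs := sinc_T h h1
  have hs1 := sinc_le_one (g / 2)
  have e1 : -0.291 ≤ π * c1 (g / 2) / (2 * sinc (g / 2)) := by
    rw [le_div_iff₀ (by linarith)]
    have h2 := c1_ge (y := g / 2) (by linarith)
    have h3 : (g / 2) ^ 3 ≤ (0.5236 : ℝ) ^ 3 := pow_le_pow_left₀ (by linarith) (by linarith) 3
    have h4 : -0.1758 ≤ c1 (g / 2) := by norm_num at h3 ⊢; linarith
    have h5 : π * -0.1758 ≤ π * c1 (g / 2) := mul_le_mul_of_nonneg_left h4 pi_pos.le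
    nlinarith
  have e2 : 0 ≤ 2 * d0 * (cos (g / 2) / sinc (g / 2)) := by
    apply mul_nonneg (mul_nonneg zero_le_two d0_nonneg)
    apply div_nonneg _ (by linarith)
    exact cos_nonneg_of_neg_pi_div_two_le_of_le (by linarith) (by linarith)
  have e3 : π / 4 ≤ 4 * π * (1 / 16 + g / 18) * sinc g := by
    have h2 := sinc_ge h
    have h3 : (1 / 16 : ℝ) ≤ (1 / 16 + g / 18) * (1 - g ^ 2 / 6) := by
      have hg : g ≤ 1.0472 := by linarith
      have : 0 ≤ g * (1 / 18 - g / 96 - g ^ 2 / 108) := by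
        apply mul_nonneg h
        nlinarith
      nlinarith
    have h4 : (1 / 16 + g / 18) * (1 - g ^ 2 / 6) ≤ (1 / 16 + g / 18) * sinc g :=
      mul_le_mul_of_nonneg_left h2 (by positivity)
    have h5 : 4 * π * (1 / 16) ≤ 4 * π * ((1 / 16 + g / 18) * sinc g) :=
      mul_le_mul_of_nonneg_left (h3.trans h4) (by positivity)
    linarith
  linarith

theorem YT_ge {g : ℝ} (h : 0 ≤ g) (h1 : g ≤ π / 3) : 0.49 ≤ YT g := by
  have h2 := den_ge h h1
  have h3 := den_le h h1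
  have h4 := num_ge h h1
  unfold YT
  rw [le_div_iff₀ (by linarith)]
  linarith

theorem ρT_sq {g : ℝ} (h : 0 ≤ g) (h1 : g ≤ π / 3) : ρT g ^ 2 = 1 + g / π * YT g := by
  unfold ρT
  apply sq_sqrt
  have := YT_ge h h1
  have : 0 ≤ g / π * YT g := mul_nonneg (div_nonneg h pi_pos.le) (by linarith)
  linarith

theorem ρT_ge {g : ℝ} (h : 0 ≤ g) (h1 : g ≤ π / 3) : 1 ≤ ρT g := by
  unfold ρT
  rw [one_le_sqrt]
  have := YT_ge h h1
  have : 0 ≤ g / π * YT g := mul_nonneg (div_nonneg h pi_pos.le) (by linarith)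
  linarith

theorem κT_le {g : ℝ} (h1 : g ≤ π / 3) : g / π ≤ 1 / 3 := by
  rw [div_le_iff₀ pi_pos]; linarith

theorem ρT_le {g : ℝ} (h : 0 ≤ g) (h1 : g ≤ π / 3) : ρT g ≤ 1 + YT g / 6 := by
  have h2 := YT_ge h h1
  have h3 := ρT_sq h h1
  have h4 := ρT_ge h h1
  have h5 : g / π * YT g ≤ 1 / 3 * YT g := mul_le_mul_of_nonneg_right (κT_le h1) (by linarith)
  nlinarith

theorem one_add_κm {g : ℝ} (h : 0 ≤ g) (h1 : g ≤ π / 3) : 1 + g / π * mT g = ρT g := by
  have h3 := ρT_sq h h1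
  have h4 := ρT_ge h h1
  unfold mT
  have : g / π * (YT g / (1 + ρT g)) = (g / π * YT g) / (1 + ρT g) := by ring
  rw [this, show g / π * YT g = (ρT g - 1) * (1 + ρT g) by nlinarith,
    mul_div_cancel_right₀ _ (by linarith)]
  ring

theorem mT_gt {g : ℝ} (h : 0 ≤ g) (h1 : g ≤ π / 3) : h0 / 40 < mT g := by
  have h2 := YT_ge h h1
  have h4 := ρT_ge h h1
  have h5 := ρT_le h h1
  have h6 := h0_le
  have h7 := h0_pos
  unfold mT
  rw [lt_div_iff₀ (by linarith)]
  have : h0 / 40 * (1 + ρT g) ≤ 0.41 / 40 * (2 + YT g / 6) :=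
    mul_le_mul (by linarith) (by linarith) (by linarith) (by norm_num)
  linarith

/-- The parameters of phase T. -/
noncomputable def CT (g : ℝ) (h : 0 ≤ g) (h1 : g ≤ π / 3) : CII where
  F := fun x => 3 * x
  h := h0
  κ := g / π
  m := mT g
  b := 3
  xP := 99 / 100
  smF := contDiff_const.mul contDiff_id
  posF := fun x hx => by linarith [hx.1]
  posF' := fun x hx => by linarith [hx.1]
  h_pos := h0_pos
  κ_nonneg := div_nonneg h pi_pos.le
  κ_le := κT_le h1
  m_gt := mT_gt h h1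
  b_gt := by norm_num
  xP_ge := by norm_num
  xP_lt := by norm_num
  coneF := fun x _ => rfl

theorem ρf_T {g : ℝ} (h : 0 ≤ g) (h1 : g ≤ π / 3) : (CT g h h1).ρf = ρT g := one_add_κm h h1

/-- the function `s` (three times the flat radius) -/
noncomputable def sT (p : ℝ) : ℝ := 3 * sin (r p) + h0 * (p - r p)

theorem sT_hasDerivAt (p : ℝ) : HasDerivAt sT (AII (fun x => 3 * x) h0 p) p := by
  have h1 : HasDerivAt (fun p => sin (r p)) (cos (r p) * (1 - w p)) p := (r_hasDerivAt p).sin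
  have h2 := (h1.const_mul 3).add (((hasDerivAt_id' p).sub (r_hasDerivAt p)).const_mul h0)
  refine h2.congr_deriv ?_
  unfold AII
  ring

theorem RII_T (κ p : ℝ) : RII κ h0 p = (1 - 3 * κ) * sin (r p) + κ * sT p := by
  unfold RII sT; ring

theorem contAT : Continuous (AII (fun x => 3 * x) h0) :=
  (AII_contDiff (contDiff_const.mul contDiff_id) h0).continuous

theorem contsT : Continuous sT :=
  continuous_iff_continuousAt.2 fun p => (sT_hasDerivAt p).continuousAt

theorem int_T_pa (κ : ℝ) : ∫ p in (0:ℝ)..pa, AII (fun x => 3 * x) h0 p * RII κ h0 p =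
    (1 - 3 * κ) * (3 / 2 + h0 * kw) + κ * (3 + h0 / 40) ^ 2 / 2 := by
  have c2 : Continuous fun p => sin (r p) := continuous_sin.comp r_continuous
  have e1 : ∫ p in (0:ℝ)..pa, AII (fun x => 3 * x) h0 p * RII κ h0 p = ∫ p in (0:ℝ)..pa,
      ((1 - 3 * κ) * (AII (fun x => 3 * x) h0 p * sin (r p)) +
        κ * (AII (fun x => 3 * x) h0 p * sT p)) := by
    apply integral_congr
    intro p _
    dsimp only
    rw [RII_T]; ring
  have e2 : ∫ p in (0:ℝ)..pa, AII (fun x => 3 * x) h0 p * sT p =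
      sT pa ^ 2 / 2 - sT 0 ^ 2 / 2 := by
    apply integral_eq_sub_of_hasDerivAt (f := fun p => sT p ^ 2 / 2)
    · intro p _
      refine (((sT_hasDerivAt p).pow 2).div_const 2).congr_deriv ?_
      simp
      ring
    · exact (contAT.mul contsT).intervalIntegrable _ _
  rw [e1, integral_add, integral_const_mul, integral_const_mul, e2,
    int_AII_pa (F := fun x => 3 * x) (by fun_prop)]
  · have e3 : sT 0 = 0 := by unfold sT; rw [r_zero]; simp
    have e4 : sT pa = 3 + h0 / 40 := by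
      unfold sT; rw [r_large le_rfl, sin_pi_div_two]; unfold pa; ring
    have e5 : ∫ x in (0:ℝ)..1, 3 * x = 3 / 2 := by
      rw [integral_const_mul, integral_id]; norm_num
    rw [e3, e4, e5]
    ring
  · exact ((contAT.mul c2).const_mul _).intervalIntegrable _ _
  · exact ((contAT.mul contsT).const_mul _).intervalIntegrable _ _

theorem int_T {g : ℝ} (h : 0 < g) {p : ℝ} (hp : pa ≤ p) :
    ∫ u in (0:ℝ)..p, AII (fun x => 3 * x) h0 u * RII (g / π) h0 u =
    (1 - 3 * (g / π)) * (3 / 2 + h0 * kw) + g / π * (3 + h0 / 40) ^ 2 / 2 +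
      (RII (g / π) h0 p ^ 2 - (1 + g / π * h0 / 40) ^ 2) / (2 * (g / π)) := by
  have hpi := pi_pos
  have cR : Continuous (RII (g / π) h0) := (RII_contDiff _ _).continuous
  have hc : Continuous fun u => AII (fun x => 3 * x) h0 u * RII (g / π) h0 u := contAT.mul cR
  rw [← integral_add_adjacent_intervals (μ := MeasureTheory.volume)
    (hc.intervalIntegrable 0 pa) (hc.intervalIntegrable pa p), int_T_pa]
  congr 1
  have e1 : ∫ u in pa..p, AII (fun x => 3 * x) h0 u * RII (g / π) h0 u =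
      RII (g / π) h0 p ^ 2 / (2 * (g / π)) - RII (g / π) h0 pa ^ 2 / (2 * (g / π)) := by
    apply integral_eq_sub_of_hasDerivAt (f := fun u => RII (g / π) h0 u ^ 2 / (2 * (g / π)))
    · intro u hu
      rw [uIcc_of_le hp] at hu
      refine (((RII_hasDerivAt (g / π) h0 u).pow 2).div_const _).congr_deriv ?_
      unfold AII
      rw [w_one hu.1]
      field_simp
      simp
      ring
    · exact hc.intervalIntegrable _ _
  rw [e1]
  have e2 : RII (g / π) h0 pa = 1 + g / π * h0 / 40 := by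
    unfold RII; rw [r_large le_rfl, sin_pi_div_two]; unfold pa; ring
  rw [e2]
  ring

theorem ρT_sq' {g : ℝ} (h : 0 < g) (h1 : g ≤ π / 3) :
    ρT g ^ 2 * (1 - 4 * (1 / 16 + g / 18) * sin g) * sinc (g / 2) =
      (1 + 2 * d0 * (g / π)) * cos (g / 2) := by
  have hpi := pi_pos
  have hd := den_ge h.le h1
  have hs := sinc_T h.le h1
  rw [ρT_sq h.le h1]
  unfold YT c1
  have e : sinc g * g = sin g := by rw [mul_comm]; exact mul_sinc g
  have hd' : 1 - 4 * (1 / 16 + g / 18) * sin g ≠ 0 := by linarith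
  have hs' : sinc (g / 2) ≠ 0 := by linarith
  have e2 : g / π * ((π * ((cos (g / 2) - sinc (g / 2)) / (g / 2)) / (2 * sinc (g / 2)) +
      2 * d0 * (cos (g / 2) / sinc (g / 2)) + 4 * π * (1 / 16 + g / 18) * sinc g) /
      (1 - 4 * (1 / 16 + g / 18) * sin g)) =
      ((cos (g / 2) - sinc (g / 2)) / sinc (g / 2) +
      2 * d0 * (g / π) * (cos (g / 2) / sinc (g / 2)) +
      4 * (1 / 16 + g / 18) * (sinc g * g)) / (1 - 4 * (1 / 16 + g / 18) * sin g) := by
    rw [← mul_div_assoc]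
    congr 1
    generalize sinc (g / 2) = s at *
    generalize cos (g / 2) = c at *
    field_simp
  rw [e2, e]
  obtain ⟨D, hD⟩ : ∃ D, D = 1 - 4 * (1 / 16 + g / 18) * sin g := ⟨_, rfl⟩
  have hD2 : 4 * (1 / 16 + g / 18) * sin g = 1 - D := by linarith
  rw [← hD] at hd' ⊢
  rw [hD2]
  generalize sinc (g / 2) = s at *
  generalize cos (g / 2) = c at *
  field_simp
  ring

theorem area_T_pos {g : ℝ} (h : 0 < g) (h1 : g ≤ π / 3) :
    (CT g h.le h1).toQD.area4 = 2 * ρT g ^ 2 * tan (g / 2) / (g / π) ^ 2 -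
      π / (g / π) * (1 - 3 * (g / π)) * (1 + 2 * (g / π) * d0) := by
  unfold QD.area4
  have hpi := pi_pos
  set C := CT g h.le h1 with hC
  have e1 : ∫ θ in (0:ℝ)..(π / 2), ∫ p in (0:ℝ)..(C.toQD.β θ), C.toQD.A p * C.toQD.R p =
      ∫ θ in (0:ℝ)..(π / 2), (((1 - 3 * (g / π)) * (3 / 2 + h0 * kw) +
        g / π * (3 + h0 / 40) ^ 2 / 2 - (1 + g / π * h0 / 40) ^ 2 / (2 * (g / π))) +
        ρT g ^ 2 / (2 * (g / π)) * (1 / cos (g / π * (θ - π / 2)) ^ 2)) := by
    apply integral_congr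
    intro θ hθ
    rw [uIcc_of_le (by positivity)] at hθ
    have h2 := int_T h (C.β_mem hθ).1.le
    have h3 := C.R_floor hθ
    have h4 : C.ρf = ρT g := ρf_T h.le h1
    have h5 : C.κ = g / π := rfl
    have h6 : C.h = h0 := rfl
    rw [h4] at h3
    simp only [h5, h6] at h2 h3
    rw [h3] at h2
    have h7 : (∫ p in (0:ℝ)..(C.toQD.β θ), C.toQD.A p * C.toQD.R p) =
      ∫ u in (0:ℝ)..(βII (g / π) h0 C.m θ), AII (fun x => 3 * x) h0 u * RII (g / π) h0 u := rfl
    have h8 : cos (g / π * (θ - π / 2)) = cos (g / π * (π / 2 - θ)) := by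
      rw [← cos_neg]; congr 1; ring
    simp only [h7, h2, h8]
    ring
  have hc : ∀ θ ∈ Icc 0 (π / 2), 0 < cos (g / π * (θ - π / 2)) := by
    intro θ hθ
    have := C.cos_pos hθ
    rw [← cos_neg]
    have h5 : C.κ = g / π := rfl
    rw [h5] at this
    rwa [show -(g / π * (θ - π / 2)) = g / π * (π / 2 - θ) by ring]
  have c1 : IntervalIntegrable (fun θ => ρT g ^ 2 / (2 * (g / π)) *
      (1 / cos (g / π * (θ - π / 2)) ^ 2)) MeasureTheory.volume 0 (π / 2) := by
    apply ContinuousOn.intervalIntegrable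
    rw [uIcc_of_le (by positivity)]
    apply ContinuousOn.mul continuousOn_const
    apply ContinuousOn.div continuousOn_const
    · fun_prop
    · intro θ hθ
      exact (pow_pos (hc θ hθ) 2).ne'
  rw [e1, integral_add (by simp) c1, integral_const_mul,
    int_cos_inv_sq (by positivity) hc]
  have e2 : g / π * (π / 2 - π / 2) = 0 := by ring
  have e3 : g / π * (π / 2) = g / 2 := by field_simp
  rw [e2, e3, tan_zero, zero_add, integral_const, smul_eq_mul, sub_zero]
  unfold d0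
  generalize tan (g / 2) = T
  field_simp
  ring

theorem c1_zero : c1 0 = 0 := by unfold c1; simp

theorem YT_zero : YT 0 = 2 * d0 + π / 4 := by
  unfold YT
  rw [zero_div, c1_zero]
  simp
  ring

theorem ρT_zero : ρT 0 = 1 := by unfold ρT; simp

theorem mT_zero : mT 0 = mF 1 := by
  unfold mT mF aF a1
  rw [YT_zero, ρT_zero]
  ring

theorem Fv_one : Fv 1 = fun x => 3 * x := by
  funext x
  unfold Fv
  ring

theorem CT_zero_A : (CT 0 le_rfl (by positivity)).toQD.A =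
    (CF 1 zero_le_one le_rfl).toQD.A := by
  change AII (fun x => 3 * x) h0 = AII (Fv 1) h0
  rw [Fv_one]

theorem CT_zero_R : (CT 0 le_rfl (by positivity)).toQD.R =
    (CF 1 zero_le_one le_rfl).toQD.R := by
  change RII (0 / π) h0 = RII 0 h0
  rw [zero_div]

theorem CT_zero_β : (CT 0 le_rfl (by positivity)).toQD.β =
    (CF 1 zero_le_one le_rfl).toQD.β := by
  change βII (0 / π) h0 (mT 0) = βII 0 h0 (mF 1)
  rw [zero_div, mT_zero]

theorem area_T_zero : (CT 0 le_rfl (by positivity)).toQD.area4 = 2 * π * a1 := by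
  rw [← area_F zero_le_one le_rfl]
  unfold QD.area4
  rw [CT_zero_A, CT_zero_R, CT_zero_β]

theorem area_T {g : ℝ} (h : 0 ≤ g) (h1 : g ≤ π / 3) :
    (CT g h h1).toQD.area4 = sigT g * (2 * π * ρT g * sinc (g / 2)) ^ 2 := by
  have hpi := pi_pos
  rcases h.eq_or_lt with h2 | h2
  · subst h2
    rw [area_T_zero, sigT_zero, ρT_zero]
    unfold a1
    simp
    field_simp
    ring
  rw [area_T_pos h2 h1]
  have h3 := ρT_sq' h2 h1
  have hy : g / 2 = g / 2 := rfl
  have hs := sinc_T h h1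
  have hc : 0 < cos (g / 2) := cos_pos_of_mem_Ioo ⟨by linarith, by linarith⟩
  have hsg : 0 < sin g := sin_pos_of_pos_of_lt_pi h2 (by linarith)
  have e1 : sinc (g / 2) = sin (g / 2) / (g / 2) := sinc_of_ne_zero (by positivity)
  have e2 : sinc g = sin g / g := sinc_of_ne_zero h2.ne'
  have e3 : sin g = 2 * sin (g / 2) * cos (g / 2) := by rw [← sin_two_mul]; congr 1; ring
  have hss : 0 < sin (g / 2) := sin_pos_of_pos_of_lt_pi (by linarith) (by linarith)
  have e4 : 1 + 2 * (g / π) * d0 =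
      ρT g ^ 2 * (1 - 4 * (1 / 16 + g / 18) * sin g) * sinc (g / 2) / cos (g / 2) := by
    rw [eq_div_iff hc.ne', h3]; ring
  unfold sigT
  rw [e4, e2, e1, tan_eq_sin_div_cos, e3]
  generalize sin (g / 2) = s at *
  generalize cos (g / 2) = c at *
  field_simp
  ring

end Pool.MP8e.C
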