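import Pool.Agent.Work.MP_8e9dbb.B.ArcT
import Pool.Agent.Work.MP_8e9dbb.C.DataT

/-!
Arcs on a surface of revolution with `R² + c² = 1`, `R' = c μ`, `c' = -R μ`:
`c + i X` (`X = R v`) rotates with the speed `μ / A`.
-/

open Real Set intervalIntegral Filter Topology
open scoped ContDiff

namespace Pool.MP8e.C

/-- the rotation data -/
structure Rot (D : QD) (a b : ℝ) (p θ v w : ℝ → ℝ) (c μ : ℝ → ℝ) : Prop where
  arc : Arc D a b p θ v w
  sq : ∀ t ∈ Icc a b, D.R (p t) ^ 2 + c (p t) ^ 2 = 1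
  dc : ∀ t ∈ Ioo a b, HasDerivAt c (-(D.R (p t) * μ (p t))) (p t)
  cc : Continuous c
  dR : ∀ t ∈ Ioo a b, deriv D.R (p t) = c (p t) * μ (p t)
  cμ : Continuous μ
  μ0 : ∀ t ∈ Icc a b, 0 ≤ μ (p t)

namespace Rot

variable {D : QD} {a b : ℝ} {p θ v w c μ : ℝ → ℝ}

theorem cA (H : Rot D a b p θ v w c μ) : ContinuousOn (fun t => D.A (p t)) (Icc a b) :=
  D.smA.continuous.comp_continuousOn H.arc.cp

theorem cm (H : Rot D a b p θ v w c μ) : ContinuousOn (fun t => μ (p t) / D.A (p t)) (Icc a b) :=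
  (H.cμ.comp_continuousOn H.arc.cp).div H.cA fun _ ht => (H.arc.posA ht).ne'

/-- the rotation angle -/
theorem exists_phi (H : Rot D a b p θ v w c μ) {ρ φa : ℝ} (h1 : c (p a) = ρ * cos φa)
    (h2 : D.R (p a) * v a = ρ * sin φa) :
    ∃ φ : ℝ → ℝ, ContinuousOn φ (Icc a b) ∧ φ a = φa ∧
      (∀ t ∈ Ioo a b, HasDerivAt φ (μ (p t) / D.A (p t)) t) ∧
      ∀ t ∈ Icc a b, c (p t) = ρ * cos (φ t) ∧ D.R (p t) * v t = ρ * sin (φ t) := by
  have hab := H.arc.lt
  have hm := H.cm
  have hint : IntervalIntegrable (fun t => μ (p t) / D.A (p t)) MeasureTheory.volume a b := by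
    apply ContinuousOn.intervalIntegrable
    rw [uIcc_of_le hab.le]
    exact hm
  let φ : ℝ → ℝ := fun t => φa + ∫ s in a..t, μ (p s) / D.A (p s)
  have hφc : ContinuousOn φ (Icc a b) := by
    apply ContinuousOn.add continuousOn_const
    have := intervalIntegral.continuousOn_primitive_interval (μ := MeasureTheory.volume)
      (f := fun t => μ (p t) / D.A (p t)) (a := a) (b := b) (by
        rw [uIcc_of_le hab.le]
        exact hm.integrableOn_Icc)
    rwa [uIcc_of_le hab.le] at this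
  have hφd : ∀ t ∈ Ioo a b, HasDerivAt φ (μ (p t) / D.A (p t)) t := by
    intro t ht
    have h3 : HasDerivAt (fun u => ∫ s in a..u, μ (p s) / D.A (p s)) (μ (p t) / D.A (p t)) t := by
      apply intervalIntegral.integral_hasDerivAt_right
      · apply ContinuousOn.intervalIntegrable
        rw [uIcc_of_le ht.1.le]
        exact hm.mono (Icc_subset_Icc le_rfl ht.2.le)
      · exact ContinuousOn.stronglyMeasurableAtFilter isOpen_Ioo
          (hm.mono Ioo_subset_Icc_self) t ht
      · exact hm.continuousAt (Icc_mem_nhds ht.1 ht.2)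
    exact h3.const_add φa
  have hφa : φ a = φa := by simp [φ]
  have hcc : ContinuousOn (fun t => c (p t)) (Icc a b) := H.cc.comp_continuousOn H.arc.cp
  have hX := H.arc.cRv
  have hcos : ContinuousOn (fun t => cos (φ t)) (Icc a b) := continuous_cos.comp_continuousOn hφc
  have hsin : ContinuousOn (fun t => sin (φ t)) (Icc a b) := continuous_sin.comp_continuousOn hφc
  have hdc : ∀ t ∈ Ioo a b, HasDerivAt (fun t => c (p t))
      (-(D.R (p t) * v t * (μ (p t) / D.A (p t)))) t := by
    intro t ht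
    have h3 := (H.dc t ht).comp t (H.arc.dp t ht)
    refine h3.congr_deriv ?_
    ring
  have hdX : ∀ t ∈ Ioo a b, HasDerivAt (fun t => D.R (p t) * v t)
      (c (p t) * (μ (p t) / D.A (p t))) t := by
    intro t ht
    refine (H.arc.dRv ht).congr_deriv ?_
    unfold QD.f
    rw [H.dR t ht]
    ring
  have e1 : ∀ t ∈ Icc a b, c (p t) * cos (φ t) + D.R (p t) * v t * sin (φ t) = ρ := by
    have hc0 : ContinuousOn (fun t => c (p t) * cos (φ t) + D.R (p t) * v t * sin (φ t))
      (Icc a b) := (hcc.mul hcos).add (hX.mul hsin)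
    have hd0 : ∀ t ∈ Ioo a b, HasDerivAt
        (fun t => c (p t) * cos (φ t) + D.R (p t) * v t * sin (φ t)) 0 t := by
      intro t ht
      have h3 := (((hdc t ht).mul (hφd t ht).cos).add ((hdX t ht).mul (hφd t ht).sin))
      refine h3.congr_deriv ?_
      ring
    intro t ht
    have h5 := cmp_deriv hc0 (continuousOn_const (c := (0:ℝ))) hd0
      (fun t _ => hasDerivAt_const t (0:ℝ)) (fun _ _ => le_rfl) (left_mem_Icc.2 hab.le) ht ht.1
    have h6 := cmp_deriv (continuousOn_const (c := (0:ℝ))) hc0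
      (fun t _ => hasDerivAt_const t (0:ℝ)) hd0 (fun _ _ => le_rfl) (left_mem_Icc.2 hab.le) ht ht.1
    have h7 : c (p a) * cos (φ a) + D.R (p a) * v a * sin (φ a) = ρ := by
      rw [hφa, h1, h2]
      have := sin_sq_add_cos_sq φa
      linear_combination ρ * this
    linarith
  have e2 : ∀ t ∈ Icc a b, D.R (p t) * v t * cos (φ t) - c (p t) * sin (φ t) = 0 := by
    have hc0 : ContinuousOn (fun t => D.R (p t) * v t * cos (φ t) - c (p t) * sin (φ t))
      (Icc a b) := (hX.mul hcos).sub (hcc.mul hsin)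
    have hd0 : ∀ t ∈ Ioo a b, HasDerivAt
        (fun t => D.R (p t) * v t * cos (φ t) - c (p t) * sin (φ t)) 0 t := by
      intro t ht
      have h3 := (((hdX t ht).mul (hφd t ht).cos).sub ((hdc t ht).mul (hφd t ht).sin))
      refine h3.congr_deriv ?_
      ring
    intro t ht
    have h5 := cmp_deriv hc0 (continuousOn_const (c := (0:ℝ))) hd0
      (fun t _ => hasDerivAt_const t (0:ℝ)) (fun _ _ => le_rfl) (left_mem_Icc.2 hab.le) ht ht.1
    have h6 := cmp_deriv (continuousOn_const (c := (0:ℝ))) hc0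
      (fun t _ => hasDerivAt_const t (0:ℝ)) hd0 (fun _ _ => le_rfl) (left_mem_Icc.2 hab.le) ht ht.1
    have h7 : D.R (p a) * v a * cos (φ a) - c (p a) * sin (φ a) = 0 := by
      rw [hφa, h1, h2]; ring
    linarith
  refine ⟨φ, hφc, hφa, hφd, fun t ht => ?_⟩
  have h3 := e1 t ht
  have h4 := e2 t ht
  have h5 := sin_sq_add_cos_sq (φ t)
  constructor
  · linear_combination cos (φ t) * h3 - sin (φ t) * h4 - c (p t) * h5
  · linear_combination sin (φ t) * h3 + cos (φ t) * h4 - D.R (p t) * v t * h5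

/-- the angle is monotone -/
theorem phi_mono (H : Rot D a b p θ v w c μ) {φ : ℝ → ℝ} (hc : ContinuousOn φ (Icc a b))
    (hd : ∀ t ∈ Ioo a b, HasDerivAt φ (μ (p t) / D.A (p t)) t) {s t : ℝ} (hs : s ∈ Icc a b)
    (ht : t ∈ Icc a b) (hst : s ≤ t) : φ s ≤ φ t := by
  have := cmp_deriv (continuousOn_const (c := (0:ℝ))) hc (fun t _ => hasDerivAt_const t (0:ℝ)) hd
    (fun t ht => div_nonneg (H.μ0 t (Ioo_subset_Icc_self ht))
      (H.arc.posA (Ioo_subset_Icc_self ht)).le) hs ht hst
  linarith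

end Rot

/-! ### The sign trick -/

/-- Let `W` be a primitive of `om ≥ 0` with `W = 0` for `p ≤ z`, and `v ≠ 0` where `p > z`. Then
`B = W(p) sign v` has the derivative `om |v| / A`. -/
theorem sign_hasDerivAt {D : QD} {a b : ℝ} {p θ v w W om : ℝ → ℝ} {z : ℝ}
    (h : Arc D a b p θ v w) (hW : ∀ x, HasDerivAt W (om x) x) (hW0 : ∀ x ≤ z, W x = 0)
    {t : ℝ} (ht : t ∈ Ioo a b) (hv : z ≤ p t → v t ≠ 0) :
    HasDerivAt (fun t => W (p t) * SignType.sign (v t)) (om (p t) * |v t| / D.A (p t)) t := by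
  have hct : ContinuousAt v t := (h.dv t ht).continuousAt
  have hpt : ContinuousAt p t := (h.dp t ht).continuousAt
  have h1 := (hW (p t)).comp t (h.dp t ht)
  by_cases hz : z ≤ p t
  · rcases lt_or_gt_of_ne (hv hz) with h2 | h2
    · have h3 : ∀ᶠ s in 𝓝 t, v s < 0 := hct.eventually (eventually_lt_nhds h2)
      have h4 : (fun t => W (p t) * (SignType.sign (v t) : ℝ)) =ᶠ[𝓝 t]
          fun t => -(W ∘ p) t := by
        filter_upwards [h3] with s hs
        rw [sign_neg hs]
        simp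
      refine (h1.neg.congr_of_eventuallyEq h4).congr_deriv ?_
      rw [abs_of_neg h2]
      ring
    · have h3 : ∀ᶠ s in 𝓝 t, 0 < v s := hct.eventually (eventually_gt_nhds h2)
      have h4 : (fun t => W (p t) * (SignType.sign (v t) : ℝ)) =ᶠ[𝓝 t] fun t => (W ∘ p) t := by
        filter_upwards [h3] with s hs
        rw [sign_pos hs]
        simp
      refine (h1.congr_of_eventuallyEq h4).congr_deriv ?_
      rw [abs_of_pos h2]
      ring
  · push Not at hz
    have h3 : ∀ᶠ s in 𝓝 t, p s < z := hpt.eventually (eventually_lt_nhds hz)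
    have h4 : (fun t => W (p t) * (SignType.sign (v t) : ℝ)) =ᶠ[𝓝 t] fun _ => 0 := by
      filter_upwards [h3] with s hs
      rw [hW0 _ hs.le, zero_mul]
    have h5 : W =ᶠ[𝓝 (p t)] fun _ => 0 := by
      filter_upwards [eventually_lt_nhds hz] with s hs
      exact hW0 _ hs.le
    have h6 : om (p t) = 0 := (hW (p t)).unique
      ((hasDerivAt_const (p t) (0:ℝ)).congr_of_eventuallyEq h5)
    refine ((hasDerivAt_const t (0:ℝ)).congr_of_eventuallyEq h4).congr_deriv ?_
    rw [h6]; ring

theorem sign_continuousOn {D : QD} {a b : ℝ} {p θ v w W om : ℝ → ℝ} {z : ℝ}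
    (h : Arc D a b p θ v w) (hW : ∀ x, HasDerivAt W (om x) x) (hW0 : ∀ x ≤ z, W x = 0)
    (hv : ∀ t ∈ Icc a b, z < p t → v t ≠ 0) :
    ContinuousOn (fun t => W (p t) * SignType.sign (v t)) (Icc a b) := by
  have hWc : Continuous W := continuous_iff_continuousAt.2 fun x => (hW x).continuousAt
  have h1 : ContinuousOn (fun t => W (p t)) (Icc a b) := hWc.comp_continuousOn h.cp
  intro t ht
  by_cases hz : z < p t
  · rcases lt_or_gt_of_ne (hv t ht hz) with h2 | h2
    · have h3 : ∀ᶠ s in 𝓝[Icc a b] t, v s < 0 := (h.cv t ht).eventually (eventually_lt_nhds h2)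
      have h4 : (fun t => W (p t) * (SignType.sign (v t) : ℝ)) =ᶠ[𝓝[Icc a b] t]
          fun t => -(W (p t)) := by
        filter_upwards [h3] with s hs
        rw [sign_neg hs]
        simp
      exact ((h1 t ht).neg).congr_of_eventuallyEq h4 (by rw [sign_neg h2]; simp)
    · have h3 : ∀ᶠ s in 𝓝[Icc a b] t, 0 < v s := (h.cv t ht).eventually (eventually_gt_nhds h2)
      have h4 : (fun t => W (p t) * (SignType.sign (v t) : ℝ)) =ᶠ[𝓝[Icc a b] t]
          fun t => W (p t) := by
        filter_upwards [h3] with s hs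
        rw [sign_pos hs]
        simp
      exact (h1 t ht).congr_of_eventuallyEq h4 (by rw [sign_pos h2]; simp)
  · push Not at hz
    have h2 := h1 t ht
    have h3 : W (p t) = 0 := hW0 _ hz
    have h4 : Tendsto (fun t => W (p t)) (𝓝[Icc a b] t) (𝓝 0) := by
      have := h2.tendsto
      rwa [h3] at this
    have h5 : Tendsto (fun t => W (p t) * (SignType.sign (v t) : ℝ)) (𝓝[Icc a b] t) (𝓝 0) := by
      rw [tendsto_zero_iff_abs_tendsto_zero] at h4 ⊢
      refine squeeze_zero (fun _ => abs_nonneg _) (fun s => ?_) h4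
      simp only [Function.comp]
      rw [abs_mul]
      have : |((SignType.sign (v s) : SignType) : ℝ)| ≤ 1 := by
        rcases lt_trichotomy (v s) 0 with h6 | h6 | h6
        · rw [sign_neg h6]; simp
        · rw [h6]; simp
        · rw [sign_pos h6]; simp
      calc |W (p s)| * _ ≤ |W (p s)| * 1 := mul_le_mul_of_nonneg_left this (abs_nonneg _)
        _ = |W (p s)| := mul_one _
    unfold ContinuousWithinAt
    simp only [h3, zero_mul]
    exact h5

end Pool.MP8e.C
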