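import Pool.Agent.Work.MP_8e9dbb.C.ArcC

/-!
Time and rotation of an arc on a surface of revolution with `A = F(c) μ + h om`.
-/

open Real Set intervalIntegral Filter Topology
open scoped ContDiff

namespace Pool.MP8e.C

/-- the kernel `K / (1 - ρ² cos² u)`, `K² + ρ² = 1` -/
noncomputable def ker (K u : ℝ) : ℝ := K / (K ^ 2 * cos u ^ 2 + sin u ^ 2)

/-- a primitive of the kernel -/
noncomputable def EE (K u : ℝ) : ℝ :=
  u + arctan ((1 - K) * sin u * cos u / (K * cos u ^ 2 + sin u ^ 2))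

theorem ker_den_pos {K : ℝ} (hK : 0 < K) (u : ℝ) : 0 < K ^ 2 * cos u ^ 2 + sin u ^ 2 := by
  have h := sin_sq_add_cos_sq u
  rcases eq_or_ne (cos u) 0 with h1 | h1
  · rw [h1] at h ⊢
    nlinarith
  · have : 0 < K ^ 2 * cos u ^ 2 := by positivity
    nlinarith [sq_nonneg (sin u)]

theorem ker_den_pos' {K : ℝ} (hK : 0 < K) (u : ℝ) : 0 < K * cos u ^ 2 + sin u ^ 2 := by
  have h := sin_sq_add_cos_sq u
  rcases eq_or_ne (cos u) 0 with h1 | h1
  · rw [h1] at h ⊢
    nlinarith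
  · have : 0 < K * cos u ^ 2 := by positivity
    nlinarith [sq_nonneg (sin u)]

theorem ker_pos {K : ℝ} (hK : 0 < K) (u : ℝ) : 0 < ker K u := div_pos hK (ker_den_pos hK u)

theorem ker_cont {K : ℝ} (hK : 0 < K) : Continuous (ker K) := by
  unfold ker
  apply Continuous.div continuous_const (by fun_prop)
  intro u
  exact (ker_den_pos hK u).ne'

theorem EE_hasDerivAt {K : ℝ} (hK : 0 < K) (u : ℝ) : HasDerivAt (EE K) (ker K u) u := by
  have hM := ker_den_pos' hK u
  have hD := ker_den_pos hK u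
  have h1 : HasDerivAt (fun u => (1 - K) * sin u * cos u)
      ((1 - K) * cos u * cos u + (1 - K) * sin u * -sin u) u :=
    ((hasDerivAt_sin u).const_mul (1 - K)).mul (hasDerivAt_cos u)
  have h2 : HasDerivAt (fun u => K * cos u ^ 2 + sin u ^ 2)
      (K * (2 * cos u * -sin u) + 2 * sin u * cos u) u := by
    have h3 := (((hasDerivAt_cos u).pow 2).const_mul K).add ((hasDerivAt_sin u).pow 2)
    refine h3.congr_deriv ?_
    simp
  have h3 := (h1.fun_div h2 hM.ne').arctan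
  have h4 := (hasDerivAt_id' u).add h3
  refine h4.congr_deriv ?_
  unfold ker
  have hs := sin_sq_add_cos_sq u
  have hc : cos u ^ 2 = 1 - sin u ^ 2 := by linarith
  have hMN : (K * cos u ^ 2 + sin u ^ 2) ^ 2 + ((1 - K) * sin u * cos u) ^ 2 =
      K ^ 2 * cos u ^ 2 + sin u ^ 2 := by
    have e : ((1 - K) * sin u * cos u) ^ 2 = (1 - K) ^ 2 * sin u ^ 2 * cos u ^ 2 := by ring
    rw [e, hc]; ring
  have e1 : 1 + ((1 - K) * sin u * cos u / (K * cos u ^ 2 + sin u ^ 2)) ^ 2 =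
      (K ^ 2 * cos u ^ 2 + sin u ^ 2) / (K * cos u ^ 2 + sin u ^ 2) ^ 2 := by
    rw [← hMN]
    field_simp
  have e2 : ((1 - K) * cos u * cos u + (1 - K) * sin u * -sin u) *
      (K * cos u ^ 2 + sin u ^ 2) - (1 - K) * sin u * cos u *
      (K * (2 * cos u * -sin u) + 2 * sin u * cos u) =
      (1 - K) * (K * cos u ^ 2 - sin u ^ 2) := by
    have e : ((1 - K) * cos u * cos u + (1 - K) * sin u * -sin u) *
      (K * cos u ^ 2 + sin u ^ 2) - (1 - K) * sin u * cos u *
      (K * (2 * cos u * -sin u) + 2 * sin u * cos u) =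
      (1 - K) * ((cos u ^ 2 - sin u ^ 2) * (K * cos u ^ 2 + sin u ^ 2) -
        2 * (1 - K) * sin u ^ 2 * cos u ^ 2) := by ring
    rw [e, hc]; ring
  rw [e1, e2]
  have hDn := hD.ne'
  have hMn := hM.ne'
  rw [hc] at hDn hMn ⊢
  generalize sin u ^ 2 = s at *
  field_simp
  ring

theorem int_ker {K : ℝ} (hK : 0 < K) (a b : ℝ) : ∫ u in a..b, ker K u = EE K b - EE K a :=
  integral_eq_sub_of_hasDerivAt (fun u _ => EE_hasDerivAt hK u)
    ((ker_cont hK).intervalIntegrable _ _)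

theorem EE_zero (K : ℝ) : EE K 0 = 0 := by unfold EE; simp
theorem EE_pi_div_two (K : ℝ) : EE K (π / 2) = π / 2 := by unfold EE; simp
theorem EE_pi (K : ℝ) : EE K π = π := by unfold EE; simp

/-- primitive of `ker * ρ cos` -/
theorem int_ker_cos {K ρ : ℝ} (hK : 0 < K) (hρ : K ^ 2 + ρ ^ 2 = 1) (a b : ℝ) :
    ∫ u in a..b, ker K u * (ρ * cos u) = arctan (ρ * sin b / K) - arctan (ρ * sin a / K) := by
  have h1 : ∀ u, HasDerivAt (fun u => arctan (ρ * sin u / K)) (ker K u * (ρ * cos u)) u := by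
    intro u
    have h2 := (((hasDerivAt_sin u).const_mul ρ).div_const K).arctan
    refine h2.congr_deriv ?_
    unfold ker
    have hD := ker_den_pos hK u
    have e : 1 + (ρ * sin u / K) ^ 2 = (K ^ 2 * cos u ^ 2 + sin u ^ 2) / K ^ 2 := by
      have hs := sin_sq_add_cos_sq u
      field_simp
      have : ρ ^ 2 = 1 - K ^ 2 := by linarith
      rw [this, show cos u ^ 2 = 1 - sin u ^ 2 by linarith]
      ring
    rw [e]
    field_simp
  exact integral_eq_sub_of_hasDerivAt (fun u _ => h1 u)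
    (((ker_cont hK).mul (by fun_prop)).intervalIntegrable _ _)

/-- rotation data with the speed function -/
structure RotF (D : QD) (a b : ℝ) (p θ v w : ℝ → ℝ) (c μ F : ℝ → ℝ) (h : ℝ) (om : ℝ → ℝ) :
    Prop where
  rot : Rot D a b p θ v w c μ
  cF : Continuous F
  h0 : 0 ≤ h
  om0 : ∀ t ∈ Icc a b, 0 ≤ om (p t)
  eA : ∀ t ∈ Icc a b, D.A (p t) = F (c (p t)) * μ (p t) + h * om (p t)

namespace RotF

variable {D : QD} {a b : ℝ} {p θ v w c μ F om φ : ℝ → ℝ} {h K ρ : ℝ}

/-- time primitive -/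
theorem dT (H : RotF D a b p θ v w c μ F h om)
    (hd : ∀ t ∈ Ioo a b, HasDerivAt φ (μ (p t) / D.A (p t)) t)
    (hφ : ∀ t ∈ Icc a b, c (p t) = ρ * cos (φ t)) {t : ℝ} (ht : t ∈ Ioo a b) :
    HasDerivAt (fun t => ∫ u in (0:ℝ)..(φ t), F (ρ * cos u))
      (1 - h * om (p t) / D.A (p t)) t := by
  have hc : Continuous fun u => F (ρ * cos u) := H.cF.comp (by fun_prop)
  have h1 : HasDerivAt (fun x => ∫ u in (0:ℝ)..x, F (ρ * cos u)) (F (ρ * cos (φ t))) (φ t) :=
    integral_hasDerivAt_right (hc.intervalIntegrable _ _) (hc.stronglyMeasurableAtFilter _ _)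
      hc.continuousAt
  have h2 := h1.comp t (hd t ht)
  refine h2.congr_deriv ?_
  have htI := Ioo_subset_Icc_self ht
  have hA := (H.rot.arc.posA htI).ne'
  rw [← hφ t htI]
  have := H.eA t htI
  field_simp
  linarith

theorem cT (H : RotF D a b p θ v w c μ F h om) (hφc : ContinuousOn φ (Icc a b)) :
    ContinuousOn (fun t => ∫ u in (0:ℝ)..(φ t), F (ρ * cos u)) (Icc a b) := by
  have hc : Continuous fun u => F (ρ * cos u) := H.cF.comp (by fun_prop)
  exact (continuous_primitive (fun _ _ => hc.intervalIntegrable _ _) 0).comp_continuousOn hφc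

/-- rotation primitive -/
theorem dD (H : RotF D a b p θ v w c μ F h om) (hK : 0 < K) (hρ : K ^ 2 + ρ ^ 2 = 1)
    (hw : ∀ t ∈ Icc a b, D.R (p t) * w t = K)
    (hd : ∀ t ∈ Ioo a b, HasDerivAt φ (μ (p t) / D.A (p t)) t)
    (hφ : ∀ t ∈ Icc a b, c (p t) = ρ * cos (φ t)) {t : ℝ} (ht : t ∈ Ioo a b) :
    HasDerivAt (fun t => ∫ u in (0:ℝ)..(φ t), ker K u * F (ρ * cos u))
      (w t / D.R (p t) * (1 - h * om (p t) / D.A (p t))) t := by
  have hc : Continuous fun u => ker K u * F (ρ * cos u) :=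
    (ker_cont hK).mul (H.cF.comp (by fun_prop))
  have h1 : HasDerivAt (fun x => ∫ u in (0:ℝ)..x, ker K u * F (ρ * cos u))
      (ker K (φ t) * F (ρ * cos (φ t))) (φ t) :=
    integral_hasDerivAt_right (hc.intervalIntegrable _ _) (hc.stronglyMeasurableAtFilter _ _)
      hc.continuousAt
  have h2 := h1.comp t (hd t ht)
  refine h2.congr_deriv ?_
  have htI := Ioo_subset_Icc_self ht
  have hA := (H.rot.arc.posA htI).ne'
  have hR := (H.rot.arc.posR htI).ne'
  have hk : ker K (φ t) = w t / D.R (p t) := by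
    unfold ker
    have h3 := H.rot.sq t htI
    rw [hφ t htI] at h3
    have hs := sin_sq_add_cos_sq (φ t)
    have h4 : K ^ 2 * cos (φ t) ^ 2 + sin (φ t) ^ 2 = D.R (p t) ^ 2 := by
      have e : K ^ 2 = 1 - ρ ^ 2 := by linarith
      rw [e]
      nlinarith
    rw [h4, ← hw t htI]
    field_simp
  rw [hk, ← hφ t htI]
  have := H.eA t htI
  field_simp
  rw [show D.A (p t) - h * om (p t) = F (c (p t)) * μ (p t) by linarith]
  ring

theorem cD (H : RotF D a b p θ v w c μ F h om) (hK : 0 < K) (hφc : ContinuousOn φ (Icc a b)) :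
    ContinuousOn (fun t => ∫ u in (0:ℝ)..(φ t), ker K u * F (ρ * cos u)) (Icc a b) := by
  have hc : Continuous fun u => ker K u * F (ρ * cos u) :=
    (ker_cont hK).mul (H.cF.comp (by fun_prop))
  exact (continuous_primitive (fun _ _ => hc.intervalIntegrable _ _) 0).comp_continuousOn hφc

theorem cmp' {a b : ℝ} {g h g' h' : ℝ → ℝ} (hab : a ≤ b) (hg : ContinuousOn g (Icc a b))
    (hh : ContinuousOn h (Icc a b)) (dg : ∀ t ∈ Ioo a b, HasDerivAt g (g' t) t)
    (dh : ∀ t ∈ Ioo a b, HasDerivAt h (h' t) t) (hle : ∀ t ∈ Ioo a b, g' t ≤ h' t) :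
    g b - g a ≤ h b - h a :=
  cmp_deriv hg hh dg dh hle (left_mem_Icc.2 hab) (right_mem_Icc.2 hab) hab

theorem abs_v_le (H : RotF D a b p θ v w c μ F h om) (hρ : K ^ 2 + ρ ^ 2 = 1) (hρ0 : 0 ≤ ρ)
    (hw : ∀ t ∈ Icc a b, D.R (p t) * w t = K) {t : ℝ} (ht : t ∈ Icc a b) : |v t| ≤ ρ := by
  apply abs_le_of_sq_le_sq _ hρ0
  have h1 := H.rot.arc.unit t ht
  have h2 := H.rot.sq t ht
  have h3 := hw t ht
  have h4 : K ^ 2 ≤ w t ^ 2 := by
    rw [← h3, mul_pow]
    have : D.R (p t) ^ 2 ≤ 1 := by nlinarith [sq_nonneg (c (p t))]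
    nlinarith [sq_nonneg (w t)]
  linarith

theorem time_ge (H : RotF D a b p θ v w c μ F h om) (hφc : ContinuousOn φ (Icc a b))
    (hd : ∀ t ∈ Ioo a b, HasDerivAt φ (μ (p t) / D.A (p t)) t)
    (hφ : ∀ t ∈ Icc a b, c (p t) = ρ * cos (φ t)) :
    ∫ u in (φ a)..(φ b), F (ρ * cos u) ≤ b - a := by
  have hc : Continuous fun u => F (ρ * cos u) := H.cF.comp (by fun_prop)
  have h1 := cmp' H.rot.arc.lt.le (H.cT (ρ := ρ) hφc) continuousOn_id
    (fun t ht => H.dT hd hφ ht) (fun t _ => hasDerivAt_id t) (fun t ht => by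
      have htI := Ioo_subset_Icc_self ht
      have : 0 ≤ h * om (p t) / D.A (p t) :=
        div_nonneg (mul_nonneg H.h0 (H.om0 t htI)) (H.rot.arc.posA htI).le
      linarith)
  rw [integral_interval_sub_left (hc.intervalIntegrable _ _) (hc.intervalIntegrable _ _)] at h1
  exact h1

theorem time_ge' (H : RotF D a b p θ v w c μ F h om) (hφc : ContinuousOn φ (Icc a b))
    (hd : ∀ t ∈ Ioo a b, HasDerivAt φ (μ (p t) / D.A (p t)) t)
    (hφ : ∀ t ∈ Icc a b, c (p t) = ρ * cos (φ t)) (hρ : K ^ 2 + ρ ^ 2 = 1) (hρ0 : 0 < ρ)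
    (hw : ∀ t ∈ Icc a b, D.R (p t) * w t = K) {W om' : ℝ → ℝ} {z : ℝ}
    (hW : ∀ x, HasDerivAt W (om' x) x) (hW0 : ∀ x ≤ z, W x = 0)
    (hv : ∀ t ∈ Ioo a b, z ≤ p t → v t ≠ 0) (hv' : ∀ t ∈ Icc a b, z < p t → v t ≠ 0)
    (hom : ∀ t ∈ Icc a b, om' (p t) ≤ om (p t)) :
    (∫ u in (φ a)..(φ b), F (ρ * cos u)) + h / ρ * (W (p b) * SignType.sign (v b) -
      W (p a) * SignType.sign (v a)) ≤ b - a := by
  have hc : Continuous fun u => F (ρ * cos u) := H.cF.comp (by fun_prop)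
  have harc := H.rot.arc
  have h1 := cmp' (g := fun t => (∫ u in (0:ℝ)..(φ t), F (ρ * cos u)) +
      h / ρ * (W (p t) * SignType.sign (v t))) harc.lt.le
    ((H.cT (ρ := ρ) hφc).add ((sign_continuousOn harc hW hW0 hv').const_smul (h / ρ)))
    continuousOn_id
    (fun t ht => (H.dT hd hφ ht).add
      ((sign_hasDerivAt harc hW hW0 ht (hv t ht)).const_mul (h / ρ)))
    (fun t _ => hasDerivAt_id t) (fun t ht => by
      have htI := Ioo_subset_Icc_self ht
      have hA := harc.posA htI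
      have h2 := H.abs_v_le hρ hρ0.le hw htI
      have h3 : om' (p t) * |v t| ≤ om (p t) * ρ :=
        mul_le_mul (hom t htI) h2 (abs_nonneg _) (H.om0 t htI)
      have h4 : h / ρ * (om' (p t) * |v t| / D.A (p t)) ≤ h * om (p t) / D.A (p t) := by
        have e : h / ρ * (om' (p t) * |v t| / D.A (p t)) =
          h / (ρ * D.A (p t)) * (om' (p t) * |v t|) := by field_simp
        have e2 : h * om (p t) / D.A (p t) = h / (ρ * D.A (p t)) * (om (p t) * ρ) := by
          field_simp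
        rw [e, e2]
        exact mul_le_mul_of_nonneg_left h3 (div_nonneg H.h0 (mul_pos hρ0 hA).le)
      linarith)
  have e := integral_interval_sub_left (μ := MeasureTheory.volume)
    (hc.intervalIntegrable 0 (φ b)) (hc.intervalIntegrable 0 (φ a))
  simp only [id] at h1
  rw [← e]
  linarith

theorem rot_ge (H : RotF D a b p θ v w c μ F h om) (hφc : ContinuousOn φ (Icc a b))
    (hd : ∀ t ∈ Ioo a b, HasDerivAt φ (μ (p t) / D.A (p t)) t)
    (hφ : ∀ t ∈ Icc a b, c (p t) = ρ * cos (φ t)) (hK : 0 < K) (hρ : K ^ 2 + ρ ^ 2 = 1)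
    (hw : ∀ t ∈ Icc a b, D.R (p t) * w t = K) :
    ∫ u in (φ a)..(φ b), ker K u * F (ρ * cos u) ≤ θ b - θ a := by
  have hc : Continuous fun u => ker K u * F (ρ * cos u) :=
    (ker_cont hK).mul (H.cF.comp (by fun_prop))
  have h1 := cmp' H.rot.arc.lt.le (H.cD (ρ := ρ) hK hφc) H.rot.arc.cθ
    (fun t ht => H.dD hK hρ hw hd hφ ht) (fun t ht => H.rot.arc.dθ t ht) (fun t ht => by
      have htI := Ioo_subset_Icc_self ht
      have hR := H.rot.arc.posR htI
      have hwt : 0 ≤ w t / D.R (p t) := by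
        have h2 := hw t htI
        have h3 : w t = K / D.R (p t) := by rw [eq_div_iff hR.ne', ← h2]; ring
        rw [h3]; positivity
      have : 0 ≤ w t / D.R (p t) * (h * om (p t) / D.A (p t)) :=
        mul_nonneg hwt (div_nonneg (mul_nonneg H.h0 (H.om0 t htI)) (H.rot.arc.posA htI).le)
      linarith)
  rw [integral_interval_sub_left (hc.intervalIntegrable _ _) (hc.intervalIntegrable _ _)] at h1
  exact h1

theorem rot_ge' (H : RotF D a b p θ v w c μ F h om) (hφc : ContinuousOn φ (Icc a b))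
    (hd : ∀ t ∈ Ioo a b, HasDerivAt φ (μ (p t) / D.A (p t)) t)
    (hφ : ∀ t ∈ Icc a b, c (p t) = ρ * cos (φ t)) (hK : 0 < K) (hρ : K ^ 2 + ρ ^ 2 = 1)
    (hρ0 : 0 < ρ)
    (hw : ∀ t ∈ Icc a b, D.R (p t) * w t = K) {W om' : ℝ → ℝ} {z : ℝ}
    (hW : ∀ x, HasDerivAt W (om' x) x) (hW0 : ∀ x ≤ z, W x = 0)
    (hv : ∀ t ∈ Ioo a b, z ≤ p t → v t ≠ 0) (hv' : ∀ t ∈ Icc a b, z < p t → v t ≠ 0)
    (hom : ∀ t ∈ Icc a b, om' (p t) ≤ om (p t)) (hom0 : ∀ t ∈ Icc a b, 0 ≤ om' (p t)) :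
    (∫ u in (φ a)..(φ b), ker K u * F (ρ * cos u)) +
      K * h / ρ * (W (p b) * SignType.sign (v b) - W (p a) * SignType.sign (v a)) ≤
      θ b - θ a := by
  have hc : Continuous fun u => ker K u * F (ρ * cos u) :=
    (ker_cont hK).mul (H.cF.comp (by fun_prop))
  have harc := H.rot.arc
  have h1 := cmp' (g := fun t => (∫ u in (0:ℝ)..(φ t), ker K u * F (ρ * cos u)) +
      K * h / ρ * (W (p t) * SignType.sign (v t))) harc.lt.le
    ((H.cD (ρ := ρ) hK hφc).add ((sign_continuousOn harc hW hW0 hv').const_smul (K * h / ρ)))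
    harc.cθ
    (fun t ht => (H.dD hK hρ hw hd hφ ht).add
      ((sign_hasDerivAt harc hW hW0 ht (hv t ht)).const_mul (K * h / ρ)))
    (fun t ht => harc.dθ t ht) (fun t ht => by
      have htI := Ioo_subset_Icc_self ht
      have hA := harc.posA htI
      have hR := harc.posR htI
      have h2 := H.abs_v_le hρ hρ0.le hw htI
      have h3 : om' (p t) * |v t| ≤ om (p t) * ρ :=
        mul_le_mul (hom t htI) h2 (abs_nonneg _) (H.om0 t htI)
      have h5 : K ≤ w t / D.R (p t) := by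
        have h6 := hw t htI
        have h7 : w t = K / D.R (p t) := by rw [eq_div_iff hR.ne', ← h6]; ring
        rw [h7, div_div, le_div_iff₀ (by positivity)]
        have h8 := H.rot.sq t htI
        have : D.R (p t) * D.R (p t) ≤ 1 := by nlinarith [sq_nonneg (c (p t))]
        nlinarith
      have h4 : K * h / ρ * (om' (p t) * |v t| / D.A (p t)) ≤
          w t / D.R (p t) * (h * om (p t) / D.A (p t)) := by
        have e : K * h / ρ * (om' (p t) * |v t| / D.A (p t)) =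
          K * (h / (ρ * D.A (p t)) * (om' (p t) * |v t|)) := by field_simp
        have e2 : h * om (p t) / D.A (p t) = h / (ρ * D.A (p t)) * (om (p t) * ρ) := by
          field_simp
        rw [e, e2]
        have h9 : 0 ≤ h / (ρ * D.A (p t)) := div_nonneg H.h0 (mul_pos hρ0 hA).le
        apply mul_le_mul h5 (mul_le_mul_of_nonneg_left h3 h9)
        · exact mul_nonneg h9 (mul_nonneg (hom0 t htI) (abs_nonneg _))
        · exact hK.le.trans h5
      linarith)
  have e := integral_interval_sub_left (μ := MeasureTheory.volume)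
    (hc.intervalIntegrable 0 (φ b)) (hc.intervalIntegrable 0 (φ a))
  rw [← e]
  linarith

theorem rot_le (H : RotF D a b p θ v w c μ F h om) (hφc : ContinuousOn φ (Icc a b))
    (hd : ∀ t ∈ Ioo a b, HasDerivAt φ (μ (p t) / D.A (p t)) t)
    (hφ : ∀ t ∈ Icc a b, c (p t) = ρ * cos (φ t)) (hK : 0 < K) (hρ : K ^ 2 + ρ ^ 2 = 1)
    (hw : ∀ t ∈ Icc a b, D.R (p t) * w t = K) {W : ℝ → ℝ} {z v0 Rm : ℝ} (hv0 : 0 < v0)
    (hRm : 0 < Rm)
    (hW : ∀ x, HasDerivAt W (om x) x) (hW0 : ∀ x ≤ z, W x = 0)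
    (hvne : ∀ t ∈ Icc a b, z ≤ p t → v t ≠ 0)
    (hb : ∀ t ∈ Icc a b, om (p t) ≠ 0 → v0 ≤ |v t| ∧ Rm ≤ D.R (p t)) :
    θ b - θ a ≤ (∫ u in (φ a)..(φ b), ker K u * F (ρ * cos u)) +
      K * h / (v0 * Rm ^ 2) * (W (p b) * SignType.sign (v b) - W (p a) * SignType.sign (v a)) := by
  have hc : Continuous fun u => ker K u * F (ρ * cos u) :=
    (ker_cont hK).mul (H.cF.comp (by fun_prop))
  have harc := H.rot.arc
  have h1 := cmp' (h := fun t => (∫ u in (0:ℝ)..(φ t), ker K u * F (ρ * cos u)) +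
      K * h / (v0 * Rm ^ 2) * (W (p t) * SignType.sign (v t))) harc.lt.le harc.cθ
    ((H.cD (ρ := ρ) hK hφc).add ((sign_continuousOn harc hW hW0
      (fun t ht hz => hvne t ht hz.le)).const_smul (K * h / (v0 * Rm ^ 2))))
    (fun t ht => harc.dθ t ht)
    (fun t ht => (H.dD hK hρ hw hd hφ ht).add
      ((sign_hasDerivAt harc hW hW0 ht (hvne t (Ioo_subset_Icc_self ht))).const_mul
        (K * h / (v0 * Rm ^ 2)))) (fun t ht => by
      have htI := Ioo_subset_Icc_self ht
      have hA := harc.posA htI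
      have hRp := harc.posR htI
      have h7 : w t = K / D.R (p t) := by rw [eq_div_iff hRp.ne', ← hw t htI]; ring
      have h4 : w t / D.R (p t) * (h * om (p t) / D.A (p t)) ≤
          K * h / (v0 * Rm ^ 2) * (om (p t) * |v t| / D.A (p t)) := by
        by_cases hz : om (p t) ≠ 0
        · obtain ⟨h5, h6⟩ := hb t htI hz
          have e : w t / D.R (p t) * (h * om (p t) / D.A (p t)) =
            K * h * om (p t) / D.A (p t) * (1 / D.R (p t) ^ 2) := by
            rw [h7]; field_simp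
          have e2 : K * h / (v0 * Rm ^ 2) * (om (p t) * |v t| / D.A (p t)) =
            K * h * om (p t) / D.A (p t) * (|v t| / v0 / Rm ^ 2) := by field_simp
          rw [e, e2]
          apply mul_le_mul_of_nonneg_left
          · rw [div_le_div_iff₀ (by positivity) (by positivity)]
            have h8 : Rm ^ 2 ≤ D.R (p t) ^ 2 := pow_le_pow_left₀ hRm.le h6 2
            have h9 : 1 ≤ |v t| / v0 := by rwa [le_div_iff₀ hv0, one_mul]
            nlinarith
          · exact div_nonneg (mul_nonneg (mul_nonneg hK.le H.h0) (H.om0 t htI)) hA.le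
        · push Not at hz
          rw [hz]; simp
      linarith)
  have e := integral_interval_sub_left (μ := MeasureTheory.volume)
    (hc.intervalIntegrable 0 (φ b)) (hc.intervalIntegrable 0 (φ a))
  rw [← e]
  linarith

end RotF

end Pool.MP8e.C
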