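import Pool.Agent.Work.MP_8e9dbb.C.ArcC2

/-!
End values of the rotation angle for arcs below a level.
-/

open Real Set intervalIntegral Filter Topology
open scoped ContDiff

namespace Pool.MP8e.C

theorem v_nonpos {D : QD} {a b : ℝ} {p θ v w : ℝ → ℝ} (h : Arc D a b p θ v w)
    (hins : ∀ t ∈ Ioo a b, p t < p a) : v a ≤ 0 := by
  by_contra hcon
  push Not at hcon
  have h1 : ∀ᶠ s in 𝓝[Icc a b] a, 0 < v s :=
    (h.cv a (left_mem_Icc.2 h.lt.le)).eventually (eventually_gt_nhds hcon)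
  rw [eventually_nhdsWithin_iff, Metric.eventually_nhds_iff] at h1
  obtain ⟨δ, hδ, h2⟩ := h1
  set c := min (a + δ / 2) ((a + b) / 2) with hc
  have hlt := h.lt
  have hac : a < c := lt_min (by linarith) (by linarith)
  have hcb : c < b := (min_le_right _ _).trans_lt (by linarith)
  have hcδ : c ≤ a + δ / 2 := min_le_left _ _
  have h3 : p a - p a < p c - p a := by
    have h4 := cmp_deriv_lt (a := a) (b := c) (continuousOn_const (c := (0:ℝ)))
      (h.cp.mono (Icc_subset_Icc le_rfl hcb.le)) (fun t _ => hasDerivAt_const t (0:ℝ))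
      (fun t ht => h.dp t ⟨ht.1, ht.2.trans hcb⟩) (fun t ht => by
        apply div_pos
        · apply h2
          · rw [dist_eq, abs_of_pos (by linarith [ht.1])]
            linarith [ht.2]
          · exact ⟨ht.1.le, (ht.2.trans hcb).le⟩
        · exact h.posA ⟨ht.1.le, (ht.2.trans hcb).le⟩)
      (left_mem_Icc.2 hac.le) (right_mem_Icc.2 hac.le) hac
    linarith
  have := hins c ⟨hac, hcb⟩
  linarith

theorem v_nonneg {D : QD} {a b : ℝ} {p θ v w : ℝ → ℝ} (h : Arc D a b p θ v w)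
    (hins : ∀ t ∈ Ioo a b, p t < p b) : 0 ≤ v b := by
  by_contra hcon
  push Not at hcon
  have h1 : ∀ᶠ s in 𝓝[Icc a b] b, v s < 0 :=
    (h.cv b (right_mem_Icc.2 h.lt.le)).eventually (eventually_lt_nhds hcon)
  rw [eventually_nhdsWithin_iff, Metric.eventually_nhds_iff] at h1
  obtain ⟨δ, hδ, h2⟩ := h1
  set c := max (b - δ / 2) ((a + b) / 2) with hc
  have hlt := h.lt
  have hcb : c < b := max_lt (by linarith) (by linarith)
  have hac : a < c := lt_of_lt_of_le (by linarith) (le_max_right _ _)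
  have hcδ : b - δ / 2 ≤ c := le_max_left _ _
  have h3 : p b - p b < p c - p b := by
    have h4 := cmp_deriv_lt (a := c) (b := b) (h.cp.mono (Icc_subset_Icc hac.le le_rfl))
      (continuousOn_const (c := (0:ℝ)))
      (fun t ht => h.dp t ⟨hac.trans ht.1, ht.2⟩) (fun t _ => hasDerivAt_const t (0:ℝ))
      (fun t ht => by
        apply div_neg_of_neg_of_pos
        · apply h2
          · rw [dist_eq, abs_of_neg (by linarith [ht.2])]
            linarith [ht.1]
          · exact ⟨(hac.trans ht.1).le, ht.2.le⟩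
        · exact h.posA ⟨(hac.trans ht.1).le, ht.2.le⟩)
      (left_mem_Icc.2 hcb.le) (right_mem_Icc.2 hcb.le) hcb
    linarith
  have := hins c ⟨hac, hcb⟩
  linarith

/-- Everything about the rotation angle of an arc between two points of the same level. -/
structure TopData (D : QD) (a b : ℝ) (p θ v w c μ : ℝ → ℝ) (K ρ β : ℝ) (φ : ℝ → ℝ) : Prop where
  K0 : 0 < K
  ρ0 : 0 < ρ
  sq : K ^ 2 + ρ ^ 2 = 1
  Kw : ∀ t ∈ Icc a b, D.R (p t) * w t = K
  φc : ContinuousOn φ (Icc a b)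
  φd : ∀ t ∈ Ioo a b, HasDerivAt φ (μ (p t) / D.A (p t)) t
  eq1 : ∀ t ∈ Icc a b, c (p t) = ρ * cos (φ t)
  eq2 : ∀ t ∈ Icc a b, D.R (p t) * v t = ρ * sin (φ t)
  φa : φ a = -β
  φb : φ b = β
  β0 : 0 < β
  βpi : β ≤ π

theorem Rot.top {D : QD} {a b : ℝ} {p θ v w c μ : ℝ → ℝ} (H : Rot D a b p θ v w c μ)
    (hw : ∀ t ∈ Icc a b, 0 < w t) (hab : p b = p a)
    (hins : ∀ t ∈ Ioo a b, p t < p a) (hc : ∀ t ∈ Ioo a b, c (p a) < c (p t)) :
    ∃ β φ, TopData D a b p θ v w c μ (D.R (p a) * w a) (√(1 - (D.R (p a) * w a) ^ 2)) β φ ∧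
      c (p a) = √(1 - (D.R (p a) * w a) ^ 2) * cos β ∧
      √(D.R (p a) ^ 2 - (D.R (p a) * w a) ^ 2) = √(1 - (D.R (p a) * w a) ^ 2) * sin β := by
  have hlt := H.arc.lt
  have haI : a ∈ Icc a b := left_mem_Icc.2 hlt.le
  have hbI : b ∈ Icc a b := right_mem_Icc.2 hlt.le
  have hva := v_nonpos H.arc hins
  have hvb := v_nonneg H.arc (fun t ht => by rw [hab]; exact hins t ht)
  set K := D.R (p a) * w a with hKdef
  have hKw : ∀ t ∈ Icc a b, D.R (p t) * w t = K := fun t ht => H.arc.K_eq ht haI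
  have hK0 : 0 < K := mul_pos (H.arc.posR haI) (hw a haI)
  have hX : ∀ t ∈ Icc a b, (D.R (p t) * v t) ^ 2 + c (p t) ^ 2 = 1 - K ^ 2 := by
    intro t ht
    have h1 := H.arc.Rv_sq ht
    rw [hKw t ht] at h1
    have h2 := H.sq t ht
    linarith
  have hρ2 : 0 < 1 - K ^ 2 := by
    by_contra hcon
    push Not at hcon
    have h1 := hc ((a + b) / 2) ⟨by linarith, by linarith⟩
    have h2 := hX a haI
    have h3 := hX ((a + b) / 2) ⟨by linarith, by linarith⟩
    have h4 : c (p a) ^ 2 ≤ 0 := by nlinarith [sq_nonneg (D.R (p a) * v a)]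
    have h5 : c (p ((a + b) / 2)) ^ 2 ≤ 0 := by
      nlinarith [sq_nonneg (D.R (p ((a + b) / 2)) * v ((a + b) / 2))]
    have h6 : c (p a) = 0 := by nlinarith
    have h7 : c (p ((a + b) / 2)) = 0 := by nlinarith
    rw [h6, h7] at h1
    exact lt_irrefl _ h1
  set ρ := √(1 - K ^ 2) with hρdef
  have hρ0 : 0 < ρ := sqrt_pos.2 hρ2
  have hρsq : ρ ^ 2 = 1 - K ^ 2 := sq_sqrt hρ2.le
  have hca : |c (p a) / ρ| ≤ 1 := by
    rw [abs_div, abs_of_pos hρ0, div_le_one hρ0]
    apply abs_le_of_sq_le_sq _ hρ0.le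
    rw [hρsq]
    nlinarith [hX a haI, sq_nonneg (D.R (p a) * v a)]
  obtain ⟨hca1, hca2⟩ := abs_le.1 hca
  set β := arccos (c (p a) / ρ) with hβdef
  have hβ0 : 0 ≤ β := arccos_nonneg (c (p a) / ρ)
  have hβpi : β ≤ π := arccos_le_pi (c (p a) / ρ)
  have hcosβ : c (p a) = ρ * cos β := by
    rw [hβdef, cos_arccos hca1 hca2]; field_simp
  have hsinβ0 : 0 ≤ sin β := sin_nonneg_of_nonneg_of_le_pi hβ0 hβpi
  have hXsin : ∀ t ∈ Icc a b, p t = p a → (D.R (p t) * v t) ^ 2 = (ρ * sin β) ^ 2 := by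
    intro t ht hpt
    have h1 := hX t ht
    rw [hpt] at h1 ⊢
    have h2 := sin_sq_add_cos_sq β
    rw [hcosβ] at h1
    rw [← hρsq] at h1
    nlinarith
  have hXa : D.R (p a) * v a = ρ * sin (-β) := by
    rw [sin_neg]
    have h1 := hXsin a haI rfl
    have h2 : D.R (p a) * v a ≤ 0 := mul_nonpos_of_nonneg_of_nonpos (H.arc.posR haI).le hva
    have h3 : 0 ≤ ρ * sin β := mul_nonneg hρ0.le hsinβ0
    have h4 : -(D.R (p a) * v a) = ρ * sin β := by
      have : (-(D.R (p a) * v a)) ^ 2 = (ρ * sin β) ^ 2 := by rw [neg_sq]; exact h1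
      exact (pow_left_inj₀ (by linarith) h3 two_ne_zero).1 this
    linarith
  have hXb : D.R (p b) * v b = ρ * sin β := by
    have h1 := hXsin b hbI hab
    have h2 : 0 ≤ D.R (p b) * v b := mul_nonneg (H.arc.posR hbI).le hvb
    have h3 : 0 ≤ ρ * sin β := mul_nonneg hρ0.le hsinβ0
    exact (pow_left_inj₀ h2 h3 two_ne_zero).1 h1
  obtain ⟨φ, hφc, hφa, hφd, hφ⟩ := H.exists_phi (ρ := ρ) (φa := -β) (by rw [cos_neg]; exact hcosβ)
    hXa
  have hmono : ∀ s ∈ Icc a b, ∀ t ∈ Icc a b, s ≤ t → φ s ≤ φ t := fun s hs t ht hst =>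
    H.phi_mono hφc hφd hs ht hst
  have hmid : (a + b) / 2 ∈ Ioo a b := ⟨by linarith, by linarith⟩
  have hβpos : 0 < β := by
    rcases hβ0.eq_or_lt with h1 | h1
    · exfalso
      have h2 : c (p a) = ρ := by rw [hcosβ, ← h1, cos_zero, mul_one]
      have h3 := hc _ hmid
      rw [(hφ _ (Ioo_subset_Icc_self hmid)).1, h2] at h3
      have h4 := mul_le_mul_of_nonneg_left (cos_le_one (φ ((a + b) / 2))) hρ0.le
      linarith
    · exact h1
  have hφb : φ b = β := by
    have h1 := (hφ b hbI).1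
    have h2 := (hφ b hbI).2
    rw [hab, hcosβ] at h1
    rw [hXb] at h2
    have h3 : cos (φ b) = cos β := (mul_left_cancel₀ hρ0.ne' h1).symm
    have h4 : sin (φ b) = sin β := (mul_left_cancel₀ hρ0.ne' h2).symm
    have h5 : cos (φ b - β) = 1 := by
      rw [cos_sub, h3, h4]
      have := sin_sq_add_cos_sq β
      nlinarith
    obtain ⟨n, hn⟩ := (cos_eq_one_iff _).1 h5
    have hpi := pi_pos
    rcases lt_trichotomy n 0 with h6 | h6 | h6
    · exfalso
      have h7 : (n : ℝ) ≤ -1 := by exact_mod_cast Int.le_sub_one_of_lt h6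
      have h8 : φ a ≤ φ b := hmono a haI b hbI hlt.le
      rw [hφa] at h8
      have h9 : β = π := by nlinarith
      have h10 : φ b = -β := by nlinarith
      have h11 := hmono a haI _ (Ioo_subset_Icc_self hmid) hmid.1.le
      have h12 := hmono _ (Ioo_subset_Icc_self hmid) b hbI hmid.2.le
      rw [hφa] at h11
      rw [h10] at h12
      have h13 : φ ((a + b) / 2) = -β := le_antisymm h12 h11
      have h14 := hc _ hmid
      rw [(hφ _ (Ioo_subset_Icc_self hmid)).1, h13, cos_neg, ← hcosβ] at h14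
      exact lt_irrefl _ h14
    · rw [h6] at hn
      simp at hn
      linarith
    · exfalso
      have h7 : (1 : ℝ) ≤ n := by exact_mod_cast h6
      have h8 : β < φ b := by nlinarith
      have h9 : β ∈ Icc (φ a) (φ b) := ⟨by rw [hφa]; linarith, h8.le⟩
      obtain ⟨t, ht, hte⟩ := intermediate_value_Icc hlt.le hφc h9
      have ht1 : t ≠ a := by
        intro h10
        rw [h10, hφa] at hte
        linarith
      have ht2 : t ≠ b := by
        intro h10
        rw [h10] at hte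
        linarith
      have ht3 : t ∈ Ioo a b := ⟨lt_of_le_of_ne ht.1 (Ne.symm ht1), lt_of_le_of_ne ht.2 ht2⟩
      have h14 := hc t ht3
      rw [(hφ t ht).1, hte, ← hcosβ] at h14
      exact lt_irrefl _ h14
  refine ⟨β, φ, ⟨hK0, hρ0, by linarith, hKw, hφc, hφd, fun t ht => (hφ t ht).1,
    fun t ht => (hφ t ht).2, hφa, hφb, hβpos, hβpi⟩, hcosβ, ?_⟩
  have h1 := H.arc.Rv_sq haI
  rw [← hKdef] at h1
  rw [← h1, hXsin a haI rfl, sqrt_sq (mul_nonneg hρ0.le hsinβ0)]

/-- North side arcs with both ends on the cylinder (`c = 0`). -/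
theorem Rot.topN {D : QD} {a b : ℝ} {p θ v w c μ : ℝ → ℝ} (H : Rot D a b p θ v w c μ)
    (hw : ∀ t ∈ Icc a b, 0 < w t) (hva : v a ≤ 0) (hvb : 0 ≤ v b) (hK : D.R (p a) * w a < 1)
    (hca : c (p a) = 0) (hcb : c (p b) = 0) (hc : ∀ t ∈ Icc a b, 0 ≤ c (p t)) :
    ∃ φ, TopData D a b p θ v w c μ (D.R (p a) * w a) (√(1 - (D.R (p a) * w a) ^ 2)) (π / 2) φ := by
  have hlt := H.arc.lt
  have haI : a ∈ Icc a b := left_mem_Icc.2 hlt.le
  have hbI : b ∈ Icc a b := right_mem_Icc.2 hlt.le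
  set K := D.R (p a) * w a with hKdef
  have hKw : ∀ t ∈ Icc a b, D.R (p t) * w t = K := fun t ht => H.arc.K_eq ht haI
  have hK0 : 0 < K := mul_pos (H.arc.posR haI) (hw a haI)
  have hX : ∀ t ∈ Icc a b, (D.R (p t) * v t) ^ 2 + c (p t) ^ 2 = 1 - K ^ 2 := by
    intro t ht
    have h1 := H.arc.Rv_sq ht
    rw [hKw t ht] at h1
    have h2 := H.sq t ht
    linarith
  have hρ2 : 0 < 1 - K ^ 2 := by nlinarith
  set ρ := √(1 - K ^ 2) with hρdef
  have hρ0 : 0 < ρ := sqrt_pos.2 hρ2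
  have hρsq : ρ ^ 2 = 1 - K ^ 2 := sq_sqrt hρ2.le
  have hXa : D.R (p a) * v a = ρ * sin (-(π / 2)) := by
    rw [sin_neg, sin_pi_div_two]
    have h1 := hX a haI
    rw [hca] at h1
    have h2 : D.R (p a) * v a ≤ 0 := mul_nonpos_of_nonneg_of_nonpos (H.arc.posR haI).le hva
    have h4 : -(D.R (p a) * v a) = ρ := by
      have : (-(D.R (p a) * v a)) ^ 2 = ρ ^ 2 := by rw [neg_sq]; linarith
      exact (pow_left_inj₀ (by linarith) hρ0.le two_ne_zero).1 this
    linarith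
  have hXb : D.R (p b) * v b = ρ := by
    have h1 := hX b hbI
    rw [hcb] at h1
    have h2 : 0 ≤ D.R (p b) * v b := mul_nonneg (H.arc.posR hbI).le hvb
    exact (pow_left_inj₀ h2 hρ0.le two_ne_zero).1 (by linarith)
  obtain ⟨φ, hφc, hφa, hφd, hφ⟩ := H.exists_phi (ρ := ρ) (φa := -(π / 2))
    (by rw [cos_neg, cos_pi_div_two, hca, mul_zero]) hXa
  have hmono : ∀ s ∈ Icc a b, ∀ t ∈ Icc a b, s ≤ t → φ s ≤ φ t := fun s hs t ht hst =>
    H.phi_mono hφc hφd hs ht hst
  have hφb : φ b = π / 2 := by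
    have h1 := (hφ b hbI).1
    have h2 := (hφ b hbI).2
    rw [hcb] at h1
    rw [hXb] at h2
    have h3 : cos (φ b) = 0 := by
      rcases mul_eq_zero.1 h1.symm with h | h
      · exact absurd h hρ0.ne'
      · exact h
    have h4 : sin (φ b) = 1 := by
      have : ρ * 1 = ρ * sin (φ b) := by linarith
      exact (mul_left_cancel₀ hρ0.ne' this).symm
    have h5 : cos (φ b - π / 2) = 1 := by rw [cos_sub_pi_div_two, h4]
    obtain ⟨n, hn⟩ := (cos_eq_one_iff _).1 h5
    have hpi := pi_pos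
    rcases lt_trichotomy n 0 with h6 | h6 | h6
    · exfalso
      have h7 : (n : ℝ) ≤ -1 := by exact_mod_cast Int.le_sub_one_of_lt h6
      have h8 : φ a ≤ φ b := hmono a haI b hbI hlt.le
      rw [hφa] at h8
      nlinarith
    · rw [h6] at hn
      simp at hn
      linarith
    · exfalso
      have h7 : (1 : ℝ) ≤ n := by exact_mod_cast h6
      have h9 : π ∈ Icc (φ a) (φ b) := ⟨by rw [hφa]; linarith, by nlinarith⟩
      obtain ⟨t, ht, hte⟩ := intermediate_value_Icc hlt.le hφc h9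
      have h14 := hc t ht
      rw [(hφ t ht).1, hte, cos_pi] at h14
      linarith
  exact ⟨φ, ⟨hK0, hρ0, by linarith, hKw, hφc, hφd, fun t ht => (hφ t ht).1,
    fun t ht => (hφ t ht).2, hφa, hφb, by positivity, by linarith [pi_pos]⟩⟩

end Pool.MP8e.C
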