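import Pool.Agent.Work.MP_8e9dbb.C.Ints

/-!
Area of the surfaces of class I.
-/

open Real Set intervalIntegral
open scoped ContDiff

namespace Pool.MP8e.C

theorem RI_ptot (k : ℝ) : RI k ptot = 1 - k := by
  unfold RI
  rw [r_ptot, sub_self, r_zero, sin_pi_div_two, sin_zero]
  ring

/-- `∫ 1/cos²` -/
theorem int_cos_inv_sq {k c : ℝ} (hk : k ≠ 0) (h : ∀ θ ∈ Icc 0 (π / 2), 0 < cos (k * (θ - c))) :
    ∫ θ in (0:ℝ)..(π / 2), 1 / cos (k * (θ - c)) ^ 2 =
      (tan (k * (π / 2 - c)) + tan (k * c)) / k := by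
  have hpi := pi_pos
  have h1 : ∀ θ ∈ uIcc 0 (π / 2), HasDerivAt (fun θ => tan (k * (θ - c)) / k)
      (1 / cos (k * (θ - c)) ^ 2) θ := by
    intro θ hθ
    rw [uIcc_of_le (by positivity)] at hθ
    have h2 := (hasDerivAt_tan (h θ hθ).ne').comp θ
      (((hasDerivAt_id' θ).sub_const c).const_mul k)
    have h3 := h2.div_const k
    refine h3.congr_deriv ?_
    field_simp
  rw [integral_eq_sub_of_hasDerivAt h1]
  · rw [zero_sub, mul_neg, tan_neg]; ring
  · apply ContinuousOn.intervalIntegrable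
    rw [uIcc_of_le (by positivity)]
    apply ContinuousOn.div continuousOn_const
    · fun_prop
    · intro θ hθ
      exact (pow_pos (h θ hθ) 2).ne'

namespace CI

variable (C : CI)

/-- the full integral -/
noncomputable def Itot : ℝ := (∫ x in (0:ℝ)..1, C.FN x) + C.h * MI C.k +
      (1 - C.k) * (∫ x in (0:ℝ)..(π / 2), C.FS (cos x)) + C.k * ∫ x in (0:ℝ)..1, C.FS x

theorem flat' {p : ℝ} (hp : p ∈ Icc C.pf ptot) :
    HasDerivAt (RI C.k) (-C.k * AI C.FN C.FS C.h p) p := by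
  refine (RI_hasDerivAt C.k p).congr_deriv ?_
  have h1 := C.q_le_q0 hp.1
  have h2 : pa ≤ p := (C.pf_ge).le.trans hp.1
  have h3 : C.xf ≤ cos (ptot - p) := by
    have h4 := cos_le_cos_of_nonneg_of_le_pi (by linarith [hp.2] : 0 ≤ ptot - p)
      (arccos_le_pi _) (C.q_le hp.1)
    rwa [cos_arccos (by linarith [C.xf_ge]) C.xf_lt_one.le] at h4
  unfold AI
  rw [r_small h1, w_zero h1, r_large h2, w_one h2, sin_pi_div_two, cos_pi_div_two,
    C.flatS _ h3]
  ring

theorem A_cont : Continuous (AI C.FN C.FS C.h) := (AI_contDiff C.smN C.smS C.h).continuous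

theorem int_AR {p : ℝ} (hp : p ∈ Icc C.pf ptot) :
    ∫ u in (0:ℝ)..p, AI C.FN C.FS C.h u * RI C.k u =
      C.Itot + ((1 - C.k) ^ 2 - RI C.k p ^ 2) / (2 * C.k) := by
  have hk := C.k_pos
  have cAR : Continuous fun u => AI C.FN C.FS C.h u * RI C.k u :=
    C.A_cont.mul (RI_contDiff C.k).continuous
  have h1 := int_total C.smN.continuous C.smS.continuous C.h C.k
  have h2 := integral_add_adjacent_intervals (μ := MeasureTheory.volume)
    (cAR.intervalIntegrable 0 p) (cAR.intervalIntegrable p ptot)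
  have h3 : ∫ u in p..ptot, AI C.FN C.FS C.h u * RI C.k u =
      (-(RI C.k ptot ^ 2 / (2 * C.k))) - (-(RI C.k p ^ 2 / (2 * C.k))) := by
    apply integral_eq_sub_of_hasDerivAt (f := fun u => -(RI C.k u ^ 2 / (2 * C.k)))
    · intro u hu
      rw [uIcc_of_le hp.2] at hu
      have h4 := C.flat' (p := u) ⟨hp.1.trans hu.1, hu.2⟩
      have h5 := ((h4.pow 2).div_const (2 * C.k)).neg
      refine h5.congr_deriv ?_
      field_simp
      simp
      ring
    · exact cAR.intervalIntegrable _ _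
  rw [RI_ptot] at h3
  unfold Itot
  have h4 : ∫ u in (0:ℝ)..p, AI C.FN C.FS C.h u * RI C.k u =
    (∫ u in (0:ℝ)..ptot, AI C.FN C.FS C.h u * RI C.k u) -
    ∫ u in p..ptot, AI C.FN C.FS C.h u * RI C.k u := by linarith
  rw [h4, h1, h3]
  ring

theorem R_floor {θ : ℝ} (hθ : θ ∈ Icc 0 (π / 2)) :
    RI C.k (βI C.k C.θf C.uB θ) = C.ρf / cos (C.k * (θ - C.θf)) := by
  have h := C.floor hθ
  rw [neg_mul, cos_neg] at h
  rw [eq_div_iff (C.cos_pos hθ).ne', h]

theorem area : C.toQD.area4 = 2 * π * (C.Itot + (1 - C.k) ^ 2 / (2 * C.k)) -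
    2 / C.k ^ 2 * C.ρf ^ 2 * (tan (C.k * (π / 2 - C.θf)) + tan (C.k * C.θf)) := by
  have hk := C.k_pos
  have hpi := pi_pos
  unfold QD.area4
  have h1 : ∫ θ in (0:ℝ)..(π / 2), ∫ p in (0:ℝ)..(C.toQD.β θ), C.toQD.A p * C.toQD.R p =
      ∫ θ in (0:ℝ)..(π / 2), ((C.Itot + (1 - C.k) ^ 2 / (2 * C.k)) -
        C.ρf ^ 2 / (2 * C.k) * (1 / cos (C.k * (θ - C.θf)) ^ 2)) := by
    apply integral_congr
    intro θ hθ
    rw [uIcc_of_le (by positivity)] at hθ
    have hβ := C.β_mem hθ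
    have h2 := C.int_AR (p := βI C.k C.θf C.uB θ) ⟨hβ.1.le, hβ.2.trans C.ℓ_lt.le⟩
    rw [C.R_floor hθ] at h2
    have h3 : ∫ p in (0:ℝ)..(C.toQD.β θ), C.toQD.A p * C.toQD.R p =
      ∫ u in (0:ℝ)..(βI C.k C.θf C.uB θ), AI C.FN C.FS C.h u * RI C.k u := rfl
    simp only [h3, h2]
    ring
  have c1 : IntervalIntegrable (fun θ => C.ρf ^ 2 / (2 * C.k) *
      (1 / cos (C.k * (θ - C.θf)) ^ 2)) MeasureTheory.volume 0 (π / 2) := by
    apply ContinuousOn.intervalIntegrable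
    rw [uIcc_of_le (by positivity)]
    apply ContinuousOn.mul continuousOn_const
    apply ContinuousOn.div continuousOn_const
    · fun_prop
    · intro θ hθ
      exact (pow_pos (C.cos_pos hθ) 2).ne'
  rw [h1, integral_sub (by simp) c1, integral_const_mul,
    int_cos_inv_sq hk.ne' (fun θ hθ => C.cos_pos hθ)]
  simp
  field_simp
  ring

end CI

end Pool.MP8e.C
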