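import Pool.Agent.Work.MP_8e9dbb.C.CapR

/-!
`CapsI` for phase R'.
-/

open Real Set
open scoped ContDiff

namespace Pool.MP8e.C

/-- critical points of the radius of class I -/
theorem RI_crit {k : ℝ} (hk : 0 < k) {p : ℝ} (hp : 0 < p) (hp1 : p < ptot)
    (hd : deriv (RI k) p = 0) : RI k p = 1 := by
  rw [(RI_hasDerivAt k p).deriv] at hd
  rcases le_or_gt p (ptot - pa) with h | h
  · rw [r_south h, w_south h, sin_pi_div_two, cos_pi_div_two] at hd
    rcases lt_or_ge p pa with h2 | h2
    · exfalso
      have h3 : 0 < cos (r p) := cos_pos_of_mem_Ioo ⟨by linarith [r_nonneg hp.le, pi_pos], r_lt h2⟩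
      have h4 := w_lt_one h2
      have h5 : 0 < cos (r p) * (1 - w p) := mul_pos h3 (by linarith)
      linarith
    · rw [RI_north h, r_large h2, sin_pi_div_two]
  · exfalso
    have h2 : pa ≤ p := by linarith [pa_lt]
    rw [r_large h2, w_one h2, sin_pi_div_two, cos_pi_div_two] at hd
    have h3 : 0 < cos (r (ptot - p)) :=
      cos_pos_of_mem_Ioo ⟨by linarith [r_nonneg (p := ptot - p) (by linarith), pi_pos],
        r_lt (by linarith)⟩
    have h4 := w_lt_one (p := ptot - p) (by linarith)
    have h5 : 0 < k * cos (r (ptot - p)) * (1 - w (ptot - p)) :=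
      mul_pos (mul_pos hk h3) (by linarith)
    linarith

theorem CI.pf_lt (C : CI) : C.pf < ptot := by
  unfold CI.pf
  linarith [arccos_pos.2 C.xf_lt_one]

/-- **`CapsI` in phase R'** -/
theorem capsR {t : ℝ} (h : 0 < t) (h1 : t ≤ 1) : CapsI (CR t h h1).toQD where
  hκ := by
    change -(1:ℝ) < 0
    norm_num
  R_le := fun p hp => RI_le_one zero_le_one ⟨hp.1, hp.2.trans (CR t h h1).pf_lt.le⟩
  R_crit := fun p hp hd => RI_crit one_pos hp.1 (hp.2.trans_lt (CR t h h1).pf_lt) hd
  visit := fun a b p θ v w' harc hpa hpb hins hw => visit_R h h1 harc hpa hpb hins hw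
  full := fun a b p θ v w' harc hpa hpb hins hw => full_R h h1 harc hpa hpb hins hw
  osc := fun a b p θ v w' harc hab _ hv hins hw => osc_R h h1 harc hab hv hins hw
  close1 := fun a b p θ v w' harc hpa hpb hins hw hK => by
    have e : -(CR t h h1).toQD.κ = 1 := by
      change - -(1:ℝ) = 1
      norm_num
    have e2 : (CR t h h1).toQD.θf = π / 2 - arctan t := rfl
    have e3 : (CR t h h1).toQD.ρf = rB t * sin (arctan t) := by
      change (1 - 1 * (1 - rB t)) * cos (1 * tfR t) = _
      rw [one_mul, one_mul, cos_tfR]; ring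
    rw [e, e2, e3, one_mul, sub_sub_cancel] at hK
    rw [e, e2]
    have ha := arctan_pos' h
    have hb := arctan_le' h1
    have hpi := pi_pos
    have hsc : sin (arctan t) ≤ cos (arctan t) := by
      rw [← sin_pi_div_two_sub]
      exact sin_le_sin_of_le_of_le_pi_div_two (by linarith) (by linarith) (by linarith)
    have hc := cos_arctan_pos t
    have hs := sin_arctan_pos h
    have hK2 : rB t * sin (arctan t) * tan (arctan t) ≤ rB t * cos (arctan t) := by
      rw [tan_eq_sin_div_cos, mul_assoc, mul_div_assoc', mul_le_mul_iff_right₀ (rB_pos h),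
        div_le_iff₀ hc]
      exact mul_le_mul hsc hsc hs.le hc.le
    have h2 := Phi_ge_R h h1 harc hpa hpb hins hw
    have h3 := Phi_le_R h h1 harc hpa hpb hins hw (hK.trans hK2)
    rw [div_one]
    constructor <;> linarith
  close2 := fun a b p θ v w' harc hpa hpb hins hw hK => by
    have e : -(CR t h h1).toQD.κ = 1 := by
      change - -(1:ℝ) = 1
      norm_num
    have e2 : (CR t h h1).toQD.θf = tfR t := rfl
    have e3 : (CR t h h1).toQD.ρf = rB t * sin (arctan t) := by
      change (1 - 1 * (1 - rB t)) * cos (1 * tfR t) = _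
      rw [one_mul, one_mul, cos_tfR]; ring
    have ha := arctan_pos' h
    have hb := arctan_le' h1
    have hpi := pi_pos
    have hs := sin_arctan_pos h
    rw [e, e2, e3, one_mul, tan_eq_sin_div_cos, sin_tfR, cos_tfR] at hK
    have hK2 : rB t * sin (arctan t) * (cos (arctan t) / sin (arctan t)) =
        rB t * cos (arctan t) := by field_simp
    rw [hK2] at hK
    rw [e, e2]
    unfold tfR
    have h2 := Phi_ge_R h h1 harc hpa hpb hins hw
    have h3 := Phi_le_R h h1 harc hpa hpb hins hw hK
    rw [div_one]
    constructor <;> linarith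
  close3 := fun a b p θ v w' harc hpa hpb hins om hom hom2 hK => by
    have e : -(CR t h h1).toQD.κ = 1 := by
      change - -(1:ℝ) = 1
      norm_num
    have e2 : (CR t h h1).toQD.θf = π / 2 - arctan t := rfl
    have ha := arctan_pos' h
    have hb := arctan_le' h1
    have hpi := pi_pos
    have hc := cos_arctan_pos t
    have hs := sin_arctan_pos h
    rw [e, e2, one_mul, sub_sub_cancel] at hom2
    have hRQ : (CR t h h1).toQD.R ((CR t h h1).toQD.β (π / 2)) =
        rB t * sin (arctan t) / cos (arctan t) := by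
      have h2 := (CR t h h1).R_floor (θ := π / 2) ⟨by linarith, le_rfl⟩
      have e3 : (CR t h h1).ρf = rB t * sin (arctan t) := by
        change (1 - 1 * (1 - rB t)) * cos (1 * tfR t) = _
        rw [one_mul, one_mul, cos_tfR]; ring
      have e4 : cos ((CR t h h1).k * (π / 2 - (CR t h h1).θf)) = cos (arctan t) := by
        change cos (1 * (π / 2 - (π / 2 - arctan t))) = _
        rw [one_mul, sub_sub_cancel]
      rw [e3, e4] at h2
      exact h2
    have hom3 : 0 < sin om := sin_pos_of_pos_of_lt_pi hom (by linarith)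
    have hom4 : sin om ≤ sin (arctan t) :=
      sin_le_sin_of_le_of_le_pi_div_two (by linarith) (by linarith) hom2
    have hsc : sin (arctan t) ≤ cos (arctan t) := by
      rw [← sin_pi_div_two_sub]
      exact sin_le_sin_of_le_of_le_pi_div_two (by linarith) (by linarith) (by linarith)
    have hRQ0 : 0 < rB t * sin (arctan t) / cos (arctan t) := by
      have := rB_pos h
      positivity
    have hw : 0 < w' a := by
      have haI : a ∈ Icc a b := left_mem_Icc.2 harc.lt.le
      have h2 : 0 < (CR t h h1).toQD.R (CR t h h1).toQD.pf * w' a := by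
        rw [hK, hRQ]; exact mul_pos hRQ0 hom3
      have h3 := harc.posR haI
      rw [hpa] at h3
      exact (pos_iff_pos_of_mul_pos h2).1 h3
    have hK2 : (CR t h h1).toQD.R (CR t h h1).toQD.pf * w' a ≤ rB t * cos (arctan t) := by
      rw [hK, hRQ, div_mul_eq_mul_div, div_le_iff₀ hc, mul_assoc, mul_assoc,
        mul_le_mul_iff_right₀ (rB_pos h)]
      exact mul_le_mul hsc (hom4.trans hsc) hom3.le hc.le
    have h2 := Phi_ge_R h h1 harc hpa hpb hins hw
    have h3 := Phi_le_R h h1 harc hpa hpb hins hw hK2
    rw [e, div_one, div_one]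
    constructor <;> linarith

end Pool.MP8e.C
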