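import Pool.Agent.Work.MP_8e9dbb.C.DataS
import Pool.Agent.Work.MP_8e9dbb.C.CapsR

/-!
# Cap visits of the class I data (helper77): general estimates

A visit of the cap is cut into: south part (`cS ≤ p`), plateau (`pa ≤ p ≤ cS`), north part
(`p ≤ pa`), plateau, south part.
-/

open Real Set intervalIntegral
open scoped ContDiff

namespace Pool.MP8e.C

/-- south edge of the plateau -/
noncomputable def cS : ℝ := ptot - pa

theorem cS_eq : cS - pa = 1 := by unfold cS ptot pa; ring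

theorem pa_lt_cS : pa < cS := by linarith [cS_eq]

theorem ptot_cS : ptot - cS = pa := by unfold cS; ring

theorem r_hasDerivAt_q (p : ℝ) : HasDerivAt (fun p => r (ptot - p)) (-(1 - w (ptot - p))) p := by
  have h2 : HasDerivAt (fun p : ℝ => ptot - p) (-1) p := (hasDerivAt_id' p).const_sub ptot
  exact ((r_hasDerivAt (ptot - p)).comp p h2).congr_deriv (by ring)

namespace CI

variable (C : CI)

/-! ## the data in the three regions -/

theorem R_south {p : ℝ} (hp : pa ≤ p) :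
    C.toQD.R p = 1 - C.k * (1 - sin (r (ptot - p))) := RI_south hp

theorem R_north {p : ℝ} (hp : p ≤ cS) : C.toQD.R p = sin (r p) := RI_north hp

theorem R_plateau {p : ℝ} (hp : pa ≤ p) (hp2 : p ≤ cS) : C.toQD.R p = 1 := by
  rw [C.R_north hp2, r_large hp, sin_pi_div_two]

theorem A_south {p : ℝ} (hp : pa ≤ p) : C.toQD.A p =
    C.FS (cos (r (ptot - p))) * (1 - w (ptot - p)) + C.h * w (ptot - p) := by
  change AI C.FN C.FS C.h p = _
  unfold AI
  rw [w_one hp]; ring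

theorem A_north {p : ℝ} (hp : p ≤ cS) : C.toQD.A p =
    C.FN (cos (r p)) * (1 - w p) + C.h * w p := by
  change AI C.FN C.FS C.h p = _
  unfold AI
  rw [w_south hp]; ring

theorem A_plateau {p : ℝ} (hp : pa ≤ p) (hp2 : p ≤ cS) : C.toQD.A p = C.h := by
  rw [C.A_north hp2, w_one hp]; ring

theorem dR_south {p : ℝ} (hp : pa ≤ p) :
    deriv C.toQD.R p = -(C.k * cos (r (ptot - p)) * (1 - w (ptot - p))) := by
  change deriv (RI C.k) p = _
  rw [(RI_hasDerivAt C.k p).deriv, r_large hp, w_one hp, sin_pi_div_two]; ring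

theorem dR_north {p : ℝ} (hp : p ≤ cS) : deriv C.toQD.R p = cos (r p) * (1 - w p) := by
  change deriv (RI C.k) p = _
  rw [(RI_hasDerivAt C.k p).deriv, r_south hp, w_south hp, sin_pi_div_two]; ring

theorem f_south {p : ℝ} (hp : pa ≤ p) : C.toQD.f p =
    -(C.k * cos (r (ptot - p)) * (1 - w (ptot - p))) / C.toQD.A p := by
  unfold QD.f; rw [C.dR_south hp]

theorem f_north {p : ℝ} (hp : p ≤ cS) : C.toQD.f p =
    cos (r p) * (1 - w p) / C.toQD.A p := by
  unfold QD.f; rw [C.dR_north hp]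

theorem pf_lt_ptot : C.pf < ptot := by
  have := C.xf_lt_one
  have := C.xf_ge
  unfold pf
  have : 0 < arccos C.xf := arccos_pos.2 C.xf_lt_one
  linarith

theorem cS_lt_pf : cS < C.pf := by
  unfold pf cS
  have := arccos_le_q0 C.xf_ge
  unfold pa
  unfold q0 at this
  linarith

/-- positivity of `y (1 - w)` in the open south part -/
theorem south_pos {p : ℝ} (hp : cS < p) (hp2 : p < ptot) :
    0 < cos (r (ptot - p)) ∧ w (ptot - p) < 1 := by
  have h1 : ptot - p < pa := by rw [← ptot_cS]; linarith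
  have h2 : 0 < ptot - p := by linarith
  refine ⟨cos_pos_of_mem_Ioo ⟨?_, r_lt h1⟩, w_lt_one h1⟩
  linarith [r_pos h2, pi_pos]

theorem north_pos {p : ℝ} (hp : 0 < p) (hp2 : p < pa) : 0 < cos (r p) ∧ w p < 1 := by
  refine ⟨cos_pos_of_mem_Ioo ⟨?_, r_lt hp2⟩, w_lt_one hp2⟩
  linarith [r_pos hp, pi_pos]

theorem R_antitone_south {p p' : ℝ} (hp : cS ≤ p) (h : p < p') (hp' : p' ≤ C.pf) :
    C.toQD.R p' < C.toQD.R p := by
  have h0 := C.pf_lt_ptot
  have hanti : StrictAntiOn C.toQD.R (Icc cS C.pf) := by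
    apply strictAntiOn_of_deriv_neg (convex_Icc _ _) C.toQD.smR.continuous.continuousOn
    intro x hx
    rw [interior_Icc] at hx
    rw [C.dR_south (pa_lt_cS.le.trans hx.1.le)]
    obtain ⟨h1, h2⟩ := south_pos hx.1 (hx.2.trans h0)
    have := mul_pos (mul_pos C.k_pos h1) (sub_pos.2 h2)
    linarith
  exact hanti ⟨hp, h.le.trans hp'⟩ ⟨hp.trans h.le, hp'⟩ h

theorem R_cS : C.toQD.R cS = 1 := C.R_plateau pa_lt_cS.le le_rfl

theorem R_lt_one {p : ℝ} (hp : cS < p) (hp' : p ≤ C.pf) : C.toQD.R p < 1 := by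
  have := C.R_antitone_south le_rfl hp hp'
  rwa [C.R_cS] at this

theorem R_le' {p : ℝ} (hp : 0 ≤ p) (hp' : p ≤ C.pf) : C.toQD.R p ≤ 1 :=
  RI_le_one C.k_pos.le ⟨hp, hp'.trans C.pf_lt_ptot.le⟩

theorem R_crit' {p : ℝ} (hp : 0 < p) (hp' : p ≤ C.pf) (hd : deriv C.toQD.R p = 0) :
    C.toQD.R p = 1 := by
  rcases le_or_gt p cS with h | h
  · rcases le_or_gt pa p with h2 | h2
    · exact C.R_plateau h2 h
    · rw [C.dR_north h] at hd
      obtain ⟨h3, h4⟩ := north_pos hp h2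
      have := mul_pos h3 (sub_pos.2 h4)
      linarith
  · rw [C.dR_south (pa_lt_cS.le.trans h.le)] at hd
    obtain ⟨h1, h2⟩ := south_pos h (hp'.trans_lt C.pf_lt_ptot)
    have := mul_pos (mul_pos C.k_pos h1) (sub_pos.2 h2)
    linarith

end CI

/-! ## general facts on arcs with `0 < K < 1` -/

section arc

variable {D : QD} {a b : ℝ} {p θ v w : ℝ → ℝ}

/-- derivative of `θ` in terms of `K` -/
theorem dθK (h : Arc D a b p θ v w) {K : ℝ} (hK : ∀ t ∈ Icc a b, D.R (p t) * w t = K) {t : ℝ}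
    (ht : t ∈ Ioo a b) : HasDerivAt θ (K / D.R (p t) ^ 2) t := by
  refine (h.dθ t ht).congr_deriv ?_
  have h1 := (h.posR (Ioo_subset_Icc_self ht)).ne'
  rw [← hK t (Ioo_subset_Icc_self ht)]
  field_simp

theorem RvK (h : Arc D a b p θ v w) {K : ℝ} (hK : ∀ t ∈ Icc a b, D.R (p t) * w t = K) {t : ℝ}
    (ht : t ∈ Icc a b) : (D.R (p t) * v t) ^ 2 = D.R (p t) ^ 2 - K ^ 2 := by
  rw [h.Rv_sq ht, hK t ht]

theorem v_sq (h : Arc D a b p θ v w) {K : ℝ} (hK : ∀ t ∈ Icc a b, D.R (p t) * w t = K) {t : ℝ}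
    (ht : t ∈ Icc a b) (hR : D.R (p t) = 1) : v t ^ 2 = 1 - K ^ 2 := by
  have := RvK h hK ht
  rw [hR] at this
  linarith

theorem v_nonpos_start (h : Arc D a b p θ v w) (hin : ∀ t ∈ Ioo a b, p t < p a) : v a ≤ 0 := by
  by_contra hv
  push Not at hv
  have haI : a ∈ Icc a b := ⟨le_rfl, h.lt.le⟩
  have h1 : ∀ᶠ t in nhdsWithin a (Icc a b), 0 < v t := (h.cv a haI).eventually (lt_mem_nhds hv)
  have h2 : ∃ δ > 0, ∀ t ∈ Icc a b, t < a + δ → 0 < v t := by
    rw [eventually_nhdsWithin_iff, Metric.eventually_nhds_iff] at h1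
    obtain ⟨δ, hδ, h3⟩ := h1
    refine ⟨δ, hδ, fun t ht h4 => h3 ?_ ht⟩
    rw [Real.dist_eq, abs_of_nonneg (by linarith [ht.1])]; linarith
  obtain ⟨δ, hδ, h3⟩ := h2
  set c := min b (a + δ / 2) with hc
  have hac : a < c := lt_min h.lt (by linarith)
  have hcb : c ≤ b := min_le_left _ _
  have hcδ : c ≤ a + δ / 2 := min_le_right _ _
  have hmono : StrictMonoOn p (Icc a c) := by
    apply strictMonoOn_of_deriv_pos (convex_Icc _ _)
      (h.cp.mono (Icc_subset_Icc le_rfl hcb))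
    intro x hx
    rw [interior_Icc] at hx
    have hxI : x ∈ Ioo a b := ⟨hx.1, hx.2.trans_le hcb⟩
    rw [(h.dp x hxI).deriv]
    exact div_pos (h3 x (Ioo_subset_Icc_self hxI) (by linarith [hx.2]))
      (h.posA (Ioo_subset_Icc_self hxI))
  have h5 := hmono ⟨le_rfl, hac.le⟩ ⟨by linarith, by linarith⟩ (show a < (a + c) / 2 by linarith)
  have h6 := hin ((a + c) / 2) ⟨by linarith, by linarith⟩
  linarith

/-- time reversal which keeps `w > 0` -/
theorem revR (h : Arc D a b p θ v w) :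
    Arc D (-b) (-a) (fun t => p (-t)) (fun t => -θ (-t)) (fun t => -v (-t)) (fun t => w (-t)) := by
  have h1 := h.revI.reflI
  simpa using h1

theorem v_nonneg_end (h : Arc D a b p θ v w) (hin : ∀ t ∈ Ioo a b, p t < p b) : 0 ≤ v b := by
  have h1 := v_nonpos_start (revR h) (fun t ht => by
    simpa using hin (-t) ⟨by linarith [ht.2], by linarith [ht.1]⟩)
  simp only [neg_neg] at h1
  linarith

theorem R_eq_K (h : Arc D a b p θ v w) {K : ℝ} (hK : ∀ t ∈ Icc a b, D.R (p t) * w t = K)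
    (hK0 : 0 < K) {t : ℝ} (ht : t ∈ Icc a b) (hv : v t = 0) : D.R (p t) = K := by
  have h1 := RvK h hK ht
  rw [hv, mul_zero] at h1
  have h2 := h.posR ht
  have h3 : (D.R (p t) - K) * (D.R (p t) + K) = 0 := by nlinarith
  rcases mul_eq_zero.1 h3 with h4 | h4
  · linarith
  · linarith

theorem K_le_R (h : Arc D a b p θ v w) {K : ℝ} (hK : ∀ t ∈ Icc a b, D.R (p t) * w t = K)
    (hK0 : 0 < K) {t : ℝ} (ht : t ∈ Icc a b) : K ≤ D.R (p t) := by
  have h1 := RvK h hK ht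
  have h2 := h.posR ht
  have h3 := sq_nonneg (D.R (p t) * v t)
  nlinarith

theorem v_const_of_f0 (h : Arc D a b p θ v w) (hf : ∀ t ∈ Ioo a b, D.f (p t) = 0) {t : ℝ}
    (ht : t ∈ Icc a b) : v t = v a := by
  apply const_of_deriv0I h.cv _ t ht
  intro s hs
  exact (h.dv s hs).congr_deriv (by rw [hf s hs]; simp)

end arc

namespace CI

variable (C : CI) {a b : ℝ} {p θ v w' : ℝ → ℝ}

/-- on `(pa, ptot)` the slope is `≤ 0` -/
theorem f_nonpos {x : ℝ} (h1 : pa ≤ x) (h2 : x ≤ C.pf) : C.toQD.f x ≤ 0 := by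
  rw [C.f_south h1]
  have hA : 0 < C.toQD.A x := C.toQD.posA x ⟨by linarith [pa_pos], h2.trans C.toQD.pf_lt_ℓI.le⟩
  apply div_nonpos_of_nonpos_of_nonneg _ hA.le
  have h3 : 0 ≤ cos (r (ptot - x)) := cos_r_nonneg (by linarith [C.pf_lt_ptot])
  have h4 := w_le_one (ptot - x)
  have := mul_nonneg (mul_nonneg C.k_pos.le h3) (sub_nonneg.2 h4)
  linarith

theorem f_nonneg {x : ℝ} (h1 : 0 < x) (h2 : x ≤ cS) : 0 ≤ C.toQD.f x := by
  rw [C.f_north h2]
  have hA : 0 < C.toQD.A x :=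
    C.toQD.posA x ⟨h1.le, h2.trans (C.cS_lt_pf.le.trans C.toQD.pf_lt_ℓI.le)⟩
  apply div_nonneg _ hA.le
  exact mul_nonneg (cos_r_nonneg h1.le) (by linarith [w_le_one x])

/-- the descending part -/
theorem desc (h : Arc C.toQD a b p θ v w') {K : ℝ}
    (hK : ∀ t ∈ Icc a b, C.toQD.R (p t) * w' t = K) (hK0 : 0 < K) (hK1 : K < 1)
    (ha' : p a ≤ C.pf) (hb : p b = pa) (hvb : v b < 0)
    (hin : ∀ t ∈ Ioc a b, p t < p a) : ∀ t ∈ Ioc a b, v t < 0 := by
  by_contra hcon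
  push Not at hcon
  obtain ⟨t₀, ht₀, hv₀⟩ := hcon
  have hsub : Icc t₀ b ⊆ Icc a b := Icc_subset_Icc_left ht₀.1.le
  obtain ⟨s, hs, hs0, hs1⟩ := last_ge ht₀.2 (h.cv.mono hsub) hvb ⟨t₀, ⟨le_rfl, ht₀.2⟩, hv₀⟩
  have hsI : s ∈ Icc a b := ⟨ht₀.1.le.trans hs.1, hs.2.le⟩
  have hanti : StrictAntiOn p (Icc s b) := by
    apply strictAntiOn_of_deriv_neg (convex_Icc _ _)
      (h.cp.mono (Icc_subset_Icc_left hsI.1))
    intro x hx
    rw [interior_Icc] at hx
    have hxI : x ∈ Ioo a b := ⟨(ht₀.1.trans_le hs.1).trans hx.1, hx.2⟩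
    rw [(h.dp x hxI).deriv]
    exact div_neg_of_neg_of_pos (hs1 x ⟨hx.1, hx.2.le⟩) (h.posA (Ioo_subset_Icc_self hxI))
  have h1 := hanti ⟨le_rfl, hs.2.le⟩ ⟨hs.2.le, le_rfl⟩ hs.2
  rw [hb] at h1
  have h2 := hin s ⟨ht₀.1.trans_le hs.1, hs.2.le⟩
  have h3 := R_eq_K h hK hK0 hsI hs0
  rcases le_or_gt (p s) cS with h4 | h4
  · rw [C.R_plateau h1.le h4] at h3
    linarith
  · have h5 := C.R_antitone_south h4.le h2 ha'
    have h6 := K_le_R h hK hK0 (t := a) ⟨le_rfl, h.lt.le⟩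
    linarith

theorem exists_north (h : Arc C.toQD a b p θ v w') (ha' : p a ≤ C.pf)
    (hba : p b = p a) (hin : ∀ t ∈ Ioo a b, p t < p a) : ∃ t ∈ Ioo a b, p t < pa := by
  by_contra hcon
  push Not at hcon
  have hva := v_nonpos_start h hin
  have hvb := v_nonneg_end h (fun t ht => by rw [hba]; exact hin t ht)
  have hanti : AntitoneOn v (Icc a b) := by
    apply antitoneOn_of_deriv_nonpos (convex_Icc _ _) h.cv
    · rw [interior_Icc]
      exact fun x hx => (h.dv x hx).differentiableAt.differentiableWithinAt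
    · intro x hx
      rw [interior_Icc] at hx
      rw [(h.dv x hx).deriv]
      apply div_nonpos_of_nonpos_of_nonneg _ (h.posR (Ioo_subset_Icc_self hx)).le
      apply mul_nonpos_of_nonpos_of_nonneg _ (sq_nonneg _)
      exact C.f_nonpos (hcon x hx) ((hin x hx).le.trans ha')
  have haI : a ∈ Icc a b := ⟨le_rfl, h.lt.le⟩
  have hbI : b ∈ Icc a b := ⟨h.lt.le, le_rfl⟩
  have hv0 : ∀ t ∈ Icc a b, v t = 0 := fun t ht =>
    le_antisymm ((hanti haI ht ht.1).trans hva) (hvb.trans (hanti ht hbI ht.2))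
  have hm : (a + b) / 2 ∈ Icc a b := ⟨by linarith [h.lt], by linarith [h.lt]⟩
  have h1 := const_of_deriv0I h.cp (fun s hs =>
    (h.dp s hs).congr_deriv (by rw [hv0 s (Ioo_subset_Icc_self hs)]; simp)) _ hm
  have h2 := hin ((a + b) / 2) ⟨by linarith [h.lt], by linarith [h.lt]⟩
  linarith

/-- the parts of a visit -/
theorem visit_split (h : Arc C.toQD a b p θ v w') {K : ℝ}
    (hK : ∀ t ∈ Icc a b, C.toQD.R (p t) * w' t = K) (hK0 : 0 < K)
    (ha : cS < p a) (ha' : p a ≤ C.pf) (hba : p b = p a) (hin : ∀ t ∈ Ioo a b, p t < p a) :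
    K < 1 ∧ ∃ t₂ t₃, a < t₂ ∧ t₂ < t₃ ∧ t₃ < b ∧ p t₂ = pa ∧ p t₃ = pa ∧
      (∀ t ∈ Ioo t₂ t₃, p t < pa) ∧ (∀ t ∈ Ioc a t₂, v t < 0) ∧ (∀ t ∈ Ico t₃ b, 0 < v t) := by
  have haI : a ∈ Icc a b := ⟨le_rfl, h.lt.le⟩
  have hK1 : K < 1 := (K_le_R h hK hK0 haI).trans_lt (C.R_lt_one ha ha')
  refine ⟨hK1, ?_⟩
  obtain ⟨t₀, ht₀, hp₀⟩ := C.exists_north h ha' hba hin
  have hpa : pa < p a := pa_lt_cS.trans ha
  obtain ⟨t₂, t₃, h1, h2, h3, h4, h5, h6, h7⟩ := exists_visitI h.cp hpa.le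
    (by rw [hba]; exact hpa.le) (Ioo_subset_Icc_self ht₀) hp₀
  have h8 : a < t₂ := by
    rcases eq_or_lt_of_le h1 with h | h
    · rw [← h] at h5; linarith
    · exact h
  have h9 : t₃ < b := by
    rcases eq_or_lt_of_le h4 with h | h
    · rw [h, hba] at h6; linarith
    · exact h
  have h23 : t₂ < t₃ := h2.trans h3
  have hv2 : v t₂ ≤ 0 := v_nonpos_start (h.sub h1 h23 h4) (by rw [h5]; exact h7)
  have hv3 : 0 ≤ v t₃ := v_nonneg_end (h.sub h1 h23 h4) (by rw [h6]; exact h7)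
  have hR1 : C.toQD.R pa = 1 := C.R_plateau le_rfl pa_lt_cS.le
  have hX : 0 < 1 - K ^ 2 := by nlinarith
  have hs2 := v_sq h hK (t := t₂) ⟨h8.le, by linarith⟩ (by rw [h5, hR1])
  have hs3 := v_sq h hK (t := t₃) ⟨by linarith, h9.le⟩ (by rw [h6, hR1])
  have hv2' : v t₂ < 0 := by
    rcases eq_or_lt_of_le hv2 with h | h
    · rw [h] at hs2; nlinarith
    · exact h
  have hv3' : 0 < v t₃ := by
    rcases eq_or_lt_of_le hv3 with h | h
    · rw [← h] at hs3; nlinarith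
    · exact h
  refine ⟨t₂, t₃, h8, h23, h9, h5, h6, h7, ?_, ?_⟩
  · exact C.desc (h.sub le_rfl h8 (by linarith))
      (fun t ht => hK t ⟨ht.1, by linarith [ht.2]⟩) hK0 hK1 ha' h5 hv2'
      (fun t ht => hin t ⟨ht.1, by linarith [ht.2]⟩)
  · have hr := revR (h.sub (c := t₃) (d := b) (by linarith) h9 le_rfl)
    have h10 := C.desc (K := K) hr (fun t ht => by
        exact hK (-t) ⟨by linarith [ht.2], by linarith [ht.1]⟩) hK0 hK1
        (by rw [neg_neg, hba]; exact ha')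
        (by rw [neg_neg]; exact h6) (by rw [neg_neg]; linarith)
        (fun t ht => by
          rw [neg_neg, hba]
          exact hin (-t) ⟨by linarith [ht.2], by linarith [ht.1]⟩)
    intro t ht
    have := h10 (-t) ⟨by linarith [ht.2], by linarith [ht.1]⟩
    rw [neg_neg] at this
    linarith

/-! ## the north part -/

theorem rotF_N (h : Arc C.toQD a b p θ v w') (hp : ∀ t ∈ Icc a b, p t ≤ cS) :
    RotF C.toQD a b p θ v w' (fun x => cos (r x)) (fun x => 1 - w x) C.FN C.h w where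
  rot := {
    arc := h
    sq := fun s hs => by
      rw [C.R_north (hp s hs)]
      exact sin_sq_add_cos_sq _
    dc := fun s hs => by
      refine ((r_hasDerivAt (p s)).cos).congr_deriv ?_
      rw [C.R_north (hp s (Ioo_subset_Icc_self hs))]; ring
    cc := continuous_cos.comp r_continuous
    dR := fun s hs => C.dR_north (hp s (Ioo_subset_Icc_self hs))
    cμ := continuous_const.sub w_continuous
    μ0 := fun s _ => by linarith [w_le_one (p s)] }
  cF := C.smN.continuous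
  h0 := C.h_pos.le
  om0 := fun s _ => w_nonneg _
  eA := fun s hs => C.A_north (hp s hs)

theorem cos_pa : cos (r pa) = 0 := by rw [r_large le_rfl, cos_pi_div_two]

/-- the north visit: rotation data -/
theorem north_data (h : Arc C.toQD a b p θ v w') (ha : p a = pa) (hb : p b = pa)
    (hin : ∀ t ∈ Ioo a b, p t < pa) {K : ℝ}
    (hK : ∀ t ∈ Icc a b, C.toQD.R (p t) * w' t = K) (hK0 : 0 < K) (hK1 : K < 1) :
    (∀ t ∈ Icc a b, p t ≤ cS) ∧ ∃ φ, TopData C.toQD a b p θ v w' (fun x => cos (r x))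
      (fun x => 1 - w x) K (√(1 - K ^ 2)) (π / 2) φ := by
  have hpc := pa_lt_cS
  have haI : a ∈ Icc a b := left_mem_Icc.2 h.lt.le
  have hple : ∀ t ∈ Icc a b, p t ≤ pa := by
    intro t ht
    rcases eq_or_lt_of_le ht.1 with h1 | h1
    · rw [← h1, ha]
    rcases eq_or_lt_of_le ht.2 with h2 | h2
    · rw [h2, hb]
    · exact (hin t ⟨h1, h2⟩).le
  have hp : ∀ t ∈ Icc a b, p t ≤ cS := fun t ht => (hple t ht).trans hpc.le
  refine ⟨hp, ?_⟩
  have hw : ∀ t ∈ Icc a b, 0 < w' t := fun t ht => by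
    have h1 := hK t ht
    have h2 := h.posR ht
    rw [← h1] at hK0
    exact (pos_iff_pos_of_mul_pos hK0).1 h2
  have hva := v_nonpos_start h (fun t ht => by rw [ha]; exact hin t ht)
  have hvb := v_nonneg_end h (fun t ht => by rw [hb]; exact hin t ht)
  have hKa := hK a haI
  have := Rot.topN (C.rotF_N h hp).rot hw hva hvb (by rw [hKa]; exact hK1)
    (by rw [ha]; exact cos_pa) (by rw [hb]; exact cos_pa)
    (fun t ht => cos_r_nonneg (h.pos t ht).1.le)
  rw [hKa] at this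
  exact this

theorem north_time (h : Arc C.toQD a b p θ v w') (ha : p a = pa) (hb : p b = pa)
    (hin : ∀ t ∈ Ioo a b, p t < pa) {K : ℝ}
    (hK : ∀ t ∈ Icc a b, C.toQD.R (p t) * w' t = K) (hK0 : 0 < K) (hK1 : K < 1) :
    2 * ∫ u in (0:ℝ)..(π / 2), C.FN (√(1 - K ^ 2) * cos u) ≤ b - a := by
  obtain ⟨hp, φ, T⟩ := C.north_data h ha hb hin hK hK0 hK1
  have h5 := (C.rotF_N h hp).time_ge T.φc T.φd T.eq1
  have hc : Continuous fun u => C.FN (√(1 - K ^ 2) * cos u) := C.smN.continuous.comp (by fun_prop)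
  rw [T.φa, T.φb, int_even hc (fun u => by simp only [cos_neg])] at h5
  exact h5

theorem north_rot_ge (h : Arc C.toQD a b p θ v w') (ha : p a = pa) (hb : p b = pa)
    (hin : ∀ t ∈ Ioo a b, p t < pa) {K : ℝ}
    (hK : ∀ t ∈ Icc a b, C.toQD.R (p t) * w' t = K) (hK0 : 0 < K) (hK1 : K < 1) :
    2 * ∫ u in (0:ℝ)..(π / 2), ker K u * C.FN (√(1 - K ^ 2) * cos u) ≤ θ b - θ a := by
  obtain ⟨hp, φ, T⟩ := C.north_data h ha hb hin hK hK0 hK1
  have h5 := (C.rotF_N h hp).rot_ge T.φc T.φd T.eq1 T.K0 T.sq T.Kw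
  have hc : Continuous fun u => ker K u * C.FN (√(1 - K ^ 2) * cos u) :=
    (ker_cont hK0).mul (C.smN.continuous.comp (by fun_prop))
  rw [T.φa, T.φb, int_even hc (fun u => by simp only [cos_neg, ker_neg])] at h5
  exact h5

theorem WW_pa : WW dl pa = 1 / 40 := by
  rw [WW_large dl_pos dl_le (by rw [pa_eq])]
  unfold pa; ring

theorem north_rot_le (h : Arc C.toQD a b p θ v w') (ha : p a = pa) (hb : p b = pa)
    (hin : ∀ t ∈ Ioo a b, p t < pa) {K : ℝ}
    (hK : ∀ t ∈ Icc a b, C.toQD.R (p t) * w' t = K) (hK0 : 0 < K) (hK1 : K ^ 2 ≤ 1 / 2) :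
    θ b - θ a ≤ 2 * (∫ u in (0:ℝ)..(π / 2), ker K u * C.FN (√(1 - K ^ 2) * cos u)) +
      K * C.h / (0.7 * 0.99 ^ 2) * (1 / 20) := by
  have hKlt : K < 1 := by nlinarith
  obtain ⟨hp, φ, T⟩ := C.north_data h ha hb hin hK hK0 hKlt
  have hlt := h.lt
  have haI : a ∈ Icc a b := left_mem_Icc.2 hlt.le
  have hbI : b ∈ Icc a b := right_mem_Icc.2 hlt.le
  have key : ∀ t ∈ Icc a b, q0 ≤ p t → 0.7 ≤ |v t| ∧ (0.99:ℝ) ≤ C.toQD.R (p t) := by
    intro t ht hq
    have h1 : 1 - 1 / 3200 ≤ C.toQD.R (p t) := by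
      rw [C.R_north (hp t ht)]
      exact sin_r_ge hq
    refine ⟨?_, by linarith⟩
    have hu := h.unit t ht
    have h2 : w' t ^ 2 ≤ 0.501 := by
      have h3 : K ^ 2 = C.toQD.R (p t) ^ 2 * w' t ^ 2 := by rw [← hK t ht]; ring
      have h4 : (1 - 1 / 3200 : ℝ) ^ 2 ≤ C.toQD.R (p t) ^ 2 :=
        pow_le_pow_left₀ (by norm_num) h1 2
      have h5 := mul_le_mul_of_nonneg_right h4 (sq_nonneg (w' t))
      norm_num at h5 ⊢
      linarith
    by_contra hcon
    push Not at hcon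
    have h5 := sq_abs (v t)
    have h6 := abs_nonneg (v t)
    nlinarith
  have hne : ∀ t ∈ Icc a b, q0 ≤ p t → v t ≠ 0 := by
    intro t ht hq hv
    have := (key t ht hq).1
    rw [hv] at this
    norm_num at this
  have h5 := (C.rotF_N h hp).rot_le T.φc T.φd T.eq1 T.K0 T.sq T.Kw
    (v0 := 0.7) (Rm := 0.99) (by norm_num) (by norm_num) (W := WW dl) (z := q0)
    (fun x => WW_hasDerivAt dl_pos x)
    (fun x hx => WW_zero dl_pos dl_le (by rw [← q0_eq]; exact hx)) hne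
    (fun t ht hom => key t ht (by
      by_contra hcon
      push Not at hcon
      exact hom (w_zero hcon.le)))
  have hc : Continuous fun u => ker K u * C.FN (√(1 - K ^ 2) * cos u) :=
    (ker_cont hK0).mul (C.smN.continuous.comp (by fun_prop))
  rw [T.φa, T.φb, int_even hc (fun u => by simp only [cos_neg, ker_neg]), ha, hb, WW_pa] at h5
  have hRpa : C.toQD.R pa = 1 := C.R_plateau le_rfl pa_lt_cS.le
  have hq0 : q0 ≤ pa := by unfold q0 pa; linarith
  have hva : v a < 0 := lt_of_le_of_ne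
    (v_nonpos_start h (fun t ht => by rw [ha]; exact hin t ht)) (hne a haI (by rw [ha]; exact hq0))
  have hvb : 0 < v b := lt_of_le_of_ne
    (v_nonneg_end h (fun t ht => by rw [hb]; exact hin t ht))
    (hne b hbI (by rw [hb]; exact hq0)).symm
  rw [sign_neg hva, sign_pos hvb] at h5
  have e : (1:ℝ) / 40 * ((1 : SignType) : ℝ) - 1 / 40 * ((-1 : SignType) : ℝ) = 1 / 20 := by
    simp; norm_num
  rw [e] at h5
  exact h5

/-! ## the plateau -/

theorem plateau (h : Arc C.toQD a b p θ v w') (ha : p a = cS) (hb : p b = pa)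
    (hin : ∀ t ∈ Icc a b, pa ≤ p t ∧ p t ≤ cS) (hvb : v b < 0) {K : ℝ}
    (hK : ∀ t ∈ Icc a b, C.toQD.R (p t) * w' t = K) (hK0 : 0 < K) (hK1 : K < 1) :
    b - a = C.h / √(1 - K ^ 2) ∧ θ b - θ a = K * C.h / √(1 - K ^ 2) := by
  have haI : a ∈ Icc a b := left_mem_Icc.2 h.lt.le
  have hbI : b ∈ Icc a b := right_mem_Icc.2 h.lt.le
  have hX : 0 < 1 - K ^ 2 := by nlinarith
  set ρ := √(1 - K ^ 2) with hρ
  have hρ0 : 0 < ρ := sqrt_pos.2 hX
  have hρ2 : ρ ^ 2 = 1 - K ^ 2 := sq_sqrt hX.le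
  have hR : ∀ t ∈ Icc a b, C.toQD.R (p t) = 1 := fun t ht => C.R_plateau (hin t ht).1 (hin t ht).2
  have hA : ∀ t ∈ Icc a b, C.toQD.A (p t) = C.h := fun t ht =>
    C.A_plateau (hin t ht).1 (hin t ht).2
  have hv : ∀ t ∈ Icc a b, v t = v a := fun t ht => v_const_of_f0 h (fun s hs => by
    have h1 := hin s (Ioo_subset_Icc_self hs)
    rw [C.f_north h1.2, w_one h1.1]; simp) ht
  have hvb2 : v b = -ρ := by
    have h1 := v_sq h hK hbI (hR b hbI)
    have h2 : (-(v b)) ^ 2 = ρ ^ 2 := by rw [neg_sq, h1, hρ2]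
    have h3 := (pow_left_inj₀ (by linarith) hρ0.le two_ne_zero).1 h2
    linarith
  have hvt : ∀ t ∈ Icc a b, v t = -ρ := fun t ht => by rw [hv t ht, ← hv b hbI, hvb2]
  have hh := C.h_pos
  have h1 : p b + ρ / C.h * b = p a + ρ / C.h * a := by
    have hc : ContinuousOn (fun t => p t + ρ / C.h * t) (Icc a b) :=
      h.cp.add (by fun_prop)
    exact const_of_deriv0I hc (fun s hs => by
      have h2 := (h.dp s hs).add ((hasDerivAt_id' s).const_mul (ρ / C.h))
      refine h2.congr_deriv ?_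
      rw [hvt s (Ioo_subset_Icc_self hs), hA s (Ioo_subset_Icc_self hs)]
      ring) b hbI
  have h2 : θ b - K * b = θ a - K * a := by
    have hc : ContinuousOn (fun t => θ t - K * t) (Icc a b) := h.cθ.sub (by fun_prop)
    exact const_of_deriv0I hc (fun s hs => by
      have h2 := (dθK h hK hs).sub ((hasDerivAt_id' s).const_mul K)
      refine h2.congr_deriv ?_
      rw [hR s (Ioo_subset_Icc_self hs)]
      ring) b hbI
  have h3 : ρ / C.h * (b - a) = 1 := by
    rw [ha, hb] at h1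
    have := cS_eq
    linarith
  have h4 : b - a = C.h / ρ := by
    field_simp at h3 ⊢
    linarith
  refine ⟨h4, ?_⟩
  have h5 : θ b - θ a = K * (b - a) := by linarith
  rw [h5, h4]; ring

end CI

end Pool.MP8e.C
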