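import Pool.Agent.Work.MP_8e9dbb.C.ArcC3
import Pool.Agent.Work.MP_8e9dbb.B.ClassI

/-!
The analytic facts `CapsI` for phase R'.
-/

open Real Set intervalIntegral Filter Topology
open scoped ContDiff

namespace Pool.MP8e.C

/-- the height coordinate of the sphere -/
noncomputable def cR (p : ℝ) : ℝ := cos (r p) - cos (r (ptot - p))
/-- total rotation speed factor -/
noncomputable def muR (p : ℝ) : ℝ := 2 - w p - w (ptot - p)
/-- speed as a function of the height -/
noncomputable def FR (t x : ℝ) : ℝ := FN t (max x 0) + gg t (max (-x) 0) - 1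
/-- the plateau function -/
noncomputable def omR (p : ℝ) : ℝ := w p * w (ptot - p)

theorem gg_zero {t : ℝ} (h : 0 < t) (h1 : t ≤ 1) : gg t 0 = 1 :=
  gg_one h (by linarith [xt_sub_wt h1])

theorem FN_zero {t : ℝ} (h : 0 < t) (h1 : t ≤ 1) : FN t 0 = 1 := by
  unfold FN
  rw [gg_zero h h1, cap_zero h (by linarith [dt_le h1])]
  ring

theorem FR_pos {t : ℝ} (h : 0 < t) (h1 : t ≤ 1) {x : ℝ} (hx : 0 ≤ x) : FR t x = FN t x := by
  unfold FR
  rw [max_eq_left hx, max_eq_right (by linarith), gg_zero h h1]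
  ring

theorem FR_neg {t : ℝ} (h : 0 < t) (h1 : t ≤ 1) {x : ℝ} (hx : 0 ≤ x) : FR t (-x) = gg t x := by
  unfold FR
  rw [neg_neg, max_eq_left hx, max_eq_right (by linarith), FN_zero h h1]
  ring

theorem FR_cont (t : ℝ) : Continuous (FR t) := by
  unfold FR
  have h1 := FN_cont t
  have h2 := gg_cont t
  fun_prop

theorem FR_nonneg {t : ℝ} (h : 0 < t) (h1 : t ≤ 1) {x : ℝ} (hx : |x| ≤ 1) : 0 ≤ FR t x := by
  obtain ⟨h2, h3⟩ := abs_le.1 hx
  rcases le_total 0 x with h4 | h4
  · rw [FR_pos h h1 h4]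
    linarith [FN_ge_one h h1 h3]
  · have : x = -(-x) := by ring
    rw [this, FR_neg h h1 (by linarith)]
    exact (gg_pos h h1 (by linarith)).le

theorem cR_cont : Continuous cR := by
  unfold cR
  exact (continuous_cos.comp r_continuous).sub
    (continuous_cos.comp (r_continuous.comp cont_q))

theorem cR_hasDerivAt (p : ℝ) : HasDerivAt cR
    (-(sin (r p) * (1 - w p)) - sin (r (ptot - p)) * (1 - w (ptot - p))) p := by
  have h1 : HasDerivAt (fun p => cos (r p)) (-sin (r p) * (1 - w p)) p := (r_hasDerivAt p).cos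
  have h2 : HasDerivAt (fun p : ℝ => ptot - p) (-1) p := (hasDerivAt_id' p).const_sub ptot
  have h3 : HasDerivAt (fun p => r (ptot - p)) ((1 - w (ptot - p)) * -1) p :=
    (r_hasDerivAt (ptot - p)).comp p h2
  refine (h1.sub h3.cos).congr_deriv ?_
  ring

theorem cases_p (p : ℝ) : p ≤ ptot - pa ∨ pa ≤ p := by
  rcases le_total p (ptot - pa) with h | h
  · exact Or.inl h
  · exact Or.inr (by linarith [pa_lt])

theorem RI_one_sq (p : ℝ) : RI 1 p ^ 2 + cR p ^ 2 = 1 := by
  unfold cR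
  rcases cases_p p with h | h
  · rw [RI_north h, r_south h, cos_pi_div_two, sub_zero]
    exact sin_sq_add_cos_sq _
  · rw [RI_south h, r_large h, cos_pi_div_two]
    have := sin_sq_add_cos_sq (r (ptot - p))
    linarith

theorem rotF_R {t : ℝ} (h : 0 < t) (h1 : t ≤ 1) {a b : ℝ} {p θ v w' : ℝ → ℝ}
    (harc : Arc (CR t h h1).toQD a b p θ v w') :
    RotF (CR t h h1).toQD a b p θ v w' cR muR (FR t) (hR t) omR where
  rot := {
    arc := harc
    sq := fun s _ => RI_one_sq (p s)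
    dc := fun s _ => by
      refine (cR_hasDerivAt (p s)).congr_deriv ?_
      change _ = -(RI 1 (p s) * muR (p s))
      unfold muR
      rcases cases_p (p s) with h2 | h2
      · rw [RI_north h2, w_south h2]; ring
      · rw [RI_south h2, w_one h2]; ring
    cc := cR_cont
    dR := fun s _ => by
      change deriv (RI 1) (p s) = _
      rw [(RI_hasDerivAt 1 (p s)).deriv]
      unfold cR muR
      rcases cases_p (p s) with h2 | h2
      · rw [r_south h2, w_south h2, sin_pi_div_two, cos_pi_div_two]; ring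
      · rw [r_large h2, w_one h2, sin_pi_div_two, cos_pi_div_two]; ring
    cμ := by
      unfold muR
      exact (continuous_const.sub w_continuous).sub (w_continuous.comp cont_q)
    μ0 := fun s _ => by
      unfold muR
      linarith [w_le_one (p s), w_le_one (ptot - p s)] }
  cF := FR_cont t
  h0 := (hR_pos h h1).le
  om0 := fun s _ => mul_nonneg (w_nonneg _) (w_nonneg _)
  eA := fun s hs => by
    change AI (FN t) (gg t) (hR t) (p s) = _
    have hp := harc.pos s hs
    have hq : 0 < ptot - p s := (CR t h h1).q_pos hp.2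
    have c1 := cos_r_nonneg hp.1.le
    have c2 := cos_r_nonneg hq.le
    unfold AI muR omR cR
    rcases cases_p (p s) with h2 | h2
    · rw [r_south h2, w_south h2, cos_pi_div_two, sub_zero, FR_pos h h1 c1]; ring
    · rw [r_large h2, w_one h2, cos_pi_div_two, zero_sub, FR_neg h h1 c2]; ring

/-! ### Integrals -/

theorem int_zero_pi {G : ℝ → ℝ} (hG : Continuous G) :
    ∫ u in (0:ℝ)..π, G u = ∫ u in (0:ℝ)..(π / 2), (G u + G (π - u)) := by
  have h1 := integral_add_adjacent_intervals (μ := MeasureTheory.volume)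
    (hG.intervalIntegrable 0 (π / 2)) (hG.intervalIntegrable (π / 2) π)
  have h2 := integral_comp_sub_left G π (a := 0) (b := π / 2)
  rw [sub_zero, show π - π / 2 = π / 2 by ring] at h2
  have c2 : Continuous fun u => G (π - u) := hG.comp (continuous_const.sub continuous_id)
  rw [integral_add (hG.intervalIntegrable _ _) (c2.intervalIntegrable _ _)]
  rw [← h1, ← h2]

theorem int_even {G : ℝ → ℝ} (hG : Continuous G) (he : ∀ u, G (-u) = G u) (β : ℝ) :
    ∫ u in (-β)..β, G u = 2 * ∫ u in (0:ℝ)..β, G u := by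
  have h1 := integral_add_adjacent_intervals (μ := MeasureTheory.volume)
    (hG.intervalIntegrable (-β) 0) (hG.intervalIntegrable 0 β)
  have h2 := integral_comp_neg G (a := 0) (b := β)
  rw [neg_zero] at h2
  have h3 : ∫ u in (0:ℝ)..β, G (-u) = ∫ u in (0:ℝ)..β, G u := by simp_rw [he]
  rw [← h1, ← h2, h3]
  ring

theorem ker_neg (K u : ℝ) : ker K (-u) = ker K u := by
  unfold ker; rw [cos_neg, sin_neg]; ring

theorem ker_pi_sub (K u : ℝ) : ker K (π - u) = ker K u := by
  unfold ker; rw [cos_pi_sub, sin_pi_sub]; ring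

theorem cos_mem {u : ℝ} (hu : u ∈ Icc 0 (π / 2)) {ρ : ℝ} (h0 : 0 ≤ ρ) (h1 : ρ ≤ 1) :
    0 ≤ ρ * cos u ∧ ρ * cos u ≤ 1 := by
  have h2 : 0 ≤ cos u := cos_nonneg_of_neg_pi_div_two_le_of_le (by linarith [hu.1, pi_pos]) hu.2
  have h3 := cos_le_one u
  exact ⟨mul_nonneg h0 h2, by nlinarith⟩

section
variable {t : ℝ} (h : 0 < t) (h1 : t ≤ 1) {ρ : ℝ} (hρ0 : 0 ≤ ρ) (hρ1 : ρ ≤ 1)
include h h1 hρ0 hρ1

theorem int_FR_total : π ≤ ∫ u in (0:ℝ)..π, FR t (ρ * cos u) := by
  have hc : Continuous fun u => FR t (ρ * cos u) := (FR_cont t).comp (by fun_prop)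
  rw [int_zero_pi hc]
  have h2 : ∫ u in (0:ℝ)..(π / 2), (2:ℝ) ≤
      ∫ u in (0:ℝ)..(π / 2), (FR t (ρ * cos u) + FR t (ρ * cos (π - u))) := by
    apply integral_mono_on (by positivity) (by simp)
    · exact (hc.add (hc.comp (continuous_const.sub continuous_id))).intervalIntegrable _ _
    intro u hu
    obtain ⟨h3, h4⟩ := cos_mem hu hρ0 hρ1
    rw [cos_pi_sub, mul_neg, FR_pos h h1 h3, FR_neg h h1 h3]
    linarith [FN_ge h h1 (ρ * cos u)]
  rw [integral_const, smul_eq_mul, sub_zero] at h2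
  linarith

omit hρ1 in
theorem int_FR_tail {β : ℝ} (hβ : π / 2 ≤ β) (hβ1 : β ≤ π) (hx : ρ * cos β ≤ -xt t) :
    ∫ u in β..π, FR t (ρ * cos u) = ρ * sin β := by
  have h2 : ∫ u in β..π, FR t (ρ * cos u) = ∫ u in β..π, -(ρ * cos u) := by
    apply integral_congr
    intro u hu
    rw [uIcc_of_le hβ1] at hu
    have h3 : cos u ≤ cos β :=
      cos_le_cos_of_nonneg_of_le_pi (by linarith [pi_pos]) hu.2 hu.1
    have h4 : ρ * cos u ≤ ρ * cos β := mul_le_mul_of_nonneg_left h3 hρ0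
    have h5 := xt_ge h1
    dsimp only
    rw [show ρ * cos u = -(-(ρ * cos u)) by ring, FR_neg h h1 (by linarith),
      gg_id h (by linarith)]
    ring
  rw [h2, integral_neg, integral_const_mul, integral_cos, sin_pi]
  ring

theorem int_kFR_total {K : ℝ} (hK : 0 < K) :
    π ≤ (∫ u in (0:ℝ)..π, ker K u * FR t (ρ * cos u)) ∧
      (∫ u in (0:ℝ)..π, ker K u * FR t (ρ * cos u)) ≤ π + (bt t - 1) * (π / 2) := by
  have hc : Continuous fun u => ker K u * FR t (ρ * cos u) :=
    (ker_cont hK).mul ((FR_cont t).comp (by fun_prop))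
  have hi : ∫ u in (0:ℝ)..(π / 2), ker K u = π / 2 := by
    rw [int_ker hK, EE_zero, EE_pi_div_two, sub_zero]
  have hk := ker_cont hK
  rw [int_zero_pi hc]
  constructor
  · have h2 : ∫ u in (0:ℝ)..(π / 2), 2 * ker K u ≤ ∫ u in (0:ℝ)..(π / 2),
        (ker K u * FR t (ρ * cos u) + ker K (π - u) * FR t (ρ * cos (π - u))) := by
      apply integral_mono_on (by positivity) ((hk.const_mul _).intervalIntegrable _ _)
      · exact (hc.add (hc.comp (continuous_const.sub continuous_id))).intervalIntegrable _ _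
      intro u hu
      obtain ⟨h3, h4⟩ := cos_mem hu hρ0 hρ1
      rw [ker_pi_sub, cos_pi_sub, mul_neg, FR_pos h h1 h3, FR_neg h h1 h3]
      have := mul_le_mul_of_nonneg_left (FN_ge h h1 (ρ * cos u)) (ker_pos hK u).le
      linarith
    rw [integral_const_mul, hi] at h2
    linarith
  · have h2 : ∫ u in (0:ℝ)..(π / 2), (ker K u * FR t (ρ * cos u) +
        ker K (π - u) * FR t (ρ * cos (π - u))) ≤
        ∫ u in (0:ℝ)..(π / 2), (bt t + 1) * ker K u := by
      apply integral_mono_on (by positivity)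
      · exact (hc.add (hc.comp (continuous_const.sub continuous_id))).intervalIntegrable _ _
      · exact (hk.const_mul _).intervalIntegrable _ _
      intro u hu
      obtain ⟨h3, h4⟩ := cos_mem hu hρ0 hρ1
      rw [ker_pi_sub, cos_pi_sub, mul_neg, FR_pos h h1 h3, FR_neg h h1 h3]
      have h5 : FN t (ρ * cos u) + gg t (ρ * cos u) ≤ bt t + 1 := by
        unfold FN
        linarith [cap_le h h1 h4]
      have := mul_le_mul_of_nonneg_left h5 (ker_pos hK u).le
      linarith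
    rw [integral_const_mul, hi] at h2
    linarith

omit hρ1 in
theorem int_kFR_tail {K : ℝ} (hK : 0 < K) (hKρ : K ^ 2 + ρ ^ 2 = 1) {β : ℝ} (hβ : π / 2 ≤ β)
    (hβ1 : β ≤ π) (hx : ρ * cos β ≤ -xt t) :
    ∫ u in β..π, ker K u * FR t (ρ * cos u) = arctan (ρ * sin β / K) := by
  have h2 : ∫ u in β..π, ker K u * FR t (ρ * cos u) = ∫ u in β..π, -(ker K u * (ρ * cos u)) := by
    apply integral_congr
    intro u hu
    rw [uIcc_of_le hβ1] at hu
    have h3 : cos u ≤ cos β :=
      cos_le_cos_of_nonneg_of_le_pi (by linarith [pi_pos]) hu.2 hu.1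
    have h4 : ρ * cos u ≤ ρ * cos β := mul_le_mul_of_nonneg_left h3 hρ0
    have h5 := xt_ge h1
    dsimp only
    rw [show ρ * cos u = -(-(ρ * cos u)) by ring, FR_neg h h1 (by linarith),
      gg_id h (by linarith)]
    ring
  rw [h2, integral_neg, int_ker_cos hK hKρ, sin_pi]
  simp

end

/-! ### General facts on arcs -/

theorem w_pos_of {D : QD} {a b : ℝ} {p θ v w' : ℝ → ℝ} (harc : Arc D a b p θ v w')
    (hw : 0 < w' a) : ∀ s ∈ Icc a b, 0 < w' s := by
  intro s hs
  have haI : a ∈ Icc a b := left_mem_Icc.2 harc.lt.le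
  have h1 := harc.K_eq haI hs
  have h2 := mul_pos (harc.posR haI) hw
  rw [h1] at h2
  exact (pos_iff_pos_of_mul_pos h2).1 (harc.posR hs)

/-- if `v = 0` inside, then `p` is constant -/
theorem p_const {D : QD} {a b : ℝ} {p θ v w' : ℝ → ℝ} (harc : Arc D a b p θ v w')
    (hv : ∀ s ∈ Ioo a b, v s = 0) : ∀ s ∈ Icc a b, p s = p a := by
  intro s hs
  have haI : a ∈ Icc a b := left_mem_Icc.2 harc.lt.le
  have hd : ∀ t ∈ Ioo a b, HasDerivAt p 0 t := fun t ht =>
    (harc.dp t ht).congr_deriv (by rw [hv t ht, zero_div])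
  have h1 := cmp_deriv harc.cp (continuousOn_const (c := (0:ℝ))) hd
    (fun t _ => hasDerivAt_const t (0:ℝ)) (fun _ _ => le_rfl) haI hs hs.1
  have h2 := cmp_deriv (continuousOn_const (c := (0:ℝ))) harc.cp
    (fun t _ => hasDerivAt_const t (0:ℝ)) hd (fun _ _ => le_rfl) haI hs hs.1
  linarith

/-- no oscillation below a point with `c ≥ 0` if `c` is antitone -/
theorem no_osc {D : QD} {a b : ℝ} {p θ v w' c μ : ℝ → ℝ} (H : Rot D a b p θ v w' c μ)
    (hv : v a = 0) (hins : ∀ s ∈ Ioo a b, p s < p a) (hc0 : 0 ≤ c (p a))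
    (hc : ∀ s ∈ Ioo a b, c (p a) ≤ c (p s)) : False := by
  have haI : a ∈ Icc a b := left_mem_Icc.2 H.arc.lt.le
  have hv0 : ∀ s ∈ Ioo a b, v s = 0 := by
    intro s hs
    have hsI := Ioo_subset_Icc_self hs
    have h1 := H.arc.Rv_sq hsI
    have h2 := H.arc.Rv_sq haI
    rw [H.arc.K_eq hsI haI] at h1
    rw [hv, mul_zero] at h2
    have h3 := H.sq s hsI
    have h4 := H.sq a haI
    have h5 := hc s hs
    have h6 : (D.R (p s) * v s) ^ 2 ≤ 0 := by nlinarith
    have h7 : D.R (p s) * v s = 0 := by nlinarith [sq_nonneg (D.R (p s) * v s)]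
    rcases mul_eq_zero.1 h7 with h8 | h8
    · exact absurd h8 (H.arc.posR hsI).ne'
    · exact h8
  have hlt := H.arc.lt
  have hmid : (a + b) / 2 ∈ Ioo a b := ⟨by linarith, by linarith⟩
  have h1 := p_const H.arc hv0 _ (Ioo_subset_Icc_self hmid)
  have h2 := hins _ hmid
  linarith

theorem cos_r_anti {x y : ℝ} (hx : 0 ≤ x) (hxy : x ≤ y) : cos (r y) ≤ cos (r x) :=
  cos_le_cos_of_nonneg_of_le_pi (r_nonneg hx) (by linarith [r_le y, pi_pos]) (r_mono hxy)

theorem cos_r_strict {x y : ℝ} (hx : 0 ≤ x) (hxy : x < y) (hx1 : x < pa) :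
    cos (r y) < cos (r x) := by
  have h1 : r x < r y := by
    rcases le_total y pa with h | h
    · have hs := rr_strictMonoOn dl_pos (a := x) (b := y)
        (by rw [mem_Iic, ← pa_eq]; exact hx1.le) (by rw [mem_Iic, ← pa_eq]; exact h) hxy
      exact hs
    · rw [r_large h]; exact r_lt hx1
  exact cos_lt_cos_of_nonneg_of_le_pi (r_nonneg hx) (by linarith [r_le y, pi_pos]) h1

theorem cR_south {P x : ℝ} (hP : ptot - pa < P) (hP1 : P ≤ ptot) (hx : 0 ≤ x) (hxP : x < P) :
    cR P < cR x := by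
  unfold cR
  have h1 : r P = π / 2 := r_large (by linarith [pa_lt])
  have h2 := cos_r_strict (x := ptot - P) (y := ptot - x) (by linarith) (by linarith)
    (by linarith)
  have h3 := cos_r_nonneg hx
  rw [h1, cos_pi_div_two]
  linarith

/-! ### Phase R' -/

section R

variable {t : ℝ} (h : 0 < t) (h1 : t ≤ 1)

theorem pf_R : (CR t h h1).toQD.pf = ptot - arccos (xt t) := rfl

include h1 in
theorem pS_lt_pf_R : ptot - pa < ptot - arccos (xt t) := by
  have := arccos_le_q0 (xt_ge h1)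
  unfold q0 at this
  unfold pa
  linarith

include h h1 in
theorem cR_pf : cR (ptot - arccos (xt t)) = -xt t := by
  have h2 := arccos_le_q0 (xt_ge h1)
  have h3 : pa ≤ ptot - arccos (xt t) := by
    unfold q0 at h2
    unfold pa ptot
    linarith [pi_gt_three]
  unfold cR
  rw [r_large h3, cos_pi_div_two, sub_sub_cancel, r_small h2,
    cos_arccos (by linarith [xt_ge h1]) (by linarith [xt_lt h])]
  ring

/-- full data of an arc below a level in the south part -/
theorem top_R {a b : ℝ} {p θ v w' : ℝ → ℝ} (harc : Arc (CR t h h1).toQD a b p θ v w')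
    (hw : 0 < w' a) (hab : p b = p a) (hins : ∀ s ∈ Ioo a b, p s < p a)
    (hP : ptot - pa < p a) :
    ∃ β φ, TopData (CR t h h1).toQD a b p θ v w' cR muR (RI 1 (p a) * w' a)
        (√(1 - (RI 1 (p a) * w' a) ^ 2)) β φ ∧
      cR (p a) = √(1 - (RI 1 (p a) * w' a) ^ 2) * cos β ∧
      √(RI 1 (p a) ^ 2 - (RI 1 (p a) * w' a) ^ 2) =
        √(1 - (RI 1 (p a) * w' a) ^ 2) * sin β := by
  have haI : a ∈ Icc a b := left_mem_Icc.2 harc.lt.le
  have hpa := (harc.pos a haI).2.trans (CR t h h1).ℓ_lt.le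
  exact (rotF_R h h1 harc).rot.top (w_pos_of harc hw) hab hins fun s hs =>
    cR_south hP hpa (harc.pos s (Ioo_subset_Icc_self hs)).1.le (hins s hs)

theorem rho_le_one (x : ℝ) : √(1 - x ^ 2) ≤ 1 :=
  sqrt_le_iff.2 ⟨by norm_num, by nlinarith [sq_nonneg x]⟩

theorem osc_R {a b : ℝ} {p θ v w' : ℝ → ℝ} (harc : Arc (CR t h h1).toQD a b p θ v w')
    (hab : p a = p b) (hv : v a = 0) (hins : ∀ s ∈ Ioo a b, p s < p a) (hw : 0 < w' a) :
    2 * π ≤ b - a := by
  have haI : a ∈ Icc a b := left_mem_Icc.2 harc.lt.le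
  have H := rotF_R h h1 harc
  rcases le_or_gt (p a) (ptot - pa) with hP | hP
  · exfalso
    have hc : ∀ x, x ≤ ptot - pa → cR x = cos (r x) := by
      intro x hx
      unfold cR
      rw [r_south hx, cos_pi_div_two, sub_zero]
    apply no_osc H.rot hv hins
    · rw [hc _ hP]; exact cos_r_nonneg (harc.pos a haI).1.le
    · intro s hs
      rw [hc _ hP, hc _ ((hins s hs).le.trans hP)]
      exact cos_r_anti (harc.pos s (Ioo_subset_Icc_self hs)).1.le (hins s hs).le
  · obtain ⟨β, φ, T, hc, hs⟩ := top_R h h1 harc hw hab.symm hins hP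
    have hρ := T.ρ0
    have hw1 : w' a = 1 := by
      have := harc.unit a haI
      rw [hv] at this
      nlinarith
    have h3 : sin β = 0 := by
      rw [hw1, mul_one, sub_self, sqrt_zero] at hs
      rw [hw1, mul_one] at hρ
      rcases mul_eq_zero.1 hs.symm with h4 | h4
      · exact absurd h4 hρ.ne'
      · exact h4
    have h4 : β = π := by
      rcases T.βpi.eq_or_lt with h5 | h5
      · exact h5
      · exact absurd h3 (sin_pos_of_pos_of_lt_pi T.β0 h5).ne'
    have h5 := H.time_ge T.φc T.φd T.eq1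
    rw [T.φa, T.φb, h4] at h5
    have hcont : Continuous fun u => FR t (√(1 - (RI 1 (p a) * w' a) ^ 2) * cos u) :=
      (FR_cont t).comp (by fun_prop)
    rw [int_even hcont (fun u => by rw [cos_neg])] at h5
    have h6 := int_FR_total h h1 (sqrt_nonneg (1 - (RI 1 (p a) * w' a) ^ 2))
      (rho_le_one _)
    linarith

/-- full data of a cap visit -/
theorem cap_R {a b : ℝ} {p θ v w' : ℝ → ℝ} (harc : Arc (CR t h h1).toQD a b p θ v w')
    (hw : 0 < w' a) (hpa : p a = (CR t h h1).toQD.pf) (hpb : p b = (CR t h h1).toQD.pf)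
    (hins : ∀ s ∈ Ioo a b, p s < (CR t h h1).toQD.pf) {K ρ : ℝ}
    (hK : K = (CR t h h1).toQD.R (CR t h h1).toQD.pf * w' a) (hρ : ρ = √(1 - K ^ 2)) :
    ∃ β φ, TopData (CR t h h1).toQD a b p θ v w' cR muR K ρ β φ ∧ ρ * cos β = -xt t ∧
      √((CR t h h1).toQD.R (CR t h h1).toQD.pf ^ 2 - K ^ 2) = ρ * sin β ∧ π / 2 < β := by
  have hP : ptot - pa < p a := by rw [hpa, pf_R]; exact pS_lt_pf_R h1
  obtain ⟨β, φ, T, hc, hs⟩ := top_R h h1 harc hw (by rw [hpa, hpb])
    (fun s hs => by rw [hpa]; exact hins s hs) hP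
  have e1 : RI 1 (p a) * w' a = K := by rw [hK, hpa]; rfl
  rw [e1, ← hρ] at T hc hs
  have e2 : cR (p a) = -xt t := by rw [hpa, pf_R]; exact cR_pf h h1
  have e3 : RI 1 (p a) = (CR t h h1).toQD.R (CR t h h1).toQD.pf := by rw [hpa]; rfl
  rw [e2] at hc
  rw [e3] at hs
  refine ⟨β, φ, T, hc.symm, hs, ?_⟩
  by_contra hcon
  push Not at hcon
  have h3 : 0 ≤ cos β := cos_nonneg_of_neg_pi_div_two_le_of_le (by linarith [T.β0, pi_pos]) hcon
  have h4 := mul_nonneg T.ρ0.le h3
  have := xt_ge h1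
  linarith

theorem visit_R {a b : ℝ} {p θ v w' : ℝ → ℝ} (harc : Arc (CR t h h1).toQD a b p θ v w')
    (hpa : p a = (CR t h h1).toQD.pf) (hpb : p b = (CR t h h1).toQD.pf)
    (hins : ∀ s ∈ Ioo a b, p s < (CR t h h1).toQD.pf) (hw : 0 < w' a) : π ≤ b - a := by
  obtain ⟨β, φ, T, hc, hs, hβ⟩ := cap_R h h1 harc hw hpa hpb hins rfl rfl
  have h5 := (rotF_R h h1 harc).time_ge T.φc T.φd T.eq1
  rw [T.φa, T.φb] at h5
  set ρ := √(1 - ((CR t h h1).toQD.R (CR t h h1).toQD.pf * w' a) ^ 2) with hρ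
  have hρ0 := T.ρ0
  have hρ1 : ρ ≤ 1 := rho_le_one _
  have hcont : Continuous fun u => FR t (ρ * cos u) := (FR_cont t).comp (by fun_prop)
  rw [int_even hcont (fun u => by rw [cos_neg])] at h5
  have h6 := integral_add_adjacent_intervals (μ := MeasureTheory.volume)
    (hcont.intervalIntegrable 0 (π / 2)) (hcont.intervalIntegrable (π / 2) β)
  have h7 : ∫ u in (0:ℝ)..(π / 2), (1:ℝ) ≤ ∫ u in (0:ℝ)..(π / 2), FR t (ρ * cos u) := by
    apply integral_mono_on (by positivity) (by simp) (hcont.intervalIntegrable _ _)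
    intro u hu
    obtain ⟨h3, h4⟩ := cos_mem hu hρ0.le hρ1
    rw [FR_pos h h1 h3]
    exact FN_ge_one h h1 h4
  have h8 : 0 ≤ ∫ u in (π / 2)..β, FR t (ρ * cos u) := by
    apply integral_nonneg hβ.le
    intro u _
    apply FR_nonneg h h1
    rw [abs_mul, abs_of_pos hρ0]
    have := abs_cos_le_one u
    nlinarith [abs_nonneg (cos u)]
  rw [integral_const, smul_eq_mul, sub_zero] at h7
  linarith

theorem full_R {a b : ℝ} {p θ v w' : ℝ → ℝ} (harc : Arc (CR t h h1).toQD a b p θ v w')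
    (hpa : p a = (CR t h h1).toQD.pf) (hpb : p b = (CR t h h1).toQD.pf)
    (hins : ∀ s ∈ Ioo a b, p s < (CR t h h1).toQD.pf) (hw : 0 < w' a) :
    2 * π ≤ b - a + 2 * (√((CR t h h1).toQD.R (CR t h h1).toQD.pf ^ 2 -
      ((CR t h h1).toQD.R (CR t h h1).toQD.pf * w' a) ^ 2) / -(CR t h h1).toQD.κ) := by
  obtain ⟨β, φ, T, hc, hs, hβ⟩ := cap_R h h1 harc hw hpa hpb hins rfl rfl
  have h5 := (rotF_R h h1 harc).time_ge T.φc T.φd T.eq1
  rw [T.φa, T.φb] at h5
  rw [hs]
  set ρ := √(1 - ((CR t h h1).toQD.R (CR t h h1).toQD.pf * w' a) ^ 2) with hρ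
  have hρ0 := T.ρ0
  have hρ1 : ρ ≤ 1 := rho_le_one _
  have hcont : Continuous fun u => FR t (ρ * cos u) := (FR_cont t).comp (by fun_prop)
  rw [int_even hcont (fun u => by rw [cos_neg])] at h5
  have h6 := integral_add_adjacent_intervals (μ := MeasureTheory.volume)
    (hcont.intervalIntegrable 0 β) (hcont.intervalIntegrable β π)
  have h7 := int_FR_total h h1 hρ0.le hρ1
  have h8 := int_FR_tail h h1 hρ0.le hβ.le T.βpi hc.le
  have e : -(CR t h h1).toQD.κ = 1 := by
    change - -(1:ℝ) = 1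
    norm_num
  rw [e, div_one]
  linarith

theorem arctan_eq {R w' : ℝ} (hR : 0 < R) (hw : 0 < w') :
    arctan (√(R ^ 2 - (R * w') ^ 2) / (R * w')) = π / 2 - arcsin w' := by
  have e : √(R ^ 2 - (R * w') ^ 2) / (R * w') = tan (arccos w') := by
    rw [tan_arccos, show R ^ 2 - (R * w') ^ 2 = R ^ 2 * (1 - w' ^ 2) by ring,
      sqrt_mul (sq_nonneg R), sqrt_sq hR.le]
    field_simp
  rw [e, arctan_tan _ (arccos_lt_pi_div_two.2 hw), arccos_eq_pi_div_two_sub_arcsin]
  linarith [arccos_nonneg w', pi_pos]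

/-- lower bound of the reduced rotation -/
theorem Phi_ge_R {a b : ℝ} {p θ v w' : ℝ → ℝ} (harc : Arc (CR t h h1).toQD a b p θ v w')
    (hpa : p a = (CR t h h1).toQD.pf) (hpb : p b = (CR t h h1).toQD.pf)
    (hins : ∀ s ∈ Ioo a b, p s < (CR t h h1).toQD.pf) (hw : 0 < w' a) :
    π ≤ θ b - θ a - 2 * arcsin (w' a) := by
  obtain ⟨β, φ, T, hc, hs, hβ⟩ := cap_R h h1 harc hw hpa hpb hins rfl rfl
  have haI : a ∈ Icc a b := left_mem_Icc.2 harc.lt.le
  have h5 := (rotF_R h h1 harc).rot_ge T.φc T.φd T.eq1 T.K0 T.sq T.Kw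
  rw [T.φa, T.φb] at h5
  have hw1 : w' a ≤ 1 := by
    have := harc.unit a haI
    nlinarith [sq_nonneg (v a)]
  have hRf : 0 < (CR t h h1).toQD.R (CR t h h1).toQD.pf := by
    have := harc.posR haI
    rwa [hpa] at this
  have hat := arctan_eq hRf hw
  set K := (CR t h h1).toQD.R (CR t h h1).toQD.pf * w' a with hK
  rw [hs] at hat
  set ρ := √(1 - K ^ 2) with hρ
  have hρ0 := T.ρ0
  have hρ1 : ρ ≤ 1 := rho_le_one _
  have hcont : Continuous fun u => ker K u * FR t (ρ * cos u) :=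
    (ker_cont T.K0).mul ((FR_cont t).comp (by fun_prop))
  rw [int_even hcont (fun u => by rw [cos_neg, ker_neg])] at h5
  have h6 := integral_add_adjacent_intervals (μ := MeasureTheory.volume)
    (hcont.intervalIntegrable 0 β) (hcont.intervalIntegrable β π)
  have h7 := (int_kFR_total h h1 hρ0.le hρ1 T.K0).1
  have h8 := int_kFR_tail h h1 hρ0.le T.K0 T.sq hβ.le T.βpi hc.le
  linarith

/-- primitive of the plateau function -/
noncomputable def WR (x : ℝ) : ℝ := ∫ u in (0:ℝ)..x, omR u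

theorem omR_cont : Continuous omR := by
  unfold omR
  exact w_continuous.mul (w_continuous.comp cont_q)

theorem WR_hasDerivAt (x : ℝ) : HasDerivAt WR (omR x) x :=
  integral_hasDerivAt_right (omR_cont.intervalIntegrable _ _)
    (omR_cont.stronglyMeasurableAtFilter _ _) omR_cont.continuousAt

theorem WR_zero {x : ℝ} (hx : x ≤ q0) : WR x = 0 := by
  unfold WR
  have h0 := q0_pos
  rw [integral_congr (g := fun _ => (0:ℝ)) _]
  · simp
  · intro u hu
    have : u ≤ q0 := by
      rcases le_total 0 x with h | h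
      · rw [uIcc_of_le h] at hu; exact hu.2.trans hx
      · rw [uIcc_of_ge h] at hu; exact hu.2.trans h0.le
    dsimp only
    unfold omR
    rw [w_zero this, zero_mul]

theorem omR_nonneg (x : ℝ) : 0 ≤ omR x := mul_nonneg (w_nonneg _) (w_nonneg _)

theorem omR_le (x : ℝ) : omR x ≤ 1 := by
  unfold omR
  have := mul_le_mul (w_le_one x) (w_le_one (ptot - x)) (w_nonneg _) zero_le_one
  linarith

theorem WR_mono : Monotone WR := by
  apply monotone_of_deriv_nonneg (fun x => (WR_hasDerivAt x).differentiableAt)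
  intro x
  rw [(WR_hasDerivAt x).deriv]
  exact omR_nonneg x

theorem WR_nonneg {x : ℝ} (hx : 0 ≤ x) : 0 ≤ WR x := by
  unfold WR
  exact integral_nonneg hx fun u _ => omR_nonneg u

/-- the plateau mass is at most `11/10` -/
theorem WR_le {x : ℝ} (hx : x ≤ ptot) : WR x ≤ 11 / 10 := by
  refine (WR_mono hx).trans ?_
  have e : ptot - q0 - q0 = 11 / 10 := by unfold ptot q0; ring
  have h0 := q0_pos
  have h2 := q0_lt
  have hc := omR_cont
  have i1 := integral_add_adjacent_intervals (μ := MeasureTheory.volume)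
    (hc.intervalIntegrable 0 q0) (hc.intervalIntegrable q0 (ptot - q0))
  have i2 := integral_add_adjacent_intervals (μ := MeasureTheory.volume)
    (hc.intervalIntegrable 0 (ptot - q0)) (hc.intervalIntegrable (ptot - q0) ptot)
  have i3 : ∫ u in (0:ℝ)..q0, omR u = 0 := WR_zero le_rfl
  have i4 : ∫ u in (ptot - q0)..ptot, omR u = ∫ u in (ptot - q0)..ptot, (0:ℝ) := by
    apply integral_congr
    intro u hu
    rw [uIcc_of_le (by linarith)] at hu
    dsimp only
    unfold omR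
    rw [w_zero (p := ptot - u) (by linarith [hu.1]), mul_zero]
  have i5 : ∫ u in q0..(ptot - q0), omR u ≤ ∫ u in q0..(ptot - q0), (1:ℝ) := by
    apply integral_mono_on (by linarith) (hc.intervalIntegrable _ _) (by simp)
    intro u _
    exact omR_le u
  rw [integral_const, smul_eq_mul, mul_one, e] at i5
  unfold WR
  rw [← i2, ← i1, i3, i4]
  simp
  linarith

theorem omR_ne {x : ℝ} (hx : omR x ≠ 0) : q0 < x ∧ x < ptot - q0 := by
  unfold omR at hx
  constructor
  · by_contra hcon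
    push Not at hcon
    rw [w_zero hcon, zero_mul] at hx
    exact hx rfl
  · by_contra hcon
    push Not at hcon
    rw [w_zero (p := ptot - x) (by linarith), mul_zero] at hx
    exact hx rfl

theorem sin_q0_ge : 1 - 1 / 3200 ≤ sin q0 := by
  unfold q0
  rw [sin_pi_div_two_sub]
  have := one_sub_sq_div_two_le_cos (x := (1:ℝ) / 40)
  linarith

theorem sin_r_ge {x : ℝ} (hx : q0 ≤ x) : 1 - 1 / 3200 ≤ sin (r x) := by
  refine sin_q0_ge.trans ?_
  apply sin_le_sin_of_le_of_le_pi_div_two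
  · linarith [q0_pos, pi_pos]
  · exact r_le x
  · exact r_ge hx

theorem RI_ge_mid {x : ℝ} (h1 : q0 ≤ x) (h2 : x ≤ ptot - q0) {k : ℝ} (hk : 0 ≤ k) (hk1 : k ≤ 1) :
    1 - 1 / 3200 ≤ RI k x := by
  rcases cases_p x with h | h
  · rw [RI_north h]
    exact sin_r_ge h1
  · rw [RI_south h]
    have h3 := sin_r_ge (x := ptot - x) (by linarith)
    have h4 := sin_le_one (r (ptot - x))
    nlinarith

theorem sq_le_of_K {K : ℝ} (hK : K ^ 2 ≤ 0.45125) {R v' w' : ℝ} (hR : 1 - 1 / 3200 ≤ R)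
    (hu : v' ^ 2 + w' ^ 2 = 1) (hw : R * w' = K) : 0.74 ≤ |v'| := by
  have h1 : w' ^ 2 ≤ 0.4516 := by
    have h2 : K ^ 2 = R ^ 2 * w' ^ 2 := by rw [← hw]; ring
    have h3 : (1 - 1 / 3200 : ℝ) ^ 2 ≤ R ^ 2 := pow_le_pow_left₀ (by norm_num) hR 2
    have h4 : (1 - 1 / 3200 : ℝ) ^ 2 * w' ^ 2 ≤ R ^ 2 * w' ^ 2 :=
      mul_le_mul_of_nonneg_right h3 (sq_nonneg _)
    norm_num at h4 ⊢
    linarith
  by_contra hcon
  push Not at hcon
  have h5 := sq_abs v'
  have h6 := abs_nonneg v'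
  nlinarith

theorem rB_cos_sq {t : ℝ} (h : 0 < t) : (rB t * cos (arctan t)) ^ 2 ≤ 0.45125 := by
  rw [mul_pow, rB_sq h, cos_sq_arctan]
  have h2 : t * (1 / (1 + t ^ 2)) ≤ 1 / 2 := by
    rw [mul_one_div, div_le_div_iff₀ (by positivity) (by norm_num)]
    nlinarith [sq_nonneg (t - 1)]
  linarith

theorem RI_gt_R {t : ℝ} (h : 0 < t) (h1 : t ≤ 1) {x : ℝ} (hx : q0 ≤ x)
    (hx2 : x ≤ ptot - arccos (xt t)) {K : ℝ} (hK : K ≤ rB t) (hK2 : K ^ 2 ≤ 0.45125) :
    K < RI 1 x := by
  have h3 := arccos_le_q0 (xt_ge h1)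
  rcases cases_p x with h2 | h2
  · rw [RI_north h2]
    have h4 := sin_r_ge hx
    nlinarith
  · rw [RI_south h2]
    have h4 : sin (r (arccos (xt t))) ≤ sin (r (ptot - x)) := by
      apply sin_le_sin_of_le_of_le_pi_div_two
      · have := r_nonneg (arccos_nonneg (xt t)); linarith [pi_pos]
      · exact r_le _
      · exact r_mono (by linarith)
    rw [r_small h3, sin_arccos] at h4
    have h5 := rB_lt h h1
    linarith

/-- upper bound of the reduced rotation -/
theorem Phi_le_R {a b : ℝ} {p θ v w' : ℝ → ℝ} (harc : Arc (CR t h h1).toQD a b p θ v w')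
    (hpa : p a = (CR t h h1).toQD.pf) (hpb : p b = (CR t h h1).toQD.pf)
    (hins : ∀ s ∈ Ioo a b, p s < (CR t h h1).toQD.pf) (hw : 0 < w' a)
    (hKb : (CR t h h1).toQD.R (CR t h h1).toQD.pf * w' a ≤ rB t * cos (arctan t)) :
    θ b - θ a - 2 * arcsin (w' a) < π + 2 * arctan t := by
  obtain ⟨β, φ, T, hc, hs, hβ⟩ := cap_R h h1 harc hw hpa hpb hins rfl rfl
  have haI : a ∈ Icc a b := left_mem_Icc.2 harc.lt.le
  have hbI : b ∈ Icc a b := right_mem_Icc.2 harc.lt.le
  have hRf : 0 < (CR t h h1).toQD.R (CR t h h1).toQD.pf := by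
    have := harc.posR haI
    rwa [hpa] at this
  have hat := arctan_eq hRf hw
  set K := (CR t h h1).toQD.R (CR t h h1).toQD.pf * w' a with hK
  rw [hs] at hat
  set ρ := √(1 - K ^ 2) with hρ
  have hρ0 := T.ρ0
  have hρ1 : ρ ≤ 1 := rho_le_one _
  have hK0 := T.K0
  have hcb : cos (arctan t) ≤ 1 := cos_le_one _
  have hKr : K ≤ rB t := hKb.trans (by nlinarith [rB_pos h])
  have hK2 : K ^ 2 ≤ 0.45125 := (pow_le_pow_left₀ hK0.le hKb 2).trans (rB_cos_sq h)
  have hple : ∀ s ∈ Icc a b, p s ≤ ptot - arccos (xt t) := by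
    intro s hs
    rcases hs.1.eq_or_lt with h2 | h2
    · rw [← h2, hpa]; exact (pf_R h h1).le
    rcases hs.2.eq_or_lt with h3 | h3
    · rw [h3, hpb]; exact (pf_R h h1).le
    · exact (hins s ⟨h2, h3⟩).le
  have hvne : ∀ s ∈ Icc a b, q0 ≤ p s → v s ≠ 0 := by
    intro s hs hq hv
    have h2 := harc.unit s hs
    rw [hv] at h2
    have h3 : w' s = 1 := by
      have := w_pos_of harc hw s hs
      nlinarith
    have h4 := T.Kw s hs
    rw [h3, mul_one] at h4
    have h5 := RI_gt_R h h1 hq (hple s hs) hKr hK2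
    have h6 : (CR t h h1).toQD.R (p s) = RI 1 (p s) := rfl
    rw [h6] at h4
    linarith
  have hb : ∀ s ∈ Icc a b, omR (p s) ≠ 0 → 0.74 ≤ |v s| ∧
      (1 - 1 / 3200 : ℝ) ≤ (CR t h h1).toQD.R (p s) := by
    intro s hs hom
    obtain ⟨h2, h3⟩ := omR_ne hom
    have h4 := RI_ge_mid h2.le h3.le zero_le_one le_rfl
    exact ⟨sq_le_of_K hK2 h4 (harc.unit s hs) (T.Kw s hs), h4⟩
  have h5 := (rotF_R h h1 harc).rot_le T.φc T.φd T.eq1 T.K0 T.sq T.Kw
    (v0 := 0.74) (Rm := 1 - 1 / 3200) (by norm_num) (by norm_num) WR_hasDerivAt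
    (fun x hx => WR_zero hx) hvne hb
  rw [T.φa, T.φb] at h5
  have hcont : Continuous fun u => ker K u * FR t (ρ * cos u) :=
    (ker_cont T.K0).mul ((FR_cont t).comp (by fun_prop))
  rw [int_even hcont (fun u => by rw [cos_neg, ker_neg])] at h5
  have h6 := integral_add_adjacent_intervals (μ := MeasureTheory.volume)
    (hcont.intervalIntegrable 0 β) (hcont.intervalIntegrable β π)
  have h7 := (int_kFR_total h h1 hρ0.le hρ1 T.K0).2
  have h8 := int_kFR_tail h h1 hρ0.le T.K0 T.sq hβ.le T.βpi hc.le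
  have hWb : WR (p b) * (SignType.sign (v b) : ℝ) ≤ 11 / 10 := by
    have h9 := WR_le (x := p b) ((harc.pos b hbI).2.trans (CR t h h1).ℓ_lt.le)
    have h10 := WR_nonneg (harc.pos b hbI).1.le
    have h11 : ((SignType.sign (v b) : SignType) : ℝ) ≤ 1 := by
      rcases lt_trichotomy (v b) 0 with h6 | h6 | h6
      · rw [sign_neg h6]; simp
      · rw [h6]; simp
      · rw [sign_pos h6]; simp
    nlinarith
  have hWa : -(WR (p a) * (SignType.sign (v a) : ℝ)) ≤ 11 / 10 := by
    have h9 := WR_le (x := p a) ((harc.pos a haI).2.trans (CR t h h1).ℓ_lt.le)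
    have h10 := WR_nonneg (harc.pos a haI).1.le
    have h11 : -1 ≤ ((SignType.sign (v a) : SignType) : ℝ) := by
      rcases lt_trichotomy (v a) 0 with h6 | h6 | h6
      · rw [sign_neg h6]; simp
      · rw [h6]; simp
      · rw [sign_pos h6]; simp
    nlinarith
  have hh := hR_le h h1
  have hh0 := hR_pos h h1
  have hKle : K ≤ 0.672 := by nlinarith
  have h12 : K * hR t / (0.74 * (1 - 1 / 3200) ^ 2) * (WR (p b) * SignType.sign (v b) -
      WR (p a) * SignType.sign (v a)) ≤ 0.37 * t ^ 2 := by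
    have h13 : K * hR t ≤ 0.672 * (91 / 500 * t ^ 2) := mul_le_mul hKle hh hh0.le (by norm_num)
    have h14 : K * hR t / (0.74 * (1 - 1 / 3200) ^ 2) ≤
        0.672 * (91 / 500 * t ^ 2) / (0.74 * (1 - 1 / 3200) ^ 2) :=
      div_le_div_of_nonneg_right h13 (by norm_num)
    have h15 : 0 ≤ K * hR t / (0.74 * (1 - 1 / 3200) ^ 2) := by positivity
    have h16 : K * hR t / (0.74 * (1 - 1 / 3200) ^ 2) * (WR (p b) * SignType.sign (v b) -
      WR (p a) * SignType.sign (v a)) ≤ K * hR t / (0.74 * (1 - 1 / 3200) ^ 2) * (11 / 5) :=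
      mul_le_mul_of_nonneg_left (by linarith) h15
    have h17 := mul_le_mul_of_nonneg_right h14 (by norm_num : (0:ℝ) ≤ 11 / 5)
    have h18 : 0 ≤ t ^ 2 := sq_nonneg t
    norm_num at h16 h17 ⊢
    linarith
  have h19 : (bt t - 1) * (π / 2) ≤ 0.126 * t := by
    unfold bt dt
    have := pi_lt_d4
    nlinarith
  have h20 : 0.7 * t ≤ arctan t := by
    have h21 : sin (arctan t) ≤ arctan t := sin_le (arctan_pos' h).le
    have h22 : 0.7 * t ≤ sin (arctan t) := by
      rw [sin_arctan, le_div_iff₀ (by positivity)]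
      have h23 : √(1 + t ^ 2) ≤ 1.4143 := by
        rw [sqrt_le_left (by norm_num)]; nlinarith
      nlinarith
    linarith
  nlinarith

end R

end Pool.MP8e.C
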