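import Pool.Agent.Work.MP_8e9dbb.C.CapGen

/-!
# Cap visits of the class I data (helper77): south parts, descending and ascending parts
-/

open Real Set intervalIntegral
open scoped ContDiff

namespace Pool.MP8e.C

/-- bounds of the south speed -/
structure CI.SB (C : CI) : Prop where
  ge : ∀ x ∈ Icc (0:ℝ) 1, x ≤ C.FS x
  le : ∀ x ∈ Icc (0:ℝ) 1, C.FS x ≤ 1
  h_le : C.h ≤ 1

namespace CI

variable (C : CI) {a b : ℝ} {p θ v w' : ℝ → ℝ}

/-- `-f ≤ k` on the south part -/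
theorem f_ge (B : C.SB) {x : ℝ} (h1 : pa ≤ x) (h2 : x ≤ C.pf) : -C.k ≤ C.toQD.f x := by
  rw [C.f_south h1]
  have hA : 0 < C.toQD.A x := C.toQD.posA x ⟨by linarith [pa_pos], h2.trans C.toQD.pf_lt_ℓI.le⟩
  rw [le_div_iff₀ hA, C.A_south h1]
  have hq : 0 ≤ ptot - x := by linarith [C.pf_lt_ptot]
  have h3 := B.ge _ (cos_r_mem hq)
  have h4 := w_le_one (ptot - x)
  have h5 := w_nonneg (ptot - x)
  have h6 := mul_nonneg C.h_pos.le h5
  have h7 := mul_le_mul_of_nonneg_right h3 (sub_nonneg.2 h4)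
  have h8 := mul_le_mul_of_nonneg_left (show cos (r (ptot - x)) * (1 - w (ptot - x)) ≤
    C.FS (cos (r (ptot - x))) * (1 - w (ptot - x)) + C.h * w (ptot - x) by linarith) C.k_pos.le
  linarith

/-- `1 + f / k ≤ 1 / A` on the south part -/
theorem f_le (B : C.SB) {x : ℝ} (h1 : pa ≤ x) (h2 : x ≤ C.pf) :
    1 + C.toQD.f x / C.k ≤ 1 / C.toQD.A x := by
  rw [C.f_south h1]
  have hA : 0 < C.toQD.A x := C.toQD.posA x ⟨by linarith [pa_pos], h2.trans C.toQD.pf_lt_ℓI.le⟩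
  have hk := C.k_pos
  have e : 1 + -(C.k * cos (r (ptot - x)) * (1 - w (ptot - x))) / C.toQD.A x / C.k =
      (C.toQD.A x - cos (r (ptot - x)) * (1 - w (ptot - x))) / C.toQD.A x := by
    field_simp
    ring
  rw [e]
  apply div_le_div_of_nonneg_right _ hA.le
  rw [C.A_south h1]
  have hq : 0 ≤ ptot - x := by linarith [C.pf_lt_ptot]
  have h3 := B.le _ (cos_r_mem hq)
  have h4 := w_le_one (ptot - x)
  have h5 := w_nonneg (ptot - x)
  have h9 := cos_r_nonneg hq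
  have h6 : C.h * w (ptot - x) ≤ 1 * w (ptot - x) := mul_le_mul_of_nonneg_right B.h_le h5
  have h7 : (C.FS (cos (r (ptot - x))) - cos (r (ptot - x))) * (1 - w (ptot - x)) ≤
      1 * (1 - w (ptot - x)) := mul_le_mul_of_nonneg_right (by linarith) (by linarith)
  linarith

theorem south_time (B : C.SB) (h : Arc C.toQD a b p θ v w') (hb : p b = cS)
    (hin : ∀ t ∈ Icc a b, cS ≤ p t ∧ p t ≤ C.pf) (hvb : v b < 0) {K : ℝ}
    (hK : ∀ t ∈ Icc a b, C.toQD.R (p t) * w' t = K) (hK0 : 0 < K) (hK1 : K < 1) :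
    (√(1 - K ^ 2) + C.toQD.R (p a) * v a) / C.k ≤ b - a := by
  have haI : a ∈ Icc a b := left_mem_Icc.2 h.lt.le
  have hbI : b ∈ Icc a b := right_mem_Icc.2 h.lt.le
  have hX : 0 < 1 - K ^ 2 := by nlinarith
  have hρ0 : 0 < √(1 - K ^ 2) := sqrt_pos.2 hX
  have hρ2 : √(1 - K ^ 2) ^ 2 = 1 - K ^ 2 := sq_sqrt hX.le
  have hRb : C.toQD.R (p b) = 1 := by rw [hb]; exact C.R_cS
  have hvb2 : v b = -√(1 - K ^ 2) := by
    have h1 := v_sq h hK hbI hRb
    have h2 : (-(v b)) ^ 2 = √(1 - K ^ 2) ^ 2 := by rw [neg_sq, h1, hρ2]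
    have h3 := (pow_left_inj₀ (by linarith) hρ0.le two_ne_zero).1 h2
    linarith
  have hk := C.k_pos
  rw [div_le_iff₀ hk]
  have h1 := cmp_deriv (g := fun t => -(C.toQD.R (p t) * v t)) (h := fun t => C.k * t)
    h.cRv.neg (by fun_prop) (fun t ht => (h.dRv ht).neg)
    (fun t _ => (hasDerivAt_id' t).const_mul C.k) (fun t ht => by
      have h2 := hin t (Ioo_subset_Icc_self ht)
      have := C.f_ge B (pa_lt_cS.le.trans h2.1) h2.2
      linarith) haI hbI h.lt.le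
  rw [hRb, hvb2] at h1
  linarith

/-- `arcsin (v a)` in terms of `w a` -/
theorem arcsin_v {x y : ℝ} (h : x ^ 2 + y ^ 2 = 1) (hx : x ≤ 0) (hy : 0 ≤ y) :
    arcsin x = arcsin y - π / 2 := by
  have h1 : x = -√(1 - y ^ 2) := by
    have h2 : (-x) ^ 2 = 1 - y ^ 2 := by rw [neg_sq]; linarith
    have h3 : √(1 - y ^ 2) = -x := by rw [← h2, sqrt_sq (by linarith)]
    linarith
  rw [h1, arcsin_neg, ← arccos_eq_arcsin hy, arccos_eq_pi_div_two_sub_arcsin]
  ring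

theorem south_rot_ge (B : C.SB) (h : Arc C.toQD a b p θ v w') (hb : p b = cS)
    (hin : ∀ t ∈ Icc a b, cS ≤ p t ∧ p t ≤ C.pf) (hva : v a ≤ 0) (hvb : v b < 0) {K : ℝ}
    (hK : ∀ t ∈ Icc a b, C.toQD.R (p t) * w' t = K) (hK0 : 0 < K) :
    (arcsin (w' a) - arcsin K) / C.k ≤ θ b - θ a := by
  have haI : a ∈ Icc a b := left_mem_Icc.2 h.lt.le
  have hbI : b ∈ Icc a b := right_mem_Icc.2 h.lt.le
  have hw : ∀ t ∈ Icc a b, 0 < w' t := fun t ht => by
    have h1 := hK t ht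
    have h2 := h.posR ht
    rw [← h1] at hK0
    exact (pos_iff_pos_of_mul_pos hK0).1 h2
  have hwb : w' b = K := by
    have := hK b hbI
    rw [hb, C.R_cS, one_mul] at this
    exact this
  have e1 := arcsin_v (h.unit a haI) hva (hw a haI).le
  have e2 := arcsin_v (h.unit b hbI) hvb.le (hw b hbI).le
  rw [hwb] at e2
  have hk := C.k_pos
  rw [div_le_iff₀ hk]
  have h1 := cmp_deriv (g := fun t => -arcsin (v t)) (h := fun t => C.k * θ t)
    (h.cψ).neg (h.cθ.const_smul C.k) (fun t ht => (h.dψ hw ht).neg)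
    (fun t ht => (h.dθ t ht).const_mul C.k) (fun t ht => by
      have htI := Ioo_subset_Icc_self ht
      have h2 := hin t htI
      have h3 := C.f_ge B (pa_lt_cS.le.trans h2.1) h2.2
      have h4 : 0 ≤ w' t / C.toQD.R (p t) := div_nonneg (hw t htI).le (h.posR htI).le
      have h5 := mul_le_mul_of_nonneg_right h3 h4
      have e : C.toQD.f (p t) * w' t / C.toQD.R (p t) =
        C.toQD.f (p t) * (w' t / C.toQD.R (p t)) := by ring
      rw [e]
      linarith) haI hbI h.lt.le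
  rw [e1, e2] at h1
  linarith

theorem south_rot_le (B : C.SB) (h : Arc C.toQD a b p θ v w') (hb : p b = cS)
    (hin : ∀ t ∈ Icc a b, cS ≤ p t ∧ p t ≤ C.pf) (hv : ∀ t ∈ Ioc a b, v t < 0)
    (hva : v a ≤ 0) {K : ℝ}
    (hK : ∀ t ∈ Icc a b, C.toQD.R (p t) * w' t = K) (hK0 : 0 < K) (hK1 : K ^ 2 ≤ 1 / 2)
    (hR : ∀ t ∈ Icc a b, (0.998:ℝ) ≤ C.toQD.R (p t)) :
    θ b - θ a ≤ (arcsin (w' a) - arcsin K) / C.k + K / (0.99 * 0.7) * (p a - cS) := by
  have haI : a ∈ Icc a b := left_mem_Icc.2 h.lt.le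
  have hbI : b ∈ Icc a b := right_mem_Icc.2 h.lt.le
  have hvb : v b < 0 := hv b ⟨h.lt, le_rfl⟩
  have hw : ∀ t ∈ Icc a b, 0 < w' t := fun t ht => by
    have h1 := hK t ht
    have h2 := h.posR ht
    rw [← h1] at hK0
    exact (pos_iff_pos_of_mul_pos hK0).1 h2
  have hwb : w' b = K := by
    have := hK b hbI
    rw [hb, C.R_cS, one_mul] at this
    exact this
  have e1 := arcsin_v (h.unit a haI) hva (hw a haI).le
  have e2 := arcsin_v (h.unit b hbI) hvb.le (hw b hbI).le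
  rw [hwb] at e2
  have hk := C.k_pos
  have hvt : ∀ t ∈ Icc a b, 0.7 ≤ |v t| := by
    intro t ht
    have hu := h.unit t ht
    have h2 : w' t ^ 2 ≤ 0.5021 := by
      have h3 : K ^ 2 = C.toQD.R (p t) ^ 2 * w' t ^ 2 := by rw [← hK t ht]; ring
      have h4 : (0.998 : ℝ) ^ 2 ≤ C.toQD.R (p t) ^ 2 :=
        pow_le_pow_left₀ (by norm_num) (hR t ht) 2
      have h5 := mul_le_mul_of_nonneg_right h4 (sq_nonneg (w' t))
      norm_num at h5 ⊢
      linarith
    by_contra hcon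
    push Not at hcon
    have h5 := sq_abs (v t)
    have h6 := abs_nonneg (v t)
    nlinarith
  have h1 := cmp_deriv (g := fun t => θ t + arcsin (v t) / C.k)
    (h := fun t => -(K / (0.99 * 0.7) * p t))
    (h.cθ.add (h.cψ.div_const C.k)) ((h.cp.const_smul (K / (0.99 * 0.7))).neg)
    (fun t ht => (dθK h hK ht).add ((h.dψ hw ht).div_const C.k))
    (fun t ht => ((h.dp t ht).const_mul (K / (0.99 * 0.7))).neg) (fun t ht => by
      have htI := Ioo_subset_Icc_self ht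
      have h2 := hin t htI
      have h3 := C.f_le B (pa_lt_cS.le.trans h2.1) h2.2
      have hA := h.posA htI
      have hRp := h.posR htI
      have hRt := hR t htI
      have hvlt := hv t ⟨ht.1, ht.2.le⟩
      have hva := hvt t htI
      rw [abs_of_neg hvlt] at hva
      have e3 : w' t = K / C.toQD.R (p t) := by rw [eq_div_iff hRp.ne', ← hK t htI]; ring
      have e : K / C.toQD.R (p t) ^ 2 + C.toQD.f (p t) * w' t / C.toQD.R (p t) / C.k =
        K / C.toQD.R (p t) ^ 2 * (1 + C.toQD.f (p t) / C.k) := by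
        rw [e3]; field_simp
      rw [e]
      have h4 : K / C.toQD.R (p t) ^ 2 ≤ K / 0.99 := by
        apply div_le_div_of_nonneg_left hK0.le (by norm_num)
        nlinarith
      have h5 : 0 ≤ K / C.toQD.R (p t) ^ 2 := by positivity
      have h6 : 1 / C.toQD.A (p t) ≤ -v t / 0.7 / C.toQD.A (p t) := by
        apply div_le_div_of_nonneg_right _ hA.le
        rw [le_div_iff₀ (by norm_num)]; linarith
      calc K / C.toQD.R (p t) ^ 2 * (1 + C.toQD.f (p t) / C.k)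
          ≤ K / C.toQD.R (p t) ^ 2 * (-v t / 0.7 / C.toQD.A (p t)) :=
            mul_le_mul_of_nonneg_left (h3.trans h6) h5
        _ ≤ K / 0.99 * (-v t / 0.7 / C.toQD.A (p t)) :=
            mul_le_mul_of_nonneg_right h4
              (div_nonneg (div_nonneg (by linarith) (by norm_num)) hA.le)
        _ = -(K / (0.99 * 0.7) * (v t / C.toQD.A (p t))) := by field_simp) haI hbI h.lt.le
  rw [e1, e2, hb] at h1
  have e4 : (arcsin (w' a) - arcsin K) / C.k = arcsin (w' a) / C.k - arcsin K / C.k := by ring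
  have e5 : (arcsin K - π / 2) / C.k = arcsin K / C.k - π / 2 / C.k := by ring
  have e6 : (arcsin (w' a) - π / 2) / C.k = arcsin (w' a) / C.k - π / 2 / C.k := by ring
  rw [e5, e6] at h1
  rw [e4]
  linarith

/-! ## the descending part -/

/-- Splitting of the descending part `[a, b]`, `b` = first time with `p = pa`. -/
theorem desc_split (h : Arc C.toQD a b p θ v w') (ha : cS < p a) (ha' : p a ≤ C.pf)
    (hb : p b = pa) (hv : ∀ t ∈ Ioc a b, v t < 0) :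
    ∃ c, a < c ∧ c < b ∧ p c = cS ∧ (∀ t ∈ Icc a c, cS ≤ p t ∧ p t ≤ C.pf) ∧
      (∀ t ∈ Icc c b, pa ≤ p t ∧ p t ≤ cS) := by
  have hanti : StrictAntiOn p (Icc a b) := by
    apply strictAntiOn_of_deriv_neg (convex_Icc _ _) h.cp
    intro x hx
    rw [interior_Icc] at hx
    rw [(h.dp x hx).deriv]
    exact div_neg_of_neg_of_pos (hv x ⟨hx.1, hx.2.le⟩) (h.posA (Ioo_subset_Icc_self hx))
  have hpc := pa_lt_cS
  obtain ⟨c, hc, hpcc⟩ := intermediate_value_Icc' h.lt.le h.cp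
    (show cS ∈ Icc (p b) (p a) from ⟨by rw [hb]; exact hpc.le, ha.le⟩)
  have hac : a < c := by
    rcases eq_or_lt_of_le hc.1 with h1 | h1
    · rw [← h1] at hpcc; linarith
    · exact h1
  have hcb : c < b := by
    rcases eq_or_lt_of_le hc.2 with h1 | h1
    · rw [h1, hb] at hpcc; linarith
    · exact h1
  refine ⟨c, hac, hcb, hpcc, ?_, ?_⟩
  · intro t ht
    constructor
    · rw [← hpcc]
      exact hanti.antitoneOn ⟨ht.1, ht.2.trans hc.2⟩ hc ht.2
    · exact (hanti.antitoneOn ⟨le_rfl, h.lt.le⟩ ⟨ht.1, ht.2.trans hc.2⟩ ht.1).trans ha'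
  · intro t ht
    constructor
    · rw [← hb]
      exact hanti.antitoneOn ⟨hc.1.trans ht.1, ht.2⟩ ⟨h.lt.le, le_rfl⟩ ht.2
    · rw [← hpcc]
      exact hanti.antitoneOn hc ⟨hc.1.trans ht.1, ht.2⟩ ht.1

/-- estimates of the descending part -/
theorem desc_est (B : C.SB) (h : Arc C.toQD a b p θ v w') (ha : cS < p a) (ha' : p a ≤ C.pf)
    (hb : p b = pa) (hv : ∀ t ∈ Ioc a b, v t < 0) (hva : v a ≤ 0) {K : ℝ}
    (hK : ∀ t ∈ Icc a b, C.toQD.R (p t) * w' t = K) (hK0 : 0 < K) (hK1 : K < 1) :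
    (√(1 - K ^ 2) + C.toQD.R (p a) * v a) / C.k + C.h / √(1 - K ^ 2) ≤ b - a ∧
    (arcsin (w' a) - arcsin K) / C.k + K * C.h / √(1 - K ^ 2) ≤ θ b - θ a ∧
    (K ^ 2 ≤ 1 / 2 → (∀ x ∈ Icc cS C.pf, (0.998:ℝ) ≤ C.toQD.R x) →
      θ b - θ a ≤ (arcsin (w' a) - arcsin K) / C.k + K / (0.99 * 0.7) * (p a - cS) +
        K * C.h / √(1 - K ^ 2)) := by
  obtain ⟨c, hac, hcb, hpc, h1, h2⟩ := C.desc_split h ha ha' hb hv
  have hKs : ∀ t ∈ Icc a c, C.toQD.R (p t) * w' t = K := fun t ht =>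
    hK t ⟨ht.1, ht.2.trans hcb.le⟩
  have hKn : ∀ t ∈ Icc c b, C.toQD.R (p t) * w' t = K := fun t ht =>
    hK t ⟨hac.le.trans ht.1, ht.2⟩
  have hS := h.sub le_rfl hac hcb.le
  have hP := h.sub hac.le hcb le_rfl
  have hvc := hv c ⟨hac, hcb.le⟩
  have hvb := hv b ⟨h.lt, le_rfl⟩
  obtain ⟨p1, p2⟩ := C.plateau hP hpc hb h2 hvb hKn hK0 hK1
  have s1 := C.south_time B hS hpc h1 hvc hKs hK0 hK1
  have s2 := C.south_rot_ge B hS hpc h1 hva hvc hKs hK0
  refine ⟨by linarith, by linarith, fun h3 h4 => ?_⟩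
  have s3 := C.south_rot_le B hS hpc h1 (fun t ht => hv t ⟨ht.1, ht.2.trans hcb.le⟩) hva hKs hK0 h3
    (fun t ht => h4 _ (h1 t ht))
  linarith

/-! ## whole visits -/

/-- time of a visit -/
theorem visit_time (B : C.SB) (h : Arc C.toQD a b p θ v w') (ha : cS < p a) (ha' : p a ≤ C.pf)
    (hba : p b = p a) (hin : ∀ t ∈ Ioo a b, p t < p a) (hw : 0 < w' a) {K : ℝ}
    (hKd : K = C.toQD.R (p a) * w' a) :
    0 < K ∧ K < 1 ∧ 2 * (∫ u in (0:ℝ)..(π / 2), C.FN (√(1 - K ^ 2) * cos u)) +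
      2 * (√(1 - K ^ 2) / C.k) + 2 * (C.h / √(1 - K ^ 2)) ≤
      b - a + 2 * (√(C.toQD.R (p a) ^ 2 - K ^ 2) / C.k) := by
  have haI : a ∈ Icc a b := left_mem_Icc.2 h.lt.le
  have hbI : b ∈ Icc a b := right_mem_Icc.2 h.lt.le
  have hK : ∀ t ∈ Icc a b, C.toQD.R (p t) * w' t = K := fun t ht => by
    rw [hKd]; exact h.K_eq ht haI
  have hK0 : 0 < K := by rw [hKd]; exact mul_pos (h.posR haI) hw
  obtain ⟨hK1, t₂, t₃, h2, h23, h3, hp2, hp3, hin23, hv2, hv3⟩ :=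
    C.visit_split h hK hK0 ha ha' hba hin
  refine ⟨hK0, hK1, ?_⟩
  have hva := v_nonpos_start h hin
  have hvb := v_nonneg_end h (fun t ht => by rw [hba]; exact hin t ht)
  have d1 := (C.desc_est B (h.sub le_rfl h2 (by linarith)) ha ha' hp2 hv2 hva
    (fun t ht => hK t ⟨ht.1, by linarith [ht.2]⟩) hK0 hK1).1
  have hr := revR (h.sub (c := t₃) (d := b) (by linarith) h3 le_rfl)
  have d2 := (C.desc_est B hr (by rw [neg_neg, hba]; exact ha) (by rw [neg_neg, hba]; exact ha')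
    (by rw [neg_neg]; exact hp3) (fun t ht => by
      have := hv3 (-t) ⟨by linarith [ht.2], by linarith [ht.1]⟩
      linarith) (by rw [neg_neg]; linarith)
    (fun t ht => hK (-t) ⟨by linarith [ht.2], by linarith [ht.1]⟩) hK0 hK1).1
  rw [neg_neg] at d2
  have d3 := C.north_time (h.sub h2.le h23 h3.le) hp2 hp3 hin23
    (fun t ht => hK t ⟨by linarith [ht.1], by linarith [ht.2]⟩) hK0 hK1
  have e1 : √(C.toQD.R (p a) ^ 2 - K ^ 2) = -(C.toQD.R (p a) * v a) := by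
    rw [← RvK h hK haI]
    have := mul_nonneg (h.posR haI).le (neg_nonneg.2 hva)
    rw [← neg_sq, sqrt_sq (by linarith)]
  have e2 : √(C.toQD.R (p a) ^ 2 - K ^ 2) = C.toQD.R (p b) * v b := by
    rw [← hba, ← RvK h hK hbI]
    have := mul_nonneg (h.posR hbI).le hvb
    rw [sqrt_sq (by linarith)]
  have e3 : (√(1 - K ^ 2) + C.toQD.R (p a) * v a) / C.k = √(1 - K ^ 2) / C.k -
      √(C.toQD.R (p a) ^ 2 - K ^ 2) / C.k := by rw [e1]; ring
  have e4 : (√(1 - K ^ 2) + C.toQD.R (p b) * -v b) / C.k = √(1 - K ^ 2) / C.k -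
      √(C.toQD.R (p a) ^ 2 - K ^ 2) / C.k := by rw [e2]; ring
  rw [e3] at d1
  rw [e4] at d2
  linarith

/-- rotation of a visit -/
theorem visit_rot (B : C.SB) (h : Arc C.toQD a b p θ v w') (ha : cS < p a) (ha' : p a ≤ C.pf)
    (hba : p b = p a) (hin : ∀ t ∈ Ioo a b, p t < p a) (hw : 0 < w' a) {K : ℝ}
    (hKd : K = C.toQD.R (p a) * w' a) :
    0 < K ∧ K < 1 ∧ 2 * (∫ u in (0:ℝ)..(π / 2), ker K u * C.FN (√(1 - K ^ 2) * cos u)) -
      2 * (arcsin K / C.k) + 2 * (K * C.h / √(1 - K ^ 2)) ≤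
      θ b - θ a - 2 * (arcsin (w' a) / C.k) ∧
    (K ^ 2 ≤ 1 / 2 → (∀ x ∈ Icc cS C.pf, (0.998:ℝ) ≤ C.toQD.R x) →
      θ b - θ a - 2 * (arcsin (w' a) / C.k) ≤
      2 * (∫ u in (0:ℝ)..(π / 2), ker K u * C.FN (√(1 - K ^ 2) * cos u)) -
      2 * (arcsin K / C.k) + 2 * (K * C.h / √(1 - K ^ 2)) +
        2 * (K / (0.99 * 0.7) * (p a - cS)) + K * C.h / (0.7 * 0.99 ^ 2) * (1 / 20)) := by
  have haI : a ∈ Icc a b := left_mem_Icc.2 h.lt.le
  have hbI : b ∈ Icc a b := right_mem_Icc.2 h.lt.le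
  have hK : ∀ t ∈ Icc a b, C.toQD.R (p t) * w' t = K := fun t ht => by
    rw [hKd]; exact h.K_eq ht haI
  have hK0 : 0 < K := by rw [hKd]; exact mul_pos (h.posR haI) hw
  obtain ⟨hK1, t₂, t₃, h2, h23, h3, hp2, hp3, hin23, hv2, hv3⟩ :=
    C.visit_split h hK hK0 ha ha' hba hin
  refine ⟨hK0, hK1, ?_⟩
  have hva := v_nonpos_start h hin
  have hvb := v_nonneg_end h (fun t ht => by rw [hba]; exact hin t ht)
  obtain ⟨-, d1, d1'⟩ := C.desc_est B (h.sub le_rfl h2 (by linarith)) ha ha' hp2 hv2 hva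
    (fun t ht => hK t ⟨ht.1, by linarith [ht.2]⟩) hK0 hK1
  have hr := revR (h.sub (c := t₃) (d := b) (by linarith) h3 le_rfl)
  obtain ⟨-, d2, d2'⟩ := C.desc_est B hr (by rw [neg_neg, hba]; exact ha)
    (by rw [neg_neg, hba]; exact ha') (by rw [neg_neg]; exact hp3) (fun t ht => by
      have := hv3 (-t) ⟨by linarith [ht.2], by linarith [ht.1]⟩
      linarith) (by rw [neg_neg]; linarith)
    (fun t ht => hK (-t) ⟨by linarith [ht.2], by linarith [ht.1]⟩) hK0 hK1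
  simp only [neg_neg] at d2 d2'
  have hwb : w' b = w' a := by
    have h5 := hK b hbI
    have h6 := hK a haI
    rw [hba] at h5
    have h7 := (h.posR haI).ne'
    exact mul_left_cancel₀ h7 (h5.trans h6.symm)
  rw [hwb] at d2 d2'
  rw [hba] at d2'
  have hKN : ∀ t ∈ Icc t₂ t₃, C.toQD.R (p t) * w' t = K := fun t ht =>
    hK t ⟨by linarith [ht.1], by linarith [ht.2]⟩
  have d3 := C.north_rot_ge (h.sub h2.le h23 h3.le) hp2 hp3 hin23 hKN hK0 hK1
  have e : (arcsin (w' a) - arcsin K) / C.k = arcsin (w' a) / C.k - arcsin K / C.k := by ring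
  rw [e] at d1 d2 d1' d2'
  refine ⟨by linarith, fun h5 h6 => ?_⟩
  have d4 := C.north_rot_le (h.sub h2.le h23 h3.le) hp2 hp3 hin23 hKN hK0 h5
  have d5 := d1' h5 h6
  have d6 := d2' h5 h6
  linarith

end CI

end Pool.MP8e.C
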