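import Pool.Agent.Work.MP_8e9dbb.C.CapSouth

/-!
# `CapsI` for phase S' (helper77)
-/

open Real Set intervalIntegral
open scoped ContDiff

namespace Pool.MP8e.C

theorem int_split {G G1 : ℝ → ℝ} (hG : Continuous G) (hG1 : Continuous G1) {u0 b c : ℝ}
    (h0 : 0 ≤ u0) (h1 : u0 ≤ b) (hA : ∀ u ∈ Icc 0 u0, G u ≤ G1 u)
    (hB : ∀ u ∈ Icc u0 b, G u ≤ G1 u + c) :
    ∫ u in (0:ℝ)..b, G u ≤ (∫ u in (0:ℝ)..b, G1 u) + c * (b - u0) := by
  have i1 := integral_add_adjacent_intervals (μ := MeasureTheory.volume)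
    (hG.intervalIntegrable 0 u0) (hG.intervalIntegrable u0 b)
  have i2 := integral_add_adjacent_intervals (μ := MeasureTheory.volume)
    (hG1.intervalIntegrable 0 u0) (hG1.intervalIntegrable u0 b)
  have i3 := integral_mono_on (μ := MeasureTheory.volume) h0 (hG.intervalIntegrable 0 u0)
    (hG1.intervalIntegrable 0 u0) hA
  have hc2 : Continuous fun u => G1 u + c := hG1.add continuous_const
  have i4 := integral_mono_on (μ := MeasureTheory.volume) h1 (hG.intervalIntegrable u0 b)
    (hc2.intervalIntegrable u0 b) hB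
  rw [integral_add (hG1.intervalIntegrable _ _) (by simp), integral_const, smul_eq_mul] at i4
  linarith

section ints

variable {K ρ : ℝ} (hK : 0 < K) (hρ0 : 0 < ρ) (hKρ : K ^ 2 + ρ ^ 2 = 1)

/-- the point after which `ρ cos u` can be `< 1/20` -/
theorem jordan {ρ : ℝ} (hρ0 : 0 < ρ) {u : ℝ} (h0 : 0 ≤ u)
    (h1 : u ≤ π / 2 * (1 - 1 / (20 * ρ))) : 1 / 20 ≤ ρ * cos u := by
  have hpi := pi_pos
  have h2 : 0 < 1 / (20 * ρ) := by positivity
  have h3 : u ≤ π / 2 := by nlinarith
  have h4 := mul_le_sin (x := π / 2 - u) (by linarith) (by linarith)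
  rw [sin_pi_div_two_sub] at h4
  have h5 : 1 / (20 * ρ) ≤ 2 / π * (π / 2 - u) := by
    have e : 2 / π * (π / 2 - u) = 1 - 2 / π * u := by field_simp
    rw [e]
    have h6 := mul_le_mul_of_nonneg_left h1 (show 0 ≤ 2 / π by positivity)
    have e2 : 2 / π * (π / 2 * (1 - 1 / (20 * ρ))) = 1 - 1 / (20 * ρ) := by field_simp
    rw [e2] at h6
    linarith
  have h7 := mul_le_mul_of_nonneg_left (h5.trans h4) hρ0.le
  have e3 : ρ * (1 / (20 * ρ)) = 1 / 20 := by field_simp
  linarith

include hρ0 hKρ in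
theorem rho_le : ρ ≤ 1 := by nlinarith [sq_nonneg K]

include hρ0 hKρ in
theorem int_FN_ge : 2 * π - 2 * ρ - π / (20 * ρ) ≤
    2 * ∫ u in (0:ℝ)..(π / 2), FN 1 (ρ * cos u) := by
  have hpi := pi_pos
  have hρ1 := rho_le hρ0 hKρ
  have hcN : Continuous fun u => FN 1 (ρ * cos u) := (FN_cont 1).comp (by fun_prop)
  have hcg : Continuous fun u => gg 1 (ρ * cos u) := (gg_cont 1).comp (by fun_prop)
  have i1 : ∫ u in (0:ℝ)..(π / 2), (2 - gg 1 (ρ * cos u)) ≤
      ∫ u in (0:ℝ)..(π / 2), FN 1 (ρ * cos u) := by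
    apply integral_mono_on (by positivity) ((continuous_const.sub hcg).intervalIntegrable _ _)
      (hcN.intervalIntegrable _ _)
    intro u _
    exact FN_ge one_pos le_rfl _
  rw [integral_sub (by simp) (hcg.intervalIntegrable _ _), integral_const, smul_eq_mul,
    sub_zero] at i1
  have i2 : ∫ u in (0:ℝ)..(π / 2), gg 1 (ρ * cos u) ≤ ρ + π / (40 * ρ) := by
    rcases le_or_gt ρ (1 / 20) with h1 | h1
    · have i3 : ∫ u in (0:ℝ)..(π / 2), gg 1 (ρ * cos u) ≤ ∫ u in (0:ℝ)..(π / 2), (1:ℝ) := by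
        apply integral_mono_on (by positivity) (hcg.intervalIntegrable _ _) (by simp)
        intro u hu
        exact gg_le_one (cos_mem hu hρ0.le hρ1).2
      rw [integral_const, smul_eq_mul, sub_zero, mul_one] at i3
      have h2 : π / 2 ≤ π / (40 * ρ) := by
        apply div_le_div_of_nonneg_left hpi.le (by positivity)
        linarith
      linarith
    · set u0 := π / 2 * (1 - 1 / (20 * ρ)) with hu0
      have h2 : 1 / (20 * ρ) ≤ 1 := by
        rw [div_le_one (by positivity)]; linarith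
      have h3 : 0 < 1 / (20 * ρ) := by positivity
      have h4 : 0 ≤ u0 := by
        rw [hu0]; apply mul_nonneg (by positivity); linarith
      have h5 : u0 ≤ π / 2 := by rw [hu0]; nlinarith
      have i3 := int_split (G := fun u => gg 1 (ρ * cos u)) (G1 := fun u => ρ * cos u) (c := 1)
        hcg (by fun_prop) h4 h5 (fun u hu => by
          have := jordan hρ0 hu.1 hu.2
          rw [gg_id one_pos (by rw [xt_one]; exact this)])
        (fun u hu => by
          have h6 := cos_mem (u := u) ⟨h4.trans hu.1, hu.2⟩ hρ0.le hρ1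
          have := gg_le_one (t := 1) h6.2
          linarith [h6.1])
      rw [integral_const_mul, integral_cos, sin_pi_div_two, sin_zero, sub_zero, mul_one,
        one_mul] at i3
      have e : π / 2 - u0 = π / (40 * ρ) := by rw [hu0]; field_simp; ring
      rw [e] at i3
      exact i3
  have e : π / (20 * ρ) = 2 * (π / (40 * ρ)) := by field_simp; norm_num
  rw [e]
  linarith

theorem FN_cont1 : Continuous (FN 1) := FN_cont 1

include hKρ in
theorem ker_eq (u : ℝ) : ker K u = K / (1 - (ρ * cos u) ^ 2) := by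
  unfold ker
  have hs := sin_sq_add_cos_sq u
  have e : K ^ 2 * cos u ^ 2 + sin u ^ 2 = 1 - (ρ * cos u) ^ 2 := by
    rw [mul_pow, show ρ ^ 2 = 1 - K ^ 2 by linarith, show sin u ^ 2 = 1 - cos u ^ 2 by linarith]
    ring
  rw [e]

include hK hρ0 hKρ in
theorem arctan_rho : arctan (ρ / K) = π / 2 - arcsin K := by
  have h1 := arctan_eq (R := 1) one_pos hK
  have e : √(1 ^ 2 - (1 * K) ^ 2) = ρ := by
    rw [one_mul, show (1:ℝ) ^ 2 - K ^ 2 = ρ ^ 2 by linarith, sqrt_sq hρ0.le]
  rw [e, one_mul] at h1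
  exact h1

include hK hρ0 hKρ in
theorem int_kx : ∫ u in (0:ℝ)..(π / 2), ker K u * (ρ * cos u) = π / 2 - arcsin K := by
  rw [int_ker_cos hK hKρ, sin_pi_div_two, sin_zero, mul_one, mul_zero, zero_div, arctan_zero,
    sub_zero, arctan_rho hK hρ0 hKρ]

theorem int_k {K : ℝ} (hK : 0 < K) : ∫ u in (0:ℝ)..(π / 2), ker K u = π / 2 := by
  rw [int_ker hK, EE_zero, EE_pi_div_two, sub_zero]

include hK hρ0 hKρ in
theorem int_kFN_le : 2 * (∫ u in (0:ℝ)..(π / 2), ker K u * FN 1 (ρ * cos u)) ≤
    π + 2 * arcsin K + 2 / 25 * π := by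
  have hpi := pi_pos
  have hρ1 := rho_le hρ0 hKρ
  have hk := ker_cont hK
  have hcN : Continuous fun u => ker K u * FN 1 (ρ * cos u) := hk.mul ((FN_cont 1).comp (by fun_prop))
  have hcx : Continuous fun u => ker K u * (ρ * cos u) := hk.mul (by fun_prop)
  have i1 : ∫ u in (0:ℝ)..(π / 2), ker K u * FN 1 (ρ * cos u) ≤
      ∫ u in (0:ℝ)..(π / 2), ((2 + 2 / 25) * ker K u - ker K u * (ρ * cos u)) := by
    have hc2 : Continuous fun u => (2 + 2 / 25) * ker K u - ker K u * (ρ * cos u) :=
      (hk.const_mul _).sub hcx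
    apply integral_mono_on (by positivity) (hcN.intervalIntegrable _ _)
      (hc2.intervalIntegrable _ _)
    intro u hu
    obtain ⟨h3, h4⟩ := cos_mem hu hρ0.le hρ1
    have h5 : FN 1 (ρ * cos u) ≤ 2 + 2 / 25 - ρ * cos u := by
      unfold FN
      have h6 := cap_le one_pos le_rfl h4
      have h7 := gg_ge (t := 1) h4
      rw [bt_one] at h6
      linarith
    have := mul_le_mul_of_nonneg_left h5 (ker_pos hK u).le
    linarith
  rw [integral_sub ((hk.const_mul _).intervalIntegrable _ _) (hcx.intervalIntegrable _ _),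
    integral_const_mul, int_k hK, int_kx hK hρ0 hKρ] at i1
  linarith

include hK hρ0 hKρ in
theorem int_kFN_ge : π + 2 * arcsin K - 400 / 399 * K * (π / (20 * ρ)) ≤
    2 * (∫ u in (0:ℝ)..(π / 2), ker K u * FN 1 (ρ * cos u)) := by
  have hpi := pi_pos
  have hρ1 := rho_le hρ0 hKρ
  have hk := ker_cont hK
  have hcN : Continuous fun u => ker K u * FN 1 (ρ * cos u) := hk.mul ((FN_cont 1).comp (by fun_prop))
  have hcg : Continuous fun u => ker K u * gg 1 (ρ * cos u) := hk.mul ((gg_cont 1).comp (by fun_prop))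
  have hcx : Continuous fun u => ker K u * (ρ * cos u) := hk.mul (by fun_prop)
  have i1 : ∫ u in (0:ℝ)..(π / 2), (2 * ker K u - ker K u * gg 1 (ρ * cos u)) ≤
      ∫ u in (0:ℝ)..(π / 2), ker K u * FN 1 (ρ * cos u) := by
    have hc2 : Continuous fun u => 2 * ker K u - ker K u * gg 1 (ρ * cos u) :=
      (hk.const_mul _).sub hcg
    apply integral_mono_on (by positivity) (hc2.intervalIntegrable _ _)
      (hcN.intervalIntegrable _ _)
    intro u _
    have := mul_le_mul_of_nonneg_left (FN_ge one_pos le_rfl (ρ * cos u)) (ker_pos hK u).le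
    linarith
  rw [integral_sub ((hk.const_mul _).intervalIntegrable _ _) (hcg.intervalIntegrable _ _),
    integral_const_mul, int_k hK] at i1
  have i2 : ∫ u in (0:ℝ)..(π / 2), ker K u * gg 1 (ρ * cos u) ≤
      π / 2 - arcsin K + 400 / 399 * K * (π / (40 * ρ)) := by
    have hpt : ∀ u ∈ Icc 0 (π / 2), ker K u * gg 1 (ρ * cos u) ≤
        ker K u * (ρ * cos u) + 400 / 399 * K := by
      intro u hu
      obtain ⟨h3, h4⟩ := cos_mem hu hρ0.le hρ1
      rcases le_or_gt (1 / 20) (ρ * cos u) with h5 | h5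
      · rw [gg_id one_pos (by rw [xt_one]; exact h5)]
        have : 0 ≤ 400 / 399 * K := by positivity
        linarith
      · have h6 : ker K u ≤ 400 / 399 * K := by
          rw [ker_eq hKρ, div_le_iff₀ (by nlinarith)]
          have : (ρ * cos u) ^ 2 ≤ 1 / 400 := by nlinarith
          nlinarith
        have h7 := mul_le_mul_of_nonneg_left (gg_le_one (t := 1) h4) (ker_pos hK u).le
        have h8 := mul_nonneg (ker_pos hK u).le h3
        linarith
    rcases le_or_gt ρ (1 / 20) with h1 | h1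
    · have hc2 : Continuous fun u => ker K u * (ρ * cos u) + 400 / 399 * K :=
        hcx.add continuous_const
      have i3 := integral_mono_on (μ := MeasureTheory.volume) (by positivity)
        (hcg.intervalIntegrable 0 (π / 2)) (hc2.intervalIntegrable 0 (π / 2)) hpt
      rw [integral_add (hcx.intervalIntegrable _ _) (by simp), int_kx hK hρ0 hKρ,
        integral_const, smul_eq_mul, sub_zero] at i3
      have h2 : π / 2 ≤ π / (40 * ρ) := by
        apply div_le_div_of_nonneg_left hpi.le (by positivity)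
        linarith
      have h3 := mul_le_mul_of_nonneg_left h2 (show 0 ≤ 400 / 399 * K by positivity)
      linarith
    · set u0 := π / 2 * (1 - 1 / (20 * ρ)) with hu0
      have h2 : 1 / (20 * ρ) ≤ 1 := by
        rw [div_le_one (by positivity)]; linarith
      have h3 : 0 < 1 / (20 * ρ) := by positivity
      have h4 : 0 ≤ u0 := by
        rw [hu0]; apply mul_nonneg (by positivity); linarith
      have h5 : u0 ≤ π / 2 := by rw [hu0]; nlinarith
      have i3 := int_split (G := fun u => ker K u * gg 1 (ρ * cos u))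
        (G1 := fun u => ker K u * (ρ * cos u)) (c := 400 / 399 * K)
        hcg hcx h4 h5 (fun u hu => by
          have := jordan hρ0 hu.1 hu.2
          rw [gg_id one_pos (by rw [xt_one]; exact this)])
        (fun u hu => hpt u ⟨h4.trans hu.1, hu.2⟩)
      rw [int_kx hK hρ0 hKρ] at i3
      have e : π / 2 - u0 = π / (40 * ρ) := by rw [hu0]; field_simp; ring
      rw [e] at i3
      exact i3
  have e : π / (20 * ρ) = 2 * (π / (40 * ρ)) := by field_simp; norm_num
  rw [e]
  linarith

end ints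

section main

variable {k : ℝ} (h : 0 < k) (h1 : k ≤ 1)

theorem sbS : (CS k h h1).SB where
  ge := fun _ hx => gg_ge hx.2
  le := fun _ hx => gg_le_one hx.2
  h_le := by
    have := hS_le h.le h1
    change hS k ≤ 1
    linarith

theorem kappaS : -(CS k h h1).toQD.κ = k := by
  change - -k = k
  ring

theorem pf_S : (CS k h h1).toQD.pf = ptot - arccos (1 / 20) := rfl

theorem cS_lt_pfS : cS < (CS k h h1).toQD.pf := (CS k h h1).cS_lt_pf

theorem pf_sub : (CS k h h1).toQD.pf - cS ≤ 0.0751 := by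
  rw [pf_S, arccos_eq_pi_div_two_sub_arcsin]
  unfold cS pa
  have := arcsin_20
  linarith

theorem R_geS {x : ℝ} (hx : x ∈ Icc cS (CS k h h1).pf) : (0.998:ℝ) ≤ (CS k h h1).toQD.R x := by
  have hpa := pa_lt_cS
  rw [(CS k h h1).R_south (hpa.le.trans hx.1)]
  change (0.998:ℝ) ≤ 1 - k * (1 - sin (r (ptot - x)))
  have hx2 : x ≤ ptot - arccos (1 / 20) := hx.2
  have h3 := arccos_le_q0 (x := 1 / 20) le_rfl
  have h4 : sin (r (arccos (1 / 20))) ≤ sin (r (ptot - x)) := by
    apply sin_le_sin_of_le_of_le_pi_div_two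
    · have := r_nonneg (arccos_nonneg (1 / 20)); linarith [pi_pos]
    · exact r_le _
    · exact r_mono (by linarith)
  rw [r_small h3, sin_arccos] at h4
  have h5 : (0.998:ℝ) ≤ √(1 - (1 / 20) ^ 2) := by
    rw [le_sqrt' (by norm_num)]; norm_num
  have h6 := sin_le_one (r (ptot - x))
  nlinarith

/-- reduced rotation in phase S' -/
theorem Phi_S {a b : ℝ} {p θ v w' : ℝ → ℝ} (harc : Arc (CS k h h1).toQD a b p θ v w')
    (hpa : p a = (CS k h h1).toQD.pf) (hpb : p b = (CS k h h1).toQD.pf)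
    (hins : ∀ s ∈ Ioo a b, p s < (CS k h h1).toQD.pf) (hw : 0 < w' a) {K : ℝ}
    (hK : K = (CS k h h1).toQD.R (CS k h h1).toQD.pf * w' a) :
    0 < K ∧ K < 1 ∧
    π + 2 * arcsin K - 2 * (arcsin K / k) ≤ θ b - θ a - 2 * (arcsin (w' a) / k) ∧
    (K ^ 2 ≤ 1 / 2 → θ b - θ a - 2 * (arcsin (w' a) / k) ≤
      π + 2 * arcsin K - 2 * (arcsin K / k) + 1.26) := by
  obtain ⟨hK0, hK1, hge, hle⟩ := (CS k h h1).visit_rot (sbS h h1) harc
    (by rw [hpa]; exact cS_lt_pfS h h1) (by rw [hpa]; exact le_rfl) (by rw [hpa, hpb])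
    (fun t ht => by rw [hpa]; exact hins t ht) hw (K := K) (by rw [hpa]; exact hK)
  refine ⟨hK0, hK1, ?_, ?_⟩
  all_goals
    have hpi := pi_pos
    have hX : 0 < 1 - K ^ 2 := by nlinarith
    have hρ0 : 0 < √(1 - K ^ 2) := sqrt_pos.2 hX
    have hρ2 : √(1 - K ^ 2) ^ 2 = 1 - K ^ 2 := sq_sqrt hX.le
    have hKρ : K ^ 2 + √(1 - K ^ 2) ^ 2 = 1 := by linarith
    have hh1 := hS_ge h.le h1
    have hh2 := hS_le h.le h1
    have eh : (CS k h h1).h = hS k := rfl
    have ek : (CS k h h1).k = k := rfl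
    have eF : (CS k h h1).FN = FN 1 := rfl
    rw [eh, ek, eF] at hge hle
    set ρ := √(1 - K ^ 2) with hρ
  · have i1 := int_kFN_ge hK0 hρ0 hKρ
    have h5 : 400 / 399 * K * (π / (20 * ρ)) ≤ 2 * (K * hS k / ρ) := by
      have e1 : 400 / 399 * K * (π / (20 * ρ)) = K / ρ * (400 / 399 * π / 20) := by field_simp
      have e2 : 2 * (K * hS k / ρ) = K / ρ * (2 * hS k) := by ring
      rw [e1, e2]
      apply mul_le_mul_of_nonneg_left _ (by positivity)
      have := pi_lt_d2
      linarith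
    linarith
  · intro h6
    have h7 := hle h6 (fun x hx => R_geS h h1 hx)
    rw [hpa] at h7
    have i1 := int_kFN_le hK0 hρ0 hKρ
    have hKr : K / ρ ≤ 1 := by
      rw [div_le_one hρ0]
      exact (sq_le_sq₀ hK0.le hρ0.le).1 (by rw [hρ2]; linarith)
    have hK07 : K ≤ 0.7072 := by nlinarith
    have t1 : 2 * (K * hS k / ρ) ≤ 0.82 := by
      have e2 : 2 * (K * hS k / ρ) = K / ρ * (2 * hS k) := by ring
      rw [e2]
      have := mul_le_mul hKr (show 2 * hS k ≤ 0.82 by linarith) (by linarith) zero_le_one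
      linarith
    have t2 : 2 * (K / (0.99 * 0.7) * ((CS k h h1).toQD.pf - cS)) ≤ 0.154 := by
      have h8 := pf_sub h h1
      have h9 : K / (0.99 * 0.7) * ((CS k h h1).toQD.pf - cS) ≤ 0.7072 / (0.99 * 0.7) * 0.0751 := by
        apply mul_le_mul (div_le_div_of_nonneg_right hK07 (by norm_num)) h8 _ (by norm_num)
        linarith [cS_lt_pfS h h1]
      norm_num at h9 ⊢
      linarith
    have t3 : K * hS k / (0.7 * 0.99 ^ 2) * (1 / 20) ≤ 0.022 := by
      have h9 : K * hS k ≤ 0.7072 * 0.41 := mul_le_mul hK07 hh2 (by linarith) (by norm_num)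
      have h10 := div_le_div_of_nonneg_right h9 (show (0:ℝ) ≤ 0.7 * 0.99 ^ 2 by norm_num)
      norm_num at h10 ⊢
      linarith
    have := pi_lt_d2
    linarith

/-- no oscillation with top level in the north or on the plateau -/
theorem no_osc_north {a b : ℝ} {p θ v w' : ℝ → ℝ} (C : CI) (harc : Arc C.toQD a b p θ v w')
    (ha : p a ≤ cS) (hv : v a = 0) (hins : ∀ s ∈ Ioo a b, p s < p a) : False := by
  have hle : ∀ t ∈ Icc a b, t < b → p t ≤ cS := by
    intro t ht htb
    rcases eq_or_lt_of_le ht.1 with h2 | h2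
    · rw [← h2]; exact ha
    · exact (hins t ⟨h2, htb⟩).le.trans ha
  have haI : a ∈ Icc a b := left_mem_Icc.2 harc.lt.le
  have hvm : MonotoneOn v (Icc a b) := by
    apply monotoneOn_of_deriv_nonneg (convex_Icc _ _) harc.cv
    · rw [interior_Icc]
      exact fun x hx => (harc.dv x hx).differentiableAt.differentiableWithinAt
    · intro x hx
      rw [interior_Icc] at hx
      have hxI := Ioo_subset_Icc_self hx
      rw [(harc.dv x hx).deriv]
      apply div_nonneg _ (harc.posR hxI).le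
      exact mul_nonneg (C.f_nonneg (harc.pos x hxI).1 (hle x hxI hx.2)) (sq_nonneg _)
  have hpm : MonotoneOn p (Icc a b) := by
    apply monotoneOn_of_deriv_nonneg (convex_Icc _ _) harc.cp
    · rw [interior_Icc]
      exact fun x hx => (harc.dp x hx).differentiableAt.differentiableWithinAt
    · intro x hx
      rw [interior_Icc] at hx
      have hxI := Ioo_subset_Icc_self hx
      rw [(harc.dp x hx).deriv]
      apply div_nonneg _ (harc.posA hxI).le
      have := hvm haI hxI hx.1.le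
      rwa [hv] at this
  have hm : (a + b) / 2 ∈ Ioo a b := ⟨by linarith [harc.lt], by linarith [harc.lt]⟩
  have h2 := hpm haI (Ioo_subset_Icc_self hm) hm.1.le
  have h3 := hins _ hm
  linarith

/-- general time estimate in phase S' -/
theorem full_S {a b : ℝ} {p θ v w' : ℝ → ℝ} (harc : Arc (CS k h h1).toQD a b p θ v w')
    (hpa : cS < p a) (hpa' : p a ≤ (CS k h h1).toQD.pf) (hab : p b = p a)
    (hins : ∀ s ∈ Ioo a b, p s < p a) (hw : 0 < w' a) :
    2 * π ≤ b - a + 2 * (√((CS k h h1).toQD.R (p a) ^ 2 -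
      ((CS k h h1).toQD.R (p a) * w' a) ^ 2) / k) ∧ π ≤ b - a := by
  obtain ⟨hK0, hK1, ht⟩ := (CS k h h1).visit_time (sbS h h1) harc hpa hpa' hab hins hw
    (K := (CS k h h1).toQD.R (p a) * w' a) rfl
  have hR1 : (CS k h h1).toQD.R (p a) ≤ 1 :=
    (CS k h h1).R_le' (harc.pos a (left_mem_Icc.2 harc.lt.le)).1.le hpa'
  have hR0 := harc.posR (left_mem_Icc.2 harc.lt.le)
  set K := (CS k h h1).toQD.R (p a) * w' a
  have hpi := pi_pos
  have hX : 0 < 1 - K ^ 2 := by nlinarith
  have hρ0 : 0 < √(1 - K ^ 2) := sqrt_pos.2 hX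
  have hρ2 : √(1 - K ^ 2) ^ 2 = 1 - K ^ 2 := sq_sqrt hX.le
  have hKρ : K ^ 2 + √(1 - K ^ 2) ^ 2 = 1 := by linarith
  have hh1 := hS_ge h.le h1
  have eh : (CS k h h1).h = hS k := rfl
  have ek : (CS k h h1).k = k := rfl
  have eF : (CS k h h1).FN = FN 1 := rfl
  rw [eh, ek, eF] at ht
  have hle : √((CS k h h1).toQD.R (p a) ^ 2 - K ^ 2) ≤ √(1 - K ^ 2) := by
    apply sqrt_le_sqrt
    nlinarith
  set ρ := √(1 - K ^ 2) with hρ
  have i1 := int_FN_ge hρ0 hKρ
  have hρk : ρ ≤ ρ / k := by
    rw [le_div_iff₀ h]; nlinarith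
  constructor
  · have h5 : π / (20 * ρ) ≤ 2 * (hS k / ρ) := by
      have e1 : π / (20 * ρ) = 1 / ρ * (π / 20) := by field_simp
      have e2 : 2 * (hS k / ρ) = 1 / ρ * (2 * hS k) := by ring
      rw [e1, e2]
      apply mul_le_mul_of_nonneg_left _ (by positivity)
      have := pi_lt_d2
      linarith
    linarith
  · have h6 : √((CS k h h1).toQD.R (p a) ^ 2 - K ^ 2) / k ≤ ρ / k :=
      div_le_div_of_nonneg_right hle h.le
    have h7 : 0 ≤ hS k / ρ := div_nonneg (by linarith) hρ0.le
    have i2 : ∫ u in (0:ℝ)..(π / 2), (1:ℝ) ≤ ∫ u in (0:ℝ)..(π / 2), FN 1 (ρ * cos u) := by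
      have hcN : Continuous fun u => FN 1 (ρ * cos u) := (FN_cont 1).comp (by fun_prop)
      apply integral_mono_on (by positivity) (by simp) (hcN.intervalIntegrable _ _)
      intro u hu
      exact FN_ge_one one_pos le_rfl (cos_mem hu hρ0.le (rho_le hρ0 hKρ)).2
    rw [integral_const, smul_eq_mul, sub_zero, mul_one] at i2
    linarith

include h h1 in
theorem K_boundS {K : ℝ} (hK0 : 0 < K) (hK : K ≤ (1 - k * (1 / 20)) * sin (k * (π / 4))) :
    K ^ 2 ≤ 1 / 2 ∧ arcsin K / k ≤ π / 4 := by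
  have hpi := pi_pos
  have hk4 : k * (π / 4) ≤ π / 4 := by nlinarith
  have hk0 : 0 < k * (π / 4) := by positivity
  have hs0 : 0 < sin (k * (π / 4)) := sin_pos_of_pos_of_lt_pi hk0 (by linarith)
  have hK2 : K ≤ sin (k * (π / 4)) := by nlinarith
  have hs1 : sin (k * (π / 4)) ≤ √2 / 2 := by
    rw [← sin_pi_div_four]
    exact sin_le_sin_of_le_of_le_pi_div_two (by linarith) (by linarith) hk4
  have hsq : (√2 : ℝ) ^ 2 = 2 := sq_sqrt (by norm_num)
  constructor
  · have h3 : K ≤ √2 / 2 := hK2.trans hs1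
    have h4 : K ^ 2 ≤ (√2 / 2) ^ 2 := pow_le_pow_left₀ hK0.le h3 2
    have h5 : (√2 / 2 : ℝ) ^ 2 = 1 / 2 := by rw [div_pow, hsq]; norm_num
    linarith
  · rw [div_le_iff₀ h, mul_comm]
    have h3 : arcsin K ≤ arcsin (sin (k * (π / 4))) := arcsin_le_arcsin hK2
    rwa [arcsin_sin (by linarith) (by linarith)] at h3

/-- **`CapsI` in phase S'** -/
theorem capsS : CapsI (CS k h h1).toQD where
  hκ := by
    change -k < 0
    linarith
  R_le := fun p hp => (CS k h h1).R_le' hp.1 hp.2
  R_crit := fun p hp hd => (CS k h h1).R_crit' hp.1 hp.2 hd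
  visit := fun a b p θ v w' harc hpa hpb hins hw =>
    (full_S h h1 harc (by rw [hpa]; exact cS_lt_pfS h h1) (by rw [hpa]) (by rw [hpa, hpb])
      (fun t ht => by rw [hpa]; exact hins t ht) hw).2
  full := fun a b p θ v w' harc hpa hpb hins hw => by
    have h2 := (full_S h h1 harc (by rw [hpa]; exact cS_lt_pfS h h1) (by rw [hpa])
      (by rw [hpa, hpb]) (fun t ht => by rw [hpa]; exact hins t ht) hw).1
    rw [hpa] at h2
    rw [kappaS h h1]
    exact h2
  osc := fun a b p θ v w' harc hab hle hv hins hw => by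
    rcases le_or_gt (p a) cS with h2 | h2
    · exact (no_osc_north (CS k h h1) harc h2 hv hins).elim
    · have h3 := (full_S h h1 harc h2 hle hab.symm hins hw).1
      have hu := harc.unit a (left_mem_Icc.2 harc.lt.le)
      rw [hv] at hu
      have hw1 : w' a = 1 := by nlinarith
      rw [hw1, mul_one, sub_self, sqrt_zero, zero_div, mul_zero, add_zero] at h3
      exact h3
  close1 := fun a b p θ v w' harc hpa hpb hins hw hK => by
    have hpi := pi_pos
    obtain ⟨hK0, hK1, hge, hle⟩ := Phi_S h h1 harc hpa hpb hins hw rfl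
    have e2 : (CS k h h1).toQD.θf = π / 4 := rfl
    have e3 : (CS k h h1).toQD.ρf = (1 - k * (1 / 20)) * cos (k * (π / 4)) := rfl
    rw [kappaS h h1, e2, e3, show π / 2 - π / 4 = π / 4 by ring] at hK
    rw [kappaS h h1, e2]
    have hc : 0 < cos (k * (π / 4)) := by
      apply cos_pos_of_mem_Ioo
      constructor
      · nlinarith
      · nlinarith
    have e4 : (1 - k * (1 / 20)) * cos (k * (π / 4)) * tan (k * (π / 4)) =
        (1 - k * (1 / 20)) * sin (k * (π / 4)) := by
      rw [tan_eq_sin_div_cos, mul_assoc, mul_div_cancel₀ _ hc.ne']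
    rw [e4] at hK
    obtain ⟨h5, h6⟩ := K_boundS h h1 hK0 hK
    have h7 := hle h5
    have h8 : 0 < arcsin ((CS k h h1).toQD.R (CS k h h1).toQD.pf * w' a) := arcsin_pos.2 hK0
    have h9 : arcsin ((CS k h h1).toQD.R (CS k h h1).toQD.pf * w' a) ≤
        arcsin ((CS k h h1).toQD.R (CS k h h1).toQD.pf * w' a) / k := by
      rw [le_div_iff₀ h]; nlinarith
    constructor
    · linarith
    · linarith [pi_gt_three]
  close2 := fun a b p θ v w' harc hpa hpb hins hw hK => by
    have hpi := pi_pos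
    obtain ⟨hK0, hK1, hge, hle⟩ := Phi_S h h1 harc hpa hpb hins hw rfl
    have e2 : (CS k h h1).toQD.θf = π / 4 := rfl
    have e3 : (CS k h h1).toQD.ρf = (1 - k * (1 / 20)) * cos (k * (π / 4)) := rfl
    rw [kappaS h h1, e2, e3] at hK
    rw [kappaS h h1, e2]
    have hc : 0 < cos (k * (π / 4)) := by
      apply cos_pos_of_mem_Ioo
      constructor
      · nlinarith
      · nlinarith
    have e4 : (1 - k * (1 / 20)) * cos (k * (π / 4)) * tan (k * (π / 4)) =
        (1 - k * (1 / 20)) * sin (k * (π / 4)) := by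
      rw [tan_eq_sin_div_cos, mul_assoc, mul_div_cancel₀ _ hc.ne']
    rw [e4] at hK
    obtain ⟨h5, h6⟩ := K_boundS h h1 hK0 hK
    have h7 := hle h5
    have h8 : 0 < arcsin ((CS k h h1).toQD.R (CS k h h1).toQD.pf * w' a) := arcsin_pos.2 hK0
    have h9 : arcsin ((CS k h h1).toQD.R (CS k h h1).toQD.pf * w' a) ≤
        arcsin ((CS k h h1).toQD.R (CS k h h1).toQD.pf * w' a) / k := by
      rw [le_div_iff₀ h]; nlinarith
    constructor
    · linarith
    · linarith [pi_gt_three]
  close3 := fun a b p θ v w' harc hpa hpb hins om hom hom2 hK => by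
    have hpi := pi_pos
    have e2 : (CS k h h1).toQD.θf = π / 4 := rfl
    rw [kappaS h h1, e2, show π / 2 - π / 4 = π / 4 by ring] at hom2
    have hk4 : k * (π / 4) ≤ π / 4 := by nlinarith
    have hc : 0 < cos (k * (π / 4)) := by
      apply cos_pos_of_mem_Ioo
      constructor
      · nlinarith
      · nlinarith
    have hRQ : (CS k h h1).toQD.R ((CS k h h1).toQD.β (π / 2)) = 1 - k * (1 / 20) := by
      have h2 := (CS k h h1).R_floor (θ := π / 2) ⟨by linarith, le_rfl⟩
      have e3 : (CS k h h1).ρf = (1 - k * (1 / 20)) * cos (k * (π / 4)) := rfl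
      have e4 : (CS k h h1).k * (π / 2 - (CS k h h1).θf) = k * (π / 4) := by
        change k * (π / 2 - π / 4) = _
        ring
      rw [e3, e4] at h2
      have h3 : RI (CS k h h1).k (βI (CS k h h1).k (CS k h h1).θf (CS k h h1).uB (π / 2)) =
          1 - k * (1 / 20) := by
        rw [h2]; exact mul_div_cancel_right₀ _ hc.ne'
      exact h3
    rw [hRQ] at hK
    have hom3 : 0 < sin om := sin_pos_of_pos_of_lt_pi hom (by linarith)
    have hom4 : sin om ≤ sin (k * (π / 4)) :=
      sin_le_sin_of_le_of_le_pi_div_two (by linarith) (by linarith) hom2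
    have hk20 : 0 < 1 - k * (1 / 20) := by linarith
    have hw : 0 < w' a := by
      have haI : a ∈ Icc a b := left_mem_Icc.2 harc.lt.le
      have h2 : 0 < (CS k h h1).toQD.R (CS k h h1).toQD.pf * w' a := by
        rw [hK]; exact mul_pos hk20 hom3
      have h3 := harc.posR haI
      rw [hpa] at h3
      exact (pos_iff_pos_of_mul_pos h2).1 h3
    obtain ⟨hK0, hK1, hge, hle⟩ := Phi_S h h1 harc hpa hpb hins hw rfl
    have hK2 : (CS k h h1).toQD.R (CS k h h1).toQD.pf * w' a ≤
        (1 - k * (1 / 20)) * sin (k * (π / 4)) := by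
      rw [hK]; exact mul_le_mul_of_nonneg_left hom4 hk20.le
    obtain ⟨h5, h6⟩ := K_boundS h h1 hK0 hK2
    have h7 := hle h5
    rw [kappaS h h1]
    set K := (CS k h h1).toQD.R (CS k h h1).toQD.pf * w' a
    have h8 : 0 < arcsin K := arcsin_pos.2 hK0
    have h9 : arcsin K ≤ arcsin K / k := by
      rw [le_div_iff₀ h]; nlinarith
    have h10 : arcsin K < om := by
      have h11 : K < sin om := by rw [hK]; nlinarith
      have h12 := arcsin_lt_arcsin (by linarith) h11 (sin_le_one om)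
      rwa [arcsin_sin (by linarith) (by linarith)] at h12
    have h11 : arcsin K / k < om / k := div_lt_div_of_pos_right h10 h
    have h12 : om / k ≤ π / 4 := by
      rw [div_le_iff₀ h]; linarith
    constructor
    · linarith
    · linarith [pi_gt_three]

end main

end Pool.MP8e.C
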