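import Pool.Agent.Work.MP_8e9dbb.C.Fun
import Pool.Agent.Work.MP_8e9dbb.Iface

/-!
Quarter domain data with slope `κ = -k < 0` (phases R' and S'): general constructor.
-/

open Real Set
open scoped ContDiff

namespace Pool.MP8e.C

/-- the smoothing width -/
noncomputable def dl : ℝ := 1 / 20
/-- angle function -/
noncomputable def r (p : ℝ) : ℝ := rr dl p
/-- cut-off -/
noncomputable def w (p : ℝ) : ℝ := ww dl p
/-- start of the plateau -/
noncomputable def pa : ℝ := π / 2 + 1 / 40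
/-- start of the smoothing -/
noncomputable def q0 : ℝ := π / 2 - 1 / 40
/-- total length -/
noncomputable def ptot : ℝ := π + 21 / 20

theorem dl_pos : (0 : ℝ) < dl := by unfold dl; norm_num
theorem dl_le : dl ≤ 1 := by unfold dl; norm_num
theorem q0_eq : q0 = π / 2 - dl / 2 := by unfold q0 dl; ring
theorem pa_eq : pa = π / 2 + dl / 2 := by unfold pa dl; ring

theorem r_contDiff : ContDiff ℝ ∞ r := rr_contDiff dl_pos
theorem w_contDiff : ContDiff ℝ ∞ w := ww_contDiff dl_pos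
theorem r_hasDerivAt (p : ℝ) : HasDerivAt r (1 - w p) p := rr_hasDerivAt dl_pos p
theorem w_nonneg (p : ℝ) : 0 ≤ w p := ww_nonneg _ _
theorem w_le_one (p : ℝ) : w p ≤ 1 := ww_le_one _ _
theorem w_zero {p : ℝ} (h : p ≤ q0) : w p = 0 := ww_zero dl_pos (by rw [← q0_eq]; exact h)
theorem w_one {p : ℝ} (h : pa ≤ p) : w p = 1 := ww_one dl_pos (by rw [← pa_eq]; exact h)
theorem w_lt_one {p : ℝ} (h : p < pa) : w p < 1 := ww_lt_one dl_pos (by rw [← pa_eq]; exact h)
theorem w_pos {p : ℝ} (h : q0 < p) : 0 < w p := ww_pos dl_pos (by rw [← q0_eq]; exact h)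
theorem r_small {p : ℝ} (h : p ≤ q0) : r p = p :=
  rr_small dl_pos dl_le (by rw [← q0_eq]; exact h)
theorem r_large {p : ℝ} (h : pa ≤ p) : r p = π / 2 :=
  rr_large dl_pos dl_le (by rw [← pa_eq]; exact h)
theorem r_pos {p : ℝ} (h : 0 < p) : 0 < r p := rr_pos dl_pos dl_le h
theorem r_nonneg {p : ℝ} (h : 0 ≤ p) : 0 ≤ r p := rr_nonneg dl_pos dl_le h
theorem r_le (p : ℝ) : r p ≤ π / 2 := rr_le dl_pos dl_le p
theorem r_le_self (p : ℝ) : r p ≤ p := rr_le_self dl_pos dl_le p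
theorem r_lt {p : ℝ} (h : p < pa) : r p < π / 2 :=
  rr_lt dl_pos dl_le (by rw [← pa_eq]; exact h)
theorem r_mono : Monotone r := rr_mono dl_pos
theorem r_ge {p : ℝ} (h : q0 ≤ p) : q0 ≤ r p := by
  rw [q0_eq] at h ⊢; exact rr_ge dl_pos dl_le h

theorem sin_r_pos {p : ℝ} (h : 0 < p) : 0 < sin (r p) :=
  sin_pos_of_pos_of_lt_pi (r_pos h) (by linarith [r_le p, pi_pos])

theorem cos_r_nonneg {p : ℝ} (h : 0 ≤ p) : 0 ≤ cos (r p) :=
  cos_nonneg_of_neg_pi_div_two_le_of_le (by linarith [r_nonneg h, pi_pos]) (r_le p)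

/-- speed -/
noncomputable def AI (FN FS : ℝ → ℝ) (h p : ℝ) : ℝ :=
  FN (cos (r p)) * (1 - w p) + FS (cos (r (ptot - p))) * (1 - w (ptot - p)) +
    h * w p * w (ptot - p)

/-- radius -/
noncomputable def RI (k p : ℝ) : ℝ := sin (r p) * (1 - k * (1 - sin (r (ptot - p))))

theorem AI_contDiff {FN FS : ℝ → ℝ} (hN : ContDiff ℝ ∞ FN) (hS : ContDiff ℝ ∞ FS) (h : ℝ) :
    ContDiff ℝ ∞ (AI FN FS h) := by
  unfold AI
  have e1 : ContDiff ℝ ∞ (fun p => cos (r p)) := contDiff_cos.comp r_contDiff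
  have e2 : ContDiff ℝ ∞ (fun p : ℝ => ptot - p) := contDiff_const.sub contDiff_id
  have e3 : ContDiff ℝ ∞ (fun p => r (ptot - p)) := r_contDiff.comp e2
  have e4 : ContDiff ℝ ∞ (fun p => cos (r (ptot - p))) := contDiff_cos.comp e3
  have e5 : ContDiff ℝ ∞ (fun p => w (ptot - p)) := w_contDiff.comp e2
  exact (((hN.comp e1).mul (contDiff_const.sub w_contDiff)).add
    ((hS.comp e4).mul (contDiff_const.sub e5))).add ((contDiff_const.mul w_contDiff).mul e5)

theorem RI_contDiff (k : ℝ) : ContDiff ℝ ∞ (RI k) := by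
  unfold RI
  have e2 : ContDiff ℝ ∞ (fun p : ℝ => ptot - p) := contDiff_const.sub contDiff_id
  have e3 : ContDiff ℝ ∞ (fun p => sin (r (ptot - p))) := contDiff_sin.comp (r_contDiff.comp e2)
  exact (contDiff_sin.comp r_contDiff).mul
    (contDiff_const.sub (contDiff_const.mul (contDiff_const.sub e3)))

theorem RI_hasDerivAt (k p : ℝ) : HasDerivAt (RI k)
    (cos (r p) * (1 - w p) * (1 - k * (1 - sin (r (ptot - p)))) -
      k * sin (r p) * cos (r (ptot - p)) * (1 - w (ptot - p))) p := by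
  have h1 : HasDerivAt (fun p => sin (r p)) (cos (r p) * (1 - w p)) p :=
    (r_hasDerivAt p).sin
  have h2 : HasDerivAt (fun p : ℝ => ptot - p) (-1) p := (hasDerivAt_id' p).const_sub ptot
  have h3 : HasDerivAt (fun p => r (ptot - p)) ((1 - w (ptot - p)) * -1) p :=
    (r_hasDerivAt (ptot - p)).comp p h2
  have h4 := (((h3.sin).const_sub 1).const_mul k).const_sub 1
  have h5 := h1.mul h4
  refine h5.congr_deriv ?_
  ring

/-- for `p ≤ π/2 + 1 + 1/40` the south side is invisible -/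
theorem r_south {p : ℝ} (h : p ≤ ptot - pa) : r (ptot - p) = π / 2 := r_large (by linarith)
theorem w_south {p : ℝ} (h : p ≤ ptot - pa) : w (ptot - p) = 1 := w_one (by linarith)
theorem pa_lt : pa < ptot - pa := by unfold pa ptot; linarith

/-- depth of the floor (from the end of the plateau, `1 - sin q`) -/
noncomputable def uI (k θf uB θ : ℝ) : ℝ :=
  uB + (1 - k * uB) * ((2 * θf - θ) * sin (k * θ / 2) * sinc (k * (θf - θ / 2))) /
    cos (k * (θ - θf))

/-- the floor -/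
noncomputable def βI (k θf uB θ : ℝ) : ℝ := ptot - arcsin (1 - uI k θf uB θ)

theorem mul_sinc (z : ℝ) : z * sinc z = sin z := by
  rcases eq_or_ne z 0 with h | h
  · rw [h]; simp
  · rw [sinc_of_ne_zero h]; field_simp

theorem uI_key (k θf θ : ℝ) :
    k * ((2 * θf - θ) * sin (k * θ / 2) * sinc (k * (θf - θ / 2))) =
      cos (k * (θ - θf)) - cos (k * θf) := by
  have h1 := mul_sinc (k * (θf - θ / 2))
  have h2 : k * ((2 * θf - θ) * sin (k * θ / 2) * sinc (k * (θf - θ / 2))) =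
      2 * sin (k * θ / 2) * (k * (θf - θ / 2) * sinc (k * (θf - θ / 2))) := by ring
  rw [h2, h1]
  have h3 : cos (k * (θ - θf)) = cos (k * (θf - θ / 2) - k * θ / 2) := by
    rw [← cos_neg]; congr 1; ring
  have h4 : cos (k * θf) = cos (k * (θf - θ / 2) + k * θ / 2) := by congr 1; ring
  rw [h3, h4, cos_sub, cos_add]
  ring

theorem floorI {k θf uB θ : ℝ} (hc : cos (k * (θ - θf)) ≠ 0) :
    (1 - k * uI k θf uB θ) * cos (k * (θ - θf)) = (1 - k * uB) * cos (k * θf) := by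
  have h := uI_key k θf θ
  have h2 : k * uI k θf uB θ = k * uB + (1 - k * uB) *
      (k * ((2 * θf - θ) * sin (k * θ / 2) * sinc (k * (θf - θ / 2)))) /
        cos (k * (θ - θf)) := by
    unfold uI; ring
  rw [h2, h]
  field_simp
  ring

theorem sinc_nonneg_of {z : ℝ} (h0 : -π ≤ z) (h1 : z ≤ π) : 0 ≤ sinc z := by
  rcases lt_trichotomy z 0 with h | h | h
  · rw [sinc_of_ne_zero h.ne]
    exact div_nonneg_of_nonpos (sin_nonpos_of_nonpos_of_neg_pi_le h.le h0) h.le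
  · rw [h]; simp
  · rw [sinc_of_ne_zero h.ne']
    exact div_nonneg (sin_nonneg_of_nonneg_of_le_pi h.le h1) h.le

theorem uI_ge {k θf uB θ : ℝ} (hk0 : 0 ≤ k) (hk1 : k ≤ 1) (h1 : π / 4 ≤ θf) (h2 : θf ≤ π / 2)
    (hθ : θ ∈ Icc 0 (π / 2)) (hu : k * uB ≤ 1) : uB ≤ uI k θf uB θ := by
  unfold uI
  have hpi := pi_pos
  obtain ⟨h3, h4⟩ := hθ
  have hkθ : k * θ ≤ θ := by nlinarith
  have hkθ0 : 0 ≤ k * θ := mul_nonneg hk0 h3
  have hs : 0 ≤ sin (k * θ / 2) :=
    sin_nonneg_of_nonneg_of_le_pi (by positivity) (by linarith)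
  have hc0 : 0 ≤ θf - θ / 2 := by linarith
  have hs2 : 0 ≤ sinc (k * (θf - θ / 2)) := by
    apply sinc_nonneg_of
    · have := mul_nonneg hk0 hc0; linarith
    · have : k * (θf - θ / 2) ≤ 1 * (θf - θ / 2) := mul_le_mul_of_nonneg_right hk1 hc0
      linarith
  have hcos : 0 ≤ cos (k * (θ - θf)) := by
    apply cos_nonneg_of_neg_pi_div_two_le_of_le
    · nlinarith
    · nlinarith
  have : 0 ≤ (1 - k * uB) * ((2 * θf - θ) * sin (k * θ / 2) * sinc (k * (θf - θ / 2))) /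
    cos (k * (θ - θf)) := by
    apply div_nonneg _ hcos
    apply mul_nonneg (by linarith)
    apply mul_nonneg (mul_nonneg (by linarith) hs) hs2
  linarith

/-- The parameters of class I. -/
structure CI where
  FN : ℝ → ℝ
  FS : ℝ → ℝ
  h : ℝ
  k : ℝ
  θf : ℝ
  uB : ℝ
  um : ℝ
  xf : ℝ
  b : ℝ
  xP : ℝ
  smN : ContDiff ℝ ∞ FN
  smS : ContDiff ℝ ∞ FS
  posN : ∀ x ∈ Icc (0:ℝ) 1, 0 < FN x
  posS : ∀ x ∈ Icc (0:ℝ) 1, 0 < FS x
  h_pos : 0 < h
  k_pos : 0 < k
  k_le : k ≤ 1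
  θf_ge : π / 4 ≤ θf
  θf_lt : θf < π / 2
  b_gt : 1 < b
  xP_ge : 1 / 20 ≤ xP
  xP_lt : xP < 1
  coneN : ∀ x, xP ≤ x → FN x = b * x
  xf_ge : 1 / 20 ≤ xf
  flatS : ∀ x, xf ≤ x → FS x = x
  uB_gt : 1 - √(1 - xf ^ 2) < uB
  um_lt : um < 1
  u_le : ∀ θ ∈ Icc 0 (π / 2), uI k θf uB θ ≤ um

theorem sin_inv40 : (1:ℝ) / 40 ≤ 1 / 20 := by norm_num

theorem arccos_le_q0 {x : ℝ} (h : 1 / 20 ≤ x) : arccos x ≤ q0 := by
  have hpi := pi_gt_three
  have h1 : cos q0 ≤ x := by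
    unfold q0
    rw [cos_pi_div_two_sub]
    have := Real.sin_le (show (0:ℝ) ≤ 1 / 40 by norm_num)
    linarith
  have h2 : arccos (cos q0) = q0 := arccos_cos (by unfold q0; linarith) (by unfold q0; linarith)
  rw [← h2]
  exact arccos_le_arccos h1

namespace CI

variable (C : CI)

theorem uB_lt_one : C.uB < 1 := by
  have h := C.u_le 0 ⟨le_rfl, by positivity⟩
  have h2 : uI C.k C.θf C.uB 0 = C.uB := by unfold uI; simp
  rw [h2] at h
  exact lt_of_le_of_lt h C.um_lt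

theorem uB_pos : 0 < C.uB := by
  have h1 : √(1 - C.xf ^ 2) ≤ 1 := sqrt_le_iff.2 ⟨by norm_num, by nlinarith [sq_nonneg C.xf]⟩
  linarith [C.uB_gt]

theorem kuB_lt : C.k * C.uB < 1 := by
  have := C.uB_lt_one
  have := C.uB_pos
  have := C.k_le
  nlinarith [C.k_pos]

theorem u_ge {θ : ℝ} (hθ : θ ∈ Icc 0 (π / 2)) : C.uB ≤ uI C.k C.θf C.uB θ :=
  uI_ge C.k_pos.le C.k_le C.θf_ge C.θf_lt.le hθ C.kuB_lt.le

theorem cos_pos {θ : ℝ} (hθ : θ ∈ Icc 0 (π / 2)) : 0 < cos (C.k * (θ - C.θf)) := by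
  have hpi := pi_pos
  have h1 := C.k_pos
  have h2 := C.k_le
  have h3 := C.θf_ge
  have h4 := C.θf_lt
  obtain ⟨h5, h6⟩ := hθ
  apply cos_pos_of_mem_Ioo
  constructor
  · nlinarith
  · nlinarith

theorem xf_lt_one : C.xf < 1 := by
  by_contra h
  push Not at h
  have h1 : √(1 - C.xf ^ 2) = 0 := sqrt_eq_zero_of_nonpos (by nlinarith)
  have := C.uB_gt
  have := C.uB_lt_one
  rw [h1] at *
  linarith

/-- flat start -/
noncomputable def pf : ℝ := ptot - arccos C.xf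
/-- end -/
noncomputable def ℓ : ℝ := ptot - arcsin (1 - C.um)
/-- foot radius -/
noncomputable def ρf : ℝ := (1 - C.k * C.uB) * cos (C.k * C.θf)

theorem um_pos : 0 < C.um := by
  have h := C.u_le 0 ⟨le_rfl, by positivity⟩
  have h2 := C.u_ge (θ := 0) ⟨le_rfl, by positivity⟩
  linarith [C.uB_pos]

theorem arcsin_um_pos : 0 < arcsin (1 - C.um) := arcsin_pos.2 (by linarith [C.um_lt])

theorem ℓ_lt : C.ℓ < ptot := by unfold ℓ; linarith [C.arcsin_um_pos]

theorem pf_ge : pa < C.pf := by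
  unfold pf
  have := arccos_le_q0 C.xf_ge
  unfold pa ptot
  unfold q0 at this
  linarith [pi_pos]

theorem β_mem {θ : ℝ} (hθ : θ ∈ Icc 0 (π / 2)) :
    C.pf < βI C.k C.θf C.uB θ ∧ βI C.k C.θf C.uB θ ≤ C.ℓ := by
  unfold pf ℓ βI
  have h1 := C.u_ge hθ
  have h2 := C.u_le θ hθ
  have h3 := C.uB_gt
  have h4 := C.um_lt
  constructor
  · have h5 : arcsin (1 - uI C.k C.θf C.uB θ) < arccos C.xf := by
      have hx := C.xf_ge
      rw [arccos_eq_arcsin (by linarith)]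
      refine arcsin_lt_arcsin (by linarith) (by linarith) ?_
      exact sqrt_le_iff.2 ⟨by norm_num, by nlinarith⟩
    linarith
  · have h5 : arcsin (1 - C.um) ≤ arcsin (1 - uI C.k C.θf C.uB θ) :=
      arcsin_le_arcsin (by linarith)
    linarith

theorem r_zero : r 0 = 0 := rr_zero dl_pos dl_le

theorem q_pos {p : ℝ} (hp : p ≤ C.ℓ) : 0 < ptot - p := by linarith [C.ℓ_lt]

theorem q_le {p : ℝ} (hp : C.pf ≤ p) : ptot - p ≤ arccos C.xf := by
  unfold pf at hp; linarith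

theorem q_le_q0 {p : ℝ} (hp : C.pf ≤ p) : ptot - p ≤ q0 :=
  (C.q_le hp).trans (arccos_le_q0 C.xf_ge)

theorem cos_r_mem {p : ℝ} (h : 0 ≤ p) : cos (r p) ∈ Icc (0:ℝ) 1 := ⟨cos_r_nonneg h, cos_le_one _⟩

theorem posA {p : ℝ} (hp : p ∈ Icc 0 C.ℓ) : 0 < AI C.FN C.FS C.h p := by
  unfold AI
  have hq := C.q_pos hp.2
  have hN := C.posN _ (cos_r_mem hp.1)
  have hS := C.posS _ (cos_r_mem hq.le)
  rcases le_or_gt p (ptot - pa) with h | h
  · rw [w_south h]
    rcases (w_le_one p).lt_or_eq with h1 | h1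
    · have h2 : 0 < C.FN (cos (r p)) * (1 - w p) := mul_pos hN (by linarith)
      have h3 := mul_nonneg C.h_pos.le (w_nonneg p)
      linarith
    · rw [h1]; linarith [C.h_pos]
  · have h5 : pa ≤ p := by linarith [pa_lt]
    rw [w_one h5]
    rcases (w_le_one (ptot - p)).lt_or_eq with h1 | h1
    · have h2 : 0 < C.FS (cos (r (ptot - p))) * (1 - w (ptot - p)) := mul_pos hS (by linarith)
      have h3 := mul_nonneg C.h_pos.le (w_nonneg (ptot - p))
      linarith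
    · rw [h1]; linarith [C.h_pos]

theorem posR {p : ℝ} (hp : p ∈ Ioc 0 C.ℓ) : 0 < RI C.k p := by
  unfold RI
  apply mul_pos (sin_r_pos hp.1)
  have h1 := sin_r_pos (C.q_pos hp.2)
  have h2 : C.k * (1 - sin (r (ptot - p))) ≤ 1 * (1 - sin (r (ptot - p))) :=
    mul_le_mul_of_nonneg_right C.k_le (by linarith [sin_le_one (r (ptot - p))])
  linarith

theorem cone0 {p : ℝ} (hp : p ∈ Icc 0 (arccos C.xP)) :
    deriv (RI C.k) p = 1 / C.b * AI C.FN C.FS C.h p := by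
  rw [(RI_hasDerivAt C.k p).deriv]
  have h1 : p ≤ q0 := hp.2.trans (arccos_le_q0 C.xP_ge)
  have h2 : p ≤ ptot - pa := by
    have := pa_lt
    unfold pa ptot at *
    unfold q0 at h1
    linarith
  have hb : C.b ≠ 0 := by linarith [C.b_gt]
  have h3 : C.xP ≤ cos p := by
    have h4 := cos_le_cos_of_nonneg_of_le_pi hp.1 (arccos_le_pi _) hp.2
    rwa [cos_arccos (by linarith [C.xP_ge]) C.xP_lt.le] at h4
  unfold AI
  rw [r_small h1, w_zero h1, r_south h2, w_south h2, sin_pi_div_two, cos_pi_div_two,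
    C.coneN _ h3]
  field_simp
  ring

theorem flat {p : ℝ} (hp : p ∈ Icc C.pf C.ℓ) :
    deriv (RI C.k) p = -C.k * AI C.FN C.FS C.h p := by
  rw [(RI_hasDerivAt C.k p).deriv]
  have h1 := C.q_le_q0 hp.1
  have h2 : pa ≤ p := (C.pf_ge).le.trans hp.1
  have h3 : C.xf ≤ cos (ptot - p) := by
    have h4 := cos_le_cos_of_nonneg_of_le_pi (C.q_pos hp.2).le (arccos_le_pi _) (C.q_le hp.1)
    rwa [cos_arccos (by linarith [C.xf_ge]) C.xf_lt_one.le] at h4
  unfold AI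
  rw [r_small h1, w_zero h1, r_large h2, w_one h2, sin_pi_div_two, cos_pi_div_two,
    C.flatS _ h3]
  ring

theorem sin_q_floor {θ : ℝ} (hθ : θ ∈ Icc 0 (π / 2)) :
    sin (r (ptot - βI C.k C.θf C.uB θ)) = 1 - uI C.k C.θf C.uB θ := by
  have h1 := C.q_le_q0 (C.β_mem hθ).1.le
  rw [r_small h1]
  unfold βI
  have h1 := C.u_ge hθ
  have h2 := C.u_le θ hθ
  have h3 := C.uB_pos
  have h4 := C.um_lt
  rw [sub_sub_cancel, sin_arcsin (by linarith) (by linarith)]

theorem floor {θ : ℝ} (hθ : θ ∈ Icc 0 (π / 2)) :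
    RI C.k (βI C.k C.θf C.uB θ) * cos (-C.k * (θ - C.θf)) = C.ρf := by
  have h1 : pa ≤ βI C.k C.θf C.uB θ := (C.pf_ge).le.trans (C.β_mem hθ).1.le
  unfold RI ρf
  rw [C.sin_q_floor hθ, r_large h1, sin_pi_div_two, neg_mul, cos_neg,
    ← floorI (C.cos_pos hθ).ne']
  ring

theorem ρf_pos : 0 < C.ρf := by
  unfold ρf
  apply mul_pos (by linarith [C.kuB_lt])
  have := C.cos_pos (θ := 0) ⟨le_rfl, by positivity⟩
  rwa [zero_sub, mul_neg, cos_neg] at this

/-- The quarter domain data of class I. -/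
noncomputable def toQD : QD where
  A := AI C.FN C.FS C.h
  R := RI C.k
  β := βI C.k C.θf C.uB
  ℓ := C.ℓ
  kN := 1 / C.b
  e₀ := arccos C.xP
  κ := -C.k
  θf := C.θf
  ρf := C.ρf
  pf := C.pf
  smA := AI_contDiff C.smN C.smS C.h
  smR := RI_contDiff C.k
  posA := fun _ hp => C.posA hp
  R0 := by unfold RI; rw [r_zero]; simp
  posR := fun _ hp => C.posR hp
  kN_pos := one_div_pos.2 (by linarith [C.b_gt])
  kN_lt := by
    have := C.b_gt
    rw [div_lt_one (by linarith)]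
    exact this
  e₀_pos := arccos_pos.2 C.xP_lt
  e₀_lt := by
    have := arccos_le_q0 C.xP_ge
    have := C.pf_ge
    unfold q0 at *
    unfold pa at *
    linarith
  cone0 := fun _ hp => C.cone0 hp
  cls := Or.inl ⟨by linarith [C.k_pos], by linarith [C.k_le], C.θf_ge, C.θf_lt⟩
  ρf_pos := C.ρf_pos
  flat := fun _ hp => C.flat hp
  β_mem := fun _ hθ => C.β_mem hθ
  floor := fun _ hθ => C.floor hθ
  β_const := fun h => absurd h (by have := C.k_pos; intro h0; linarith)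

end CI

end Pool.MP8e.C
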