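import Pool.Agent.Work.MP_8e9dbb.C.ClassI

/-!
Quarter domain data with slope `0 ≤ κ ≤ 1/3` (phases F and T): general constructor.
-/

open Real Set
open scoped ContDiff

namespace Pool.MP8e.C

/-- speed -/
noncomputable def AII (F : ℝ → ℝ) (h p : ℝ) : ℝ := F (cos (r p)) * (1 - w p) + h * w p
/-- radius -/
noncomputable def RII (κ h p : ℝ) : ℝ := sin (r p) + κ * h * (p - r p)
/-- floor -/
noncomputable def βII (κ h m θ : ℝ) : ℝ :=
  π / 2 + (m + (π / 2 - θ) * (sin (κ * (π / 2 - θ) / 2) * sinc (κ * (π / 2 - θ) / 2))) /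
    (h * cos (κ * (π / 2 - θ)))

theorem AII_contDiff {F : ℝ → ℝ} (hF : ContDiff ℝ ∞ F) (h : ℝ) : ContDiff ℝ ∞ (AII F h) := by
  unfold AII
  have e1 : ContDiff ℝ ∞ (fun p => cos (r p)) := contDiff_cos.comp r_contDiff
  exact ((hF.comp e1).mul (contDiff_const.sub w_contDiff)).add (contDiff_const.mul w_contDiff)

theorem RII_contDiff (κ h : ℝ) : ContDiff ℝ ∞ (RII κ h) := by
  unfold RII
  exact (contDiff_sin.comp r_contDiff).add (contDiff_const.mul (contDiff_id.sub r_contDiff))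

theorem RII_hasDerivAt (κ h p : ℝ) :
    HasDerivAt (RII κ h) (cos (r p) * (1 - w p) + κ * h * w p) p := by
  have h1 : HasDerivAt (fun p => sin (r p)) (cos (r p) * (1 - w p)) p := (r_hasDerivAt p).sin
  have h2 := h1.add (((hasDerivAt_id' p).sub (r_hasDerivAt p)).const_mul (κ * h))
  refine h2.congr_deriv ?_
  ring

/-- The parameters of class II. -/
structure CII where
  F : ℝ → ℝ
  h : ℝ
  κ : ℝ
  m : ℝ
  b : ℝ
  xP : ℝ
  smF : ContDiff ℝ ∞ F
  posF : ∀ x ∈ Icc (0:ℝ) 1, 0 ≤ F x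
  posF' : ∀ x ∈ Ioc (0:ℝ) 1, 0 < F x
  h_pos : 0 < h
  κ_nonneg : 0 ≤ κ
  κ_le : κ ≤ 1 / 3
  m_gt : h / 40 < m
  b_gt : 1 < b
  xP_ge : 1 / 20 ≤ xP
  xP_lt : xP < 1
  coneF : ∀ x, xP ≤ x → F x = b * x

namespace CII

variable (C : CII)

theorem m_pos : 0 < C.m := by
  have := C.m_gt
  have := C.h_pos
  linarith

/-- end -/
noncomputable def ℓ : ℝ := π / 2 + (C.m + π / 2) / (C.h * cos (C.κ * (π / 2)))
/-- foot radius -/
noncomputable def ρf : ℝ := 1 + C.κ * C.m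

theorem cos_pos {θ : ℝ} (hθ : θ ∈ Icc 0 (π / 2)) : 0 < cos (C.κ * (π / 2 - θ)) := by
  have hpi := pi_pos
  have h1 := C.κ_nonneg
  have h2 := C.κ_le
  obtain ⟨h5, h6⟩ := hθ
  apply cos_pos_of_mem_Ioo
  constructor
  · nlinarith
  · nlinarith

theorem posA {p : ℝ} (hp : 0 ≤ p) : 0 < AII C.F C.h p := by
  unfold AII
  rcases (w_nonneg p).eq_or_lt with h1 | h1
  · rw [← h1]
    have h2 : p < pa := by
      by_contra h
      rw [w_one (not_lt.1 h)] at h1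
      exact absurd h1 (by norm_num)
    have h3 : 0 < cos (r p) := cos_pos_of_mem_Ioo ⟨by linarith [r_nonneg hp, pi_pos], r_lt h2⟩
    have h4 := C.posF' _ ⟨h3, cos_le_one _⟩
    linarith
  · have h2 : 0 ≤ C.F (cos (r p)) * (1 - w p) :=
      mul_nonneg (C.posF _ ⟨cos_r_nonneg hp, cos_le_one _⟩) (by linarith [w_le_one p])
    have h3 := mul_pos C.h_pos h1
    linarith

theorem posR {p : ℝ} (hp : 0 < p) : 0 < RII C.κ C.h p := by
  unfold RII
  have h1 := sin_r_pos hp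
  have h2 : 0 ≤ C.κ * C.h * (p - r p) :=
    mul_nonneg (mul_nonneg C.κ_nonneg C.h_pos.le) (by linarith [r_le_self p])
  linarith

theorem cone0 {p : ℝ} (hp : p ∈ Icc 0 (arccos C.xP)) :
    deriv (RII C.κ C.h) p = 1 / C.b * AII C.F C.h p := by
  rw [(RII_hasDerivAt C.κ C.h p).deriv]
  have h1 : p ≤ q0 := hp.2.trans (arccos_le_q0 C.xP_ge)
  have hb : C.b ≠ 0 := by linarith [C.b_gt]
  have h3 : C.xP ≤ cos p := by
    have h4 := cos_le_cos_of_nonneg_of_le_pi hp.1 (arccos_le_pi _) hp.2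
    rwa [cos_arccos (by linarith [C.xP_ge]) C.xP_lt.le] at h4
  unfold AII
  rw [r_small h1, w_zero h1, C.coneF _ h3]
  field_simp
  ring

theorem flat {p : ℝ} (hp : pa ≤ p) : deriv (RII C.κ C.h) p = C.κ * AII C.F C.h p := by
  rw [(RII_hasDerivAt C.κ C.h p).deriv]
  unfold AII
  rw [w_one hp]
  ring

theorem sin_sinc_nonneg {θ : ℝ} (hθ : θ ∈ Icc 0 (π / 2)) :
    0 ≤ (π / 2 - θ) * (sin (C.κ * (π / 2 - θ) / 2) * sinc (C.κ * (π / 2 - θ) / 2)) := by
  have hpi := pi_pos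
  have h1 := C.κ_nonneg
  have h2 := C.κ_le
  obtain ⟨h5, h6⟩ := hθ
  have h7 : 0 ≤ C.κ * (π / 2 - θ) := mul_nonneg h1 (by linarith)
  have h8 : C.κ * (π / 2 - θ) ≤ 1 / 3 * (π / 2 - θ) := mul_le_mul_of_nonneg_right h2 (by linarith)
  apply mul_nonneg (by linarith)
  apply mul_nonneg
  · exact sin_nonneg_of_nonneg_of_le_pi (by linarith) (by linarith)
  · exact sinc_nonneg_of (by linarith) (by linarith)

theorem sin_sinc_le {θ : ℝ} (hθ : θ ∈ Icc 0 (π / 2)) :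
    (π / 2 - θ) * (sin (C.κ * (π / 2 - θ) / 2) * sinc (C.κ * (π / 2 - θ) / 2)) ≤ π / 2 := by
  have hpi := pi_pos
  have h1 := C.κ_nonneg
  have h2 := C.κ_le
  obtain ⟨h5, h6⟩ := hθ
  have h7 : 0 ≤ C.κ * (π / 2 - θ) := mul_nonneg h1 (by linarith)
  have h8 : C.κ * (π / 2 - θ) ≤ 1 / 3 * (π / 2 - θ) := mul_le_mul_of_nonneg_right h2 (by linarith)
  have h9 : 0 ≤ sinc (C.κ * (π / 2 - θ) / 2) := sinc_nonneg_of (by linarith) (by linarith)
  have h10 : sin (C.κ * (π / 2 - θ) / 2) * sinc (C.κ * (π / 2 - θ) / 2) ≤ 1 * 1 :=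
    mul_le_mul (sin_le_one _) (sinc_le_one _) h9 zero_le_one
  calc _ ≤ (π / 2 - θ) * (1 * 1) := mul_le_mul_of_nonneg_left h10 (by linarith)
    _ ≤ π / 2 := by linarith

theorem β_mem {θ : ℝ} (hθ : θ ∈ Icc 0 (π / 2)) :
    pa < βII C.κ C.h C.m θ ∧ βII C.κ C.h C.m θ ≤ C.ℓ := by
  have hpi := pi_pos
  have h1 := C.κ_nonneg
  have h2 := C.κ_le
  have hc := C.cos_pos hθ
  have hh := C.h_pos
  have hs := C.sin_sinc_nonneg hθ
  have hs2 := C.sin_sinc_le hθ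
  have hm := C.m_gt
  unfold βII ℓ pa
  constructor
  · have h3 : 1 / 40 < (C.m + (π / 2 - θ) * (sin (C.κ * (π / 2 - θ) / 2) *
        sinc (C.κ * (π / 2 - θ) / 2))) / (C.h * cos (C.κ * (π / 2 - θ))) := by
      rw [lt_div_iff₀ (mul_pos hh hc)]
      have h4 : C.h * cos (C.κ * (π / 2 - θ)) ≤ C.h * 1 :=
        mul_le_mul_of_nonneg_left (cos_le_one _) hh.le
      linarith
    linarith
  · have hc2 : 0 < cos (C.κ * (π / 2)) := by
      have := C.cos_pos (θ := 0) ⟨le_rfl, by positivity⟩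
      rwa [sub_zero] at this
    have hc3 : cos (C.κ * (π / 2)) ≤ cos (C.κ * (π / 2 - θ)) := by
      apply cos_le_cos_of_nonneg_of_le_pi
      · exact mul_nonneg h1 (by linarith [hθ.2])
      · nlinarith
      · exact mul_le_mul_of_nonneg_left (by linarith [hθ.1]) h1
    have h4 : C.h * cos (C.κ * (π / 2)) ≤ C.h * cos (C.κ * (π / 2 - θ)) :=
      mul_le_mul_of_nonneg_left hc3 hh.le
    have h5 : (C.m + (π / 2 - θ) * (sin (C.κ * (π / 2 - θ) / 2) *
        sinc (C.κ * (π / 2 - θ) / 2))) / (C.h * cos (C.κ * (π / 2 - θ))) ≤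
        (C.m + π / 2) / (C.h * cos (C.κ * (π / 2))) := by
      apply div_le_div₀ _ (by linarith) (mul_pos hh hc2) h4
      have := C.m_pos
      linarith
    linarith

theorem cos_eq_half (z : ℝ) : cos z = 1 - 2 * sin (z / 2) ^ 2 := by
  have h5 := cos_two_mul (z / 2)
  rw [cos_sq', show 2 * (z / 2) = z by ring] at h5
  linarith

theorem R_floor {θ : ℝ} (hθ : θ ∈ Icc 0 (π / 2)) :
    RII C.κ C.h (βII C.κ C.h C.m θ) = C.ρf / cos (C.κ * (π / 2 - θ)) := by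
  have h1 := (C.β_mem hθ).1.le
  have hc := C.cos_pos hθ
  have hh := C.h_pos
  unfold RII ρf
  rw [r_large h1, sin_pi_div_two, eq_div_iff hc.ne']
  unfold βII
  have h2 := mul_sinc (C.κ * (π / 2 - θ) / 2)
  have h3 := cos_eq_half (C.κ * (π / 2 - θ))
  generalize sinc (C.κ * (π / 2 - θ) / 2) = s at h2 ⊢
  generalize sin (C.κ * (π / 2 - θ) / 2) = t at h2 h3 ⊢
  generalize cos (C.κ * (π / 2 - θ)) = c at hc h3 ⊢
  have e : (1 + C.κ * C.h * (π / 2 + (C.m + (π / 2 - θ) * (t * s)) / (C.h * c) - π / 2)) * c =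
      c + C.κ * C.m + 2 * t * (C.κ * (π / 2 - θ) / 2 * s) := by
    field_simp
    ring
  rw [e, h2, h3]
  ring

theorem ρf_pos : 0 < C.ρf := by
  unfold ρf
  have := mul_nonneg C.κ_nonneg C.m_pos.le
  linarith

/-- The quarter domain data of class II. -/
noncomputable def toQD : QD where
  A := AII C.F C.h
  R := RII C.κ C.h
  β := βII C.κ C.h C.m
  ℓ := C.ℓ
  kN := 1 / C.b
  e₀ := arccos C.xP
  κ := C.κ
  θf := π / 2
  ρf := C.ρf
  pf := pa
  smA := AII_contDiff C.smF C.h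
  smR := RII_contDiff C.κ C.h
  posA := fun _ hp => C.posA hp.1
  R0 := by unfold RII; rw [CI.r_zero]; simp
  posR := fun _ hp => C.posR hp.1
  kN_pos := one_div_pos.2 (by linarith [C.b_gt])
  kN_lt := by
    have := C.b_gt
    rw [div_lt_one (by linarith)]
    exact this
  e₀_pos := arccos_pos.2 C.xP_lt
  e₀_lt := by
    have := arccos_le_q0 C.xP_ge
    unfold q0 at *
    unfold pa at *
    linarith
  cone0 := fun _ hp => C.cone0 hp
  cls := Or.inr ⟨C.κ_nonneg, C.κ_le, rfl⟩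
  ρf_pos := C.ρf_pos
  flat := fun _ hp => C.flat hp.1
  β_mem := fun _ hθ => C.β_mem hθ
  floor := fun θ hθ => by
    rw [C.R_floor hθ, show C.κ * (θ - π / 2) = -(C.κ * (π / 2 - θ)) by ring, cos_neg,
      div_mul_cancel₀ _ (C.cos_pos hθ).ne']
  β_const := fun h θ _ => by
    unfold βII
    rw [h]
    simp

end CII

end Pool.MP8e.C
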