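import Pool.Agent.Work.MP_8e9dbb.C.DataF
import Pool.Agent.Work.MP_8e9dbb.C.ArcC3
import Pool.Agent.Work.MP_8e9dbb.C.CapR
import Pool.Agent.Work.MP_8e9dbb.IfaceT

/-!
Block DATAF: the analytic facts of phase F.
-/

open Real Set intervalIntegral Filter Topology
open scoped ContDiff

namespace Pool.MP8e.C

theorem mF_ge {v : ℝ} (h1 : v ≤ 1) : π / 8 ≤ mF v := by
  unfold mF a1
  have := aF_le h1
  have := d0_nonneg
  linarith

/-- shifted cut-off -/
noncomputable def wsh (x : ℝ) : ℝ := w (x - 1 / 20)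
/-- primitive of the shifted cut-off -/
noncomputable def Wsh (x : ℝ) : ℝ := (x - 1 / 20) - r (x - 1 / 20)

theorem Wsh_hasDerivAt (x : ℝ) : HasDerivAt Wsh (wsh x) x := by
  unfold Wsh wsh
  have h1 : HasDerivAt (fun x : ℝ => x - 1 / 20) 1 x := (hasDerivAt_id' x).sub_const _
  have h2 := (r_hasDerivAt (x - 1 / 20)).comp x h1
  refine (h1.sub h2).congr_deriv ?_
  ring

theorem Wsh_zero {x : ℝ} (h : x ≤ pa) : Wsh x = 0 := by
  unfold Wsh
  rw [r_small (by unfold q0; unfold pa at h; linarith)]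
  ring

theorem Wsh_large {x : ℝ} (h : pa + 1 / 20 ≤ x) : Wsh x = x - 1 / 20 - π / 2 := by
  unfold Wsh
  rw [r_large (by linarith)]

theorem wsh_le (x : ℝ) : wsh x ≤ w x := by
  unfold wsh
  rcases le_total x pa with h | h
  · rw [w_zero (by unfold q0; unfold pa at h; linarith)]
    exact w_nonneg x
  · rw [w_one h]
    exact w_le_one _

section F

variable {v₀ : ℝ} (h : 0 ≤ v₀) (h1 : v₀ ≤ 1)

theorem rotF_F {a b : ℝ} {p θ v w' : ℝ → ℝ} (harc : Arc (CF v₀ h h1).toQD a b p θ v w') :
    RotF (CF v₀ h h1).toQD a b p θ v w' (fun p => cos (r p)) (fun p => 1 - w p) (Fv v₀) h0 w where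
  rot := {
    arc := harc
    sq := fun s _ => by
      change RII 0 h0 (p s) ^ 2 + cos (r (p s)) ^ 2 = 1
      rw [RII_zero]
      exact sin_sq_add_cos_sq _
    dc := fun s _ => by
      refine ((r_hasDerivAt (p s)).cos).congr_deriv ?_
      change _ = -(RII 0 h0 (p s) * (1 - w (p s)))
      rw [RII_zero]
      ring
    cc := continuous_cos.comp r_continuous
    dR := fun s _ => by
      change deriv (RII 0 h0) (p s) = _
      rw [(RII_hasDerivAt 0 h0 (p s)).deriv]
      ring
    cμ := continuous_const.sub w_continuous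
    μ0 := fun s _ => by linarith [w_le_one (p s)] }
  cF := (Fv_contDiff v₀).continuous
  h0 := h0_pos.le
  om0 := fun s _ => w_nonneg _
  eA := fun s _ => rfl

/-- the height of the floor -/
theorem βF_const (θ : ℝ) : (CF v₀ h h1).toQD.βh θ = π / 2 + mF v₀ / h0 := by
  change βII 0 h0 (mF v₀) (fold θ) = _
  unfold βII
  simp

theorem exc_pos {a b : ℝ} {p θ v w' : ℝ → ℝ} (hexc : Exc (CF v₀ h h1).toQD a b p θ v w')
    (hw : ∀ t ∈ Icc a b, 0 < w' t) : π ≤ b - a := by
  have harc := hexc.arc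
  have hlt := harc.lt
  have haI : a ∈ Icc a b := left_mem_Icc.2 hlt.le
  have hbI : b ∈ Icc a b := right_mem_Icc.2 hlt.le
  have hpi := pi_lt_d4
  have hpi2 := pi_gt_d4
  have hh := h0_pos
  have hh1 := h0_le
  have hm := mF_ge h1
  set B := π / 2 + mF v₀ / h0 with hB
  have hpa : p a = B := by rw [hexc.pa, βF_const]
  have hpb : p b = B := by rw [hexc.pb, βF_const]
  have hins : ∀ t ∈ Ioo a b, p t < B := fun t ht => by
    have := hexc.ins t ht
    rwa [βF_const] at this
  have hmh : 0.9 ≤ mF v₀ / h0 := by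
    rw [le_div_iff₀ hh]
    linarith
  have hBpa : pa + 1 / 20 ≤ B := by
    unfold pa
    linarith
  have hR1 : ∀ x, pa ≤ x → (CF v₀ h h1).toQD.R x = 1 := by
    intro x hx
    change RII 0 h0 x = 1
    rw [RII_zero, r_large hx, sin_pi_div_two]
  have hva := v_nonpos harc (fun t ht => by rw [hpa]; exact hins t ht)
  have hvb := v_nonneg harc (fun t ht => by rw [hpb]; exact hins t ht)
  -- `w a < 1`
  have hwa1 : w' a < 1 := by
    by_contra hcon
    push Not at hcon
    have hu := harc.unit a haI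
    have hva0 : v a = 0 := by nlinarith [sq_nonneg (v a)]
    exact no_osc (rotF_F h h1 harc).rot hva0 (fun s hs => by rw [hpa]; exact hins s hs)
      (by
        change 0 ≤ cos (r (p a))
        exact cos_r_nonneg (harc.pos a haI).1.le)
      (fun s hs => by
        change cos (r (p a)) ≤ cos (r (p s))
        rw [hpa]
        exact cos_r_anti (harc.pos s (Ioo_subset_Icc_self hs)).1.le (hins s hs).le)
  have hKa : (CF v₀ h h1).toQD.R (p a) * w' a < 1 := by
    rw [hpa, hR1 B (by linarith), one_mul]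
    exact hwa1
  have hc0 : ∀ x, pa ≤ x → cos (r x) = 0 := fun x hx => by rw [r_large hx, cos_pi_div_two]
  obtain ⟨φ, T⟩ := (rotF_F h h1 harc).rot.topN hw hva hvb hKa
    (by rw [hpa]; exact hc0 B (by linarith)) (by rw [hpb]; exact hc0 B (by linarith))
    (fun t ht => cos_r_nonneg (harc.pos t ht).1.le)
  set K := (CF v₀ h h1).toQD.R (p a) * w' a with hK
  set ρ := √(1 - K ^ 2) with hρ
  have hρ0 := T.ρ0
  have hK0 := T.K0
  have hsq := T.sq
  have hρ1 : ρ ≤ 1 := by nlinarith [sq_nonneg K]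
  have hvne : ∀ t ∈ Icc a b, pa ≤ p t → v t ≠ 0 := by
    intro t ht hpt hv0
    have h2 := T.Kw t ht
    rw [hR1 _ hpt, one_mul] at h2
    have h3 := harc.unit t ht
    rw [hv0, h2] at h3
    nlinarith
  have key := (rotF_F h h1 harc).time_ge' (φ := φ) (ρ := ρ) (K := K) T.φc T.φd T.eq1 T.sq T.ρ0 T.Kw
    (W := Wsh) (om' := wsh) (z := pa) Wsh_hasDerivAt (fun x hx => Wsh_zero hx)
    (fun t ht hp => hvne t (Ioo_subset_Icc_self ht) hp) (fun t ht hp => hvne t ht hp.le)
    (fun t _ => wsh_le _)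
  rw [T.φa, T.φb, hpa, hpb, Wsh_large hBpa] at key
  have hva' : v a < 0 := lt_of_le_of_ne hva (hvne a haI (by rw [hpa]; linarith))
  have hvb' : 0 < v b := lt_of_le_of_ne hvb (Ne.symm (hvne b hbI (by rw [hpb]; linarith)))
  rw [sign_neg hva', sign_pos hvb'] at key
  -- the integral
  have hint : (1 - v₀) * π + 6 * v₀ * ρ ≤ ∫ u in (-(π / 2))..(π / 2), Fv v₀ (ρ * cos u) := by
    have e1 : ∫ u in (-(π / 2))..(π / 2), ((1 - v₀) + 3 * v₀ * ρ * cos u) =
        (1 - v₀) * π + 6 * v₀ * ρ := by
      rw [integral_add (by simp) (by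
        apply Continuous.intervalIntegrable
        fun_prop), integral_const, integral_const_mul, integral_cos, sin_neg, sin_pi_div_two,
        smul_eq_mul]
      ring
    rw [← e1]
    apply integral_mono_on (by linarith)
    · apply Continuous.intervalIntegrable
      fun_prop
    · apply Continuous.intervalIntegrable
      exact (Fv_contDiff v₀).continuous.comp (by fun_prop)
    · intro u hu
      have hc : 0 ≤ cos u := cos_nonneg_of_mem_Icc hu
      have hx : ρ * cos u ≤ 1 := by
        have := cos_le_one u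
        nlinarith
      have hF := FN_ge_one one_pos le_rfl hx
      unfold Fv
      have := mul_le_mul_of_nonneg_left hF (show 0 ≤ 1 - v₀ by linarith)
      nlinarith
  have hW : h0 * (B - 1 / 20 - π / 2) = mF v₀ - h0 / 20 := by
    rw [hB]
    field_simp
    ring
  have hcyl : 0.744 / ρ ≤ h0 / ρ * ((B - 1 / 20 - π / 2) * ((1 : SignType) : ℝ) -
      (B - 1 / 20 - π / 2) * ((-1 : SignType) : ℝ)) := by
    have e2 : h0 / ρ * ((B - 1 / 20 - π / 2) * ((1 : SignType) : ℝ) -
      (B - 1 / 20 - π / 2) * ((-1 : SignType) : ℝ)) = 2 * (h0 * (B - 1 / 20 - π / 2)) / ρ := by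
      simp
      ring
    rw [e2, hW]
    apply div_le_div_of_nonneg_right _ hρ0.le
    linarith
  have hfin : π ≤ (1 - v₀) * π + 6 * v₀ * ρ + 0.744 / ρ := by
    have h5 : 0 ≤ (6 * ρ - π) + 0.744 / ρ := by
      have : (6 * ρ - π) + 0.744 / ρ = (6 * ρ ^ 2 - π * ρ + 0.744) / ρ := by
        field_simp
      rw [this]
      apply div_nonneg _ hρ0.le
      nlinarith [sq_nonneg (12 * ρ - π)]
    have h6 : 0 ≤ 0.744 / ρ := by positivity
    have h7 : (1 - v₀) * π + 6 * v₀ * ρ + 0.744 / ρ - π =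
      v₀ * ((6 * ρ - π) + 0.744 / ρ) + (1 - v₀) * (0.744 / ρ) := by ring
    have h8 := mul_nonneg h h5
    have h9 := mul_nonneg (show 0 ≤ 1 - v₀ by linarith) h6
    linarith
  linarith

theorem dataF : DataF (CF v₀ h h1).toQD := by
  have hfp : ∀ p, (CF v₀ h h1).toQD.f p = cos (r p) * (1 - w p) / (CF v₀ h h1).toQD.A p := by
    intro p
    unfold QD.f
    change deriv (RII 0 h0) p / _ = _
    rw [(RII_hasDerivAt 0 h0 p).deriv]
    congr 1
    ring
  have hc : ∀ p, 0 ≤ p → 0 ≤ cos (r p) * (1 - w p) := fun p hp =>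
    mul_nonneg (cos_r_nonneg hp) (by linarith [w_le_one p])
  refine ⟨rfl, ?_, ?_, ?_⟩
  · intro p hp
    rw [hfp]
    exact div_nonneg (hc p hp.1.le) ((CF v₀ h h1).toQD.posA p ⟨hp.1.le, hp.2⟩).le
  · intro p hp h0'
    rw [hfp, div_eq_zero_iff] at h0'
    rcases h0' with h2 | h2
    · change RII 0 h0 p = 1
      rw [RII_zero]
      have h3 : pa ≤ p := by
        by_contra hcon
        push Not at hcon
        have h4 : 0 < cos (r p) * (1 - w p) := by
          apply mul_pos
          · exact cos_pos_of_mem_Ioo ⟨by linarith [r_nonneg hp.1.le, pi_pos], r_lt hcon⟩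
          · linarith [w_lt_one hcon]
        linarith
      rw [r_large h3, sin_pi_div_two]
    · exact absurd h2 ((CF v₀ h h1).toQD.posA p ⟨hp.1.le, hp.2⟩).ne'
  · intro a b p θ v w' hexc hw
    have haI : a ∈ Icc a b := left_mem_Icc.2 hexc.arc.lt.le
    rcases lt_or_gt_of_ne (hw a haI) with h2 | h2
    · -- mirror
      have harc := hexc.arc.mirror
      have hexc' : Exc (CF v₀ h h1).toQD a b p (fun t => -θ t) v (fun t => -w' t) := by
        refine ⟨harc, ?_, ?_, ?_⟩
        · intro t ht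
          have := hexc.ins t ht
          rw [βF_const] at this ⊢
          exact this
        · have := hexc.pa
          rw [βF_const] at this ⊢
          exact this
        · have := hexc.pb
          rw [βF_const] at this ⊢
          exact this
      exact exc_pos h h1 hexc' (w_pos_of harc (by linarith))
    · exact exc_pos h h1 hexc (w_pos_of hexc.arc h2)

end F

end Pool.MP8e.C
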