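import Pool.Agent.Work.MP_8e9dbb.C.DataT
import Pool.Agent.Work.MP_8e9dbb.IfaceT

/-!
Block DATAT: the analytic facts of phase T for the explicit data.
-/

open Real Set
open scoped ContDiff

namespace Pool.MP8e.C

section scalar

variable {g : ℝ}

/-- `R_a² sinc(g/2) D ≤ 1 - 0.48 y - 0.5 y²`, `y = g/2`. -/
theorem key_T (h : 0 ≤ g) (h1 : g ≤ π / 3) :
    (1 + g / π * h0 / 40) ^ 2 * sinc (g / 2) * (1 - 4 * (1 / 16 + g / 18) * sin g) ≤
      1 - 0.48 * (g / 2) - 0.5 * (g / 2) ^ 2 := by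
  obtain ⟨y, hy⟩ : ∃ y, y = g / 2 := ⟨_, rfl⟩
  have hg : g = 2 * y := by linarith
  have hy0 : 0 ≤ y := by linarith
  have hpi := pi_lt_d4
  have hpi2 := pi_gt_d4
  have hy1 : y ≤ 0.5236 := by linarith
  have hD0 := den_ge h h1
  have hs0 := sinc_T h h1
  rw [← hy] at hs0 ⊢
  -- R_a
  have a1 : g / π * h0 / 40 ≤ 0.0066 * y := by
    rw [hg]
    have : 2 * y / π * h0 / 40 = y * (h0 / (20 * π)) := by field_simp; ring
    rw [this, mul_comm 0.0066 y]
    apply mul_le_mul_of_nonneg_left _ hy0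
    rw [div_le_iff₀ (by positivity)]
    have := h0_le
    linarith
  have a0 : 0 ≤ g / π * h0 / 40 := by
    have := h0_pos
    positivity
  have a2 : (1 + g / π * h0 / 40) ^ 2 ≤ 1 + 0.0134 * y := by
    have : (1 + g / π * h0 / 40) ^ 2 ≤ (1 + 0.0066 * y) ^ 2 :=
      pow_le_pow_left₀ (by linarith) (by linarith) 2
    nlinarith
  -- sinc
  have b1 : sinc y ≤ 1 - 0.16 * y ^ 2 := by
    rcases hy0.eq_or_lt with h2 | h2
    · rw [← h2]; simp
    · rw [sinc_of_ne_zero h2.ne', div_le_iff₀ h2]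
      have := sin_le5 hy0
      have h3 : y ^ 5 ≤ y ^ 3 * 0.3 := by
        have : y ^ 2 ≤ 0.3 := by nlinarith
        have h4 : 0 ≤ y ^ 3 := by positivity
        nlinarith
      nlinarith [pow_pos h2 3]
  -- D
  have c1 : 1 - 4 * (1 / 16 + g / 18) * sin g ≤ 1 - y / 2 - 0.55 * y ^ 2 := by
    have h2 := sin_ge3 h
    rw [hg] at h2 ⊢
    have h3 : 0 ≤ 4 * (1 / 16 + 2 * y / 18) := by positivity
    have h4 := mul_le_mul_of_nonneg_left h2 h3
    have h5 : y / 2 + 0.55 * y ^ 2 ≤ 4 * (1 / 16 + 2 * y / 18) * (2 * y - (2 * y) ^ 3 / 6) := by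
      have h6 : 4 * (1 / 16 + 2 * y / 18) * (2 * y - (2 * y) ^ 3 / 6) - (y / 2 + 0.55 * y ^ 2) =
        y ^ 2 * (8 / 9 - 0.55 - y / 3 - 16 / 27 * y ^ 2) := by ring
      have h7 : 0 ≤ 8 / 9 - 0.55 - y / 3 - 16 / 27 * y ^ 2 := by nlinarith
      have := mul_nonneg (sq_nonneg y) h7
      linarith
    linarith
  have m1 : (1 + g / π * h0 / 40) ^ 2 * sinc y ≤ (1 + 0.0134 * y) * (1 - 0.16 * y ^ 2) :=
    mul_le_mul a2 b1 (by linarith) (by positivity)
  have m2 : (1 + g / π * h0 / 40) ^ 2 * sinc y * (1 - 4 * (1 / 16 + g / 18) * sin g) ≤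
      (1 + 0.0134 * y) * (1 - 0.16 * y ^ 2) * (1 - y / 2 - 0.55 * y ^ 2) := by
    apply mul_le_mul m1 c1 (by linarith)
    apply mul_nonneg (by positivity)
    nlinarith
  refine m2.trans ?_
  have e : (1 - 0.48 * y - 0.5 * y ^ 2) - (1 + 0.0134 * y) * (1 - 0.16 * y ^ 2) *
      (1 - y / 2 - 0.55 * y ^ 2) = y * (0.0066 + y * (0.2167 + y * (0.0134 * 0.55 - 0.08 + 0.0134 * 0.16
        - 0.0134 * 0.16 * y / 2 - 0.16 * 0.55 * y - 0.0134 * 0.16 * 0.55 * y ^ 2))) := by ring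
  have e2 : 0 ≤ 0.2167 + y * (0.0134 * 0.55 - 0.08 + 0.0134 * 0.16
        - 0.0134 * 0.16 * y / 2 - 0.16 * 0.55 * y - 0.0134 * 0.16 * 0.55 * y ^ 2) := by
    nlinarith [mul_nonneg hy0 hy0, mul_nonneg hy0 (mul_nonneg hy0 hy0)]
  have e3 := mul_nonneg hy0 (add_nonneg (by norm_num : (0:ℝ) ≤ 0.0066) (mul_nonneg hy0 e2))
  linarith

theorem num1_T (h : 0 < g) (h1 : g ≤ π / 3) :
    ρT g ^ 2 * sin (g / 2) ^ 2 ≤
      (1 - (1 - 3 * (g / π)) ^ 2) * (ρT g ^ 2 - (1 + g / π * h0 / 40) ^ 2) := by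
  have hk := key_T h.le h1
  have hsq := ρT_sq' h h1
  have hD := den_ge h.le h1
  have hs := sinc_T h.le h1
  have hd0 := d0_nonneg
  have hpi := pi_lt_d4
  have hpi2 := pi_gt_d4
  obtain ⟨κ, hκ⟩ : ∃ κ, κ = g / π := ⟨_, rfl⟩
  have hgκ : g = κ * π := by rw [hκ]; field_simp
  have hκ0 : 0 < κ := by rw [hκ]; positivity
  have hκ1 : κ ≤ 1 / 3 := by rw [hκ]; exact κT_le h1
  obtain ⟨y, hy⟩ : ∃ y, y = g / 2 := ⟨_, rfl⟩
  have hy0 : 0 < y := by rw [hy]; positivity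
  have hyκ : y = κ * π / 2 := by rw [hy, hgκ]
  have hcos := one_sub_sq_div_two_le_cos (x := y)
  have hsin : sin y ^ 2 ≤ y ^ 2 := by
    have h2 := sin_le hy0.le
    have h3 : 0 ≤ sin y := sin_nonneg_of_nonneg_of_le_pi hy0.le (by linarith)
    exact pow_le_pow_left₀ h3 h2 2
  rw [← hκ, ← hy] at hk
  rw [← hκ, ← hy] at hsq
  rw [← hy] at hs
  rw [← hκ, ← hy]
  generalize sinc y = s at hk hsq hs ⊢
  generalize (1 - 4 * (1 / 16 + g / 18) * sin g) = D at hk hsq hD ⊢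
  generalize ρT g ^ 2 = P at hsq ⊢
  generalize (1 + κ * h0 / 40) ^ 2 = Q at hk ⊢
  generalize cos y = c at hsq hcos ⊢
  generalize sin y ^ 2 = S at hsin ⊢
  set m := 1 - (1 - 3 * κ) ^ 2 with hm
  have hm' : m = 3 * κ * (2 - 3 * κ) := by rw [hm]; ring
  have hm0 : 0 ≤ m := by rw [hm']; apply mul_nonneg (by positivity); linarith
  -- key scalar inequality
  have hM : y * (1 - y ^ 2 / 2) ≤ 0.48 * m := by
    rw [hm', hyκ]
    have h2 : π / 2 * (1 - (κ * π / 2) ^ 2 / 2) ≤ 1.44 * (2 - 3 * κ) := by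
      have h3 : (3.1415 : ℝ) ^ 2 ≤ π ^ 2 := pow_le_pow_left₀ (by norm_num) hpi2.le 2
      have h4 : (κ * π / 2) ^ 2 / 2 = κ ^ 2 * π ^ 2 / 8 := by ring
      rw [h4]
      have h5 : κ ^ 2 * 3.1415 ^ 2 / 8 ≤ κ ^ 2 * π ^ 2 / 8 := by
        have := mul_le_mul_of_nonneg_left h3 (sq_nonneg κ)
        linarith
      have h6 : 0 ≤ 1 - κ ^ 2 * 3.1415 ^ 2 / 8 := by nlinarith
      calc π / 2 * (1 - κ ^ 2 * π ^ 2 / 8) ≤ π / 2 * (1 - κ ^ 2 * 3.1415 ^ 2 / 8) := by
            apply mul_le_mul_of_nonneg_left _ (by positivity)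
            linarith
        _ ≤ 3.1416 / 2 * (1 - κ ^ 2 * 3.1415 ^ 2 / 8) := by
            apply mul_le_mul_of_nonneg_right _ h6
            linarith
        _ ≤ 1.44 * (2 - 3 * κ) := by nlinarith
    have h7 := mul_le_mul_of_nonneg_left h2 hκ0.le
    linarith
  have hmS : 0 ≤ m - y ^ 2 := by
    have h8 : y ≤ 0.53 := by linarith
    nlinarith
  have h9 : Q * s * D * m ≤ (1 - 0.48 * y - 0.5 * y ^ 2) * m := mul_le_mul_of_nonneg_right hk hm0
  have h10 : (1 - 0.48 * y - 0.5 * y ^ 2) * m ≤ (1 - y ^ 2 / 2) * (m - y ^ 2) := by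
    have := mul_le_mul_of_nonneg_left hM hy0.le
    nlinarith
  have h11 : (1 - y ^ 2 / 2) * (m - y ^ 2) ≤ c * (m - S) := by
    apply mul_le_mul hcos (by linarith) hmS
    have : 0 ≤ 1 - y ^ 2 / 2 := by nlinarith
    linarith
  have hc0 : 0 ≤ c := by
    have : 0 ≤ 1 - y ^ 2 / 2 := by nlinarith
    linarith
  have h12 : c * (m - S) ≤ (1 + 2 * d0 * κ) * c * (m - S) := by
    have h13 : 0 ≤ c * (m - S) := mul_nonneg hc0 (by linarith)
    have h14 : 0 ≤ 2 * d0 * κ := by positivity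
    nlinarith
  have h15 : Q * m * (s * D) ≤ P * (m - S) * (s * D) := by
    calc Q * m * (s * D) = Q * s * D * m := by ring
      _ ≤ (1 + 2 * d0 * κ) * c * (m - S) := by linarith
      _ = P * D * s * (m - S) := by rw [← hsq]
      _ = P * (m - S) * (s * D) := by ring
  have h16 := le_of_mul_le_mul_right h15 (mul_pos (by linarith) (by linarith))
  linarith

theorem eig_T (h : 0 < g) (h1 : g ≤ π / 3) :
    1 + g / π * h0 / 40 < ρT g * cos (g / 2) := by
  have hk := key_T h.le h1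
  have hsq := ρT_sq' h h1
  have hD := den_ge h.le h1
  have hs := sinc_T h.le h1
  have hd0 := d0_nonneg
  have hpi := pi_lt_d4
  have hpi2 := pi_gt_d4
  have hρ := ρT_ge h.le h1
  have hκ0 : 0 < g / π := by positivity
  have hh0 := h0_pos
  have hR0 : 0 < 1 + g / π * h0 / 40 := by positivity
  obtain ⟨y, hy⟩ : ∃ y, y = g / 2 := ⟨_, rfl⟩
  rw [← hy] at hk hsq hs ⊢
  have hy0 : 0 < y := by rw [hy]; positivity
  have hy1 : y ≤ 0.5236 := by rw [hy]; linarith
  have hcos := one_sub_sq_div_two_le_cos (x := y)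
  have hc0 : 0 < 1 - y ^ 2 / 2 := by nlinarith
  have hc3 : (1 - y ^ 2 / 2) ^ 3 ≤ cos y ^ 3 := pow_le_pow_left₀ hc0.le hcos 3
  have hlt : 1 - 0.48 * y - 0.5 * y ^ 2 < (1 - y ^ 2 / 2) ^ 3 := by
    have e : (1 - y ^ 2 / 2) ^ 3 - (1 - 0.48 * y - 0.5 * y ^ 2) =
      y * (0.48 - y + 0.75 * y ^ 3 - y ^ 5 / 8) := by ring
    have e2 : 0 < 0.48 - y + 0.75 * y ^ 3 - y ^ 5 / 8 := by
      have e3 : y ^ 5 ≤ y ^ 3 * 0.3 := by
        have : y ^ 2 ≤ 0.3 := by nlinarith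
        have h4 : 0 ≤ y ^ 3 := by positivity
        nlinarith
      have e4 : 0.48 - y + 0.7 * y ^ 3 > 0 := by
        nlinarith [sq_nonneg (y - 0.5236), mul_nonneg hy0.le (sq_nonneg (y - 0.5236)), mul_pos hy0 hy0]
      have e5 : 0 < y ^ 3 := by positivity
      linarith
    have := mul_pos hy0 e2
    linarith
  have h2 : (1 + g / π * h0 / 40) ^ 2 * (sinc y * (1 - 4 * (1 / 16 + g / 18) * sin g)) <
      (ρT g * cos y) ^ 2 * (sinc y * (1 - 4 * (1 / 16 + g / 18) * sin g)) := by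
    have e : (ρT g * cos y) ^ 2 * (sinc y * (1 - 4 * (1 / 16 + g / 18) * sin g)) =
        (1 + 2 * d0 * (g / π)) * cos y ^ 3 := by
      have : (ρT g * cos y) ^ 2 * (sinc y * (1 - 4 * (1 / 16 + g / 18) * sin g)) =
        (ρT g ^ 2 * (1 - 4 * (1 / 16 + g / 18) * sin g) * sinc y) * cos y ^ 2 := by ring
      rw [this, hsq]; ring
    rw [e]
    have h3 : 0 ≤ 2 * d0 * (g / π) * cos y ^ 3 := by
      have : 0 < cos y := by linarith
      positivity
    have h4 : (1 + g / π * h0 / 40) ^ 2 * (sinc y * (1 - 4 * (1 / 16 + g / 18) * sin g)) =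
      (1 + g / π * h0 / 40) ^ 2 * sinc y * (1 - 4 * (1 / 16 + g / 18) * sin g) := by ring
    rw [h4]
    linarith
  have h5 := lt_of_mul_lt_mul_right h2 (mul_pos (by linarith) (by linarith)).le
  have h6 : 0 < ρT g * cos y := mul_pos (by linarith) (by linarith)
  exact lt_of_pow_lt_pow_left₀ 2 h6.le h5

theorem third_T (h : 0 < g) (h1 : g ≤ π / 5) :
    ρT g < 2 * sin q0 * cos (g / 2) ^ 2 := by
  have h1' : g ≤ π / 3 := by linarith [pi_pos]
  have hsq := ρT_sq' h h1'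
  have hD := den_ge h.le h1'
  have hs := sinc_T h.le h1'
  have hd0 := d0_nonneg
  have hd1 := d0_le
  have hpi := pi_lt_d4
  have hpi2 := pi_gt_d4
  have hρ := ρT_ge h.le h1'
  have hκ1 := κT_le h1'
  have hκ0 : 0 < g / π := by positivity
  have h2 : sin q0 ≥ 0.999 := by
    unfold q0
    rw [sin_pi_div_two_sub]
    have := one_sub_sq_div_two_le_cos (x := (1 / 40 : ℝ))
    norm_num at this ⊢
    linarith
  have h3 : cos (g / 2) ≥ 0.95 := by
    have := one_sub_sq_div_two_le_cos (x := g / 2)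
    have h4 : g / 2 ≤ 0.31416 := by linarith
    have h5 : (g / 2) ^ 2 ≤ 0.31416 ^ 2 := pow_le_pow_left₀ (by positivity) h4 2
    norm_num at h5 ⊢
    linarith
  have h6 : ρT g ^ 2 * (0.58 * 0.954) ≤ 1.001 := by
    calc ρT g ^ 2 * (0.58 * 0.954) ≤ ρT g ^ 2 * ((1 - 4 * (1 / 16 + g / 18) * sin g) * sinc (g / 2)) := by
          apply mul_le_mul_of_nonneg_left _ (sq_nonneg _)
          exact mul_le_mul hD hs (by norm_num) (by linarith)
      _ = (1 + 2 * d0 * (g / π)) * cos (g / 2) := by rw [← hsq]; ring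
      _ ≤ 1.001 * 1 := by
          apply mul_le_mul _ (cos_le_one _) (by linarith) (by norm_num)
          nlinarith
      _ = 1.001 := by norm_num
  have h7 : ρT g < 1.4 := by nlinarith
  have h8 : (0.95 : ℝ) ^ 2 ≤ cos (g / 2) ^ 2 := pow_le_pow_left₀ (by norm_num) h3 2
  nlinarith

end scalar

theorem fT_eq (g : ℝ) (h : 0 ≤ g) (h1 : g ≤ π / 3) (p : ℝ) :
    (CT g h h1).toQD.f p = (cos (r p) * (1 - w p) + g / π * h0 * w p) /
      (3 * cos (r p) * (1 - w p) + h0 * w p) := by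
  unfold QD.f
  change deriv (RII (g / π) h0) p / AII (fun x => 3 * x) h0 p = _
  rw [(RII_hasDerivAt (g / π) h0 p).deriv]
  rfl

theorem dataT (g : ℝ) (h : 0 < g) (h1 : g ≤ π / 3) : DataT (CT g h.le h1).toQD := by
  have hκ1 := κT_le h1
  have hκ0 : 0 < g / π := by positivity
  have hA : ∀ p, 0 ≤ p → 0 < 3 * cos (r p) * (1 - w p) + h0 * w p := by
    intro p hp
    have := (CT g h.le h1).posA hp
    exact this
  have hc : ∀ p, 0 ≤ p → 0 ≤ cos (r p) * (1 - w p) := fun p hp =>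
    mul_nonneg (cos_r_nonneg hp) (by linarith [w_le_one p])
  have hw : ∀ p, 0 ≤ h0 * w p := fun p => mul_nonneg h0_pos.le (w_nonneg p)
  refine ⟨hκ0, ?_, ?_, ?_, ?_, ?_⟩
  · intro p hp
    rw [fT_eq]
    change g / π ≤ _
    rw [le_div_iff₀ (hA p hp.1.le)]
    have h2 := hc p hp.1.le
    nlinarith
  · intro p hp
    rw [fT_eq, div_le_iff₀ (hA p hp.1.le)]
    have h2 := hw p
    nlinarith
  · intro hlt p hp
    change g / π < 1 / 3 at hlt
    change p ∈ Ioo 0 pa at hp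
    rw [fT_eq]
    change g / π < _
    rw [lt_div_iff₀ (hA p hp.1.le)]
    have h2 : 0 < cos (r p) * (1 - w p) := by
      apply mul_pos
      · exact cos_pos_of_mem_Ioo ⟨by linarith [r_nonneg hp.1.le, pi_pos], r_lt hp.2⟩
      · linarith [w_lt_one hp.2]
    nlinarith
  · intro _
    have e1 : (CT g h.le h1).toQD.ρf = ρT g := ρf_T h.le h1
    have e2 : (CT g h.le h1).toQD.R (CT g h.le h1).toQD.pf = 1 + g / π * h0 / 40 := by
      change RII (g / π) h0 pa = _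
      unfold RII
      rw [r_large le_rfl, sin_pi_div_two]
      unfold pa
      ring
    have e3 : (CT g h.le h1).toQD.κ = g / π := rfl
    have e4 : g / π * π / 2 = g / 2 := by field_simp
    rw [e1, e2, e3, e4]
    exact num1_T h h1
  · refine ⟨q0, q0_pos, ?_, ?_, ?_⟩
    · change q0 ≤ pa
      unfold q0 pa
      linarith
    · intro p hp
      rw [fT_eq, w_zero hp.2]
      have h2 := hA p hp.1.le
      rw [w_zero hp.2] at h2
      rw [div_eq_iff h2.ne']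
      ring
    · intro h5
      have e3 : (CT g h.le h1).toQD.κ = g / π := rfl
      have e4 : g / π * π / 2 = g / 2 := by field_simp
      have e1 : (CT g h.le h1).toQD.ρf = ρT g := ρf_T h.le h1
      have e5 : (CT g h.le h1).toQD.R q0 = sin q0 := by
        change RII (g / π) h0 q0 = _
        unfold RII
        rw [r_small le_rfl]
        ring
      rw [e3] at h5
      rw [e1, e5, e3, e4]
      apply third_T h
      rw [show 5 * (g / π) = 5 * g / π by ring, div_le_iff₀ pi_pos] at h5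
      linarith

theorem eigT (g : ℝ) (h : 0 < g) (h1 : g ≤ π / 3) :
    (CT g h.le h1).toQD.R (CT g h.le h1).toQD.pf <
      (CT g h.le h1).toQD.ρf * cos ((CT g h.le h1).toQD.κ * π / 2) := by
  have e1 : (CT g h.le h1).toQD.ρf = ρT g := ρf_T h.le h1
  have e2 : (CT g h.le h1).toQD.R (CT g h.le h1).toQD.pf = 1 + g / π * h0 / 40 := by
    change RII (g / π) h0 pa = _
    unfold RII
    rw [r_large le_rfl, sin_pi_div_two]
    unfold pa
    ring
  have e3 : (CT g h.le h1).toQD.κ = g / π := rfl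
  have e4 : g / π * π / 2 = g / 2 := by field_simp
  rw [e1, e2, e3, e4]
  exact eig_T h h1

end Pool.MP8e.C
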