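import Pool.Agent.Work.MP_8e9dbb.A.Equi2
import Pool.Agent.Work.MP_8e9dbb.C.DataT

/-!
The end of phase T (`γ = π/3`) is the doubled equilateral triangle (helper19).
-/

open Real Set

namespace Pool.MP8e.C

/-- a general criterion: `deriv R = A / 3` everywhere -/
theorem isTri_of {D : QD} (hk : D.kN = 1 / 3) (hκ : D.κ = 1 / 3) {s : ℝ → ℝ}
    (hs : ∀ p, HasDerivAt s (D.A p) p) (h0 : s 0 = 0) (hR : ∀ p, D.R p = 1 / 3 * s p) :
    D.IsTri := by
  refine ⟨fun p _ => ?_, hk, hκ⟩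
  have hA : Continuous D.A := D.smA.continuous
  have e : D.sP p = s p := by
    unfold QD.sP
    rw [intervalIntegral.integral_eq_sub_of_hasDerivAt (fun u _ => hs u)
      (hA.intervalIntegrable _ _), h0, sub_zero]
  rw [e, hR, hk]

theorem isTri_CT {g : ℝ} (h : 0 ≤ g) (h1 : g ≤ π / 3) (hg : g = π / 3) :
    (CT g h h1).toQD.IsTri := by
  subst hg
  have hκ : π / 3 / π = 1 / 3 := by field_simp
  refine isTri_of rfl hκ (s := sT) sT_hasDerivAt ?_ (fun p => ?_)
  · unfold sT; rw [r_zero]; simp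
  · show RII (π / 3 / π) h0 p = _
    rw [RII_T, hκ]; ring

end Pool.MP8e.C
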