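import Pool.Agent.Work.MP_8e9dbb.C.DataT
import Pool.Agent.Work.MP_8e9dbb.Top

/-!
Block WAIST: the cylinder of circumference `2π` in phases R', S', F.
-/

open Real Set
open scoped ContDiff

namespace Pool.MP8e.C

theorem fold_mem (θ : ℝ) : fold θ ∈ Icc 0 (π / 2) :=
  ⟨arccos_nonneg _, arccos_le_pi_div_two.2 (abs_nonneg _)⟩

theorem RI_plateau (k : ℝ) {p : ℝ} (h1 : pa ≤ p) (h2 : p ≤ ptot - pa) : RI k p = 1 := by
  unfold RI
  rw [r_large h1, r_south h2, sin_pi_div_two]
  ring

theorem CI.waist (C : CI) : C.toQD.Waist := by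
  refine ⟨pa + 1 / 2, 1 / 4, by norm_num, by have := pa_pos; linarith, ?_, ?_⟩
  · intro θ
    have h1 : C.pf < βI C.k C.θf C.uB (fold θ) := (C.β_mem (fold_mem θ)).1
    have h2 : pa + 1 / 2 < C.pf := by
      unfold CI.pf
      have := arccos_le_q0 C.xf_ge
      unfold pa ptot
      unfold q0 at this
      linarith [pi_pos]
    exact h2.trans h1
  · intro p hp
    have h3 := abs_lt.1 hp
    apply RI_plateau
    · linarith [h3.1]
    · unfold ptot pa at *
      linarith [h3.2]

theorem S0_waist : S0.Waist := by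
  refine ⟨pa + 1 / 2, 1 / 4, by norm_num, by have := pa_pos; linarith, ?_, ?_⟩
  · intro θ
    have h1 : ptot - arccos (1 / 20) < βI 0 (π / 4) (1 / 20) (fold θ) := (S0.β_mem _ (fold_mem θ)).1
    have h2 : pa + 1 / 2 < ptot - arccos (1 / 20) := by
      have := arccos_le_q0 (x := 1 / 20) (by norm_num)
      unfold pa ptot
      unfold q0 at this
      linarith [pi_pos]
    exact h2.trans h1
  · intro p hp
    have h3 := abs_lt.1 hp
    apply RI_plateau
    · linarith [h3.1]
    · unfold ptot pa at *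
      linarith [h3.2]

theorem CII.waist (C : CII) (hκ : C.κ = 0) : C.toQD.Waist := by
  have h0 : ∀ θ, C.toQD.β θ = C.toQD.β 0 := by
    intro θ
    change βII C.κ C.h C.m θ = βII C.κ C.h C.m 0
    unfold βII
    rw [hκ]
    simp
  have h1 : pa < C.toQD.β 0 := (C.β_mem ⟨le_rfl, by positivity⟩).1
  refine ⟨(pa + C.toQD.β 0) / 2, (C.toQD.β 0 - pa) / 2, by linarith, by have := pa_pos; linarith,
    ?_, ?_⟩
  · intro θ
    change (pa + C.toQD.β 0) / 2 < C.toQD.β (fold θ)
    rw [h0 (fold θ)]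
    linarith
  · intro p hp
    have h3 := abs_lt.1 hp
    change RII C.κ C.h p = 1
    unfold RII
    rw [hκ, r_large (by linarith [h3.1]), sin_pi_div_two]
    ring

theorem waist_CR {t : ℝ} (h : 0 < t) (h1 : t ≤ 1) : (CR t h h1).toQD.Waist := (CR t h h1).waist

theorem waist_CS {k : ℝ} (h : 0 < k) (h1 : k ≤ 1) : (CS k h h1).toQD.Waist := (CS k h h1).waist

theorem waist_CF {v : ℝ} (h : 0 ≤ v) (h1 : v ≤ 1) : (CF v h h1).toQD.Waist :=
  (CF v h h1).waist rfl

end Pool.MP8e.C
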