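import Pool.Agent.Work.MP_8e9dbb.C.AreaI

/-!
The data of phase R' (parameter `t ∈ (0, 1]`).
-/

open Real Set intervalIntegral
open scoped ContDiff

namespace Pool.MP8e.C

/-- `area / 2π` in phases S' and F -/
noncomputable def a1 : ℝ := 3 / 2 + π / 8
/-- `∫ gg` -/
noncomputable def ag (t : ℝ) : ℝ := ∫ x in (0:ℝ)..1, gg t x
/-- `∫ cap` -/
noncomputable def ac (t : ℝ) : ℝ := ∫ x in (0:ℝ)..1, cap t x
/-- `∫ FN` -/
noncomputable def aN (t : ℝ) : ℝ := ∫ x in (0:ℝ)..1, FN t x

theorem gg_cont (t : ℝ) : Continuous (gg t) := (gg_contDiff t).continuous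
theorem cap_cont (t : ℝ) : Continuous (cap t) := (cap_contDiff t).continuous
theorem FN_cont (t : ℝ) : Continuous (FN t) := (FN_contDiff t).continuous

theorem aN_eq (t : ℝ) : aN t = 2 - ag t + ac t := by
  unfold aN ag ac FN
  rw [integral_add, integral_sub]
  · simp
  · simp
  · exact (gg_cont t).intervalIntegrable _ _
  · exact (continuous_const.sub (gg_cont t)).intervalIntegrable _ _
  · exact (cap_cont t).intervalIntegrable _ _

theorem ac_nonneg {t : ℝ} (h : 0 < t) (h1 : t ≤ 1) : 0 ≤ ac t := by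
  unfold ac
  exact integral_nonneg zero_le_one fun x _ => cap_nonneg h h1 x

theorem ac_le {t : ℝ} (h : 0 < t) (h1 : t ≤ 1) : ac t ≤ t ^ 2 / 625 := by
  have hd := dt_pos h
  have hd1 := dt_le h1
  unfold ac
  have h2 := integral_add_adjacent_intervals (μ := MeasureTheory.volume)
    ((cap_cont t).intervalIntegrable 0 (1 - 2 * dt t))
    ((cap_cont t).intervalIntegrable (1 - 2 * dt t) 1)
  have h3 : ∫ x in (0:ℝ)..(1 - 2 * dt t), cap t x = ∫ x in (0:ℝ)..(1 - 2 * dt t), (0:ℝ) := by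
    apply integral_congr
    intro x hx
    rw [uIcc_of_le (by linarith)] at hx
    exact cap_zero h hx.2
  have h4 : ∫ x in (1 - 2 * dt t)..1, cap t x ≤ ∫ x in (1 - 2 * dt t)..1, (bt t - 1) := by
    apply integral_mono_on (by linarith) ((cap_cont t).intervalIntegrable _ _) (by simp)
    intro x hx
    exact cap_le h h1 hx.2
  rw [← h2, h3]
  simp only [integral_const, smul_eq_mul] at h4 ⊢
  unfold bt dt at *
  nlinarith

theorem wwR_nonneg {k : ℝ} (hk : k ≤ 1) {p : ℝ} (hp : p ∈ Icc 0 ptot) :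
    0 ≤ RI k p := by
  unfold RI
  have h1 : 0 ≤ sin (r p) :=
    sin_nonneg_of_nonneg_of_le_pi (r_nonneg hp.1) (by linarith [r_le p, pi_pos])
  have h2 : 0 ≤ sin (r (ptot - p)) := sin_nonneg_of_nonneg_of_le_pi
    (r_nonneg (by linarith [hp.2])) (by linarith [r_le (ptot - p), pi_pos])
  apply mul_nonneg h1
  nlinarith [sin_le_one (r (ptot - p))]

theorem RI_le_one {k : ℝ} (hk : 0 ≤ k) {p : ℝ} (hp : p ∈ Icc 0 ptot) :
    RI k p ≤ 1 := by
  unfold RI
  have h1 : 0 ≤ sin (r p) :=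
    sin_nonneg_of_nonneg_of_le_pi (r_nonneg hp.1) (by linarith [r_le p, pi_pos])
  have h3 := mul_nonneg hk (sub_nonneg.2 (sin_le_one (r (ptot - p))))
  have h4 := sin_le_one (r p)
  have h5 := mul_nonneg h1 h3
  have e : sin (r p) * (1 - k * (1 - sin (r (ptot - p)))) = sin (r p) -
    sin (r p) * (k * (1 - sin (r (ptot - p)))) := by ring
  linarith

theorem MI_cont (k : ℝ) : Continuous fun p => w p * w (ptot - p) * RI k p :=
  (w_continuous.mul (w_continuous.comp cont_q)).mul (RI_contDiff k).continuous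

theorem MI_ge {k : ℝ} (hk1 : k ≤ 1) : 1 ≤ MI k := by
  have hpa := pa_pos
  have hpa2 := pa_lt
  have e : ptot - pa - pa = 1 := by unfold ptot pa; ring
  have hM := MI_cont k
  have h1 := integral_add_adjacent_intervals (μ := MeasureTheory.volume)
    (hM.intervalIntegrable 0 pa) (hM.intervalIntegrable pa (ptot - pa))
  have h2 := integral_add_adjacent_intervals (μ := MeasureTheory.volume)
    (hM.intervalIntegrable 0 (ptot - pa)) (hM.intervalIntegrable (ptot - pa) ptot)
  have h3 : 0 ≤ ∫ p in (0:ℝ)..pa, w p * w (ptot - p) * RI k p := by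
    apply integral_nonneg hpa.le
    intro p hp
    exact mul_nonneg (mul_nonneg (w_nonneg _) (w_nonneg _))
      (wwR_nonneg hk1 ⟨hp.1, by linarith [hp.2]⟩)
  have h4 : 0 ≤ ∫ p in (ptot - pa)..ptot, w p * w (ptot - p) * RI k p := by
    apply integral_nonneg (by linarith)
    intro p hp
    exact mul_nonneg (mul_nonneg (w_nonneg _) (w_nonneg _))
      (wwR_nonneg hk1 ⟨by linarith [hp.1], hp.2⟩)
  have h5 : ∫ p in pa..(ptot - pa), w p * w (ptot - p) * RI k p =
      ∫ p in pa..(ptot - pa), (1:ℝ) := by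
    apply integral_congr
    intro p hp
    rw [uIcc_of_le (by linarith)] at hp
    dsimp only
    rw [w_one hp.1, w_south hp.2, RI_north hp.2, r_large hp.1, sin_pi_div_two]
    ring
  rw [integral_const, smul_eq_mul, mul_one, e] at h5
  unfold MI
  rw [← h2, ← h1, h5]
  linarith

theorem q0_lt : q0 < ptot - q0 := by unfold q0 ptot; linarith

theorem MI_le {k : ℝ} (hk : 0 ≤ k) (hk1 : k ≤ 1) : MI k ≤ 11 / 10 := by
  have hpa := q0_pos
  have hpa2 := q0_lt
  have e : ptot - q0 - q0 = 11 / 10 := by unfold ptot q0; ring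
  have hM := MI_cont k
  have h1 := integral_add_adjacent_intervals (μ := MeasureTheory.volume)
    (hM.intervalIntegrable 0 q0) (hM.intervalIntegrable q0 (ptot - q0))
  have h2 := integral_add_adjacent_intervals (μ := MeasureTheory.volume)
    (hM.intervalIntegrable 0 (ptot - q0)) (hM.intervalIntegrable (ptot - q0) ptot)
  have h3 : ∫ p in (0:ℝ)..q0, w p * w (ptot - p) * RI k p = ∫ p in (0:ℝ)..q0, (0:ℝ) := by
    apply integral_congr
    intro p hp
    rw [uIcc_of_le (by linarith)] at hp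
    dsimp only
    rw [w_zero hp.2]
    ring
  have h4 : ∫ p in (ptot - q0)..ptot, w p * w (ptot - p) * RI k p =
      ∫ p in (ptot - q0)..ptot, (0:ℝ) := by
    apply integral_congr
    intro p hp
    rw [uIcc_of_le (by linarith)] at hp
    dsimp only
    rw [w_zero (p := ptot - p) (by linarith [hp.1])]
    ring
  have h5 : ∫ p in q0..(ptot - q0), w p * w (ptot - p) * RI k p ≤
      ∫ p in q0..(ptot - q0), (1:ℝ) := by
    apply integral_mono_on (by linarith) (hM.intervalIntegrable _ _) (by simp)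
    intro p hp
    have hp' : p ∈ Icc 0 ptot := ⟨by linarith [hp.1], by linarith [hp.2]⟩
    have h6 : w p * w (ptot - p) ≤ 1 * 1 :=
      mul_le_mul (w_le_one _) (w_le_one _) (w_nonneg _) zero_le_one
    have h7 : w p * w (ptot - p) * RI k p ≤ 1 * 1 * 1 :=
      mul_le_mul h6 (RI_le_one hk hp') (wwR_nonneg hk1 hp') (by norm_num)
    linarith
  rw [integral_const, smul_eq_mul, mul_one, e] at h5
  unfold MI
  rw [← h2, ← h1, h3, h4]
  simp
  linarith

/-- height of the plateau in phase R' -/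
noncomputable def hR (t : ℝ) : ℝ :=
  (361 / 400 * t ^ 2 / π - (1 / 2 - π / 8) * t ^ 2 - ac t) / MI 1

theorem hR_ge {t : ℝ} (h : 0 < t) (h1 : t ≤ 1) : 4 / 25 * t ^ 2 ≤ hR t := by
  unfold hR
  have hM := MI_ge (k := 1) le_rfl
  have hM2 := MI_le (k := 1) zero_le_one le_rfl
  have ha := ac_le h h1
  have hpi1 := pi_gt_d6
  have hpi2 := pi_lt_d6
  rw [le_div_iff₀ (by linarith)]
  have h2 : (0.2872 : ℝ) ≤ 361 / 400 / π := by
    rw [le_div_iff₀ (by linarith)]; linarith
  have h3 : 361 / 400 * t ^ 2 / π = 361 / 400 / π * t ^ 2 := by ring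
  rw [h3]
  have ht : 0 < t ^ 2 := by positivity
  nlinarith

theorem hR_le {t : ℝ} (h : 0 < t) (h1 : t ≤ 1) : hR t ≤ 91 / 500 * t ^ 2 := by
  unfold hR
  have hM := MI_ge (k := 1) le_rfl
  have ha := ac_nonneg h h1
  have hpi1 := pi_gt_d6
  have hpi2 := pi_lt_d6
  rw [div_le_iff₀ (by linarith)]
  have h2 : 361 / 400 / π ≤ 0.2873 := by
    rw [div_le_iff₀ (by linarith)]; linarith
  have h3 : 361 / 400 * t ^ 2 / π = 361 / 400 / π * t ^ 2 := by ring
  rw [h3]
  have ht : 0 < t ^ 2 := by positivity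
  nlinarith

theorem hR_pos {t : ℝ} (h : 0 < t) (h1 : t ≤ 1) : 0 < hR t := by
  have := hR_ge h h1
  have : 0 < t ^ 2 := by positivity
  linarith

/-- radius of the corner `B` in the flat disc -/
noncomputable def rB (t : ℝ) : ℝ := 19 / 20 * √t

theorem rB_pos {t : ℝ} (h : 0 < t) : 0 < rB t := by unfold rB; positivity
theorem rB_sq {t : ℝ} (h : 0 < t) : rB t ^ 2 = 361 / 400 * t := by
  unfold rB
  rw [mul_pow, sq_sqrt h.le]
  norm_num

theorem rB_lt {t : ℝ} (h : 0 < t) (h1 : t ≤ 1) : rB t < √(1 - xt t ^ 2) := by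
  rw [lt_sqrt (rB_pos h).le, rB_sq h]
  unfold xt x0
  nlinarith

/-- angle of the foot -/
noncomputable def tfR (t : ℝ) : ℝ := π / 2 - arctan t

theorem arctan_pos' {t : ℝ} (h : 0 < t) : 0 < arctan t := arctan_pos.2 h
theorem arctan_le' {t : ℝ} (h1 : t ≤ 1) : arctan t ≤ π / 4 := by
  rw [← arctan_one]; exact arctan_mono h1

theorem cos_tfR (t : ℝ) : cos (tfR t) = sin (arctan t) := by
  unfold tfR; exact cos_pi_div_two_sub _

theorem sin_tfR (t : ℝ) : sin (tfR t) = cos (arctan t) := by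
  unfold tfR; exact sin_pi_div_two_sub _

theorem sin_arctan_pos {t : ℝ} (h : 0 < t) : 0 < sin (arctan t) :=
  sin_pos_of_pos_of_lt_pi (arctan_pos' h) (by linarith [arctan_lt_pi_div_two t, pi_pos])

theorem uR_le {t : ℝ} (h : 0 < t) (h1 : t ≤ 1) {θ : ℝ} (hθ : θ ∈ Icc 0 (π / 2)) :
    uI 1 (tfR t) (1 - rB t) θ ≤ 1 - rB t * sin (arctan t) := by
  have ha := arctan_pos' h
  have hb := arctan_le' h1
  have hpi := pi_pos
  have hc : 0 < cos (1 * (θ - tfR t)) := by
    apply cos_pos_of_mem_Ioo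
    unfold tfR
    constructor
    · linarith [hθ.1]
    · linarith [hθ.2]
  have h2 := floorI (k := 1) (θf := tfR t) (uB := 1 - rB t) (θ := θ) hc.ne'
  simp only [one_mul] at h2
  rw [cos_tfR] at h2
  have hc1 : 0 < cos (θ - tfR t) := by rwa [one_mul] at hc
  have h3 := cos_le_one (θ - tfR t)
  have h4 : 0 < rB t * sin (arctan t) := mul_pos (rB_pos h) (sin_arctan_pos h)
  by_contra h5
  push Not at h5
  have h6 : (1 - uI 1 (tfR t) (1 - rB t) θ) < rB t * sin (arctan t) := by linarith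
  have h7 : (1 - uI 1 (tfR t) (1 - rB t) θ) * cos (θ - tfR t) <
      rB t * sin (arctan t) * cos (θ - tfR t) := mul_lt_mul_of_pos_right h6 hc1
  have h8 : rB t * sin (arctan t) * cos (θ - tfR t) ≤ rB t * sin (arctan t) * 1 :=
    mul_le_mul_of_nonneg_left h3 h4.le
  have h9 : (1 - (1 - rB t)) * sin (arctan t) = rB t * sin (arctan t) := by ring
  linarith

/-- The parameters of phase R'. -/
noncomputable def CR (t : ℝ) (h : 0 < t) (h1 : t ≤ 1) : CI where
  FN := FN t
  FS := gg t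
  h := hR t
  k := 1
  θf := tfR t
  uB := 1 - rB t
  um := 1 - rB t * sin (arctan t)
  xf := xt t
  b := bt t
  xP := 1 - dt t
  smN := FN_contDiff t
  smS := gg_contDiff t
  posN := fun x hx => lt_of_lt_of_le zero_lt_one (FN_ge_one h h1 hx.2)
  posS := fun x hx => gg_pos h h1 hx.2
  h_pos := hR_pos h h1
  k_pos := one_pos
  k_le := le_rfl
  θf_ge := by unfold tfR; linarith [arctan_le' h1, pi_pos]
  θf_lt := by unfold tfR; linarith [arctan_pos' h]
  b_gt := bt_gt h
  xP_ge := by linarith [dt_le h1]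
  xP_lt := by linarith [dt_pos h]
  coneN := fun x hx => FN_cone h h1 hx
  xf_ge := xt_ge h1
  flatS := fun x hx => gg_id h hx
  uB_gt := by linarith [rB_lt h h1]
  um_lt := by linarith [mul_pos (rB_pos h) (sin_arctan_pos h)]
  u_le := fun θ hθ => uR_le h h1 hθ

theorem area_R {t : ℝ} (h : 0 < t) (h1 : t ≤ 1) :
    (CR t h h1).toQD.area4 = 2 * π * (2 - (1 / 2 - π / 8) * t ^ 2) := by
  rw [CI.area]
  have hpi := pi_pos
  have hM := MI_ge (k := 1) le_rfl
  have hc : cos (arctan t) ≠ 0 := (cos_arctan_pos t).ne'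
  have hs : sin (arctan t) ≠ 0 := (sin_arctan_pos h).ne'
  have ht : sin (arctan t) = t * cos (arctan t) := by
    have := tan_arctan t
    rw [tan_eq_sin_div_cos, div_eq_iff hc] at this
    exact this
  have hsc : sin (arctan t) ^ 2 + cos (arctan t) ^ 2 = 1 := sin_sq_add_cos_sq _
  have e1 : (CR t h h1).Itot = aN t + hR t * MI 1 + ag t := by
    unfold CI.Itot
    change (∫ x in (0:ℝ)..1, FN t x) + hR t * MI 1 + (1 - 1) *
      (∫ x in (0:ℝ)..(π / 2), gg t (cos x)) + 1 * (∫ x in (0:ℝ)..1, gg t x) = _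
    unfold aN ag
    ring
  have e2 : (CR t h h1).ρf = rB t * sin (arctan t) := by
    unfold CI.ρf
    change (1 - 1 * (1 - rB t)) * cos (1 * tfR t) = _
    rw [one_mul, one_mul, cos_tfR]; ring
  have e3 : (CR t h h1).k = 1 := rfl
  have e4 : (CR t h h1).θf = tfR t := rfl
  rw [e1, e2, e3, e4, aN_eq]
  have e5 : tan (1 * (π / 2 - tfR t)) = t := by
    unfold tfR
    rw [one_mul, sub_sub_cancel, tan_arctan]
  have e6 : tan (1 * tfR t) = cos (arctan t) / sin (arctan t) := by
    rw [one_mul, tan_eq_sin_div_cos, sin_tfR, cos_tfR]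
  rw [e5, e6]
  have e7 : hR t * MI 1 = 361 / 400 * t ^ 2 / π - (1 / 2 - π / 8) * t ^ 2 - ac t := by
    unfold hR
    rw [div_mul_cancel₀ _ (by linarith)]
  rw [e7, mul_pow, rB_sq h]
  have e8 : sin (arctan t) ^ 2 * (t + cos (arctan t) / sin (arctan t)) = t := by
    have : t + cos (arctan t) / sin (arctan t) = 1 / (sin (arctan t) * cos (arctan t)) := by
      field_simp
      rw [← hsc]
      rw [ht]
      ring
    rw [this]
    field_simp
    rw [ht]
    ring
  have e9 : 2 / 1 ^ 2 * (361 / 400 * t * sin (arctan t) ^ 2) *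
      (t + cos (arctan t) / sin (arctan t)) = 361 / 200 * t ^ 2 := by
    have : 2 / 1 ^ 2 * (361 / 400 * t * sin (arctan t) ^ 2) *
      (t + cos (arctan t) / sin (arctan t)) = 361 / 200 * t *
      (sin (arctan t) ^ 2 * (t + cos (arctan t) / sin (arctan t))) := by ring
    rw [this, e8]; ring
  rw [e9]
  field_simp
  ring

end Pool.MP8e.C
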