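import Pool.Agent.Work.MP_8e9dbb.C.Junction
import Pool.Agent.Work.MP_8e9dbb.C.Anti
import Pool.Agent.Work.MP_8e9dbb.C.CapsR
import Pool.Agent.Work.MP_8e9dbb.C.CapsS
import Pool.Agent.Work.MP_8e9dbb.C.DataFFacts
import Pool.Agent.Work.MP_8e9dbb.C.DataTFacts
import Pool.Agent.Work.MP_8e9dbb.C.WaistC
import Pool.Agent.Work.MP_8e9dbb.C.TriC
import Pool.Agent.Work.MP_8e9dbb.A.Surf
import Pool.Agent.Work.MP_8e9dbb.Z.IfaceZD
import Pool.Agent.Work.MP_8e9dbb.Top

/-!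
# MP_8e9dbb_gt, part C: the record `CThy` from the blocks `StmtBet`, `StmtLip`, `Stmt_ZA`, `Stmt_ZD`
-/

open Real Set Filter Topology
open scoped ContDiff

namespace Pool.MP8e.C

theorem lipClose_symm {g h : ConeSphere} {ε : ℝ} (H : LipClose g h ε) : LipClose h g ε := by
  obtain ⟨f, hf⟩ := H
  refine ⟨f.symm, fun x y => ?_⟩
  have := hf (f.symm x) (f.symm y)
  simp only [Equiv.apply_symm_apply] at this
  exact ⟨this.2, this.1⟩

theorem lipClose_trans {g h k : ConeSphere} {ε δ : ℝ} (H : LipClose g h ε) (K : LipClose h k δ) :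
    LipClose g k (ε + δ) := by
  obtain ⟨f, hf⟩ := H
  obtain ⟨f', hf'⟩ := K
  refine ⟨f.trans f', fun x y => ?_⟩
  have h1 := hf x y
  have h2 := hf' (f x) (f y)
  have e1 : 0 < exp ε := exp_pos _
  have e2 : 0 < exp δ := exp_pos _
  rw [exp_add]
  simp only [Equiv.trans_apply]
  constructor
  · calc dist (f' (f x)) (f' (f y)) ≤ exp δ * dist (f x) (f y) := h2.1
      _ ≤ exp δ * (exp ε * dist x y) := mul_le_mul_of_nonneg_left h1.1 e2.le
      _ = exp ε * exp δ * dist x y := by ring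
  · calc dist x y ≤ exp ε * dist (f x) (f y) := h1.2
      _ ≤ exp ε * (exp δ * dist (f' (f x)) (f' (f y))) := mul_le_mul_of_nonneg_left h2.2 e1.le
      _ = exp ε * exp δ * dist (f' (f x)) (f' (f y)) := by ring

theorem lipClose_mono {g h : ConeSphere} {ε δ : ℝ} (H : LipClose g h ε) (h1 : ε ≤ δ) :
    LipClose g h δ := by
  obtain ⟨f, hf⟩ := H
  refine ⟨f, fun x y => ?_⟩
  have h2 := hf x y
  have h3 := exp_le_exp.2 h1
  exact ⟨h2.1.trans (mul_le_mul_of_nonneg_right h3 dist_nonneg),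
    h2.2.trans (mul_le_mul_of_nonneg_right h3 dist_nonneg)⟩

/-- part A -/
noncomputable def aThy (hB : StmtBet) : AThy where
  surf D := D.surf hB
  prj D := D.Pr
  facts D := D.facts

variable (hB : StmtBet) (hL : StmtLip)

include hL

theorem lip_of {D D' : QD} {ε : ℝ} (h : 0 ≤ ε) (H : QComp D D' ε) :
    LipClose ((aThy hB).surf D) ((aThy hB).surf D') ε := hL D D' ε h H

theorem cR_fam : ∀ t ∈ Ioc (0:ℝ) 1, ∀ ε > 0, ∀ᶠ t' in 𝓝[Icc 0 1] t,
    LipClose ((aThy hB).surf (famR t)) ((aThy hB).surf (famR t')) ε := by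
  intro t ht ε hε
  filter_upwards [famR_qcomp ht.1 ht.2 hε] with t' h
  exact lip_of hB hL hε.le h

theorem cF_fam : ∀ t ∈ Icc (0:ℝ) 1, ∀ ε > 0, ∀ᶠ t' in 𝓝[Icc 0 1] t,
    LipClose ((aThy hB).surf (famF t)) ((aThy hB).surf (famF t')) ε := by
  intro t ht ε hε
  filter_upwards [famF_qcomp ht.1 ht.2 hε] with t' h
  exact lip_of hB hL hε.le h

theorem cT_fam : ∀ t ∈ Icc (0:ℝ) 1, ∀ ε > 0, ∀ᶠ t' in 𝓝[Icc 0 1] t,
    LipClose ((aThy hB).surf (famT t)) ((aThy hB).surf (famT t')) ε := by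
  intro t ht ε hε
  filter_upwards [famT_qcomp ht.1 ht.2 hε] with t' h
  exact lip_of hB hL hε.le h

theorem cS_fam : ∀ t ∈ Icc (0:ℝ) 1, ∀ ε > 0, ∀ᶠ t' in 𝓝[Icc 0 1] t,
    LipClose ((aThy hB).surf (famS t)) ((aThy hB).surf (famS t')) ε := by
  intro t ht ε hε
  rcases ht.2.lt_or_eq with h1 | h1
  · filter_upwards [famS_qcomp ht.1 h1 hε] with t' h
    exact lip_of hB hL hε.le h
  · subst h1
    have hj : LipClose ((aThy hB).surf (famS 1)) ((aThy hB).surf S0) 0 := by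
      rw [famS_one]
      exact lipClose_symm (lip_of hB hL le_rfl junction)
    filter_upwards [famS_qcomp_one hε] with t' h
    rcases eq_or_ne t' 1 with h2 | h2
    · rw [h2]
      have h3 := lipClose_trans hj (lipClose_symm hj)
      exact lipClose_mono h3 (by linarith)
    · have h3 := lipClose_trans hj (lip_of hB hL hε.le (h h2))
      rwa [zero_add] at h3

omit hL

/-- `c0` from the blocks ZA and ZD -/
theorem c0_fam (hZA : Zero.Stmt_ZA) (hZD : Zero.Stmt_ZD) : ∀ g : ConeSphere, IsRound g → ∀ ε > 0,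
    ∀ᶠ t in 𝓝[Ioc 0 1] (0:ℝ), LipClose g ((aThy hB).surf (famR t)) ε := by
  intro g hg ε hε
  obtain ⟨t₀, ht₀, h⟩ := hZD ε hε
  rw [eventually_nhdsWithin_iff]
  filter_upwards [gt_mem_nhds ht₀, gt_mem_nhds (one_pos : (0:ℝ) < 1)] with t h1 h2 h3
  obtain ⟨S, B, τ, y, Λ, h4, h5⟩ := h t h3.1 h3.2 h1
  rw [famR_of h3.1 h2]
  exact lipClose_mono (hZA _ S B τ y Λ h4 ((aThy hB).surf _) _ ((aThy hB).facts _) g hg) h5

/-- **Part C.** -/
noncomputable def cThy (hL : StmtLip) (hZA : Zero.Stmt_ZA) (hZD : Zero.Stmt_ZD) :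
    CThy (aThy hB) where
  R := famR
  S := famS
  F := famF
  T := famT
  hR := fun t ht => by
    rcases ht.2.lt_or_eq with h1 | h1
    · rw [famR_of ht.1 h1]
      exact ⟨capsR ht.1 h1.le, waist_CR ht.1 h1.le⟩
    · rw [h1, famR_one]
      exact ⟨capsS one_pos le_rfl, waist_CS one_pos le_rfl⟩
  hS := fun t ht => by
    rw [famS_of ht.1 ht.2]
    exact ⟨capsS _ _, waist_CS _ _⟩
  hF := fun t ht => by
    rw [famF_of ht.1 ht.2]
    exact ⟨dataF _ _, waist_CF _ _⟩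
  hT := fun t ht => by
    have := pi_pos
    have h0 := ht.1
    have h1 := ht.2
    rw [famT_of h0 h1]
    exact ⟨dataT _ (by positivity) _, eigT _ (by positivity) _⟩
  jRS := famS_zero
  jSF := famF_zero
  jFT := famT_zero
  cR := cR_fam hB hL
  cS := cS_fam hB hL
  cF := cF_fam hB hL
  cT := cT_fam hB hL
  c0 := c0_fam hB hZA hZD
  aR := aR_fam
  aR' := aR'_fam
  aS := aS_fam
  aF := aF_fam
  aT := aT_fam
  dbl := by
    rw [famT_of one_pos le_rfl]
    exact (isTri_CT (by positivity) (by have := pi_pos; linarith) (by ring)).dbl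

end Pool.MP8e.C
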