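import Pool.Agent.Work.MP_8e9dbb.C.Families

/-!
Continuity of the data: auxiliary functions.
-/

open Real Set Filter Topology intervalIntegral
open scoped ContDiff

namespace Pool.MP8e.C

/-- `sin (r p) / p` -/
noncomputable def eR (p : ℝ) : ℝ := dslope (fun p => sin (r p)) 0 p

theorem sinr_hasDerivAt (p : ℝ) : HasDerivAt (fun p => sin (r p)) (cos (r p) * (1 - w p)) p :=
  (r_hasDerivAt p).sin

theorem eR_mul (p : ℝ) : p * eR p = sin (r p) := by
  have h := sub_smul_dslope (fun p => sin (r p)) 0 p
  simp only [sub_zero, smul_eq_mul, r_zero, sin_zero] at h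
  exact h

theorem eR_zero : eR 0 = 1 := by
  unfold eR
  rw [dslope_same, (sinr_hasDerivAt 0).deriv, r_zero, cos_zero,
    w_zero (by linarith [q0_pos] : (0:ℝ) ≤ q0)]
  ring

theorem eR_pos {p : ℝ} (hp : 0 ≤ p) : 0 < eR p := by
  rcases hp.eq_or_lt with h | h
  · rw [← h, eR_zero]; exact one_pos
  · have h1 := sin_r_pos h
    rw [← eR_mul] at h1
    exact (mul_pos_iff_of_pos_left h).1 h1

theorem eR_cont : Continuous eR := by
  rw [continuous_iff_continuousAt]
  intro p
  unfold eR
  rcases eq_or_ne p 0 with h | h
  · rw [h]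
    exact continuousAt_dslope_same.2 (sinr_hasDerivAt 0).differentiableAt
  · exact (continuousAt_dslope_of_ne h).2 (sinr_hasDerivAt p).continuousAt

/-- `(p - r p) / p` -/
noncomputable def fR (p : ℝ) : ℝ := dslope (fun p => p - r p) 0 p

theorem fR_mul (p : ℝ) : p * fR p = p - r p := by
  have h := sub_smul_dslope (fun p => p - r p) 0 p
  simp only [sub_zero, smul_eq_mul, r_zero] at h
  exact h

theorem fR_hasDerivAt (p : ℝ) : HasDerivAt (fun p => p - r p) (w p) p :=
  ((hasDerivAt_id' p).sub (r_hasDerivAt p)).congr_deriv (by ring)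

theorem fR_zero : fR 0 = 0 := by
  unfold fR
  rw [dslope_same, (fR_hasDerivAt 0).deriv, w_zero (by linarith [q0_pos] : (0:ℝ) ≤ q0)]

theorem fR_nonneg {p : ℝ} (hp : 0 ≤ p) : 0 ≤ fR p := by
  rcases hp.eq_or_lt with h | h
  · rw [← h, fR_zero]
  · have h1 : 0 ≤ p - r p := by linarith [r_le_self p]
    rw [← fR_mul] at h1
    exact nonneg_of_mul_nonneg_right h1 h

theorem fR_cont : Continuous fR := by
  rw [continuous_iff_continuousAt]
  intro p
  unfold fR
  rcases eq_or_ne p 0 with h | h
  · rw [h]
    exact continuousAt_dslope_same.2 (fR_hasDerivAt 0).differentiableAt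
  · exact (continuousAt_dslope_of_ne h).2 (fR_hasDerivAt p).continuousAt

/-- clamping to `[a, 1]` -/
noncomputable def cl (a t : ℝ) : ℝ := max a (min t 1)

theorem cl_cont (a : ℝ) : Continuous (cl a) := by unfold cl; fun_prop

theorem cl_ge (a t : ℝ) : a ≤ cl a t := le_max_left _ _

theorem cl_le {a t : ℝ} (h : a ≤ 1) : cl a t ≤ 1 := max_le h (min_le_right _ _)

theorem cl_id {a t : ℝ} (h : a ≤ t) (h1 : t ≤ 1) : cl a t = t := by
  unfold cl
  rw [min_eq_left h1, max_eq_right h]

/-- joint continuity of the speed functions along a positive parameter -/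
theorem gg_joint {X : Type} [TopologicalSpace X] {s x : X → ℝ} (hs : Continuous s)
    (hx : Continuous x) (h0 : ∀ y, 0 < s y) : Continuous fun y => gg (s y) (x y) := by
  unfold gg
  have h1 : Continuous fun y => (x y - xt (s y) + wt (s y)) / wt (s y) := by
    apply Continuous.div
    · unfold xt wt; fun_prop
    · unfold wt; fun_prop
    · intro y; exact (wt_pos (h0 y)).ne'
  exact continuous_const.sub ((continuous_const.sub hx).mul
    (smoothTransition.continuous.comp h1))

theorem cap_joint {X : Type} [TopologicalSpace X] {s x : X → ℝ} (hs : Continuous s)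
    (hx : Continuous x) (h0 : ∀ y, 0 < s y) : Continuous fun y => cap (s y) (x y) := by
  unfold cap
  have h1 : Continuous fun y => (x y - 1 + 2 * dt (s y)) / dt (s y) := by
    apply Continuous.div
    · unfold dt; fun_prop
    · unfold dt; fun_prop
    · intro y; exact (dt_pos (h0 y)).ne'
  have h2 : Continuous fun y => (bt (s y) + 1) * x y - 2 := by unfold bt dt; fun_prop
  exact h2.mul (smoothTransition.continuous.comp h1)

theorem FN_joint {X : Type} [TopologicalSpace X] {s x : X → ℝ} (hs : Continuous s)
    (hx : Continuous x) (h0 : ∀ y, 0 < s y) : Continuous fun y => FN (s y) (x y) := by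
  unfold FN
  exact (continuous_const.sub (gg_joint hs hx h0)).add (cap_joint hs hx h0)

theorem ac_joint {s : ℝ → ℝ} (hs : Continuous s) (h0 : ∀ y, 0 < s y) :
    Continuous fun y => ac (s y) := by
  unfold ac
  apply continuous_parametric_intervalIntegral_of_continuous'
  exact cap_joint (hs.comp continuous_fst) continuous_snd fun y => h0 y.1

theorem MI_pos : 0 < MI 1 := lt_of_lt_of_le one_pos (MI_ge le_rfl)

theorem hR_joint {s : ℝ → ℝ} (hs : Continuous s) (h0 : ∀ y, 0 < s y) :
    Continuous fun y => hR (s y) := by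
  unfold hR
  apply Continuous.div _ continuous_const fun _ => MI_pos.ne'
  exact ((continuous_const.mul (hs.pow 2)).div_const _ |>.sub
    (continuous_const.mul (hs.pow 2))).sub (ac_joint hs h0)

theorem MI_cont_k : Continuous MI := by
  unfold MI
  apply continuous_parametric_intervalIntegral_of_continuous'
  change Continuous fun y : ℝ × ℝ => w y.2 * w (ptot - y.2) * RI y.1 y.2
  unfold RI
  have h1 := w_continuous
  have h2 := r_continuous
  fun_prop

theorem c2_cont : Continuous c2 := by
  rw [continuous_iff_continuousAt]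
  intro k
  rcases eq_or_ne k 0 with h | h
  · subst h
    have hb : ∀ k, |c2 k| ≤ |k| * π ^ 2 / 48 := by
      intro k
      rcases le_total 0 k with h | h
      · rw [abs_of_nonneg (c2_nonneg h), abs_of_nonneg h]
        exact c2_le h
      · have e : c2 k = -c2 (-k) := by
          unfold c2
          rw [show -k * π / 2 = -(k * π / 2) by ring, sinc_neg]
          rw [show 2 * -k = -(2 * k) by ring, div_neg, neg_neg]
        have h' : 0 ≤ -k := by linarith
        rw [e, abs_neg, abs_of_nonneg (c2_nonneg h'), abs_of_nonpos h]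
        exact c2_le h'
    have e0 : c2 0 = 0 := by unfold c2; simp
    rw [ContinuousAt, e0]
    apply squeeze_zero_norm (a := fun k => |k| * π ^ 2 / 48) hb
    have : Continuous fun k : ℝ => |k| * π ^ 2 / 48 := by fun_prop
    have h2 := this.tendsto 0
    simpa using h2
  · unfold c2
    apply ContinuousAt.div
    · exact (continuous_const.sub (continuous_sinc.comp (by fun_prop))).continuousAt
    · fun_prop
    · simpa using h

theorem Jk_cont : Continuous Jk := by
  unfold Jk
  have h1 := c2_cont
  have h2 : Continuous fun k : ℝ => sinc (k * π / 2) := continuous_sinc.comp (by fun_prop)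
  fun_prop

theorem hS_joint {s : ℝ → ℝ} (hs : Continuous s) (h1 : ∀ y, s y ≤ 1) :
    Continuous fun y => hS (s y) := by
  unfold hS
  apply Continuous.div
  · exact continuous_const.sub (Jk_cont.comp hs)
  · exact MI_cont_k.comp hs
  · intro y
    exact (lt_of_lt_of_le one_pos (MI_ge (h1 y))).ne'

end Pool.MP8e.C
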