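import Pool.Agent.Work.MP_8e9dbb.C.ContBase

/-!
Continuity of the families of class I (phases R' and S').
-/

open Real Set Filter Topology intervalIntegral
open scoped ContDiff

namespace Pool.MP8e.C

/-- derivative of the depth of the floor -/
noncomputable def duI (k θf uB θ : ℝ) : ℝ :=
  -((1 - k * uB) * cos (k * θf) * sin (k * (θ - θf))) / cos (k * (θ - θf)) ^ 2

/-- derivative of the floor -/
noncomputable def dβI (k θf uB θ : ℝ) : ℝ := duI k θf uB θ / √(1 - (1 - uI k θf uB θ) ^ 2)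

theorem uI_strict {k θf uB θ : ℝ} (hc : cos (k * (θ - θf)) ≠ 0) :
    HasStrictDerivAt (uI k θf uB) (duI k θf uB θ) θ := by
  rcases eq_or_ne k 0 with h | h
  · have e : uI k θf uB = fun _ => uB := by
      funext z; unfold uI; rw [h]; simp
    have e2 : duI k θf uB θ = 0 := by unfold duI; rw [h]; simp
    rw [e, e2]
    exact hasStrictDerivAt_const _ _
  · have h1 : HasStrictDerivAt (fun z => k * (z - θf)) k θ := by
      have h0 : HasStrictDerivAt (fun z : ℝ => z - θf) 1 θ := (hasStrictDerivAt_id θ).sub_const θf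
      simpa using h0.const_mul k
    have h2 : HasStrictDerivAt (fun z => cos (k * (z - θf))) (-sin (k * (θ - θf)) * k) θ :=
      h1.cos
    have h3 : HasStrictDerivAt (fun z => -((1 - k * uB) * cos (k * θf) / k) /
        cos (k * (z - θf))) ((0 * cos (k * (θ - θf)) - -((1 - k * uB) * cos (k * θf) / k) *
        (-sin (k * (θ - θf)) * k)) / cos (k * (θ - θf)) ^ 2) θ :=
      (hasStrictDerivAt_const θ (-((1 - k * uB) * cos (k * θf) / k))).fun_div h2 hc
    have h3' : HasStrictDerivAt (fun z => 1 / k + -((1 - k * uB) * cos (k * θf) / k) /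
        cos (k * (z - θf))) ((0 * cos (k * (θ - θf)) - -((1 - k * uB) * cos (k * θf) / k) *
        (-sin (k * (θ - θf)) * k)) / cos (k * (θ - θf)) ^ 2) θ := h3.const_add (1 / k)
    have h4 : (fun z => 1 / k + -((1 - k * uB) * cos (k * θf) / k) /
        cos (k * (z - θf))) =ᶠ[𝓝 θ] uI k θf uB := by
      have hn : ∀ᶠ z in 𝓝 θ, cos (k * (z - θf)) ≠ 0 :=
        (h2.hasDerivAt.continuousAt).eventually_ne hc
      filter_upwards [hn] with z hz
      have h5 := floorI (uB := uB) hz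
      have h6 : uI k θf uB z = (1 - (1 - k * uB) * cos (k * θf) / cos (k * (z - θf))) / k := by
        rw [eq_div_iff h, eq_sub_iff_add_eq, ← h5]
        field_simp
        ring
      rw [h6]
      field_simp
      ring
    refine (h3'.congr_of_eventuallyEq h4).congr_deriv ?_
    unfold duI
    field_simp
    ring

theorem βI_strict {k θf uB θ : ℝ} (hc : cos (k * (θ - θf)) ≠ 0) (h0 : 0 < uI k θf uB θ)
    (h1 : uI k θf uB θ < 2) : HasStrictDerivAt (βI k θf uB) (dβI k θf uB θ) θ := by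
  have h2 : HasStrictDerivAt (fun z => 1 - uI k θf uB z) (-duI k θf uB θ) θ :=
    (uI_strict hc).const_sub 1
  have h3 := (hasStrictDerivAt_arcsin (x := 1 - uI k θf uB θ) (by linarith) (by linarith)).comp θ h2
  have h4 := h3.const_sub ptot
  refine h4.congr_deriv ?_
  unfold dβI
  ring

/-- continuity of `uI` in all variables -/
theorem uI_joint {X : Type} [TopologicalSpace X] {k θf uB θ : X → ℝ} {y : X}
    (hk : ContinuousAt k y) (hf : ContinuousAt θf y) (hu : ContinuousAt uB y)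
    (hθ : ContinuousAt θ y) (hc : cos (k y * (θ y - θf y)) ≠ 0) :
    ContinuousAt (fun x => uI (k x) (θf x) (uB x) (θ x)) y := by
  unfold uI
  have h1 : ContinuousAt (fun x => k x * (θf x - θ x / 2)) y := by fun_prop
  have h2 : ContinuousAt (fun x => sinc (k x * (θf x - θ x / 2))) y :=
    ContinuousAt.comp (continuous_sinc.continuousAt) h1
  apply hu.add
  refine ContinuousAt.div ?_ ?_ ?_
  · fun_prop
  · fun_prop
  · exact hc

theorem βI_joint {X : Type} [TopologicalSpace X] {k θf uB θ : X → ℝ} {y : X}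
    (hk : ContinuousAt k y) (hf : ContinuousAt θf y) (hu : ContinuousAt uB y)
    (hθ : ContinuousAt θ y) (hc : cos (k y * (θ y - θf y)) ≠ 0) :
    ContinuousAt (fun x => βI (k x) (θf x) (uB x) (θ x)) y := by
  unfold βI
  exact continuousAt_const.sub (continuous_arcsin.continuousAt.comp
    (continuousAt_const.sub (uI_joint hk hf hu hθ hc)))

theorem dβI_joint {X : Type} [TopologicalSpace X] {k θf uB θ : X → ℝ} {y : X}
    (hk : ContinuousAt k y) (hf : ContinuousAt θf y) (hu : ContinuousAt uB y)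
    (hθ : ContinuousAt θ y) (hc : cos (k y * (θ y - θf y)) ≠ 0)
    (h0 : 0 < uI (k y) (θf y) (uB y) (θ y)) (h1 : uI (k y) (θf y) (uB y) (θ y) < 2) :
    ContinuousAt (fun x => dβI (k x) (θf x) (uB x) (θ x)) y := by
  unfold dβI duI
  have h2 := uI_joint hk hf hu hθ hc
  apply ContinuousAt.div
  · refine ContinuousAt.div ?_ ?_ ?_
    · fun_prop
    · fun_prop
    · exact pow_ne_zero 2 hc
  · exact (continuousAt_const.sub ((continuousAt_const.sub h2).pow 2)).sqrt
  · apply (sqrt_pos.2 _).ne'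
    nlinarith

/-- quotient of the radius -/
noncomputable def QI (k p : ℝ) : ℝ := eR p * (1 - k * (1 - sin (r (ptot - p))))

theorem QI_mul (k p : ℝ) : RI k p = p * QI k p := by
  unfold QI RI
  rw [← eR_mul]; ring

theorem QI_cont : Continuous fun x : ℝ × ℝ => QI x.1 x.2 := by
  unfold QI
  have h1 := eR_cont
  have h2 := r_continuous
  fun_prop

theorem QI_pos {k p : ℝ} (hk : k ≤ 1) (hp : 0 ≤ p) (hp1 : p < ptot) : 0 < QI k p := by
  unfold QI
  apply mul_pos (eR_pos hp)
  have h1 := sin_r_pos (p := ptot - p) (by linarith)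
  have h2 : k * (1 - sin (r (ptot - p))) ≤ 1 * (1 - sin (r (ptot - p))) :=
    mul_le_mul_of_nonneg_right hk (by linarith [sin_le_one (r (ptot - p))])
  linarith

theorem AI_joint {X : Type} [TopologicalSpace X] {FN FS : X → ℝ → ℝ} {h p : X → ℝ}
    (hN : Continuous fun x => FN x (cos (r (p x)))) (hS : Continuous fun x =>
    FS x (cos (r (ptot - p x)))) (hh : Continuous h) (hp : Continuous p) :
    Continuous fun x => AI (FN x) (FS x) (h x) (p x) := by
  unfold AI
  have h1 : Continuous fun x => w (p x) := w_continuous.comp hp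
  have h2 : Continuous fun x => w (ptot - p x) := w_continuous.comp (continuous_const.sub hp)
  exact ((hN.mul (continuous_const.sub h1)).add (hS.mul (continuous_const.sub h2))).add
    ((hh.mul h1).mul h2)

section R

/-- functions of phase R' with clamped parameter -/
noncomputable def AR (a t p : ℝ) : ℝ := AI (FN (cl a t)) (gg (cl a t)) (hR (cl a t)) p
noncomputable def QR (_t p : ℝ) : ℝ := QI 1 p
noncomputable def βR (a t θ : ℝ) : ℝ := βI 1 (tfR (cl a t)) (1 - rB (cl a t)) θ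
noncomputable def dβR (a t θ : ℝ) : ℝ := dβI 1 (tfR (cl a t)) (1 - rB (cl a t)) θ

theorem famR_isFam {a t : ℝ} (ha : 0 < a) (h : a ≤ t) (h1 : t ≤ 1) :
    IsFam (AR a) QR (βR a) t (famR t) := by
  have e := cl_id h h1
  have hR' : ∀ p, (CR t (ha.trans_le h) h1).toQD.R p = p * QR t p := fun p => QI_mul 1 p
  rcases h1.lt_or_eq with h2 | h2
  · rw [famR_of (ha.trans_le h) h2]
    refine ⟨fun p _ => ?_, fun p _ => hR' p, fun θ _ => ?_⟩
    · unfold AR; rw [e]; rfl
    · unfold βR; rw [e]; rfl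
  · subst h2
    rw [famR_one]
    refine ⟨fun p _ => ?_, fun p _ => QI_mul 1 p, fun θ _ => ?_⟩
    · unfold AR; rw [e, ← hS_one]; rfl
    · unfold βR
      rw [e]
      have e1 : tfR 1 = π / 4 := by unfold tfR; rw [arctan_one]; ring
      have e2 : 1 - rB 1 = 1 / 20 := by unfold rB; rw [sqrt_one]; norm_num
      rw [e1, e2]
      rfl

theorem famR_Fam {a t₀ : ℝ} (ha : 0 < a) (h : a ≤ t₀) (h1 : t₀ ≤ 1) :
    Fam (AR a) QR (βR a) (dβR a) t₀ := by
  have ha1 : a ≤ 1 := h.trans h1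
  have hs := cl_cont a
  have hs0 : ∀ t, 0 < cl a t := fun t => ha.trans_le (cl_ge a t)
  have hs1 : ∀ t, cl a t ≤ 1 := fun t => cl_le ha1
  have e0 := cl_id h h1
  have hr := r_continuous
  let C : ∀ t, CI := fun t => CR (cl a t) (hs0 t) (hs1 t)
  have hcos : ∀ t, ∀ θ ∈ Icc 0 (π / 2), cos (1 * (θ - tfR (cl a t))) ≠ 0 :=
    fun t θ hθ => ((C t).cos_pos hθ).ne'
  have hu0 : ∀ t, ∀ θ ∈ Icc 0 (π / 2), 0 < uI 1 (tfR (cl a t)) (1 - rB (cl a t)) θ :=
    fun t θ hθ => (C t).uB_pos.trans_le ((C t).u_ge hθ)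
  have hu1 : ∀ t, ∀ θ ∈ Icc 0 (π / 2), uI 1 (tfR (cl a t)) (1 - rB (cl a t)) θ < 2 :=
    fun t θ hθ => by
      have := (C t).u_le θ hθ
      have := (C t).um_lt
      change uI (C t).k (C t).θf (C t).uB θ < 2
      linarith
  have ctf : Continuous fun t => tfR (cl a t) := by
    unfold tfR
    have := continuous_arctan.comp hs
    exact continuous_const.sub this
  have crb : Continuous fun t => 1 - rB (cl a t) := by
    unfold rB
    have := hs.sqrt
    exact continuous_const.sub (continuous_const.mul this)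
  have hβpos : ∀ θ ∈ Icc 0 (π / 2), 0 < βR a t₀ θ := fun θ hθ => by
    have h2 := ((C t₀).β_mem hθ).1
    have h3 := (C t₀).pf_ge
    have h4 := pa_pos
    change 0 < βI (C t₀).k (C t₀).θf (C t₀).uB θ
    linarith
  have hℓ : ∀ θ ∈ Icc 0 (π / 2), βR a t₀ θ ≤ (C t₀).ℓ := fun θ hθ => ((C t₀).β_mem hθ).2
  refine ⟨fun p _ => ?_, fun p _ => ?_, fun θ hθ => ?_, fun θ hθ => ?_, ?_, hβpos,
    fun θ hθ p hp => ?_, fun θ hθ p hp => ?_⟩
  · apply Continuous.continuousAt
    unfold AR
    apply AI_joint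
    · exact FN_joint (hs.comp continuous_fst)
        (continuous_cos.comp (hr.comp continuous_snd)) fun y => hs0 y.1
    · exact gg_joint (hs.comp continuous_fst)
        (continuous_cos.comp (hr.comp (continuous_const.sub continuous_snd))) fun y => hs0 y.1
    · exact (hR_joint hs hs0).comp continuous_fst
    · exact continuous_snd
  · apply Continuous.continuousAt
    unfold QR
    exact QI_cont.comp (continuous_const.prodMk continuous_snd)
  · exact βI_joint continuousAt_const (ctf.comp continuous_fst).continuousAt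
      (crb.comp continuous_fst).continuousAt continuousAt_snd (hcos t₀ θ hθ)
  · exact dβI_joint continuousAt_const (ctf.comp continuous_fst).continuousAt
      (crb.comp continuous_fst).continuousAt continuousAt_snd (hcos t₀ θ hθ) (hu0 t₀ θ hθ)
      (hu1 t₀ θ hθ)
  · exact Eventually.of_forall fun t θ hθ => βI_strict (hcos t θ hθ) (hu0 t θ hθ) (hu1 t θ hθ)
  · exact (C t₀).posA ⟨hp.1, hp.2.trans (hℓ θ hθ)⟩
  · exact QI_pos le_rfl hp.1 (lt_of_le_of_lt (hp.2.trans (hℓ θ hθ)) (C t₀).ℓ_lt)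

/-- **Continuity of phase R'.** -/
theorem famR_qcomp {t₀ : ℝ} (h : 0 < t₀) (h1 : t₀ ≤ 1) {ε : ℝ} (hε : 0 < ε) :
    ∀ᶠ t in 𝓝[Icc 0 1] t₀, QComp (famR t₀) (famR t) ε := by
  have ha : 0 < t₀ / 2 := by linarith
  have h2 := (famR_Fam ha (by linarith) h1).qcomp hε
  rw [eventually_nhdsWithin_iff]
  filter_upwards [h2, lt_mem_nhds (show t₀ / 2 < t₀ by linarith)] with t h3 h4 h5
  exact h3 _ _ (famR_isFam ha (by linarith) h1) (famR_isFam ha h4.le h5.2)

end R

section S

/-- the parameter `k` -/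
noncomputable def kS (t : ℝ) : ℝ := cl 0 (1 - t)

noncomputable def AS (t p : ℝ) : ℝ := AI (FN 1) (gg 1) (hS (kS t)) p
noncomputable def QS (t p : ℝ) : ℝ := QI (kS t) p
noncomputable def βS (t θ : ℝ) : ℝ := βI (kS t) (π / 4) (1 / 20) θ
noncomputable def dβS (t θ : ℝ) : ℝ := dβI (kS t) (π / 4) (1 / 20) θ

theorem kS_eq {t : ℝ} (h : 0 ≤ t) (h1 : t ≤ 1) : kS t = 1 - t :=
  cl_id (by linarith) (by linarith)

theorem famS_isFam {t : ℝ} (h : 0 ≤ t) (h1 : t < 1) : IsFam AS QS βS t (famS t) := by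
  have e := kS_eq h h1.le
  rw [famS_of h h1]
  refine ⟨fun p _ => ?_, fun p _ => ?_, fun θ _ => ?_⟩
  · unfold AS; rw [e]; rfl
  · unfold QS; rw [e]; exact QI_mul _ p
  · unfold βS; rw [e]; rfl

theorem S0_isFam : IsFam AS QS βS 1 S0 := by
  have e : kS 1 = 0 := by rw [kS_eq zero_le_one le_rfl]; ring
  refine ⟨fun p _ => ?_, fun p _ => ?_, fun θ _ => ?_⟩
  · unfold AS; rw [e]; rfl
  · unfold QS; rw [e]; exact QI_mul _ p
  · unfold βS; rw [e]; rfl

theorem famS_Fam (t₀ : ℝ) : Fam AS QS βS dβS t₀ := by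
  have hs : Continuous kS := (cl_cont 0).comp (continuous_const.sub continuous_id)
  have hs0 : ∀ t, 0 ≤ kS t := fun t => cl_ge 0 _
  have hs1 : ∀ t, kS t ≤ 1 := fun t => cl_le zero_le_one
  have hpi := pi_pos
  have hr := r_continuous
  have hcos : ∀ t, ∀ θ ∈ Icc 0 (π / 2), cos (kS t * (θ - π / 4)) ≠ 0 := by
    intro t θ hθ
    apply (cos_pos_of_mem_Ioo _).ne'
    have h2 := hs0 t
    have h3 := hs1 t
    have h4 : |kS t * (θ - π / 4)| ≤ 1 * (π / 4) := by
      rw [abs_mul, abs_of_nonneg h2]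
      apply mul_le_mul h3 _ (abs_nonneg _) zero_le_one
      rw [abs_le]; constructor <;> linarith [hθ.1, hθ.2]
    rw [abs_le] at h4
    constructor <;> linarith [h4.1, h4.2]
  have hu0 : ∀ t, ∀ θ ∈ Icc 0 (π / 2), 1 / 20 ≤ uI (kS t) (π / 4) (1 / 20) θ := fun t θ hθ =>
    uI_ge (hs0 t) (hs1 t) le_rfl (by linarith) hθ (by linarith [hs1 t])
  have hu1 : ∀ t, ∀ θ ∈ Icc 0 (π / 2), uI (kS t) (π / 4) (1 / 20) θ ≤ 1 / 2 := fun t θ hθ =>
    uS_le (hs0 t) (hs1 t) hθ
  have hβ1 : ∀ θ ∈ Icc 0 (π / 2), βS t₀ θ ≤ ptot - arcsin (1 / 2) := fun θ hθ => by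
    have h2 := hu1 t₀ θ hθ
    have : arcsin (1 / 2) ≤ arcsin (1 - uI (kS t₀) (π / 4) (1 / 20) θ) :=
      arcsin_le_arcsin (by linarith)
    unfold βS βI
    linarith
  have has : 0 < arcsin (1 / 2) := arcsin_pos.2 (by norm_num)
  have hβ0 : ∀ θ, 0 < βS t₀ θ := fun θ => by
    have := arcsin_le_pi_div_two (1 - uI (kS t₀) (π / 4) (1 / 20) θ)
    unfold βS βI ptot
    linarith
  have hA : ∀ θ ∈ Icc 0 (π / 2), ∀ p ∈ Icc 0 (βS t₀ θ), 0 < AS t₀ p := by
    intro θ hθ p hp
    have hp2 : p ≤ ptot - arcsin (1 - 1 / 2) := by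
      have := hp.2.trans (hβ1 θ hθ)
      norm_num at this ⊢
      exact this
    let C : CI := { CS 1 one_pos le_rfl with h := hS (kS t₀), h_pos := hS_pos (hs0 t₀) (hs1 t₀) }
    exact C.posA ⟨hp.1, hp2⟩
  refine ⟨fun p _ => ?_, fun p _ => ?_, fun θ hθ => ?_, fun θ hθ => ?_, ?_, fun θ _ => hβ0 θ,
    hA, fun θ hθ p hp => ?_⟩
  · apply Continuous.continuousAt
    unfold AS
    apply AI_joint
    · exact (FN_cont 1).comp (continuous_cos.comp (hr.comp continuous_snd))
    · exact (gg_cont 1).comp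
        (continuous_cos.comp (hr.comp (continuous_const.sub continuous_snd)))
    · exact (hS_joint hs hs1).comp continuous_fst
    · exact continuous_snd
  · apply Continuous.continuousAt
    unfold QS
    exact QI_cont.comp ((hs.comp continuous_fst).prodMk continuous_snd)
  · exact βI_joint (hs.comp continuous_fst).continuousAt continuousAt_const
      continuousAt_const continuousAt_snd (hcos t₀ θ hθ)
  · exact dβI_joint (hs.comp continuous_fst).continuousAt continuousAt_const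
      continuousAt_const continuousAt_snd (hcos t₀ θ hθ)
      (lt_of_lt_of_le (by norm_num) (hu0 t₀ θ hθ)) (lt_of_le_of_lt (hu1 t₀ θ hθ) (by norm_num))
  · exact Eventually.of_forall fun t θ hθ => βI_strict (hcos t θ hθ)
      (lt_of_lt_of_le (by norm_num) (hu0 t θ hθ)) (lt_of_le_of_lt (hu1 t θ hθ) (by norm_num))
  · exact QI_pos (hs1 t₀) hp.1 (by linarith [hp.2.trans (hβ1 θ hθ)])

/-- **Continuity of phase S', inside.** -/
theorem famS_qcomp {t₀ : ℝ} (h : 0 ≤ t₀) (h1 : t₀ < 1) {ε : ℝ} (hε : 0 < ε) :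
    ∀ᶠ t in 𝓝[Icc 0 1] t₀, QComp (famS t₀) (famS t) ε := by
  have h2 := (famS_Fam t₀).qcomp hε
  rw [eventually_nhdsWithin_iff]
  filter_upwards [h2, gt_mem_nhds h1] with t h3 h4 h5
  exact h3 _ _ (famS_isFam h h1) (famS_isFam h5.1 h4)

/-- **Continuity of phase S' at the end.** -/
theorem famS_qcomp_one {ε : ℝ} (hε : 0 < ε) :
    ∀ᶠ t in 𝓝[Icc 0 1] (1:ℝ), t ≠ 1 → QComp S0 (famS t) ε := by
  have h2 := (famS_Fam 1).qcomp hε
  rw [eventually_nhdsWithin_iff]
  filter_upwards [h2] with t h3 h5 h6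
  exact h3 _ _ S0_isFam (famS_isFam h5.1 (lt_of_le_of_ne h5.2 h6))

end S

end Pool.MP8e.C
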