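import Pool.Agent.Work.MP_8e9dbb.C.ContI

/-!
Continuity of the families of class II (phases F and T) and the junction.
-/

open Real Set Filter Topology intervalIntegral
open scoped ContDiff

namespace Pool.MP8e.C

/-- derivative of the floor -/
noncomputable def dβII (κ h m θ : ℝ) : ℝ :=
  -((1 + κ * m) * sin (κ * (π / 2 - θ))) / (h * cos (κ * (π / 2 - θ)) ^ 2)

theorem βII_key (κ y : ℝ) :
    κ * (y * (sin (κ * y / 2) * sinc (κ * y / 2))) = 1 - cos (κ * y) := by
  have h2 := mul_sinc (κ * y / 2)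
  have h3 := CII.cos_eq_half (κ * y)
  have e : κ * (y * (sin (κ * y / 2) * sinc (κ * y / 2))) =
      2 * sin (κ * y / 2) * (κ * y / 2 * sinc (κ * y / 2)) := by ring
  rw [e, h2, h3]
  ring

theorem βII_strict {κ h m θ : ℝ} (hh : h ≠ 0) (hc : cos (κ * (π / 2 - θ)) ≠ 0) :
    HasStrictDerivAt (βII κ h m) (dβII κ h m θ) θ := by
  rcases eq_or_ne κ 0 with hk | hk
  · have e : βII κ h m = fun _ => π / 2 + m / h := by
      funext z; unfold βII; rw [hk]; simp
    have e2 : dβII κ h m θ = 0 := by unfold dβII; rw [hk]; simp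
    rw [e, e2]
    exact hasStrictDerivAt_const _ _
  · have h1 : HasStrictDerivAt (fun z => κ * (π / 2 - z)) (-κ) θ := by
      have h0 : HasStrictDerivAt (fun z : ℝ => π / 2 - z) (-1) θ :=
        (hasStrictDerivAt_id θ).const_sub (π / 2)
      simpa using h0.const_mul κ
    have h2 : HasStrictDerivAt (fun z => cos (κ * (π / 2 - z)))
        (-sin (κ * (π / 2 - θ)) * -κ) θ := h1.cos
    have h3 : HasStrictDerivAt (fun z => ((1 + κ * m) / (κ * h)) / cos (κ * (π / 2 - z)))
        ((0 * cos (κ * (π / 2 - θ)) - ((1 + κ * m) / (κ * h)) *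
        (-sin (κ * (π / 2 - θ)) * -κ)) / cos (κ * (π / 2 - θ)) ^ 2) θ :=
      (hasStrictDerivAt_const θ ((1 + κ * m) / (κ * h))).fun_div h2 hc
    have h3' : HasStrictDerivAt (fun z => (π / 2 - 1 / (κ * h)) +
        ((1 + κ * m) / (κ * h)) / cos (κ * (π / 2 - z)))
        ((0 * cos (κ * (π / 2 - θ)) - ((1 + κ * m) / (κ * h)) *
        (-sin (κ * (π / 2 - θ)) * -κ)) / cos (κ * (π / 2 - θ)) ^ 2) θ :=
      h3.const_add (π / 2 - 1 / (κ * h))
    have h4 : (fun z => (π / 2 - 1 / (κ * h)) +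
        ((1 + κ * m) / (κ * h)) / cos (κ * (π / 2 - z))) =ᶠ[𝓝 θ] βII κ h m := by
      have hn : ∀ᶠ z in 𝓝 θ, cos (κ * (π / 2 - z)) ≠ 0 :=
        (h2.hasDerivAt.continuousAt).eventually_ne hc
      filter_upwards [hn] with z hz
      have h5 := βII_key κ (π / 2 - z)
      have h6 : (π / 2 - z) * (sin (κ * (π / 2 - z) / 2) * sinc (κ * (π / 2 - z) / 2)) =
          (1 - cos (κ * (π / 2 - z))) / κ := by
        rw [eq_div_iff hk, ← h5]
        ring
      unfold βII
      rw [h6]
      generalize cos (κ * (π / 2 - z)) = c at hz ⊢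
      field_simp
      ring
    refine (h3'.congr_of_eventuallyEq h4).congr_deriv ?_
    unfold dβII
    field_simp
    ring

theorem βII_joint {X : Type} [TopologicalSpace X] {κ m θ : X → ℝ} {h : ℝ} {y : X} (hh : h ≠ 0)
    (hk : ContinuousAt κ y) (hm : ContinuousAt m y) (hθ : ContinuousAt θ y)
    (hc : cos (κ y * (π / 2 - θ y)) ≠ 0) :
    ContinuousAt (fun x => βII (κ x) h (m x) (θ x)) y := by
  unfold βII
  have h1 : ContinuousAt (fun x => κ x * (π / 2 - θ x) / 2) y := by fun_prop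
  have h2 : ContinuousAt (fun x => sinc (κ x * (π / 2 - θ x) / 2)) y :=
    ContinuousAt.comp (continuous_sinc.continuousAt) h1
  apply continuousAt_const.add
  refine ContinuousAt.div ?_ ?_ ?_
  · fun_prop
  · fun_prop
  · exact mul_ne_zero hh hc

theorem dβII_joint {X : Type} [TopologicalSpace X] {κ m θ : X → ℝ} {h : ℝ} {y : X} (hh : h ≠ 0)
    (hk : ContinuousAt κ y) (hm : ContinuousAt m y) (hθ : ContinuousAt θ y)
    (hc : cos (κ y * (π / 2 - θ y)) ≠ 0) :
    ContinuousAt (fun x => dβII (κ x) h (m x) (θ x)) y := by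
  unfold dβII
  refine ContinuousAt.div ?_ ?_ ?_
  · fun_prop
  · fun_prop
  · exact mul_ne_zero hh (pow_ne_zero 2 hc)

/-- quotient of the radius -/
noncomputable def QII (κ p : ℝ) : ℝ := eR p + κ * h0 * fR p

theorem QII_mul (κ p : ℝ) : RII κ h0 p = p * QII κ p := by
  unfold QII RII
  rw [mul_add, eR_mul, ← fR_mul]; ring

theorem QII_cont : Continuous fun x : ℝ × ℝ => QII x.1 x.2 := by
  unfold QII
  have h1 := eR_cont
  have h2 := fR_cont
  fun_prop

theorem QII_pos {κ p : ℝ} (hk : 0 ≤ κ) (hp : 0 ≤ p) : 0 < QII κ p := by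
  unfold QII
  have h1 := eR_pos hp
  have h2 : 0 ≤ κ * h0 * fR p := mul_nonneg (mul_nonneg hk h0_pos.le) (fR_nonneg hp)
  linarith

section F

noncomputable def AF (v p : ℝ) : ℝ := AII (Fv v) h0 p
noncomputable def QF (_v p : ℝ) : ℝ := QII 0 p
noncomputable def βF (v θ : ℝ) : ℝ := βII 0 h0 (mF v) θ
noncomputable def dβF (v θ : ℝ) : ℝ := dβII 0 h0 (mF v) θ

theorem famF_isFam {t : ℝ} (h : 0 ≤ t) (h1 : t ≤ 1) : IsFam AF QF βF t (famF t) := by
  rw [famF_of h h1]
  exact ⟨fun p _ => rfl, fun p _ => QII_mul 0 p, fun θ _ => rfl⟩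

theorem mF_cont : Continuous mF := by
  unfold mF aF
  fun_prop

theorem famF_Fam {t₀ : ℝ} (h : 0 ≤ t₀) (h1 : t₀ ≤ 1) : Fam AF QF βF dβF t₀ := by
  have hr := r_continuous
  have hw := w_continuous
  have hcos : ∀ θ : ℝ, cos (0 * (π / 2 - θ)) ≠ 0 := by intro θ; simp
  let C : CII := CF t₀ h h1
  have hβ : ∀ θ ∈ Icc 0 (π / 2), 0 < βF t₀ θ := fun θ hθ => by
    have h2 := (C.β_mem hθ).1
    have h4 := pa_pos
    change 0 < βII C.κ C.h C.m θ
    linarith
  refine ⟨fun p _ => ?_, fun p _ => ?_, fun θ _ => ?_, fun θ _ => ?_, ?_, hβ,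
    fun θ _ p hp => C.posA hp.1, fun θ _ p hp => QII_pos le_rfl hp.1⟩
  · apply Continuous.continuousAt
    unfold AF AII Fv
    have h1 : Continuous fun x : ℝ × ℝ => FN 1 (cos (r x.2)) :=
      (FN_cont 1).comp (continuous_cos.comp (hr.comp continuous_snd))
    fun_prop
  · apply Continuous.continuousAt
    unfold QF
    exact QII_cont.comp (continuous_const.prodMk continuous_snd)
  · exact βII_joint h0_pos.ne' continuousAt_const (mF_cont.comp continuous_fst).continuousAt
      continuousAt_snd (hcos θ)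
  · exact dβII_joint h0_pos.ne' continuousAt_const (mF_cont.comp continuous_fst).continuousAt
      continuousAt_snd (hcos θ)
  · exact Eventually.of_forall fun t θ _ => βII_strict h0_pos.ne' (hcos θ)

/-- **Continuity of phase F.** -/
theorem famF_qcomp {t₀ : ℝ} (h : 0 ≤ t₀) (h1 : t₀ ≤ 1) {ε : ℝ} (hε : 0 < ε) :
    ∀ᶠ t in 𝓝[Icc 0 1] t₀, QComp (famF t₀) (famF t) ε := by
  have h2 := (famF_Fam h h1).qcomp hε
  rw [eventually_nhdsWithin_iff]
  filter_upwards [h2] with t h3 h5
  exact h3 _ _ (famF_isFam h h1) (famF_isFam h5.1 h5.2)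

end F

section T

/-- the parameter `γ` -/
noncomputable def gT (t : ℝ) : ℝ := π * cl 0 t / 3

noncomputable def AT (_t p : ℝ) : ℝ := AII (fun x => 3 * x) h0 p
noncomputable def QT (t p : ℝ) : ℝ := QII (gT t / π) p
noncomputable def βT (t θ : ℝ) : ℝ := βII (gT t / π) h0 (mT (gT t)) θ
noncomputable def dβT (t θ : ℝ) : ℝ := dβII (gT t / π) h0 (mT (gT t)) θ

theorem gT_eq {t : ℝ} (h : 0 ≤ t) (h1 : t ≤ 1) : gT t = π * t / 3 := by
  unfold gT; rw [cl_id h h1]

theorem gT_nonneg (t : ℝ) : 0 ≤ gT t := by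
  have h := cl_ge 0 t
  have := pi_pos
  unfold gT
  positivity

theorem gT_le (t : ℝ) : gT t ≤ π / 3 := by
  have h := cl_le (a := 0) (t := t) zero_le_one
  have := pi_pos
  unfold gT
  nlinarith

theorem gT_cont : Continuous gT := by
  unfold gT
  have := cl_cont 0
  fun_prop

theorem famT_isFam {t : ℝ} (h : 0 ≤ t) (h1 : t ≤ 1) : IsFam AT QT βT t (famT t) := by
  rcases h.eq_or_lt with h2 | h2
  · subst h2
    rw [famT_zero, famF_of zero_le_one le_rfl]
    have e : gT 0 = 0 := by rw [gT_eq le_rfl zero_le_one]; ring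
    refine ⟨fun p _ => ?_, fun p _ => ?_, fun θ _ => ?_⟩
    · unfold AT; rw [← Fv_one]; rfl
    · unfold QT; rw [e, zero_div]; exact QII_mul 0 p
    · unfold βT; rw [e, zero_div, mT_zero]; rfl
  · have e := gT_eq h h1
    rw [famT_of h2 h1]
    refine ⟨fun p _ => rfl, fun p _ => ?_, fun θ _ => ?_⟩
    · unfold QT; rw [e]; exact QII_mul _ p
    · unfold βT; rw [e]; rfl

theorem c1_gT_cont : Continuous fun t => c1 (gT t / 2) := by
  rw [continuous_iff_continuousAt]
  intro t
  have hg := gT_cont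
  rcases eq_or_ne (gT t) 0 with h | h
  · have e0 : c1 (gT t / 2) = 0 := by rw [h, zero_div, c1_zero]
    rw [ContinuousAt, e0]
    have hb : ∀ s, |c1 (gT s / 2)| ≤ (gT s / 2) / 3 + (gT s / 2) ^ 3 / 120 := by
      intro s
      have h1 := gT_nonneg s
      have h2 := gT_le s
      have h3 := pi_lt_d4
      have h4 := c1_le (y := gT s / 2) (by linarith) (by linarith)
      have h5 := c1_ge (y := gT s / 2) (by linarith)
      rw [abs_of_nonpos h4]
      linarith
    apply squeeze_zero_norm (a := fun s => (gT s / 2) / 3 + (gT s / 2) ^ 3 / 120) hb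
    have h1 : Continuous fun s => (gT s / 2) / 3 + (gT s / 2) ^ 3 / 120 := by fun_prop
    have h2 := h1.tendsto t
    rw [h] at h2
    simpa using h2
  · unfold c1
    have h1 : ContinuousAt (fun s => sinc (gT s / 2)) t :=
      (continuous_sinc.comp (hg.div_const 2)).continuousAt
    refine ContinuousAt.div ?_ ?_ ?_
    · fun_prop
    · fun_prop
    · simpa using h

theorem YT_gT_cont : Continuous fun t => YT (gT t) := by
  have hg := gT_cont
  have h1 := c1_gT_cont
  have h2 : Continuous fun t => sinc (gT t / 2) := continuous_sinc.comp (hg.div_const 2)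
  have h2' : Continuous fun t => sinc (gT t) := continuous_sinc.comp hg
  have h3 : ∀ t, sinc (gT t / 2) ≠ 0 := fun t => by
    have := sinc_T (gT_nonneg t) (gT_le t)
    intro h
    rw [h] at this
    norm_num at this
  unfold YT
  apply Continuous.div
  · apply Continuous.add
    · apply Continuous.add
      · apply Continuous.div (by fun_prop) (by fun_prop)
        intro t
        exact mul_ne_zero two_ne_zero (h3 t)
      · apply Continuous.mul continuous_const
        exact Continuous.div (by fun_prop) h2 h3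
    · fun_prop
  · fun_prop
  · intro t
    have := den_ge (gT_nonneg t) (gT_le t)
    intro h
    rw [h] at this
    norm_num at this

theorem mT_gT_cont : Continuous fun t => mT (gT t) := by
  unfold mT
  have h1 := YT_gT_cont
  have hg := gT_cont
  have h2 : Continuous fun t => ρT (gT t) := by
    unfold ρT
    apply Continuous.sqrt
    fun_prop
  apply Continuous.div h1 (by fun_prop)
  intro t
  have := ρT_ge (gT_nonneg t) (gT_le t)
  linarith

theorem famT_Fam (t₀ : ℝ) : Fam AT QT βT dβT t₀ := by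
  have hg := gT_cont
  have hm := mT_gT_cont
  let C : ∀ t, CII := fun t => CT (gT t) (gT_nonneg t) (gT_le t)
  have hcos : ∀ t, ∀ θ ∈ Icc 0 (π / 2), cos (gT t / π * (π / 2 - θ)) ≠ 0 :=
    fun t θ hθ => ((C t).cos_pos hθ).ne'
  have hβ : ∀ θ ∈ Icc 0 (π / 2), 0 < βT t₀ θ := fun θ hθ => by
    have h2 := ((C t₀).β_mem hθ).1
    have h4 := pa_pos
    change 0 < βII (C t₀).κ (C t₀).h (C t₀).m θ
    linarith
  have hk : Continuous fun t => gT t / π := by fun_prop
  refine ⟨fun p _ => ?_, fun p _ => ?_, fun θ hθ => ?_, fun θ hθ => ?_, ?_, hβ,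
    fun θ _ p hp => (C t₀).posA hp.1,
    fun θ _ p hp => QII_pos (div_nonneg (gT_nonneg t₀) pi_pos.le) hp.1⟩
  · apply Continuous.continuousAt
    unfold AT
    exact contAT.comp continuous_snd
  · apply Continuous.continuousAt
    unfold QT
    exact QII_cont.comp ((hk.comp continuous_fst).prodMk continuous_snd)
  · exact βII_joint h0_pos.ne' (hk.comp continuous_fst).continuousAt
      (hm.comp continuous_fst).continuousAt continuousAt_snd (hcos t₀ θ hθ)
  · exact dβII_joint h0_pos.ne' (hk.comp continuous_fst).continuousAt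
      (hm.comp continuous_fst).continuousAt continuousAt_snd (hcos t₀ θ hθ)
  · exact Eventually.of_forall fun t θ hθ => βII_strict h0_pos.ne' (hcos t θ hθ)

/-- **Continuity of phase T.** -/
theorem famT_qcomp {t₀ : ℝ} (h : 0 ≤ t₀) (h1 : t₀ ≤ 1) {ε : ℝ} (hε : 0 < ε) :
    ∀ᶠ t in 𝓝[Icc 0 1] t₀, QComp (famT t₀) (famT t) ε := by
  have h2 := (famT_Fam t₀).qcomp hε
  rw [eventually_nhdsWithin_iff]
  filter_upwards [h2] with t h3 h5
  exact h3 _ _ (famT_isFam h h1) (famT_isFam h5.1 h5.2)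

end T

end Pool.MP8e.C
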