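import Pool.Agent.Work.MP_8e9dbb.C.Taylor

/-!
Phase T: the systolic ratio is strictly decreasing in the wedge angle.
-/

open Real Set

namespace Pool.MP8e.C

/-- The systolic ratio in phase T as a function of the wedge angle. -/
noncomputable def sigT (g : ℝ) : ℝ :=
  3 / (4 * π) * (sinc g)⁻¹ + (1 - 3 * g / π) * (1 / 16 + g / 18)

theorem sinc_pos_of {g : ℝ} (h0 : 0 ≤ g) (h1 : g < π) : 0 < sinc g := by
  rcases h0.eq_or_lt with h | h
  · rw [← h, sinc_zero]; norm_num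
  · rw [sinc_of_ne_zero h.ne']
    exact div_pos (sin_pos_of_pos_of_lt_pi h h1) h

theorem key_poly {x : ℝ} (h0 : 0 < x) (h1 : x ≤ 1.0472) :
    x ^ 3 / 3 - x ^ 5 / 30 + x ^ 7 / 840 ≤
      (x / 3 + x ^ 3 / 10) * (x - x ^ 3 / 6 + x ^ 5 / 120 - x ^ 7 / 5040) ^ 2 := by
  have hx2 : x ^ 2 ≤ 1.0967 := by nlinarith
  -- sin x ≥ x (1 - x^2/6 + x^4/120 - x^6/5040)
  set u := x ^ 2 with hu
  have hu0 : 0 < u := by positivity
  have key : 1 / 3 - u / 30 + u ^ 2 / 840 ≤
      (1 / 3 + u / 10) * (1 - u / 6 + u ^ 2 / 120 - u ^ 3 / 5040) ^ 2 := by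
    have h3 : 1 - u / 3 + 2 * u ^ 2 / 45 - u ^ 3 / 315 ≤
        (1 - u / 6 + u ^ 2 / 120 - u ^ 3 / 5040) ^ 2 := by
      have : (1 - u / 6 + u ^ 2 / 120 - u ^ 3 / 5040) ^ 2 -
          (1 - u / 3 + 2 * u ^ 2 / 45 - u ^ 3 / 315) =
          u ^ 4 * (41 / 302400 - u / 302400 + u ^ 2 / 25401600) := by ring
      have h4 : 0 ≤ 41 / 302400 - u / 302400 + u ^ 2 / 25401600 := by nlinarith
      have h5 : 0 ≤ u ^ 4 * (41 / 302400 - u / 302400 + u ^ 2 / 25401600) :=
        mul_nonneg (by positivity) h4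
      linarith
    have h4 : (1 / 3 + u / 10) * (1 - u / 3 + 2 * u ^ 2 / 45 - u ^ 3 / 315) ≤
        (1 / 3 + u / 10) * (1 - u / 6 + u ^ 2 / 120 - u ^ 3 / 5040) ^ 2 :=
      mul_le_mul_of_nonneg_left h3 (by positivity)
    refine le_trans ?_ h4
    have h5 : (1 / 3 + u / 10) * (1 - u / 3 + 2 * u ^ 2 / 45 - u ^ 3 / 315) -
        (1 / 3 - u / 30 + u ^ 2 / 840) =
        u * (1 / 45 - 149 / 7560 * u + 16 / 4725 * u ^ 2 - u ^ 3 / 3150) := by ring
    have h6 : 0 ≤ 1 / 45 - 149 / 7560 * u + 16 / 4725 * u ^ 2 - u ^ 3 / 3150 := by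
      nlinarith [mul_nonneg hu0.le (sub_nonneg.2 hx2), mul_nonneg (mul_nonneg hu0.le hu0.le)
        (sub_nonneg.2 hx2)]
    have h7 := mul_nonneg hu0.le h6
    linarith
  have e1 : x ^ 3 / 3 - x ^ 5 / 30 + x ^ 7 / 840 = x ^ 3 * (1 / 3 - u / 30 + u ^ 2 / 840) := by
    rw [hu]; ring
  have e2 : (x / 3 + x ^ 3 / 10) * (x - x ^ 3 / 6 + x ^ 5 / 120 - x ^ 7 / 5040) ^ 2 =
      x ^ 3 * ((1 / 3 + u / 10) * (1 - u / 6 + u ^ 2 / 120 - u ^ 3 / 5040) ^ 2) := by
    rw [hu]; ring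
  rw [e1, e2]
  exact mul_le_mul_of_nonneg_left key (by positivity)

theorem ratio_le {x : ℝ} (h0 : 0 < x) (h1 : x ≤ 1.0472) :
    (sin x - x * cos x) / sin x ^ 2 ≤ x / 3 + x ^ 3 / 10 := by
  have hpi : x < π := by have := pi_gt_three; linarith
  have hs : 0 < sin x := sin_pos_of_pos_of_lt_pi h0 hpi
  rw [div_le_iff₀ (by positivity)]
  refine (sin_sub_mul_cos_le h0.le).trans ((key_poly h0 h1).trans ?_)
  have h7 := sin_ge7 h0.le
  have h8 : 0 ≤ x - x ^ 3 / 6 + x ^ 5 / 120 - x ^ 7 / 5040 := by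
    have hx2 : x ^ 2 ≤ 1.0967 := by nlinarith
    have e : x - x ^ 3 / 6 + x ^ 5 / 120 - x ^ 7 / 5040 =
      x * (1 - x ^ 2 / 6 + x ^ 4 / 120 - x ^ 6 / 5040) := by ring
    rw [e]
    apply mul_nonneg h0.le
    have h4 : x ^ 6 ≤ 1.0967 * x ^ 4 := by
      have : x ^ 6 = x ^ 2 * x ^ 4 := by ring
      rw [this]; exact mul_le_mul_of_nonneg_right hx2 (by positivity)
    nlinarith [pow_nonneg h0.le 4]
  apply mul_le_mul_of_nonneg_left _ (by positivity)
  exact pow_le_pow_left₀ h8 h7 2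

theorem sigT_strictAnti : StrictAntiOn sigT (Icc 0 (π / 3)) := by
  have hpi := pi_gt_d4
  have hpi2 := pi_lt_d4
  have hpos := pi_pos
  apply strictAntiOn_of_deriv_neg (convex_Icc _ _)
  · unfold sigT
    apply ContinuousOn.add
    · apply ContinuousOn.mul continuousOn_const
      apply ContinuousOn.inv₀ continuous_sinc.continuousOn
      intro x hx
      exact (sinc_pos_of hx.1 (by linarith [hx.2])).ne'
    · fun_prop
  · intro x hx
    rw [interior_Icc] at hx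
    obtain ⟨hx0, hx1⟩ := hx
    have hxpi : x < π := by linarith
    have hs : 0 < sin x := sin_pos_of_pos_of_lt_pi hx0 hxpi
    have hd : HasDerivAt (fun g => 3 / (4 * π) * (g / sin g) +
        (1 - 3 * g / π) * (1 / 16 + g / 18))
        (3 / (4 * π) * ((sin x - x * cos x) / sin x ^ 2) +
        (-(3 / π) * (1 / 16 + x / 18) + (1 - 3 * x / π) * (1 / 18))) x := by
      have h1 := ((hasDerivAt_id' x).div (Real.hasDerivAt_sin x) hs.ne').const_mul (3 / (4 * π))
      have h2 : HasDerivAt (fun g : ℝ => 1 - 3 * g / π) (-(3 / π)) x := by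
        have := (((hasDerivAt_id' x).const_mul 3).div_const π).const_sub 1
        refine this.congr_deriv ?_
        ring
      have h3 : HasDerivAt (fun g : ℝ => 1 / 16 + g / 18) (1 / 18) x := by
        have := ((hasDerivAt_id' x).div_const 18).const_add (1 / 16)
        exact this
      have h4 := h1.add (h2.mul h3)
      refine h4.congr_deriv ?_
      ring
    have he : sigT =ᶠ[nhds x] (fun g => 3 / (4 * π) * (g / sin g) +
        (1 - 3 * g / π) * (1 / 16 + g / 18)) := by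
      filter_upwards [lt_mem_nhds hx0] with g hg
      unfold sigT
      rw [sinc_of_ne_zero (ne_of_gt hg), inv_div]
    rw [he.deriv_eq, hd.deriv]
    have hr := ratio_le hx0 (by linarith)
    have h1 : 3 / (4 * π) * ((sin x - x * cos x) / sin x ^ 2) ≤
        3 / (4 * π) * (x / 3 + x ^ 3 / 10) :=
      mul_le_mul_of_nonneg_left hr (by positivity)
    refine lt_of_le_of_lt (add_le_add_left h1 _) ?_
    have h2 : 3 / (4 * π) * (x / 3 + x ^ 3 / 10) +
        (-(3 / π) * (1 / 16 + x / 18) + (1 - 3 * x / π) * (1 / 18)) =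
        (1 / 18 * π - 3 / 16 - x / 12 + 3 * x ^ 3 / 40) / π := by
      field_simp
      ring
    rw [h2]
    apply div_neg_of_neg_of_pos _ hpos
    have hx2 : x ≤ 1.0472 := by linarith
    nlinarith [mul_nonneg hx0.le (sub_nonneg.2 hx2), mul_nonneg (mul_nonneg hx0.le hx0.le)
        (sub_nonneg.2 hx2)]

theorem sigT_zero : sigT 0 = 3 / (4 * π) + 1 / 16 := by
  unfold sigT
  rw [sinc_zero]
  norm_num

theorem sigT_end : sigT (π / 3) = 1 / (2 * √3) := by
  unfold sigT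
  have hpos := pi_pos
  rw [sinc_of_ne_zero (by positivity), sin_pi_div_three]
  have h3 : √3 ≠ 0 := by positivity
  field_simp
  norm_num

end Pool.MP8e.C
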