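import Pool.Agent.Work.MP_8e9dbb.C.DataS
import Pool.Agent.Work.MP_8e9dbb.C.SigT

/-!
The junction `S'(0)`, phase F (parameter `v ∈ [0, 1]`) and their areas.
-/

open Real Set intervalIntegral
open scoped ContDiff

namespace Pool.MP8e.C

/-- height of the plateau for `k = 0` -/
noncomputable def h0 : ℝ := hS 0

theorem h0_ge : 0.118 ≤ h0 := hS_ge le_rfl zero_le_one
theorem h0_le : h0 ≤ 0.41 := hS_le le_rfl zero_le_one
theorem h0_pos : 0 < h0 := by linarith [h0_ge]

/-- auxiliary: class I parameters with plateau height `h0` -/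
noncomputable def CS' : CI := { CS 1 one_pos le_rfl with h := h0, h_pos := h0_pos }

theorem βI_zero (θf uB θ : ℝ) : βI 0 θf uB θ = ptot - arcsin (1 - uB) := by
  unfold βI uI
  simp

/-- The limit of phase S' for `k → 0`. -/
noncomputable def S0 : QD where
  A := AI (FN 1) (gg 1) h0
  R := RI 0
  β := βI 0 (π / 4) (1 / 20)
  ℓ := ptot - arcsin (1 / 2)
  kN := 1 / (27 / 25)
  e₀ := arccos (99 / 100)
  κ := 0
  θf := π / 2
  ρf := 1
  pf := ptot - arccos (1 / 20)
  smA := AI_contDiff (FN_contDiff 1) (gg_contDiff 1) h0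
  smR := RI_contDiff 0
  posA := fun p hp => CS'.posA ⟨hp.1, by
    have h := hp.2
    change p ≤ ptot - arcsin (1 - 1 / 2)
    norm_num at h ⊢
    exact h⟩
  R0 := by unfold RI; rw [r_zero]; simp
  posR := fun p hp => by
    unfold RI
    have := sin_r_pos hp.1
    linarith
  kN_pos := by norm_num
  kN_lt := by norm_num
  e₀_pos := arccos_pos.2 (by norm_num)
  e₀_lt := by
    have h1 := arccos_le_q0 (x := 99 / 100) (by norm_num)
    have h2 := arccos_le_q0 (x := 1 / 20) (by norm_num)
    unfold q0 ptot at *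
    linarith [pi_gt_three]
  cone0 := fun p hp => by
    rw [(RI_hasDerivAt 0 p).deriv]
    have h1 : p ≤ q0 := hp.2.trans (arccos_le_q0 (by norm_num))
    have h2 : p ≤ ptot - pa := by
      have := pa_lt
      unfold pa ptot at *
      unfold q0 at h1
      linarith
    have h3 : (99 / 100 : ℝ) ≤ cos p := by
      have h4 := cos_le_cos_of_nonneg_of_le_pi hp.1 (arccos_le_pi _) hp.2
      rwa [cos_arccos (by norm_num) (by norm_num)] at h4
    unfold AI
    rw [r_small h1, w_zero h1, r_south h2, w_south h2, sin_pi_div_two, cos_pi_div_two,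
      FN_cone one_pos le_rfl (by rw [dt_one]; linarith), bt_one]
    ring
  cls := Or.inr ⟨le_rfl, by norm_num, rfl⟩
  ρf_pos := one_pos
  flat := fun p hp => by
    rw [(RI_hasDerivAt 0 p).deriv]
    have h2 := arccos_le_q0 (x := 1 / 20) (by norm_num)
    have h3 : pa ≤ p := by
      have := hp.1
      unfold q0 ptot at *
      unfold pa
      linarith [pi_gt_three]
    rw [w_one h3]
    ring
  β_mem := fun θ _ => by
    rw [βI_zero]
    constructor
    · have h5 : arcsin (1 - 1 / 20) < arccos (1 / 20) := by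
        rw [arccos_eq_arcsin (by norm_num)]
        refine arcsin_lt_arcsin (by norm_num) ?_ ?_
        · rw [lt_sqrt (by norm_num)]; norm_num
        · exact sqrt_le_iff.2 ⟨by norm_num, by norm_num⟩
      linarith
    · have h5 : arcsin (1 / 2) ≤ arcsin (1 - 1 / 20) := arcsin_le_arcsin (by norm_num)
      linarith
  floor := fun θ _ => by
    have h1 : pa ≤ βI 0 (π / 4) (1 / 20) θ := by
      rw [βI_zero]
      have := arcsin_le_pi_div_two (1 - 1 / 20)
      unfold pa ptot
      linarith [pi_gt_three]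
    unfold RI
    rw [r_large h1, sin_pi_div_two]
    simp
  β_const := fun _ θ _ => by rw [βI_zero, βI_zero]

/-- smoothing constant -/
noncomputable def d0 : ℝ := h0 * (1 / 40 - kw)

theorem d0_nonneg : 0 ≤ d0 := mul_nonneg h0_pos.le (by linarith [kw_le])

theorem d0_le : d0 ≤ 1 / 300000 := by
  unfold d0
  have h1 : h0 * (1 / 40 - kw) ≤ 0.41 * (1 / 128000) :=
    mul_le_mul h0_le (by linarith [kw_ge]) (by linarith [kw_le]) (by norm_num)
  linarith

/-- speed of phase F -/
noncomputable def Fv (v x : ℝ) : ℝ := (1 - v) * FN 1 x + 3 * v * x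

/-- `∫ Fv` -/
noncomputable def aF (v : ℝ) : ℝ := (1 - v) * aN 1 + 3 / 2 * v

/-- floor parameter of phase F -/
noncomputable def mF (v : ℝ) : ℝ := d0 + a1 - aF v

theorem Fv_contDiff (v : ℝ) : ContDiff ℝ ∞ (Fv v) := by
  unfold Fv
  exact (contDiff_const.mul (FN_contDiff 1)).add (contDiff_const.mul contDiff_id)

theorem int_Fv (v : ℝ) : ∫ x in (0:ℝ)..1, Fv v x = aF v := by
  unfold Fv aF aN
  rw [integral_add, integral_const_mul, integral_const_mul, integral_id]
  · ring
  · exact ((FN_cont 1).const_mul _).intervalIntegrable _ _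
  · exact (continuous_id.const_mul _).intervalIntegrable _ _

theorem aF_le {v : ℝ} (h1 : v ≤ 1) : aF v ≤ 3 / 2 := by
  unfold aF
  have := mul_le_mul_of_nonneg_left aN_le (by linarith : 0 ≤ 1 - v)
  linarith

theorem aF_ge {v : ℝ} (h : 0 ≤ v) (h1 : v ≤ 1) : 1.45 ≤ aF v := by
  unfold aF
  have := mul_le_mul_of_nonneg_left aN_ge (by linarith : 0 ≤ 1 - v)
  linarith

/-- The parameters of phase F. -/
noncomputable def CF (v : ℝ) (h : 0 ≤ v) (h1 : v ≤ 1) : CII where
  F := Fv v
  h := h0
  κ := 0
  m := mF v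
  b := (1 - v) * (27 / 25) + 3 * v
  xP := 99 / 100
  smF := Fv_contDiff v
  posF := fun x hx => by
    have h2 := FN_ge_one one_pos le_rfl hx.2
    have h3 : 0 ≤ (1 - v) * FN 1 x := mul_nonneg (by linarith) (by linarith)
    have h4 : 0 ≤ 3 * v * x := mul_nonneg (by linarith) hx.1
    unfold Fv
    linarith
  posF' := fun x hx => by
    have h2 := FN_ge_one one_pos le_rfl hx.2
    have h4 : 0 ≤ 3 * v * x := mul_nonneg (by linarith) hx.1.le
    unfold Fv
    rcases h1.eq_or_lt with h5 | h5
    · rw [h5]; linarith [hx.1]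
    · have h3 : 0 < (1 - v) * FN 1 x := mul_pos (by linarith) (by linarith)
      linarith
  h_pos := h0_pos
  κ_nonneg := le_rfl
  κ_le := by norm_num
  m_gt := by
    unfold mF d0 a1
    have h2 := aF_le h1
    have h3 : h0 * kw ≤ 0.41 * (1 / 40) := mul_le_mul h0_le kw_le kw_nonneg (by norm_num)
    have h4 := pi_gt_three
    nlinarith
  b_gt := by linarith
  xP_ge := by norm_num
  xP_lt := by norm_num
  coneF := fun x hx => by
    unfold Fv
    rw [FN_cone one_pos le_rfl (by rw [dt_one]; linarith), bt_one]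
    ring

theorem RII_zero (h p : ℝ) : RII 0 h p = sin (r p) := by unfold RII; ring

/-- integral up to the plateau for `κ = 0` -/
theorem int_AII_pa {F : ℝ → ℝ} (hF : Continuous F) (h : ℝ) :
    ∫ p in (0:ℝ)..pa, AII F h p * sin (r p) = (∫ x in (0:ℝ)..1, F x) + h * kw := by
  have c1 : Continuous fun p => F (cos (r p)) := hF.comp (continuous_cos.comp r_continuous)
  have c2 : Continuous fun p => sin (r p) := continuous_sin.comp r_continuous
  have cw := w_continuous
  have h1 : ∫ p in (0:ℝ)..pa, AII F h p * sin (r p) = ∫ p in (0:ℝ)..pa,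
      ((F (cos (r p)) * sin (r p)) * (1 - w p) + h * (w p * sin (r p))) := by
    apply integral_congr
    intro p _
    dsimp only
    unfold AII
    ring
  rw [h1, integral_add, int_comp_r (f := fun x => F (cos x) * sin x)
    ((hF.comp continuous_cos).mul continuous_sin), int_cos_sin hF, r_zero,
    r_large le_rfl, integral_const_mul]
  · unfold kw; simp
  · exact ((c1.mul c2).mul (continuous_const.sub cw)).intervalIntegrable _ _
  · exact ((cw.mul c2).const_mul _).intervalIntegrable _ _

theorem area_F {v : ℝ} (h : 0 ≤ v) (h1 : v ≤ 1) : (CF v h h1).toQD.area4 = 2 * π * a1 := by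
  unfold QD.area4
  have hpi := pi_pos
  have hh := h0_pos
  have cA : Continuous fun p => AII (Fv v) h0 p * sin (r p) :=
    (AII_contDiff (Fv_contDiff v) h0).continuous.mul (continuous_sin.comp r_continuous)
  have e : ∀ θ ∈ uIcc 0 (π / 2), (∫ p in (0:ℝ)..((CF v h h1).toQD.β θ),
      (CF v h h1).toQD.A p * (CF v h h1).toQD.R p) = a1 := by
    intro θ _
    have e1 : ∫ p in (0:ℝ)..((CF v h h1).toQD.β θ),
      (CF v h h1).toQD.A p * (CF v h h1).toQD.R p =
      ∫ p in (0:ℝ)..(βII 0 h0 (mF v) θ), AII (Fv v) h0 p * RII 0 h0 p := rfl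
    have e2 : βII 0 h0 (mF v) θ = π / 2 + mF v / h0 := by unfold βII; simp
    rw [e1, e2]
    simp_rw [RII_zero]
    rw [← integral_add_adjacent_intervals (μ := MeasureTheory.volume)
      (cA.intervalIntegrable 0 pa) (cA.intervalIntegrable pa _),
      int_AII_pa (Fv_contDiff v).continuous, int_Fv]
    have hle : pa ≤ π / 2 + mF v / h0 := by
      have := ((CF v h h1).β_mem (θ := 0) ⟨le_rfl, by positivity⟩).1.le
      have e3 : βII (CF v h h1).κ (CF v h h1).h (CF v h h1).m 0 = βII 0 h0 (mF v) 0 := rfl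
      rw [e3] at this
      unfold βII at this
      simpa using this
    have e4 : ∫ p in pa..(π / 2 + mF v / h0), AII (Fv v) h0 p * sin (r p) =
        ∫ p in pa..(π / 2 + mF v / h0), h0 := by
      apply integral_congr
      intro p hp
      rw [uIcc_of_le hle] at hp
      dsimp only
      unfold AII
      rw [w_one hp.1, r_large hp.1, sin_pi_div_two]
      ring
    rw [e4, integral_const, smul_eq_mul]
    unfold mF d0 pa
    field_simp
    ring
  rw [integral_congr e]
  simp
  ring

end Pool.MP8e.C
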