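import Pool.Agent.Work.MP_8e9dbb.C.DataR

/-!
The data of phase S' (parameter `k ∈ [0, 1]`).
-/

open Real Set intervalIntegral
open scoped ContDiff

namespace Pool.MP8e.C

/-- length of the south side for `t = 1` -/
noncomputable def Sa : ℝ := ∫ x in (0:ℝ)..(π / 2), gg 1 (cos x)

/-- `(1 - sinc (kπ/2)) / (2k)` -/
noncomputable def c2 (k : ℝ) : ℝ := (1 - sinc (k * π / 2)) / (2 * k)

/-- the south integral in phase S' -/
noncomputable def Jk (k : ℝ) : ℝ :=
  (1 - k) * Sa + k * ag 1 - 1 + k / 2 + sinc (k * π / 2) * (1 / 20 - k / 800) + c2 k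

/-- height of the plateau in phase S' -/
noncomputable def hS (k : ℝ) : ℝ := (a1 - aN 1 - Jk k) / MI k

theorem sinc_ge {z : ℝ} (hz : 0 ≤ z) : 1 - z ^ 2 / 6 ≤ sinc z := by
  rcases hz.eq_or_lt with h | h
  · rw [← h]; simp
  · rw [sinc_of_ne_zero h.ne', le_div_iff₀ h]
    have := sin_ge3 hz
    nlinarith

theorem c2_nonneg {k : ℝ} (hk : 0 ≤ k) : 0 ≤ c2 k := by
  unfold c2
  apply div_nonneg _ (by linarith)
  linarith [sinc_le_one (k * π / 2)]

theorem c2_le {k : ℝ} (hk : 0 ≤ k) : c2 k ≤ k * π ^ 2 / 48 := by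
  unfold c2
  rcases hk.eq_or_lt with h | h
  · rw [← h]; simp
  · rw [div_le_iff₀ (by linarith)]
    have h2 := sinc_ge (z := k * π / 2) (by positivity)
    nlinarith

theorem xt_one : xt 1 = 1 / 20 := by unfold xt x0; norm_num
theorem wt_one : wt 1 = 1 / 40 := by unfold wt x0; norm_num
theorem dt_one : dt 1 = 1 / 100 := by unfold dt; norm_num
theorem bt_one : bt 1 = 27 / 25 := by unfold bt dt; norm_num

theorem Sa_ge : 1 ≤ Sa := by
  have h : (∫ x in (0:ℝ)..(π / 2), cos x) = 1 := by simp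
  have cg : Continuous fun x => gg 1 (cos x) := (gg_cont 1).comp continuous_cos
  have h2 : (∫ x in (0:ℝ)..(π / 2), cos x) ≤ Sa := by
    unfold Sa
    apply integral_mono_on (by positivity) (continuous_cos.intervalIntegrable _ _)
      (cg.intervalIntegrable _ _)
    intro x _
    exact gg_ge (cos_le_one x)
  linarith

theorem arcsin_20 : arcsin (1 / 20) ≤ 0.0501 := by
  rw [arcsin_le_iff_le_sin (by constructor <;> norm_num)
    (by constructor <;> linarith [pi_gt_three])]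
  have := sin_ge3 (x := 0.0501) (by norm_num)
  norm_num at this ⊢
  linarith

theorem Sa_le : Sa ≤ 1.0501 := by
  unfold Sa
  have hpi := pi_gt_three
  have ha := arcsin_20
  have ha0 : 0 < arcsin (1 / 20) := arcsin_pos.2 (by norm_num)
  have cg : Continuous fun x => gg 1 (cos x) := (gg_cont 1).comp continuous_cos
  have h1 := integral_add_adjacent_intervals (μ := MeasureTheory.volume)
    (cg.intervalIntegrable 0 (π / 2 - arcsin (1 / 20)))
    (cg.intervalIntegrable (π / 2 - arcsin (1 / 20)) (π / 2))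
  have h2 : ∫ x in (0:ℝ)..(π / 2 - arcsin (1 / 20)), gg 1 (cos x) ≤ 1 := by
    have h3 : ∫ x in (0:ℝ)..(π / 2 - arcsin (1 / 20)), gg 1 (cos x) =
        ∫ x in (0:ℝ)..(π / 2 - arcsin (1 / 20)), cos x := by
      apply integral_congr
      intro x hx
      rw [uIcc_of_le (by linarith)] at hx
      apply gg_id one_pos
      rw [xt_one]
      have h4 : cos (π / 2 - arcsin (1 / 20)) ≤ cos x :=
        cos_le_cos_of_nonneg_of_le_pi hx.1 (by linarith) hx.2
      rwa [cos_pi_div_two_sub, sin_arcsin (by norm_num) (by norm_num)] at h4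
    rw [h3, integral_cos, sin_zero, sub_zero]
    exact sin_le_one _
  have h3 : ∫ x in (π / 2 - arcsin (1 / 20))..(π / 2), gg 1 (cos x) ≤
      ∫ x in (π / 2 - arcsin (1 / 20))..(π / 2), (1:ℝ) := by
    apply integral_mono_on (by linarith) (cg.intervalIntegrable _ _) (by simp)
    intro x _
    exact gg_le_one (cos_le_one x)
  rw [integral_const, smul_eq_mul, mul_one] at h3
  rw [← h1]
  linarith

theorem ag_le : ag 1 ≤ 11 / 20 := by
  unfold ag
  have h1 := integral_add_adjacent_intervals (μ := MeasureTheory.volume)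
    ((gg_cont 1).intervalIntegrable 0 (1 / 20)) ((gg_cont 1).intervalIntegrable (1 / 20) 1)
  have h2 : ∫ x in (1 / 20 : ℝ)..1, gg 1 x = ∫ x in (1 / 20 : ℝ)..1, x := by
    apply integral_congr
    intro x hx
    rw [uIcc_of_le (by norm_num)] at hx
    exact gg_id one_pos (by rw [xt_one]; exact hx.1)
  have h3 : ∫ x in (0:ℝ)..(1 / 20), gg 1 x ≤ ∫ x in (0:ℝ)..(1 / 20), (1:ℝ) := by
    apply integral_mono_on (by norm_num) ((gg_cont 1).intervalIntegrable _ _) (by simp)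
    intro x hx
    exact gg_le_one (by linarith [hx.2])
  rw [integral_const, smul_eq_mul, mul_one] at h3
  rw [integral_id] at h2
  rw [← h1, h2]
  norm_num at h3 ⊢
  linarith

theorem ag_ge : 0.524 ≤ ag 1 := by
  unfold ag
  have h1 := integral_add_adjacent_intervals (μ := MeasureTheory.volume)
    ((gg_cont 1).intervalIntegrable 0 (1 / 40)) ((gg_cont 1).intervalIntegrable (1 / 40) 1)
  have h2 : ∫ x in (1 / 40 : ℝ)..1, x ≤ ∫ x in (1 / 40 : ℝ)..1, gg 1 x := by
    apply integral_mono_on (by norm_num) (continuous_id.intervalIntegrable _ _)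
      ((gg_cont 1).intervalIntegrable _ _)
    intro x hx
    exact gg_ge hx.2
  have h3 : ∫ x in (0:ℝ)..(1 / 40), gg 1 x = ∫ x in (0:ℝ)..(1 / 40), (1:ℝ) := by
    apply integral_congr
    intro x hx
    rw [uIcc_of_le (by norm_num)] at hx
    exact gg_one one_pos (by rw [xt_one, wt_one]; linarith [hx.2])
  rw [integral_const, smul_eq_mul, mul_one] at h3
  rw [integral_id] at h2
  rw [← h1, h3]
  norm_num at h2 ⊢
  linarith

theorem aN_le : aN 1 ≤ 1.4776 := by
  rw [aN_eq]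
  have h1 := ac_le one_pos le_rfl
  have := ag_ge
  norm_num at h1 ⊢
  linarith

theorem aN_ge : 1.45 ≤ aN 1 := by
  rw [aN_eq]
  have h1 := ac_nonneg one_pos le_rfl
  have := ag_le
  norm_num at h1 ⊢
  linarith

theorem Jk_le {k : ℝ} (hk : 0 ≤ k) (hk1 : k ≤ 1) : Jk k ≤ a1 - aN 1 - 0.13 := by
  unfold Jk a1
  rw [aN_eq]
  have h1 := ac_le one_pos le_rfl
  have h2 := Sa_le
  have h3 := ag_ge
  have h4 := c2_le hk
  have hpi1 := pi_gt_d4
  have hpi2 := pi_lt_d4
  have hpi3 : π ^ 2 ≤ 9.8698 := by nlinarith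
  have h5 : sinc (k * π / 2) * (1 / 20 - k / 800) ≤ 1 * (1 / 20 - k / 800) :=
    mul_le_mul_of_nonneg_right (sinc_le_one _) (by linarith)
  have h6 : k * π ^ 2 ≤ k * 9.8698 := mul_le_mul_of_nonneg_left hpi3 hk
  have h7 : (1 - k) * Sa ≤ (1 - k) * 1.0501 := mul_le_mul_of_nonneg_left h2 (by linarith)
  have h8 : (1 - k) * 0.524 ≤ (1 - k) * ag 1 := mul_le_mul_of_nonneg_left h3 (by linarith)
  norm_num at h1 h2 h3 h4 h5 h6 h7 h8 ⊢
  linarith

theorem Jk_ge {k : ℝ} (hk : 0 ≤ k) (hk1 : k ≤ 1) : a1 - aN 1 - 0.41 ≤ Jk k := by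
  unfold Jk a1
  rw [aN_eq]
  have h1 := ac_nonneg one_pos le_rfl
  have h2 := Sa_ge
  have h3 := ag_le
  have h4 := c2_nonneg hk
  have hpi1 := pi_gt_d4
  have hpi2 := pi_lt_d4
  have h0 : 1 - k ^ 2 * 0.41125 ≤ sinc (k * π / 2) := by
    have h6 := sinc_ge (z := k * π / 2) (by positivity)
    have hpi3 : π ^ 2 ≤ 9.87 := by nlinarith
    have h7 : k ^ 2 * π ^ 2 ≤ k ^ 2 * 9.87 := mul_le_mul_of_nonneg_left hpi3 (by positivity)
    nlinarith
  have hk2 : k ^ 2 ≤ k := by nlinarith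
  have h5 : (1 - k * 0.41125) * (1 / 20 - k / 800) ≤
      sinc (k * π / 2) * (1 / 20 - k / 800) := by
    apply mul_le_mul_of_nonneg_right _ (by linarith)
    linarith
  have h7 : (1 - k) * 1 ≤ (1 - k) * Sa := mul_le_mul_of_nonneg_left h2 (by linarith)
  have h8 : (1 - k) * ag 1 ≤ (1 - k) * (11 / 20) := mul_le_mul_of_nonneg_left h3 (by linarith)
  norm_num at h1 h2 h3 h4 h5 h7 h8 ⊢
  nlinarith

theorem hS_ge {k : ℝ} (hk : 0 ≤ k) (hk1 : k ≤ 1) : 0.118 ≤ hS k := by
  unfold hS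
  have hM := MI_ge hk1
  have hM2 := MI_le hk hk1
  rw [le_div_iff₀ (by linarith)]
  have := Jk_le hk hk1
  linarith

theorem hS_le {k : ℝ} (hk : 0 ≤ k) (hk1 : k ≤ 1) : hS k ≤ 0.41 := by
  unfold hS
  have hM := MI_ge hk1
  rw [div_le_iff₀ (by linarith)]
  have := Jk_ge hk hk1
  linarith

theorem hS_pos {k : ℝ} (hk : 0 ≤ k) (hk1 : k ≤ 1) : 0 < hS k := by
  linarith [hS_ge hk hk1]

theorem uS_le {k : ℝ} (hk : 0 ≤ k) (hk1 : k ≤ 1) {θ : ℝ} (hθ : θ ∈ Icc 0 (π / 2)) :
    uI k (π / 4) (1 / 20) θ ≤ 1 / 2 := by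
  obtain ⟨h1, h2⟩ := hθ
  have hpi1 := pi_gt_d4
  have hpi2 := pi_lt_d4
  have hkθ : 0 ≤ k * θ := mul_nonneg hk h1
  have hkθ2 : k * θ ≤ 1 * θ := mul_le_mul_of_nonneg_right hk1 h1
  have hs : sin (k * θ / 2) ≤ θ / 2 := by
    have := sin_le_self (x := k * θ / 2) (by linarith)
    linarith
  have hs0 : 0 ≤ sin (k * θ / 2) :=
    sin_nonneg_of_nonneg_of_le_pi (by linarith) (by linarith)
  have hd : 0 ≤ π / 4 - θ / 2 := by linarith
  have hkd : 0 ≤ k * (π / 4 - θ / 2) := mul_nonneg hk hd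
  have hkd2 : k * (π / 4 - θ / 2) ≤ 1 * (π / 4 - θ / 2) := mul_le_mul_of_nonneg_right hk1 hd
  have hc1 : 0 ≤ sinc (k * (π / 4 - θ / 2)) := sinc_nonneg_of (by linarith) (by linarith)
  have hc2 := sinc_le_one (k * (π / 4 - θ / 2))
  have h3 : (2 * (π / 4) - θ) * sin (k * θ / 2) * sinc (k * (π / 4 - θ / 2)) ≤ 0.3085 := by
    have h4 : (2 * (π / 4) - θ) * sin (k * θ / 2) ≤ (π / 2 - θ) * (θ / 2) := by
      have : 2 * (π / 4) - θ = π / 2 - θ := by ring
      rw [this]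
      exact mul_le_mul_of_nonneg_left hs (by linarith)
    have h5 : 0 ≤ (2 * (π / 4) - θ) * sin (k * θ / 2) := mul_nonneg (by linarith) hs0
    have h6 : (2 * (π / 4) - θ) * sin (k * θ / 2) * sinc (k * (π / 4 - θ / 2)) ≤
        (2 * (π / 4) - θ) * sin (k * θ / 2) * 1 := mul_le_mul_of_nonneg_left hc2 h5
    have h7 : (π / 2 - θ) * (θ / 2) ≤ π ^ 2 / 32 := by nlinarith [sq_nonneg (θ - π / 4)]
    have h8 : π ^ 2 ≤ 9.8697 := by nlinarith
    linarith
  have hc3 : √2 / 2 ≤ cos (k * (θ - π / 4)) := by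
    rw [← cos_pi_div_four, ← cos_abs (k * (θ - π / 4))]
    apply cos_le_cos_of_nonneg_of_le_pi (abs_nonneg _) (by linarith)
    rw [abs_mul, abs_of_nonneg hk]
    have : |θ - π / 4| ≤ π / 4 := by rw [abs_le]; constructor <;> linarith
    have h9 : k * |θ - π / 4| ≤ 1 * |θ - π / 4| := mul_le_mul_of_nonneg_right hk1 (abs_nonneg _)
    linarith
  have hsq : (0.707 : ℝ) ≤ √2 / 2 := by
    have : (1.414 : ℝ) ≤ √2 := by
      rw [le_sqrt' (by norm_num)]; norm_num
    linarith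
  unfold uI
  have h10 : 0 ≤ (2 * (π / 4) - θ) * sin (k * θ / 2) * sinc (k * (π / 4 - θ / 2)) :=
    mul_nonneg (mul_nonneg (by linarith) hs0) hc1
  have h11 : (1 - k * (1 / 20)) * ((2 * (π / 4) - θ) * sin (k * θ / 2) *
      sinc (k * (π / 4 - θ / 2))) ≤ 1 * 0.3085 := by
    apply mul_le_mul _ h3 h10 zero_le_one
    linarith
  have h12 : (1 - k * (1 / 20)) * ((2 * (π / 4) - θ) * sin (k * θ / 2) *
      sinc (k * (π / 4 - θ / 2))) / cos (k * (θ - π / 4)) ≤ 0.45 := by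
    rw [div_le_iff₀ (by linarith)]
    linarith
  linarith

/-- The parameters of phase S'. -/
noncomputable def CS (k : ℝ) (h : 0 < k) (h1 : k ≤ 1) : CI where
  FN := FN 1
  FS := gg 1
  h := hS k
  k := k
  θf := π / 4
  uB := 1 / 20
  um := 1 / 2
  xf := 1 / 20
  b := 27 / 25
  xP := 99 / 100
  smN := FN_contDiff 1
  smS := gg_contDiff 1
  posN := fun x hx => lt_of_lt_of_le zero_lt_one (FN_ge_one one_pos le_rfl hx.2)
  posS := fun x hx => gg_pos one_pos le_rfl hx.2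
  h_pos := hS_pos h.le h1
  k_pos := h
  k_le := h1
  θf_ge := le_rfl
  θf_lt := by linarith [pi_pos]
  b_gt := by norm_num
  xP_ge := by norm_num
  xP_lt := by norm_num
  coneN := fun x hx => by
    rw [FN_cone one_pos le_rfl (by rw [dt_one]; linarith), bt_one]
  xf_ge := le_rfl
  flatS := fun x hx => gg_id one_pos (by rw [xt_one]; exact hx)
  uB_gt := by
    have : (19 / 20 : ℝ) < √(1 - (1 / 20) ^ 2) := by
      rw [lt_sqrt (by norm_num)]; norm_num
    linarith
  um_lt := by norm_num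
  u_le := fun θ hθ => uS_le h.le h1 hθ

theorem area_S {k : ℝ} (h : 0 < k) (h1 : k ≤ 1) : (CS k h h1).toQD.area4 = 2 * π * a1 := by
  rw [CI.area]
  have hpi := pi_pos
  have hM := MI_ge h1
  have e1 : (CS k h h1).Itot = aN 1 + hS k * MI k + (1 - k) * Sa + k * ag 1 := rfl
  have e2 : (CS k h h1).ρf = (1 - k * (1 / 20)) * cos (k * (π / 4)) := rfl
  have e3 : (CS k h h1).k = k := rfl
  have e4 : (CS k h h1).θf = π / 4 := rfl
  rw [e1, e2, e3, e4]
  have hc : 0 < cos (k * (π / 4)) := by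
    apply cos_pos_of_mem_Ioo
    constructor
    · nlinarith
    · nlinarith
  have e5 : π / 2 - π / 4 = π / 4 := by ring
  have e6 : tan (k * (π / 4)) = sin (k * (π / 4)) / cos (k * (π / 4)) := tan_eq_sin_div_cos _
  have e7 : sin (k * π / 2) = 2 * sin (k * (π / 4)) * cos (k * (π / 4)) := by
    rw [← sin_two_mul]; congr 1; ring
  have e8 : sinc (k * π / 2) = 2 * sin (k * (π / 4)) * cos (k * (π / 4)) / (k * π / 2) := by
    rw [sinc_of_ne_zero (by positivity), e7]
  have e9 : hS k * MI k = a1 - aN 1 - Jk k := by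
    unfold hS
    rw [div_mul_cancel₀ _ (by linarith)]
  rw [e5, e6, e9]
  unfold Jk c2
  rw [e8]
  generalize sin (k * (π / 4)) = s at *
  generalize cos (k * (π / 4)) = c at *
  field_simp
  ring

theorem Jk_one : Jk 1 = ag 1 - 361 / 400 / π := by
  unfold Jk c2
  have e : sinc (1 * π / 2) = 2 / π := by
    rw [one_mul, sinc_of_ne_zero (by positivity), sin_pi_div_two]; field_simp
  rw [e]
  have := pi_pos
  field_simp
  ring

theorem hS_one : hS 1 = hR 1 := by
  unfold hS hR a1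
  rw [Jk_one, aN_eq]
  congr 1
  ring

end Pool.MP8e.C
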