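import Pool.Agent.Work.MP_8e9dbb.C.CompDef

/-!
Continuity of families of quarter domains: the scaling map `(p, θ) ↦ (p β'(θ)/β(θ), θ)`.
-/

open Real Set Filter Topology

namespace Pool.MP8e.C

theorem norm_add_le (X Y e f : ℝ) :
    √((X + e) ^ 2 + (Y + f) ^ 2) ≤ √(X ^ 2 + Y ^ 2) + (|e| + |f|) := by
  have h0 : 0 ≤ √(X ^ 2 + Y ^ 2) := sqrt_nonneg _
  rw [sqrt_le_left (by positivity)]
  have h1 : √(X ^ 2 + Y ^ 2) ^ 2 = X ^ 2 + Y ^ 2 := sq_sqrt (by positivity)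
  have h2 : |X| ≤ √(X ^ 2 + Y ^ 2) := abs_le_sqrt (by nlinarith [sq_nonneg Y])
  have h3 : |Y| ≤ √(X ^ 2 + Y ^ 2) := abs_le_sqrt (by nlinarith [sq_nonneg X])
  have h4 : X * e ≤ √(X ^ 2 + Y ^ 2) * |e| := by
    calc X * e ≤ |X * e| := le_abs_self _
      _ = |X| * |e| := abs_mul _ _
      _ ≤ _ := mul_le_mul_of_nonneg_right h2 (abs_nonneg _)
  have h5 : Y * f ≤ √(X ^ 2 + Y ^ 2) * |f| := by
    calc Y * f ≤ |Y * f| := le_abs_self _
      _ = |Y| * |f| := abs_mul _ _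
      _ ≤ _ := mul_le_mul_of_nonneg_right h3 (abs_nonneg _)
  have h6 : e ^ 2 = |e| ^ 2 := (sq_abs e).symm
  have h7 : f ^ 2 = |f| ^ 2 := (sq_abs f).symm
  have h8 : 0 ≤ |e| * |f| := by positivity
  nlinarith

/-- comparison of two triangular norms -/
theorem norm_cmp {a b c a' b' c' m B δ y w : ℝ} (hm : 0 < m) (ha : m ≤ a) (hc : m ≤ c)
    (hb : |b| ≤ B) (h1 : |a' - a| ≤ δ) (h2 : |b' - b| ≤ δ) (h3 : |c' - c| ≤ δ) :
    √((a' * y + b' * w) ^ 2 + (c' * w) ^ 2) ≤ √((a * y + b * w) ^ 2 + (c * w) ^ 2) +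
      δ * ((1 + B / m) / m + 2 / m) * √((a * y + b * w) ^ 2 + (c * w) ^ 2) ∧
    √((a * y + b * w) ^ 2 + (c * w) ^ 2) ≤ √((a' * y + b' * w) ^ 2 + (c' * w) ^ 2) +
      δ * ((1 + B / m) / m + 2 / m) * √((a * y + b * w) ^ 2 + (c * w) ^ 2) := by
  set N := √((a * y + b * w) ^ 2 + (c * w) ^ 2) with hN
  have hN0 : 0 ≤ N := sqrt_nonneg _
  have hδ : 0 ≤ δ := (abs_nonneg _).trans h1
  have e1 : |a * y + b * w| ≤ N := abs_le_sqrt (by nlinarith [sq_nonneg (c * w)])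
  have e2 : |c * w| ≤ N := abs_le_sqrt (by nlinarith [sq_nonneg (a * y + b * w)])
  have hw : |w| ≤ N / m := by
    rw [le_div_iff₀ hm]
    rw [abs_mul, abs_of_pos (hm.trans_le hc)] at e2
    nlinarith [abs_nonneg w]
  have hB : 0 ≤ B := (abs_nonneg _).trans hb
  have hy : |y| ≤ (1 + B / m) / m * N := by
    have h4 : |a * y| ≤ N + B * (N / m) := by
      calc |a * y| = |(a * y + b * w) - b * w| := by ring_nf
        _ ≤ |a * y + b * w| + |b * w| := abs_sub _ _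
        _ ≤ N + B * (N / m) := by
          rw [abs_mul b w]
          exact add_le_add e1 (mul_le_mul hb hw (abs_nonneg _) hB)
    rw [abs_mul, abs_of_pos (hm.trans_le ha)] at h4
    have h5 : m * |y| ≤ a * |y| := mul_le_mul_of_nonneg_right ha (abs_nonneg _)
    have h6 : (1 + B / m) / m * N = (N + B * (N / m)) / m := by field_simp
    rw [h6, le_div_iff₀ hm]
    linarith
  have key : |(a' - a) * y + (b' - b) * w| + |(c' - c) * w| ≤
      δ * ((1 + B / m) / m + 2 / m) * N := by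
    have k1 : |(a' - a) * y + (b' - b) * w| ≤ δ * |y| + δ * |w| := by
      calc |(a' - a) * y + (b' - b) * w| ≤ |(a' - a) * y| + |(b' - b) * w| := abs_add_le _ _
        _ ≤ _ := by
          rw [abs_mul, abs_mul]
          exact add_le_add (mul_le_mul_of_nonneg_right h1 (abs_nonneg _))
            (mul_le_mul_of_nonneg_right h2 (abs_nonneg _))
    have k2 : |(c' - c) * w| ≤ δ * |w| := by
      rw [abs_mul]; exact mul_le_mul_of_nonneg_right h3 (abs_nonneg _)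
    have k3 := mul_le_mul_of_nonneg_left hw hδ
    have k4 := mul_le_mul_of_nonneg_left hy hδ
    have k5 : δ * ((1 + B / m) / m + 2 / m) * N =
      δ * ((1 + B / m) / m * N) + 2 * (δ * (N / m)) := by ring
    rw [k5]
    linarith
  constructor
  · have h4 := norm_add_le (a * y + b * w) (c * w) ((a' - a) * y + (b' - b) * w) ((c' - c) * w)
    have e3 : a * y + b * w + ((a' - a) * y + (b' - b) * w) = a' * y + b' * w := by ring
    have e4 : c * w + (c' - c) * w = c' * w := by ring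
    rw [e3, e4] at h4
    linarith
  · have h4 := norm_add_le (a' * y + b' * w) (c' * w) (-((a' - a) * y + (b' - b) * w))
      (-((c' - c) * w))
    have e3 : a' * y + b' * w + -((a' - a) * y + (b' - b) * w) = a * y + b * w := by ring
    have e4 : c' * w + -((c' - c) * w) = c * w := by ring
    rw [e3, e4, abs_neg, abs_neg] at h4
    linarith

/-- Families of functions, continuous at the parameter `t₀`. -/
structure Fam (A Q β β' : ℝ → ℝ → ℝ) (t₀ : ℝ) : Prop where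
  cA : ∀ p, 0 ≤ p → ContinuousAt (fun x : ℝ × ℝ => A x.1 x.2) (t₀, p)
  cQ : ∀ p, 0 ≤ p → ContinuousAt (fun x : ℝ × ℝ => Q x.1 x.2) (t₀, p)
  cβ : ∀ θ ∈ Icc 0 (π / 2), ContinuousAt (fun x : ℝ × ℝ => β x.1 x.2) (t₀, θ)
  cβ' : ∀ θ ∈ Icc 0 (π / 2), ContinuousAt (fun x : ℝ × ℝ => β' x.1 x.2) (t₀, θ)
  dβ : ∀ᶠ t in 𝓝 t₀, ∀ θ ∈ Icc 0 (π / 2), HasStrictDerivAt (β t) (β' t θ) θ
  β0 : ∀ θ ∈ Icc 0 (π / 2), 0 < β t₀ θ
  A0 : ∀ θ ∈ Icc 0 (π / 2), ∀ p ∈ Icc 0 (β t₀ θ), 0 < A t₀ p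
  Q0 : ∀ θ ∈ Icc 0 (π / 2), ∀ p ∈ Icc 0 (β t₀ θ), 0 < Q t₀ p

theorem eventually_close {f : ℝ → ℝ × ℝ → ℝ} {t₀ : ℝ} {K : Set (ℝ × ℝ)} (hK : IsCompact K)
    (hf : ∀ y ∈ K, ContinuousAt (fun z : ℝ × (ℝ × ℝ) => f z.1 z.2) (t₀, y)) {δ : ℝ} (hδ : 0 < δ) :
    ∀ᶠ t in 𝓝 t₀, ∀ y ∈ K, |f t y - f t₀ y| ≤ δ := by
  apply hK.eventually_forall_of_forall_eventually
  intro y hy
  have h1 := hf y hy
  have h2 : ContinuousAt (fun z : ℝ × (ℝ × ℝ) => f t₀ z.2) (t₀, y) := by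
    have h3 : ContinuousAt (fun z : ℝ × (ℝ × ℝ) => ((t₀, z.2) : ℝ × (ℝ × ℝ))) (t₀, y) :=
      continuousAt_const.prodMk continuousAt_snd
    exact ContinuousAt.comp (f := fun z : ℝ × (ℝ × ℝ) => ((t₀, z.2) : ℝ × (ℝ × ℝ)))
      (x := (t₀, y)) h1 h3
  have h3 := (h1.sub h2).abs
  have h4 : |f t₀ y - f t₀ y| < δ := by rw [sub_self, abs_zero]; exact hδ
  exact (h3.eventually (eventually_lt_nhds h4)).mono fun z hz => hz.le

theorem exists_pos_le {f : ℝ × ℝ → ℝ} {K : Set (ℝ × ℝ)} (hK : IsCompact K)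
    (hf : ContinuousOn f K) (h0 : ∀ y ∈ K, 0 < f y) : ∃ m > 0, ∀ y ∈ K, m ≤ f y := by
  rcases K.eq_empty_or_nonempty with h | h
  · exact ⟨1, one_pos, fun y hy => by rw [h] at hy; exact absurd hy (notMem_empty y)⟩
  · obtain ⟨y, hy, hm⟩ := hK.exists_isMinOn h hf
    exact ⟨f y, h0 y hy, fun z hz => hm hz⟩

/-- `D` is given by the functions of the family at `t` -/
def IsFam (A Q β : ℝ → ℝ → ℝ) (t : ℝ) (D : QD) : Prop :=
  (∀ p, 0 ≤ p → D.A p = A t p) ∧ (∀ p, 0 ≤ p → D.R p = p * Q t p) ∧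
    ∀ θ ∈ Icc 0 (π / 2), D.β θ = β t θ

/-- **Continuity**: members of the family are comparable with factor `e^ε`. -/
theorem Fam.qcomp {A Q β β' : ℝ → ℝ → ℝ} {t₀ : ℝ} (H : Fam A Q β β' t₀) {ε : ℝ} (hε : 0 < ε) :
    ∀ᶠ t in 𝓝 t₀, ∀ D D' : QD, IsFam A Q β t₀ D → IsFam A Q β t D' → QComp D D' ε := by
  let K : Set (ℝ × ℝ) := Icc 0 1 ×ˢ Icc 0 (π / 2)
  have hK : IsCompact K := isCompact_Icc.prod isCompact_Icc
  let fa : ℝ → ℝ × ℝ → ℝ := fun t y => A t (y.1 * β t y.2) * β t y.2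
  let fb : ℝ → ℝ × ℝ → ℝ := fun t y => A t (y.1 * β t y.2) * β' t y.2
  let fc : ℝ → ℝ × ℝ → ℝ := fun t y => β t y.2 * Q t (y.1 * β t y.2)
  have cβ : ∀ y ∈ K, ContinuousAt (fun z : ℝ × (ℝ × ℝ) => β z.1 z.2.2) (t₀, y) := by
    intro y hy
    have h1 : ContinuousAt (fun z : ℝ × (ℝ × ℝ) => ((z.1, z.2.2) : ℝ × ℝ)) (t₀, y) := by fun_prop
    exact ContinuousAt.comp (f := fun z : ℝ × (ℝ × ℝ) => ((z.1, z.2.2) : ℝ × ℝ))
      (x := (t₀, y)) (H.cβ y.2 hy.2) h1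
  have cβ' : ∀ y ∈ K, ContinuousAt (fun z : ℝ × (ℝ × ℝ) => β' z.1 z.2.2) (t₀, y) := by
    intro y hy
    have h1 : ContinuousAt (fun z : ℝ × (ℝ × ℝ) => ((z.1, z.2.2) : ℝ × ℝ)) (t₀, y) := by fun_prop
    exact ContinuousAt.comp (f := fun z : ℝ × (ℝ × ℝ) => ((z.1, z.2.2) : ℝ × ℝ))
      (x := (t₀, y)) (H.cβ' y.2 hy.2) h1
  have hp : ∀ y ∈ K, 0 ≤ y.1 * β t₀ y.2 ∧ y.1 * β t₀ y.2 ≤ β t₀ y.2 := by
    intro y hy
    have h1 := (H.β0 y.2 hy.2).le
    exact ⟨mul_nonneg hy.1.1 h1, by nlinarith [hy.1.2]⟩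
  have cp : ∀ y ∈ K, ContinuousAt (fun z : ℝ × (ℝ × ℝ) =>
      ((z.1, z.2.1 * β z.1 z.2.2) : ℝ × ℝ)) (t₀, y) := by
    intro y hy
    have h1 : ContinuousAt (fun z : ℝ × (ℝ × ℝ) => z.2.1) (t₀, y) := by fun_prop
    exact continuousAt_fst.prodMk (h1.mul (cβ y hy))
  have cA : ∀ y ∈ K, ContinuousAt (fun z : ℝ × (ℝ × ℝ) => A z.1 (z.2.1 * β z.1 z.2.2))
      (t₀, y) := by
    intro y hy
    exact ContinuousAt.comp (f := fun z : ℝ × (ℝ × ℝ) => ((z.1, z.2.1 * β z.1 z.2.2) : ℝ × ℝ))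
      (x := (t₀, y)) (H.cA _ (hp y hy).1) (cp y hy)
  have cQ : ∀ y ∈ K, ContinuousAt (fun z : ℝ × (ℝ × ℝ) => Q z.1 (z.2.1 * β z.1 z.2.2))
      (t₀, y) := by
    intro y hy
    exact ContinuousAt.comp (f := fun z : ℝ × (ℝ × ℝ) => ((z.1, z.2.1 * β z.1 z.2.2) : ℝ × ℝ))
      (x := (t₀, y)) (H.cQ _ (hp y hy).1) (cp y hy)
  have ca : ∀ y ∈ K, ContinuousAt (fun z : ℝ × (ℝ × ℝ) => fa z.1 z.2) (t₀, y) :=
    fun y hy => (cA y hy).mul (cβ y hy)
  have cb : ∀ y ∈ K, ContinuousAt (fun z : ℝ × (ℝ × ℝ) => fb z.1 z.2) (t₀, y) :=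
    fun y hy => (cA y hy).mul (cβ' y hy)
  have cc : ∀ y ∈ K, ContinuousAt (fun z : ℝ × (ℝ × ℝ) => fc z.1 z.2) (t₀, y) :=
    fun y hy => (cβ y hy).mul (cQ y hy)
  have on : ∀ {f : ℝ → ℝ × ℝ → ℝ}, (∀ y ∈ K, ContinuousAt (fun z : ℝ × (ℝ × ℝ) => f z.1 z.2)
      (t₀, y)) → ContinuousOn (f t₀) K := by
    intro f hf y hy
    have h1 : ContinuousAt (fun y' : ℝ × ℝ => ((t₀, y') : ℝ × (ℝ × ℝ))) y := by fun_prop
    exact (ContinuousAt.comp (f := fun y' : ℝ × ℝ => ((t₀, y') : ℝ × (ℝ × ℝ)))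
      (x := y) (hf y hy) h1).continuousWithinAt
  obtain ⟨m₁, hm₁, hma⟩ := exists_pos_le hK (on ca) fun y hy =>
    mul_pos (H.A0 y.2 hy.2 _ (hp y hy)) (H.β0 y.2 hy.2)
  obtain ⟨m₂, hm₂, hmc⟩ := exists_pos_le hK (on cc) fun y hy =>
    mul_pos (H.β0 y.2 hy.2) (H.Q0 y.2 hy.2 _ (hp y hy))
  obtain ⟨B, hB⟩ := hK.exists_bound_of_continuousOn (on cb)
  set m := min m₁ m₂ with hm
  have hm0 : 0 < m := lt_min hm₁ hm₂
  set B' := max B 0 with hB'
  set C := (1 + B' / m) / m + 2 / m with hC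
  have hB0 : 0 ≤ B' := le_max_right _ _
  have hC0 : 0 < C := by positivity
  have hexp1 : exp (-ε) < 1 := by rw [exp_lt_one_iff]; linarith
  have hexp : 0 < 1 - exp (-ε) := by linarith
  set δ := (1 - exp (-ε)) / C with hδ
  have hδ0 : 0 < δ := div_pos hexp hC0
  have hδC : δ * C = 1 - exp (-ε) := by rw [hδ]; field_simp
  obtain ⟨m₃, hm₃, hmβ⟩ := exists_pos_le (f := fun y => β t₀ y.2) hK
    (on (f := fun t y => β t y.2) cβ) fun y hy => H.β0 y.2 hy.2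
  have hd0 := H.dβ.self_of_nhds
  filter_upwards [eventually_close hK ca hδ0, eventually_close hK cb hδ0,
    eventually_close hK cc hδ0, H.dβ, eventually_close (f := fun t y => β t y.2) hK cβ
      (half_pos hm₃)] with t ha hb hc hd hβt
  intro D D' hD hD'
  refine ⟨fun q => q.1 * (β t q.2 / β t₀ q.2), ?_, ?_⟩
  · intro θ hθ
    constructor
    · simp
    · have h1 := H.β0 θ hθ
      have e1 := hD.2.2 θ hθ
      have e2 := hD'.2.2 θ hθ
      simp only [e1, e2]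
      field_simp
  · intro q hq2 hq1 hq1'
    have hβ0 := H.β0 q.2 hq2
    rw [hD.2.2 q.2 hq2] at hq1'
    have hx0 : 0 ≤ q.1 / β t₀ q.2 := div_nonneg hq1 hβ0.le
    have hx1 : q.1 / β t₀ q.2 ≤ 1 := (div_le_one hβ0).2 hq1'
    set x := q.1 / β t₀ q.2 with hx
    have hyK : ((x, q.2) : ℝ × ℝ) ∈ K := ⟨⟨hx0, hx1⟩, hq2⟩
    have hpx : q.1 = x * β t₀ q.2 := by rw [hx]; field_simp
    have hβt0 : 0 < β t q.2 := by
      have h1 := hβt _ hyK
      have h2 := hmβ _ hyK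
      have h3 := (abs_le.1 h1).1
      simp only at h1 h2 h3
      linarith
    have hg : HasStrictDerivAt (fun θ => β t θ / β t₀ θ)
        ((β' t q.2 * β t₀ q.2 - β t q.2 * β' t₀ q.2) / β t₀ q.2 ^ 2) q.2 :=
      (hd q.2 hq2).div (hd0 q.2 hq2) hβ0.ne'
    have hsd := (hasStrictFDerivAt_fst (𝕜 := ℝ) (p := q)).mul
      (hg.comp_hasStrictFDerivAt q hasStrictFDerivAt_snd)
    refine ⟨_, hsd, ?_, ?_⟩
    · simp
      positivity
    · intro u
      have hφ' : (q.1 • ((β' t q.2 * β t₀ q.2 - β t q.2 * β' t₀ q.2) / β t₀ q.2 ^ 2) •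
          ContinuousLinearMap.snd ℝ ℝ ℝ + (β t q.2 / β t₀ q.2) •
          ContinuousLinearMap.fst ℝ ℝ ℝ) u = β t q.2 * ((u.1 - x * β' t₀ q.2 * u.2) / β t₀ q.2) +
          β' t q.2 * (x * u.2) := by
        simp
        rw [hpx]
        field_simp
        ring
      have hu1 : u.1 = β t₀ q.2 * ((u.1 - x * β' t₀ q.2 * u.2) / β t₀ q.2) +
          β' t₀ q.2 * (x * u.2) := by
        field_simp
        ring
      have hN0 : D.nm q.1 u = √((fa t₀ (x, q.2) * ((u.1 - x * β' t₀ q.2 * u.2) / β t₀ q.2) +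
          fb t₀ (x, q.2) * (x * u.2)) ^ 2 + (fc t₀ (x, q.2) * (x * u.2)) ^ 2) := by
        unfold QD.nm
        rw [hD.1 q.1 hq1, hD.2.1 q.1 hq1]
        congr 2
        · have : A t₀ q.1 * u.1 = fa t₀ (x, q.2) * ((u.1 - x * β' t₀ q.2 * u.2) / β t₀ q.2) +
            fb t₀ (x, q.2) * (x * u.2) := by
            simp only [fa, fb]
            rw [← hpx]
            conv_lhs => rw [hu1]
            ring
          rw [this]
        · have : q.1 * Q t₀ q.1 * u.2 = fc t₀ (x, q.2) * (x * u.2) := by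
            simp only [fc]
            rw [← hpx]
            linear_combination (Q t₀ q.1 * u.2) * hpx
          rw [this]
      have hN1 : D'.nm (q.1 * (β t q.2 / β t₀ q.2))
          ((q.1 • ((β' t q.2 * β t₀ q.2 - β t q.2 * β' t₀ q.2) / β t₀ q.2 ^ 2) •
          ContinuousLinearMap.snd ℝ ℝ ℝ + (β t q.2 / β t₀ q.2) •
          ContinuousLinearMap.fst ℝ ℝ ℝ) u, u.2) =
          √((fa t (x, q.2) * ((u.1 - x * β' t₀ q.2 * u.2) / β t₀ q.2) +
          fb t (x, q.2) * (x * u.2)) ^ 2 + (fc t (x, q.2) * (x * u.2)) ^ 2) := by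
        have e0 : q.1 * (β t q.2 / β t₀ q.2) = x * β t q.2 := by rw [hx]; field_simp
        have e0' : 0 ≤ x * β t q.2 := mul_nonneg hx0 hβt0.le
        unfold QD.nm
        rw [hφ', e0, hD'.1 _ e0', hD'.2.1 _ e0']
        congr 2
        · simp only [fa, fb]
          ring
        · simp only [fc]
          ring
      have hcmp := norm_cmp (a := fa t₀ (x, q.2)) (b := fb t₀ (x, q.2)) (c := fc t₀ (x, q.2))
        (a' := fa t (x, q.2)) (b' := fb t (x, q.2)) (c' := fc t (x, q.2)) (m := m) (B := B')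
        (δ := δ) (y := (u.1 - x * β' t₀ q.2 * u.2) / β t₀ q.2) (w := x * u.2) hm0
        ((min_le_left _ _).trans (hma _ hyK)) ((min_le_right _ _).trans (hmc _ hyK))
        ((hB _ hyK).trans (le_max_left _ _)) (ha _ hyK) (hb _ hyK) (hc _ hyK)
      rw [← hN0, ← hN1, ← hC, hδC] at hcmp
      have hNn : 0 ≤ D.nm q.1 u := by rw [hN0]; exact sqrt_nonneg _
      have he1 : 1 ≤ exp ε := one_le_exp hε.le
      have he2 : exp (-ε) * exp ε = 1 := by rw [← exp_add]; simp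
      have he3 : 2 - exp (-ε) ≤ exp ε := by
        have : 0 < exp (-ε) := exp_pos _
        nlinarith [sq_nonneg (exp ε - 1)]
      have key : ∀ N0 N1 : ℝ, 0 ≤ N0 → N1 ≤ N0 + (1 - exp (-ε)) * N0 →
          N0 ≤ N1 + (1 - exp (-ε)) * N0 → N1 ≤ exp ε * N0 ∧ N0 ≤ exp ε * N1 := by
        intro N0 N1 h0 h1 h2
        constructor
        · nlinarith
        · have h3 : exp (-ε) * N0 ≤ N1 := by linarith
          have h4 := mul_le_mul_of_nonneg_left h3 (exp_pos ε).le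
          have h5 : exp ε * (exp (-ε) * N0) = N0 := by
            rw [← mul_assoc, mul_comm (exp ε), he2, one_mul]
          linarith
      exact key _ _ hNn hcmp.1 hcmp.2

end Pool.MP8e.C
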