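import Pool.Agent.Work.MP_8e9dbb.C.DataT
import Pool.Agent.Work.MP_8e9dbb.C.Qcomp

/-!
The four families of the path, parametrised by `[0, 1]`.
-/

open Real Set
open scoped ContDiff

namespace Pool.MP8e.C

/-- phase R' (`t = 1`: start of phase S') -/
noncomputable def famR (t : ℝ) : QD :=
  if h : 0 < t ∧ t < 1 then (CR t h.1 h.2.le).toQD else (CS 1 one_pos le_rfl).toQD

/-- phase S' (`k = 1 - t`; `t = 1`: start of phase F) -/
noncomputable def famS (t : ℝ) : QD :=
  if h : 0 ≤ t ∧ t < 1 then (CS (1 - t) (by linarith [h.2]) (by linarith [h.1])).toQD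
  else (CF 0 le_rfl zero_le_one).toQD

/-- phase F -/
noncomputable def famF (t : ℝ) : QD :=
  if h : 0 ≤ t ∧ t ≤ 1 then (CF t h.1 h.2).toQD else (CF 0 le_rfl zero_le_one).toQD

/-- phase T (`γ = π t / 3`; `t = 0`: end of phase F) -/
noncomputable def famT (t : ℝ) : QD :=
  if h : 0 < t ∧ t ≤ 1 then
    (CT (π * t / 3) (by have := h.1; positivity)
      (by have := h.2; have := pi_pos; nlinarith)).toQD
  else (CF 1 zero_le_one le_rfl).toQD

theorem famR_of {t : ℝ} (h : 0 < t) (h1 : t < 1) : famR t = (CR t h h1.le).toQD := by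
  unfold famR
  rw [dif_pos ⟨h, h1⟩]

theorem famR_one : famR 1 = (CS 1 one_pos le_rfl).toQD := by
  unfold famR
  rw [dif_neg (fun h => lt_irrefl _ h.2)]

theorem famS_of {t : ℝ} (h : 0 ≤ t) (h1 : t < 1) :
    famS t = (CS (1 - t) (by linarith) (by linarith)).toQD := by
  unfold famS
  rw [dif_pos ⟨h, h1⟩]

theorem famS_one : famS 1 = (CF 0 le_rfl zero_le_one).toQD := by
  unfold famS
  rw [dif_neg (fun h => lt_irrefl _ h.2)]

theorem CS_congr {k k' : ℝ} (h : 0 < k) (h1 : k ≤ 1) (h' : 0 < k') (h1' : k' ≤ 1)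
    (e : k = k') : (CS k h h1).toQD = (CS k' h' h1').toQD := by
  subst e; rfl

theorem famS_zero : famS 0 = famR 1 := by
  rw [famS_of le_rfl one_pos, famR_one]
  exact CS_congr _ _ _ _ (sub_zero 1)

theorem famF_of {t : ℝ} (h : 0 ≤ t) (h1 : t ≤ 1) : famF t = (CF t h h1).toQD := by
  unfold famF
  rw [dif_pos ⟨h, h1⟩]

theorem famF_zero : famF 0 = famS 1 := by
  rw [famF_of le_rfl zero_le_one, famS_one]

theorem famT_of {t : ℝ} (h : 0 < t) (h1 : t ≤ 1) :
    famT t = (CT (π * t / 3) (by positivity) (by have := pi_pos; nlinarith)).toQD := by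
  unfold famT
  rw [dif_pos ⟨h, h1⟩]

theorem famT_zero : famT 0 = famF 1 := by
  rw [famF_of zero_le_one le_rfl]
  unfold famT
  rw [dif_neg (fun h => lt_irrefl _ h.1)]

end Pool.MP8e.C
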