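import Pool.Agent.Work.MP_8e9dbb.C.Smooth

/-!
The speed functions `F(x)`, `x = |cos r|`, of the path: `gg t` (south side), `FN t` (north side).
`gg t x = 1` for `x ≤ x_t - w_t`, `gg t x = x` for `x ≥ x_t`; `FN t = 2 - gg t + cap t` with
`FN t x = b_t x` near `x = 1`.
-/

open Real Set
open scoped ContDiff

namespace Pool.MP8e.C

/-- end value of `x_t` -/
noncomputable def x0 : ℝ := 1 / 20
/-- the flat disc of the south side is `x ≥ xt t` -/
noncomputable def xt (t : ℝ) : ℝ := 1 - (1 - x0) * t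
/-- width of the transition of `gg` -/
noncomputable def wt (t : ℝ) : ℝ := t * x0 / 2
/-- size of the cap at `P` -/
noncomputable def dt (t : ℝ) : ℝ := t / 100
/-- slope factor at `P` -/
noncomputable def bt (t : ℝ) : ℝ := 1 + 8 * dt t
/-- south side speed -/
noncomputable def gg (t x : ℝ) : ℝ := 1 - (1 - x) * smoothTransition ((x - xt t + wt t) / wt t)
/-- the cap at `P` -/
noncomputable def cap (t x : ℝ) : ℝ :=
  ((bt t + 1) * x - 2) * smoothTransition ((x - 1 + 2 * dt t) / dt t)
/-- north side speed -/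
noncomputable def FN (t x : ℝ) : ℝ := 2 - gg t x + cap t x

variable {t x : ℝ}

theorem wt_pos (h : 0 < t) : 0 < wt t := by unfold wt x0; positivity
theorem dt_pos (h : 0 < t) : 0 < dt t := by unfold dt; positivity
theorem dt_le (h : t ≤ 1) : dt t ≤ 1 / 100 := by unfold dt; linarith
theorem bt_gt (h : 0 < t) : 1 < bt t := by unfold bt; linarith [dt_pos h]
theorem bt_le (h : t ≤ 1) : bt t ≤ 27 / 25 := by unfold bt; linarith [dt_le h]
theorem xt_lt (h : 0 < t) : xt t < 1 := by unfold xt x0; linarith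
theorem xt_ge (h : t ≤ 1) : 1 / 20 ≤ xt t := by unfold xt x0; linarith
theorem xt_sub_wt (h : t ≤ 1) : 1 / 40 ≤ xt t - wt t := by unfold xt wt x0; linarith

theorem gg_contDiff (t : ℝ) : ContDiff ℝ ∞ (gg t) := by
  unfold gg
  exact contDiff_const.sub ((contDiff_const.sub contDiff_id).mul
    (smoothTransition.contDiff.comp
      (((contDiff_id.sub contDiff_const).add contDiff_const).div_const _)))

theorem cap_contDiff (t : ℝ) : ContDiff ℝ ∞ (cap t) := by
  unfold cap
  exact ((contDiff_const.mul contDiff_id).sub contDiff_const).mul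
    (smoothTransition.contDiff.comp
      (((contDiff_id.sub contDiff_const).add contDiff_const).div_const _))

theorem FN_contDiff (t : ℝ) : ContDiff ℝ ∞ (FN t) := by
  unfold FN
  exact (contDiff_const.sub (gg_contDiff t)).add (cap_contDiff t)

theorem gg_one (h : 0 < t) (hx : x ≤ xt t - wt t) : gg t x = 1 := by
  unfold gg
  rw [smoothTransition.zero_of_nonpos (div_nonpos_of_nonpos_of_nonneg (by linarith)
    (wt_pos h).le)]
  ring

theorem gg_id (h : 0 < t) (hx : xt t ≤ x) : gg t x = x := by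
  unfold gg
  rw [smoothTransition.one_of_one_le (by rw [le_div_iff₀ (wt_pos h)]; linarith)]
  ring

theorem gg_le_one (hx : x ≤ 1) : gg t x ≤ 1 := by
  unfold gg
  have := mul_nonneg (sub_nonneg.2 hx)
    (smoothTransition.nonneg ((x - xt t + wt t) / wt t))
  linarith

theorem gg_ge (hx : x ≤ 1) : x ≤ gg t x := by
  unfold gg
  have := mul_le_mul_of_nonneg_left
    (smoothTransition.le_one ((x - xt t + wt t) / wt t)) (sub_nonneg.2 hx)
  linarith

/-- `gg` is positive on `[0, 1]` -/
theorem gg_pos (h : 0 < t) (h1 : t ≤ 1) (hx : x ≤ 1) : 0 < gg t x := by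
  rcases le_or_gt x (xt t - wt t) with h2 | h2
  · rw [gg_one h h2]; norm_num
  · have := gg_ge (t := t) hx
    have := xt_sub_wt h1
    linarith

theorem gg_sub_le (h : 0 < t) (hx : x ≤ 1) : 1 - gg t x ≤ t := by
  rcases le_or_gt x (xt t - wt t) with h2 | h2
  · rw [gg_one h h2]; linarith
  · have := gg_ge (t := t) hx
    unfold xt wt x0 at h2
    linarith

theorem cap_nonneg (h : 0 < t) (h1 : t ≤ 1) (x : ℝ) : 0 ≤ cap t x := by
  have hd := dt_pos h
  have hd1 := dt_le h1
  unfold cap
  rcases le_or_gt x (1 - 2 * dt t) with h2 | h2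
  · rw [smoothTransition.zero_of_nonpos (div_nonpos_of_nonpos_of_nonneg (by linarith) hd.le)]
    simp
  · apply mul_nonneg _ (smoothTransition.nonneg _)
    unfold bt
    nlinarith [mul_pos hd hd, mul_pos hd (sub_pos.2 h2)]

theorem cap_le (h : 0 < t) (h1 : t ≤ 1) (hx : x ≤ 1) : cap t x ≤ bt t - 1 := by
  have hd := dt_pos h
  have hd1 := dt_le h1
  have hb := bt_gt h
  unfold cap
  rcases le_or_gt x (1 - 2 * dt t) with h2 | h2
  · rw [smoothTransition.zero_of_nonpos (div_nonpos_of_nonpos_of_nonneg (by linarith) hd.le)]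
    simp; linarith
  · have h3 : 0 ≤ (bt t + 1) * x - 2 := by
      unfold bt
      nlinarith [mul_pos hd hd, mul_pos hd (sub_pos.2 h2)]
    have h4 := mul_le_mul_of_nonneg_left
      (smoothTransition.le_one ((x - 1 + 2 * dt t) / dt t)) h3
    have h5 : (bt t + 1) * x ≤ (bt t + 1) * 1 := by
      apply mul_le_mul_of_nonneg_left hx; linarith
    linarith

theorem cap_zero (h : 0 < t) (hx : x ≤ 1 - 2 * dt t) : cap t x = 0 := by
  unfold cap
  rw [smoothTransition.zero_of_nonpos
    (div_nonpos_of_nonpos_of_nonneg (by linarith) (dt_pos h).le)]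
  ring

theorem FN_ge_one (h : 0 < t) (h1 : t ≤ 1) (hx : x ≤ 1) : 1 ≤ FN t x := by
  unfold FN
  linarith [gg_le_one (t := t) hx, cap_nonneg h h1 x]

theorem FN_ge (h : 0 < t) (h1 : t ≤ 1) (x : ℝ) : 2 - gg t x ≤ FN t x := by
  unfold FN
  linarith [cap_nonneg h h1 x]

theorem FN_cone (h : 0 < t) (h1 : t ≤ 1) (hx : 1 - dt t ≤ x) : FN t x = bt t * x := by
  have hd := dt_pos h
  have h2 : xt t ≤ x := by
    unfold xt x0
    unfold dt at hx
    linarith
  unfold FN cap
  rw [gg_id h h2, smoothTransition.one_of_one_le (by rw [le_div_iff₀ hd]; linarith)]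
  ring

end Pool.MP8e.C
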