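import Pool.Agent.Work.MP_8e9dbb.C.ClassII

/-!
Integrals of the speed functions.
-/

open Real Set intervalIntegral
open scoped ContDiff

namespace Pool.MP8e.C

theorem r_continuous : Continuous r := r_contDiff.continuous
theorem w_continuous : Continuous w := w_contDiff.continuous
theorem r_zero : r 0 = 0 := rr_zero dl_pos dl_le

/-- substitution `ρ = r p` -/
theorem int_comp_r {f : ℝ → ℝ} (hf : Continuous f) (a P : ℝ) :
    ∫ p in a..P, f (r p) * (1 - w p) = ∫ x in (r a)..(r P), f x := by
  have := integral_comp_mul_deriv (a := a) (b := P) (f := r) (f' := fun p => 1 - w p) (g := f)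
    (fun x _ => r_hasDerivAt x) (continuous_const.sub w_continuous).continuousOn hf
  exact this

theorem int_cos_sin {f : ℝ → ℝ} (hf : Continuous f) (a b : ℝ) :
    ∫ x in a..b, f (cos x) * sin x = ∫ x in (cos b)..(cos a), f x := by
  have h := integral_comp_mul_deriv (a := a) (b := b) (f := cos) (f' := fun x => -sin x) (g := f)
    (fun x _ => hasDerivAt_cos x) (continuous_sin.neg).continuousOn hf
  have h2 : ∫ x in a..b, f (cos x) * sin x = -∫ x in a..b, (f ∘ cos) x * -sin x := by
    rw [← integral_neg]
    apply integral_congr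
    intro x _
    simp
  rw [h2, h, integral_symm, neg_neg]

/-- the cut-off moment `κ_w` -/
noncomputable def kw : ℝ := ∫ p in (0:ℝ)..pa, w p * sin (r p)

theorem int_w : ∫ p in (0:ℝ)..pa, w p = 1 / 40 := by
  have h := WW_large dl_pos dl_le (p := pa) (by rw [pa_eq])
  unfold WW at h
  have h2 : ∫ p in (0:ℝ)..pa, w p = pa - π / 2 := h
  rw [h2]; unfold pa; ring

theorem pa_pos : 0 < pa := by unfold pa; linarith [pi_pos]
theorem q0_pos : 0 < q0 := by unfold q0; linarith [pi_gt_three]

theorem kw_nonneg : 0 ≤ kw := by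
  unfold kw
  apply integral_nonneg pa_pos.le
  intro p hp
  apply mul_nonneg (w_nonneg p)
  exact sin_nonneg_of_nonneg_of_le_pi (r_nonneg hp.1) (by linarith [r_le p, pi_pos])

theorem kw_le : kw ≤ 1 / 40 := by
  rw [← int_w]
  unfold kw
  apply integral_mono_on pa_pos.le
  · exact (w_continuous.mul (continuous_sin.comp r_continuous)).intervalIntegrable _ _
  · exact w_continuous.intervalIntegrable _ _
  intro p hp
  have := mul_le_mul_of_nonneg_left (sin_le_one (r p)) (w_nonneg p)
  linarith

/-- `1 - κ_w` times 40 is tiny -/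
theorem kw_ge : 1 / 40 - 1 / 128000 ≤ kw := by
  have h1 : (1 - 1 / 3200) * (1 / 40 : ℝ) ≤ kw := by
    rw [← int_w, ← integral_const_mul]
    unfold kw
    apply integral_mono_on pa_pos.le
    · exact (w_continuous.const_mul _).intervalIntegrable _ _
    · exact (w_continuous.mul (continuous_sin.comp r_continuous)).intervalIntegrable _ _
    intro p hp
    rcases le_total p q0 with h | h
    · rw [w_zero h]; simp
    · have h2 := r_ge h
      have h3 : 1 - 1 / 3200 ≤ sin (r p) := by
        have h4 : sin (r p) = cos (π / 2 - r p) := (cos_pi_div_two_sub _).symm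
        rw [h4]
        have h5 := one_sub_sq_div_two_le_cos (x := π / 2 - r p)
        have h6 : 0 ≤ π / 2 - r p := by linarith [r_le p]
        have h7 : π / 2 - r p ≤ 1 / 40 := by unfold q0 at h2; linarith
        have h8 : (π / 2 - r p) ^ 2 ≤ (1 / 40) ^ 2 := pow_le_pow_left₀ h6 h7 2
        linarith
      have := mul_le_mul_of_nonneg_left h3 (w_nonneg p)
      linarith
  linarith

theorem r_ptot : r ptot = π / 2 := r_large (by unfold pa ptot; linarith [pi_pos])

/-- four times the area integral of the quarter domain -/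
noncomputable def _root_.Pool.MP8e.QD.area4 (D : QD) : ℝ :=
  4 * ∫ θ in (0:ℝ)..(π / 2), ∫ p in (0:ℝ)..(D.β θ), D.A p * D.R p

/-- mass of the plateau -/
noncomputable def MI (k : ℝ) : ℝ := ∫ p in (0:ℝ)..ptot, w p * w (ptot - p) * RI k p

theorem RI_north {k p : ℝ} (h : p ≤ ptot - pa) : RI k p = sin (r p) := by
  unfold RI; rw [r_south h, sin_pi_div_two]; ring

theorem RI_south {k p : ℝ} (h : pa ≤ p) :
    RI k p = 1 - k * (1 - sin (r (ptot - p))) := by
  unfold RI; rw [r_large h, sin_pi_div_two]; ring

theorem cont_q : Continuous (fun p : ℝ => ptot - p) := continuous_const.sub continuous_id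

theorem int_N {FN : ℝ → ℝ} (hN : Continuous FN) (k : ℝ) :
    ∫ p in (0:ℝ)..ptot, FN (cos (r p)) * (1 - w p) * RI k p = ∫ x in (0:ℝ)..1, FN x := by
  have h1 : ∫ p in (0:ℝ)..ptot, FN (cos (r p)) * (1 - w p) * RI k p =
      ∫ p in (0:ℝ)..ptot, (FN (cos (r p)) * sin (r p)) * (1 - w p) := by
    apply integral_congr
    intro p _
    dsimp only
    rcases le_or_gt p (ptot - pa) with h | h
    · rw [RI_north h]; ring
    · rw [w_one (by linarith [pa_lt] : pa ≤ p)]; ring
  rw [h1, int_comp_r (f := fun x => FN (cos x) * sin x)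
    ((hN.comp continuous_cos).mul continuous_sin), int_cos_sin hN, r_zero, r_ptot]
  simp

theorem int_S {FS : ℝ → ℝ} (hS : Continuous FS) (k : ℝ) :
    ∫ p in (0:ℝ)..ptot, FS (cos (r (ptot - p))) * (1 - w (ptot - p)) * RI k p =
      (1 - k) * (∫ x in (0:ℝ)..(π / 2), FS (cos x)) + k * ∫ x in (0:ℝ)..1, FS x := by
  have h1 : ∫ p in (0:ℝ)..ptot, FS (cos (r (ptot - p))) * (1 - w (ptot - p)) * RI k p =
      ∫ p in (0:ℝ)..ptot, (FS (cos (r (ptot - p))) * (1 - k + k * sin (r (ptot - p)))) *
        (1 - w (ptot - p)) := by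
    apply integral_congr
    intro p _
    dsimp only
    rcases le_or_gt pa p with h | h
    · rw [RI_south h]; ring
    · rw [w_one (by linarith [pa_lt] : pa ≤ ptot - p)]; ring
  rw [h1, integral_comp_sub_left (fun q => (FS (cos (r q)) * (1 - k + k * sin (r q))) *
    (1 - w q)) ptot, sub_self, sub_zero,
    int_comp_r (f := fun x => FS (cos x) * (1 - k + k * sin x))
    ((hS.comp continuous_cos).mul (by fun_prop)), r_zero, r_ptot]
  have h2 : ∫ x in (0:ℝ)..(π / 2), FS (cos x) * (1 - k + k * sin x) =
      ∫ x in (0:ℝ)..(π / 2), ((1 - k) * FS (cos x) + k * (FS (cos x) * sin x)) := by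
    apply integral_congr
    intro x _
    dsimp only
    ring
  have c1 : Continuous fun x => FS (cos x) := hS.comp continuous_cos
  have c2 : Continuous fun x => FS (cos x) * sin x := c1.mul continuous_sin
  rw [h2, integral_add ((c1.const_mul _).intervalIntegrable _ _)
    ((c2.const_mul _).intervalIntegrable _ _), integral_const_mul,
    integral_const_mul, int_cos_sin hS]
  simp

theorem int_total {FN FS : ℝ → ℝ} (hN : Continuous FN) (hS : Continuous FS) (h k : ℝ) :
    ∫ p in (0:ℝ)..ptot, AI FN FS h p * RI k p = (∫ x in (0:ℝ)..1, FN x) + h * MI k +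
      (1 - k) * (∫ x in (0:ℝ)..(π / 2), FS (cos x)) + k * ∫ x in (0:ℝ)..1, FS x := by
  have cR : Continuous (RI k) := (RI_contDiff k).continuous
  have c1 : Continuous fun p => FN (cos (r p)) := hN.comp (continuous_cos.comp r_continuous)
  have c2 : Continuous fun p => FS (cos (r (ptot - p))) :=
    hS.comp (continuous_cos.comp (r_continuous.comp cont_q))
  have c3 : Continuous fun p => w (ptot - p) := w_continuous.comp cont_q
  have cw := w_continuous
  have h1 : ∫ p in (0:ℝ)..ptot, AI FN FS h p * RI k p = ∫ p in (0:ℝ)..ptot,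
      (FN (cos (r p)) * (1 - w p) * RI k p +
      FS (cos (r (ptot - p))) * (1 - w (ptot - p)) * RI k p +
      h * (w p * w (ptot - p) * RI k p)) := by
    apply integral_congr
    intro p _
    dsimp only
    unfold AI
    ring
  rw [h1, integral_add, integral_add, int_N hN, int_S hS, integral_const_mul]
  · unfold MI; ring
  · exact ((c1.mul (continuous_const.sub cw)).mul cR).intervalIntegrable _ _
  · exact ((c2.mul (continuous_const.sub c3)).mul cR).intervalIntegrable _ _
  · exact (((c1.mul (continuous_const.sub cw)).mul cR).add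
      ((c2.mul (continuous_const.sub c3)).mul cR)).intervalIntegrable _ _
  · exact (((cw.mul c3).mul cR).const_mul _).intervalIntegrable _ _

end Pool.MP8e.C
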