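import Pool.Agent.Work.MP_8e9dbb.C.ContII

/-!
The junction: the end `S0` of phase S' is isometric to the start of phase F.
-/

open Real Set Filter Topology intervalIntegral
open scoped ContDiff

namespace Pool.MP8e.C

/-- speed of `S0` -/
noncomputable def AS0 (p : ℝ) : ℝ := AI (FN 1) (gg 1) h0 p
/-- speed at the start of phase F -/
noncomputable def AF0 (p : ℝ) : ℝ := AII (Fv 0) h0 p

theorem AS0_cont : Continuous AS0 := (AI_contDiff (FN_contDiff 1) (gg_contDiff 1) h0).continuous
theorem AF0_cont : Continuous AF0 := (AII_contDiff (Fv_contDiff 0) h0).continuous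

theorem AS0_north {p : ℝ} (h : p ≤ ptot - pa) : AS0 p = AF0 p := by
  unfold AS0 AF0 AI AII Fv
  rw [w_south h]
  ring

theorem AF0_south {p : ℝ} (h : pa ≤ p) : AF0 p = h0 := by
  unfold AF0 AII
  rw [w_one h]
  ring

theorem AS0_south {p : ℝ} (h : pa ≤ p) :
    AS0 p = gg 1 (cos (r (ptot - p))) * (1 - w (ptot - p)) + h0 * w (ptot - p) := by
  unfold AS0 AI
  rw [w_one h]
  ring

theorem MI_zero : MI 0 = kw + 1 + 1 / 40 := by
  have hpa := pa_pos
  have hpa2 := pa_lt
  have e : ptot - pa - pa = 1 := by unfold ptot pa; ring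
  have hM := MI_cont 0
  have h1 := integral_add_adjacent_intervals (μ := MeasureTheory.volume)
    (hM.intervalIntegrable 0 pa) (hM.intervalIntegrable pa (ptot - pa))
  have h2 := integral_add_adjacent_intervals (μ := MeasureTheory.volume)
    (hM.intervalIntegrable 0 (ptot - pa)) (hM.intervalIntegrable (ptot - pa) ptot)
  have h3 : ∫ p in (0:ℝ)..pa, w p * w (ptot - p) * RI 0 p = kw := by
    unfold kw
    apply integral_congr
    intro p hp
    rw [uIcc_of_le hpa.le] at hp
    dsimp only
    have h4 : p ≤ ptot - pa := by linarith [hp.2]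
    rw [w_south h4, RI_north h4]
    ring
  have h4 : ∫ p in (ptot - pa)..ptot, w p * w (ptot - p) * RI 0 p = 1 / 40 := by
    have h5 : ∫ p in (ptot - pa)..ptot, w p * w (ptot - p) * RI 0 p =
        ∫ p in (ptot - pa)..ptot, w (ptot - p) := by
      apply integral_congr
      intro p hp
      rw [uIcc_of_le (by linarith)] at hp
      dsimp only
      have h4 : pa ≤ p := by linarith [hp.1]
      rw [w_one h4, RI_south h4]
      ring
    rw [h5, integral_comp_sub_left (fun q => w q) ptot, sub_self, sub_sub_cancel]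
    exact int_w
  have h5 : ∫ p in pa..(ptot - pa), w p * w (ptot - p) * RI 0 p =
      ∫ p in pa..(ptot - pa), (1:ℝ) := by
    apply integral_congr
    intro p hp
    rw [uIcc_of_le (by linarith)] at hp
    dsimp only
    rw [w_one hp.1, w_south hp.2, RI_north hp.2, r_large hp.1, sin_pi_div_two]
    ring
  rw [integral_const, smul_eq_mul, mul_one, e] at h5
  unfold MI
  rw [← h2, ← h1, h3, h4, h5]

theorem h0_eq : h0 * (kw + 1 + 1 / 40) = a1 - aN 1 - Sa + 19 / 20 := by
  have h1 : 0 < MI 0 := lt_of_lt_of_le one_pos (MI_ge zero_le_one)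
  have h2 : h0 * MI 0 = a1 - aN 1 - Jk 0 := by
    unfold h0 hS
    rw [div_mul_cancel₀ _ h1.ne']
  rw [MI_zero] at h2
  rw [h2]
  unfold Jk c2
  simp
  ring

theorem int_w_plateau : ∫ q in (0:ℝ)..(ptot - pa), w q = 1 + 1 / 40 := by
  have h := WW_large dl_pos dl_le (p := ptot - pa) (by rw [← pa_eq]; exact pa_lt.le)
  unfold WW at h
  have h2 : ∫ p in (0:ℝ)..(ptot - pa), w p = ptot - pa - π / 2 := h
  rw [h2]; unfold pa ptot; ring

/-- floor of `S0` -/
noncomputable def bS : ℝ := ptot - arcsin (19 / 20)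
/-- floor at the start of phase F -/
noncomputable def bF : ℝ := π / 2 + mF 0 / h0

theorem arcsin_19 : arcsin (19 / 20) < arccos (1 / 20) := by
  rw [arccos_eq_arcsin (by norm_num)]
  refine arcsin_lt_arcsin (by norm_num) ?_ ?_
  · rw [lt_sqrt (by norm_num)]; norm_num
  · exact sqrt_le_iff.2 ⟨by norm_num, by norm_num⟩

theorem arcsin_19_le : arcsin (19 / 20) ≤ q0 := arcsin_19.le.trans (arccos_le_q0 (by norm_num))

theorem bS_gt : pa < bS := by
  have := arcsin_19_le
  unfold bS pa ptot q0 at *
  linarith [pi_pos]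

theorem int_AS0 : ∫ p in pa..bS, AS0 p = Sa + h0 * (1 + 1 / 40) - 19 / 20 := by
  have hq := q0_pos
  have hpi := pi_gt_three
  have ha := arcsin_19_le
  have ha0 : 0 < arcsin (19 / 20) := arcsin_pos.2 (by norm_num)
  have cA := AS0_cont
  have h1 := integral_add_adjacent_intervals (μ := MeasureTheory.volume)
    (cA.intervalIntegrable pa bS) (cA.intervalIntegrable bS ptot)
  have hg : Continuous fun q => gg 1 (cos (r q)) * (1 - w q) :=
    ((gg_cont 1).comp (continuous_cos.comp r_continuous)).mul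
      (continuous_const.sub w_continuous)
  have h2 : ∫ p in pa..ptot, AS0 p = Sa + h0 * (1 + 1 / 40) := by
    have h3 : ∫ p in pa..ptot, AS0 p = ∫ p in pa..ptot,
        (gg 1 (cos (r (ptot - p))) * (1 - w (ptot - p)) + h0 * w (ptot - p)) := by
      apply integral_congr
      intro p hp
      rw [uIcc_of_le (by unfold pa ptot; linarith)] at hp
      exact AS0_south hp.1
    rw [h3, integral_comp_sub_left (fun q => gg 1 (cos (r q)) * (1 - w q) + h0 * w q) ptot,
      sub_self, integral_add (hg.intervalIntegrable _ _)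
      ((w_continuous.const_mul _).intervalIntegrable _ _), integral_const_mul, int_w_plateau,
      int_comp_r (f := fun x => gg 1 (cos x)) ((gg_cont 1).comp continuous_cos), r_zero,
      r_large pa_lt.le]
    rfl
  have h4 : ∫ p in bS..ptot, AS0 p = 19 / 20 := by
    have h3 : ∫ p in bS..ptot, AS0 p = ∫ p in bS..ptot, cos (ptot - p) := by
      apply integral_congr
      intro p hp
      rw [uIcc_of_le (by unfold bS; linarith)] at hp
      have h5 : ptot - p ≤ arcsin (19 / 20) := by
        have := hp.1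
        unfold bS at this
        linarith
      have h6 : 0 ≤ ptot - p := by linarith [hp.2]
      dsimp only
      rw [AS0_south (bS_gt.le.trans hp.1), r_small (h5.trans ha), w_zero (h5.trans ha),
        gg_id one_pos]
      · ring
      · rw [xt_one]
        have h7 := cos_le_cos_of_nonneg_of_le_pi h6 (arccos_le_pi (1 / 20))
          (h5.trans arcsin_19.le)
        rwa [cos_arccos (by norm_num) (by norm_num)] at h7
    rw [h3, integral_comp_sub_left (fun q => cos q) ptot, sub_self]
    unfold bS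
    rw [sub_sub_cancel, integral_cos, sin_zero, sin_arcsin (by norm_num) (by norm_num)]
    ring
  linarith

/-- the isometry -/
noncomputable def jun (p : ℝ) : ℝ := p + 1 / h0 * ∫ u in (0:ℝ)..p, (AS0 u - AF0 u)

theorem jun_north {p : ℝ} (h : 0 ≤ p) (h1 : p ≤ ptot - pa) : jun p = p := by
  unfold jun
  have : ∫ u in (0:ℝ)..p, (AS0 u - AF0 u) = ∫ u in (0:ℝ)..p, (0:ℝ) := by
    apply integral_congr
    intro u hu
    rw [uIcc_of_le h] at hu
    dsimp only
    rw [AS0_north (hu.2.trans h1), sub_self]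
  rw [this]
  simp

theorem jun_zero : jun 0 = 0 := jun_north le_rfl (by linarith [pa_pos, pa_lt])

theorem jun_strict (p : ℝ) :
    HasStrictDerivAt jun (1 + 1 / h0 * (AS0 p - AF0 p)) p := by
  have hc : Continuous fun u => AS0 u - AF0 u := AS0_cont.sub AF0_cont
  have h1 : HasStrictDerivAt (fun p => ∫ u in (0:ℝ)..p, (AS0 u - AF0 u)) (AS0 p - AF0 p) p :=
    intervalIntegral.integral_hasStrictDerivAt_right (hc.intervalIntegrable _ _)
      (hc.stronglyMeasurableAtFilter _ _) hc.continuousAt
  exact (hasStrictDerivAt_id p).add (h1.const_mul (1 / h0))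

theorem jun_bS : jun bS = bF := by
  have hh := h0_pos
  have hb := bS_gt
  have hpa := pa_pos
  have hc : Continuous fun u => AS0 u - AF0 u := AS0_cont.sub AF0_cont
  have h1 := integral_add_adjacent_intervals (μ := MeasureTheory.volume)
    (hc.intervalIntegrable 0 pa) (hc.intervalIntegrable pa bS)
  have h2 : ∫ u in (0:ℝ)..pa, (AS0 u - AF0 u) = 0 := by
    have : ∫ u in (0:ℝ)..pa, (AS0 u - AF0 u) = ∫ u in (0:ℝ)..pa, (0:ℝ) := by
      apply integral_congr
      intro u hu
      rw [uIcc_of_le hpa.le] at hu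
      dsimp only
      rw [AS0_north (hu.2.trans pa_lt.le), sub_self]
    rw [this]; simp
  have h3 : ∫ u in pa..bS, (AS0 u - AF0 u) = Sa + h0 * (1 + 1 / 40) - 19 / 20 -
      h0 * (bS - pa) := by
    rw [integral_sub (AS0_cont.intervalIntegrable _ _) (AF0_cont.intervalIntegrable _ _),
      int_AS0]
    congr 1
    have : ∫ u in pa..bS, AF0 u = ∫ u in pa..bS, h0 := by
      apply integral_congr
      intro u hu
      rw [uIcc_of_le hb.le] at hu
      exact AF0_south hu.1
    rw [this, integral_const, smul_eq_mul]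
    ring
  unfold jun bF
  rw [← h1, h2, h3]
  have h4 := h0_eq
  have h5 : mF 0 = d0 + a1 - aN 1 := by unfold mF aF; ring
  rw [h5]
  unfold d0 pa
  field_simp
  linarith

theorem jun_mono {p : ℝ} (h : pa ≤ p) (h1 : p ≤ bS) : pa ≤ jun p := by
  have hpa := pa_pos
  have hc : Continuous fun u => AS0 u - AF0 u := AS0_cont.sub AF0_cont
  rw [← jun_north hpa.le pa_lt.le]
  have hd : ∀ x, HasDerivAt jun (1 + 1 / h0 * (AS0 x - AF0 x)) x :=
    fun x => (jun_strict x).hasDerivAt
  have hm : MonotoneOn jun (Icc pa bS) := by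
    apply monotoneOn_of_deriv_nonneg (convex_Icc _ _)
      (fun x _ => (hd x).continuousAt.continuousWithinAt)
      (fun x _ => (hd x).differentiableAt.differentiableWithinAt)
    intro x hx
    rw [interior_Icc] at hx
    rw [(hd x).deriv, AF0_south hx.1.le]
    have hA : 0 < AS0 x := by
      apply CS'.posA
      refine ⟨by linarith [hx.1], ?_⟩
      change x ≤ ptot - arcsin (1 - 1 / 2)
      have h2 : arcsin (1 - 1 / 2) ≤ arcsin (19 / 20) := arcsin_le_arcsin (by norm_num)
      have := hx.2
      unfold bS at this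
      linarith
    have h3 := h0_pos
    have : 1 + 1 / h0 * (AS0 x - h0) = AS0 x / h0 := by field_simp; ring
    rw [this]
    positivity
  exact hm ⟨le_rfl, bS_gt.le⟩ ⟨h, h1⟩ h

theorem S0_beta (θ : ℝ) : S0.β θ = bS := by
  change βI 0 (π / 4) (1 / 20) θ = bS
  rw [βI_zero]
  unfold bS
  norm_num

theorem CF0_beta (θ : ℝ) : (CF 0 le_rfl zero_le_one).toQD.β θ = bF := by
  change βII 0 h0 (mF 0) θ = bF
  unfold βII bF
  simp

/-- **The junction.** -/
theorem junction : QComp S0 (CF 0 le_rfl zero_le_one).toQD 0 := by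
  have hh := h0_pos
  refine ⟨fun q => jun q.1, fun θ _ => ⟨jun_zero, ?_⟩, ?_⟩
  · rw [S0_beta, CF0_beta]; exact jun_bS
  · intro q _ h0' h1'
    rw [S0_beta] at h1'
    have hA : 0 < AS0 q.1 := by
      apply CS'.posA
      refine ⟨h0', ?_⟩
      change q.1 ≤ ptot - arcsin (1 - 1 / 2)
      have h2 : arcsin (1 - 1 / 2) ≤ arcsin (19 / 20) := arcsin_le_arcsin (by norm_num)
      unfold bS at h1'
      linarith
    have hsd := (jun_strict q.1).comp_hasStrictFDerivAt q (hasStrictFDerivAt_fst (𝕜 := ℝ) (p := q))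
    -- speed and radius
    have key : 0 < 1 + 1 / h0 * (AS0 q.1 - AF0 q.1) ∧
        AF0 (jun q.1) * (1 + 1 / h0 * (AS0 q.1 - AF0 q.1)) = AS0 q.1 ∧
        sin (r (jun q.1)) = sin (r q.1) := by
      rcases le_or_gt q.1 (ptot - pa) with h | h
      · rw [jun_north h0' h, ← AS0_north h]
        simp
      · have h2 : pa ≤ q.1 := by linarith [pa_lt]
        have h3 := jun_mono h2 h1'
        rw [AF0_south h2, AF0_south h3, r_large h2, r_large h3]
        have : 1 + 1 / h0 * (AS0 q.1 - h0) = AS0 q.1 / h0 := by field_simp; ring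
        rw [this]
        refine ⟨by positivity, ?_, rfl⟩
        field_simp
    refine ⟨_, hsd, ?_, ?_⟩
    · simpa using key.1
    · intro u
      have e : (CF 0 le_rfl zero_le_one).toQD.nm (jun q.1)
          (((1 + 1 / h0 * (AS0 q.1 - AF0 q.1)) • ContinuousLinearMap.fst ℝ ℝ ℝ) u, u.2) =
          S0.nm q.1 u := by
        unfold QD.nm
        have e1 : (CF 0 le_rfl zero_le_one).toQD.A (jun q.1) = AF0 (jun q.1) := rfl
        have e2 : (CF 0 le_rfl zero_le_one).toQD.R (jun q.1) = sin (r (jun q.1)) :=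
          RII_zero _ _
        have e3 : S0.A q.1 = AS0 q.1 := rfl
        have e4 : S0.R q.1 = sin (r q.1) := by
          change RI 0 q.1 = _
          unfold RI; ring
        have e5 : ((1 + 1 / h0 * (AS0 q.1 - AF0 q.1)) • ContinuousLinearMap.fst ℝ ℝ ℝ) u =
          (1 + 1 / h0 * (AS0 q.1 - AF0 q.1)) * u.1 := by simp
        rw [e1, e2, e3, e4, key.2.2, e5, ← mul_assoc, key.2.1]
      rw [exp_zero, one_mul, one_mul]
      exact ⟨e.le, e.ge⟩

end Pool.MP8e.C
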