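import Pool.Agent.Work.MP_8e9dbb.C.Taylor

/-!
The only smooth auxiliary function of the path: the angle `rr δ p`, equal to `p` for
`p ≤ π/2 - δ/2` and to `π/2` for `p ≥ π/2 + δ/2`.
-/

open Real Set MeasureTheory
open scoped ContDiff

namespace Pool.MP8e.C

/-- The cut-off: `0` for `p ≤ π/2 - δ/2`, `1` for `p ≥ π/2 + δ/2`. -/
noncomputable def ww (δ p : ℝ) : ℝ := smoothTransition ((p - (π / 2 - δ / 2)) / δ)

/-- The primitive of the cut-off. -/
noncomputable def WW (δ p : ℝ) : ℝ := ∫ q in (0:ℝ)..p, ww δ q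

/-- The angle function. -/
noncomputable def rr (δ p : ℝ) : ℝ := p - WW δ p

variable {δ : ℝ}

theorem smoothTransition_symm (u : ℝ) : smoothTransition (1 - u) = 1 - smoothTransition u := by
  unfold smoothTransition
  have h := smoothTransition.pos_denom u
  have h1 : expNegInvGlue (1 - u) + expNegInvGlue (1 - (1 - u)) ≠ 0 := by
    have := smoothTransition.pos_denom (1 - u)
    exact this.ne'
  have e : 1 - (1 - u) = u := by ring
  rw [e] at h1 ⊢
  field_simp
  ring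

theorem ww_contDiff (_hδ : 0 < δ) : ContDiff ℝ ∞ (ww δ) := by
  unfold ww
  exact smoothTransition.contDiff.comp ((contDiff_id.sub contDiff_const).div_const δ)

theorem ww_continuous (hδ : 0 < δ) : Continuous (ww δ) := (ww_contDiff hδ).continuous

theorem ww_nonneg (δ p : ℝ) : 0 ≤ ww δ p := smoothTransition.nonneg _

theorem ww_le_one (δ p : ℝ) : ww δ p ≤ 1 := smoothTransition.le_one _

theorem ww_zero (hδ : 0 < δ) {p : ℝ} (hp : p ≤ π / 2 - δ / 2) : ww δ p = 0 :=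
  smoothTransition.zero_of_nonpos (div_nonpos_of_nonpos_of_nonneg (by linarith) hδ.le)

theorem ww_one (hδ : 0 < δ) {p : ℝ} (hp : π / 2 + δ / 2 ≤ p) : ww δ p = 1 :=
  smoothTransition.one_of_one_le (by rw [le_div_iff₀ hδ]; linarith)

theorem ww_lt_one (hδ : 0 < δ) {p : ℝ} (hp : p < π / 2 + δ / 2) : ww δ p < 1 := by
  apply smoothTransition.lt_one_of_lt_one
  rw [div_lt_one hδ]
  linarith

theorem ww_pos (hδ : 0 < δ) {p : ℝ} (hp : π / 2 - δ / 2 < p) : 0 < ww δ p := by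
  apply smoothTransition.pos_of_pos
  exact div_pos (by linarith) hδ

theorem ww_symm (hδ : 0 < δ) (q : ℝ) : ww δ (π - q) = 1 - ww δ q := by
  unfold ww
  rw [← smoothTransition_symm]
  congr 1
  field_simp
  ring

theorem WW_hasDerivAt (hδ : 0 < δ) (p : ℝ) : HasDerivAt (WW δ) (ww δ p) p :=
  intervalIntegral.integral_hasDerivAt_right ((ww_continuous hδ).intervalIntegrable _ _)
    ((ww_continuous hδ).stronglyMeasurableAtFilter _ _) (ww_continuous hδ).continuousAt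

theorem WW_contDiff (hδ : 0 < δ) : ContDiff ℝ ∞ (WW δ) := by
  rw [contDiff_infty_iff_deriv]
  refine ⟨fun p => (WW_hasDerivAt hδ p).differentiableAt, ?_⟩
  have : deriv (WW δ) = ww δ := funext fun p => (WW_hasDerivAt hδ p).deriv
  rw [this]
  exact ww_contDiff hδ

theorem rr_contDiff (hδ : 0 < δ) : ContDiff ℝ ∞ (rr δ) := by
  unfold rr
  exact contDiff_id.sub (WW_contDiff hδ)

theorem rr_hasDerivAt (hδ : 0 < δ) (p : ℝ) : HasDerivAt (rr δ) (1 - ww δ p) p := by
  unfold rr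
  exact (hasDerivAt_id' p).sub (WW_hasDerivAt hδ p)

theorem WW_zero (hδ : 0 < δ) (h2 : δ ≤ 1) {p : ℝ} (hp : p ≤ π / 2 - δ / 2) : WW δ p = 0 := by
  unfold WW
  have hpi := pi_gt_three
  rw [intervalIntegral.integral_congr (g := fun _ => (0:ℝ)) _]
  · simp
  · intro q hq
    apply ww_zero hδ
    rcases le_total 0 p with h | h
    · rw [uIcc_of_le h] at hq; exact hq.2.trans hp
    · rw [uIcc_of_ge h] at hq; exact hq.2.trans (by linarith)

theorem rr_small (hδ : 0 < δ) (h2 : δ ≤ 1) {p : ℝ} (hp : p ≤ π / 2 - δ / 2) : rr δ p = p := by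
  unfold rr
  rw [WW_zero hδ h2 hp, sub_zero]

theorem WW_pi (hδ : 0 < δ) : WW δ π = π / 2 := by
  have h := intervalIntegral.integral_comp_sub_left (fun q => ww δ q) π (a := 0) (b := π)
  simp only [sub_self, sub_zero] at h
  have h3 : (∫ q in (0:ℝ)..π, ww δ (π - q)) = π - ∫ q in (0:ℝ)..π, ww δ q := by
    simp_rw [ww_symm hδ]
    rw [intervalIntegral.integral_sub (by simp) ((ww_continuous hδ).intervalIntegrable _ _)]
    simp
  unfold WW
  linarith

theorem WW_large (hδ : 0 < δ) (h2 : δ ≤ 1) {p : ℝ} (hp : π / 2 + δ / 2 ≤ p) :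
    WW δ p = p - π / 2 := by
  have hpi := pi_gt_three
  have h1 : WW δ p = WW δ π + ∫ q in π..p, ww δ q := by
    unfold WW
    rw [intervalIntegral.integral_add_adjacent_intervals] <;>
      exact (ww_continuous hδ).intervalIntegrable _ _
  have h3 : (∫ q in π..p, ww δ q) = ∫ q in π..p, (1:ℝ) := by
    apply intervalIntegral.integral_congr
    intro q hq
    apply ww_one hδ
    rcases le_total π p with h | h
    · rw [uIcc_of_le h] at hq; linarith [hq.1]
    · rw [uIcc_of_ge h] at hq; exact hp.trans hq.1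
  rw [h1, WW_pi hδ, h3]
  simp
  ring

theorem rr_large (hδ : 0 < δ) (h2 : δ ≤ 1) {p : ℝ} (hp : π / 2 + δ / 2 ≤ p) :
    rr δ p = π / 2 := by
  unfold rr
  rw [WW_large hδ h2 hp]
  ring

theorem rr_mono (hδ : 0 < δ) : Monotone (rr δ) := by
  apply monotone_of_deriv_nonneg (fun p => (rr_hasDerivAt hδ p).differentiableAt)
  intro p
  rw [(rr_hasDerivAt hδ p).deriv]
  linarith [ww_le_one δ p]

theorem WW_mono (hδ : 0 < δ) : Monotone (WW δ) := by
  apply monotone_of_deriv_nonneg (fun p => (WW_hasDerivAt hδ p).differentiableAt)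
  intro p
  rw [(WW_hasDerivAt hδ p).deriv]
  exact ww_nonneg δ p

theorem WW_nonneg (hδ : 0 < δ) (h2 : δ ≤ 1) (p : ℝ) : 0 ≤ WW δ p := by
  have hpi := pi_gt_three
  rcases le_total p (π / 2 - δ / 2) with h | h
  · exact (WW_zero hδ h2 h).ge
  · rw [← WW_zero hδ h2 (le_refl (π / 2 - δ / 2))]
    exact WW_mono hδ h

theorem rr_le_self (hδ : 0 < δ) (h2 : δ ≤ 1) (p : ℝ) : rr δ p ≤ p := by
  unfold rr
  linarith [WW_nonneg hδ h2 p]

theorem rr_le (hδ : 0 < δ) (h2 : δ ≤ 1) (p : ℝ) : rr δ p ≤ π / 2 := by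
  rcases le_total (π / 2 + δ / 2) p with h | h
  · exact (rr_large hδ h2 h).le
  · exact (rr_mono hδ h).trans (rr_large hδ h2 le_rfl).le

theorem rr_strictMonoOn (hδ : 0 < δ) : StrictMonoOn (rr δ) (Iic (π / 2 + δ / 2)) := by
  apply strictMonoOn_of_deriv_pos (convex_Iic _)
    (fun p _ => (rr_hasDerivAt hδ p).continuousAt.continuousWithinAt)
  intro p hp
  rw [interior_Iic] at hp
  rw [(rr_hasDerivAt hδ p).deriv]
  linarith [ww_lt_one hδ hp]

theorem rr_lt (hδ : 0 < δ) (h2 : δ ≤ 1) {p : ℝ} (hp : p < π / 2 + δ / 2) : rr δ p < π / 2 := by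
  have := rr_strictMonoOn hδ (mem_Iic.2 hp.le) (mem_Iic.2 le_rfl) hp
  rwa [rr_large hδ h2 le_rfl] at this

theorem rr_ge (hδ : 0 < δ) (h2 : δ ≤ 1) {p : ℝ} (hp : π / 2 - δ / 2 ≤ p) :
    π / 2 - δ / 2 ≤ rr δ p := by
  have := rr_mono hδ hp
  rwa [rr_small hδ h2 le_rfl] at this

theorem rr_zero (hδ : 0 < δ) (h2 : δ ≤ 1) : rr δ 0 = 0 :=
  rr_small hδ h2 (by have := pi_gt_three; linarith)

theorem rr_nonneg (hδ : 0 < δ) (h2 : δ ≤ 1) {p : ℝ} (hp : 0 ≤ p) : 0 ≤ rr δ p := by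
  rw [← rr_zero hδ h2]
  exact rr_mono hδ hp

theorem rr_pos (hδ : 0 < δ) (h2 : δ ≤ 1) {p : ℝ} (hp : 0 < p) : 0 < rr δ p := by
  have hpi := pi_gt_three
  rcases le_total p (π / 2 - δ / 2) with h | h
  · rw [rr_small hδ h2 h]; exact hp
  · have := rr_ge hδ h2 h; linarith

end Pool.MP8e.C
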