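import Pool.Agent.Work.MP_8e9dbb.Iface

/-!
Comparison of a quarter domain with the quarter of the round sphere (used for `t → 0`).
-/

open Real Set

namespace Pool.MP8e

/-- the quarter domain -/
def QD.E (D : QD) : Set (ℝ × ℝ) := {q | q.2 ∈ Icc 0 (π / 2) ∧ 0 ≤ q.1 ∧ q.1 ≤ D.β q.2}

/-- `G` maps the quarter domain onto the quarter `x ≥ 0`, `y ≥ 0` of the unit sphere; pole to north
pole, leg and floor to `y = 0`, axis to `x = 0`; off the pole, `B` and `Q` it distorts the norm at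
most by the factor `e^ε` (pointwise). -/
structure SCompG (D : QD) (ε : ℝ) (G : ℝ × ℝ → E3) : Prop where
  norm : ∀ q ∈ D.E, ‖G q‖ = 1
  nn : ∀ q ∈ D.E, 0 ≤ G q 0 ∧ 0 ≤ G q 1
  cont : ContinuousOn G D.E
  pole : ∀ θ, G (0, θ) = !₂[0, 0, 1]
  side1 : ∀ q ∈ D.E, 0 < q.1 → (G q 1 = 0 ↔ (q.2 = 0 ∨ q.1 = D.β q.2))
  side0 : ∀ q ∈ D.E, 0 < q.1 → (G q 0 = 0 ↔ q.2 = π / 2)
  inj : ∀ q ∈ D.E, ∀ q' ∈ D.E, G q = G q' → q = q' ∨ (q.1 = 0 ∧ q'.1 = 0)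
  surj : ∀ x : E3, ‖x‖ = 1 → 0 ≤ x 0 → 0 ≤ x 1 → ∃ q ∈ D.E, G q = x
  dist : ∀ q ∈ D.E, 0 < q.1 → q ≠ (D.β 0, 0) → q ≠ (D.β (π / 2), π / 2) →
    ∀ η > 0, ∃ δ > 0, ∀ y ∈ D.E, dist y q < δ →
      ‖G y - G q‖ ≤ exp ε * D.nm q.1 (y - q) + η * ‖y - q‖ ∧
      D.nm q.1 (y - q) ≤ exp ε * ‖G y - G q‖ + η * ‖y - q‖

def SComp (D : QD) (ε : ℝ) : Prop := ∃ G, SCompG D ε G

end Pool.MP8e
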