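import Mathlib

/-!
Taylor bounds for sine and cosine on the half line, and two monotonicity tools.
-/

namespace Pool.MP8e.C

/-- A function with nonnegative derivative on the half line which is nonnegative at zero is
nonnegative. -/
theorem nonneg_of_deriv {F F' : ℝ → ℝ} (h : ∀ x, HasDerivAt F (F' x) x) (h0 : 0 ≤ F 0)
    (hp : ∀ x, 0 ≤ x → 0 ≤ F' x) : ∀ x, 0 ≤ x → 0 ≤ F x := by
  intro x hx
  have hm : MonotoneOn F (Set.Ici 0) := by
    apply monotoneOn_of_deriv_nonneg (convex_Ici 0)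
    · exact fun y _ => (h y).continuousAt.continuousWithinAt
    · exact fun y _ => (h y).differentiableAt.differentiableWithinAt
    · intro y hy
      rw [interior_Ici] at hy
      rw [(h y).deriv]
      exact hp y (le_of_lt hy)
  exact h0.trans (hm (Set.mem_Ici.2 le_rfl) (Set.mem_Ici.2 hx) hx)

theorem sin_le_self {x : ℝ} (hx : 0 ≤ x) : Real.sin x ≤ x := Real.sin_le hx

theorem cos_ge2 (x : ℝ) : 1 - x ^ 2 / 2 ≤ Real.cos x := Real.one_sub_sq_div_two_le_cos

theorem sin_ge3 {x : ℝ} (hx : 0 ≤ x) : x - x ^ 3 / 6 ≤ Real.sin x := by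
  have := nonneg_of_deriv (F := fun x => Real.sin x - (x - x ^ 3 / 6))
    (F' := fun x => Real.cos x - (1 - x ^ 2 / 2)) (fun y => by
      have h1 := (Real.hasDerivAt_sin y).sub ((hasDerivAt_id' y).sub
        ((hasDerivAt_pow 3 y).div_const 6))
      refine h1.congr_deriv ?_
      norm_num; ring) (by simp) (fun y _ => by have := cos_ge2 y; linarith) x hx
  linarith

theorem cos_le4 {x : ℝ} (hx : 0 ≤ x) : Real.cos x ≤ 1 - x ^ 2 / 2 + x ^ 4 / 24 := by
  have := nonneg_of_deriv (F := fun x => 1 - x ^ 2 / 2 + x ^ 4 / 24 - Real.cos x)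
    (F' := fun x => Real.sin x - (x - x ^ 3 / 6)) (fun y => by
      have h1 := (((hasDerivAt_const y (1:ℝ)).sub ((hasDerivAt_pow 2 y).div_const 2)).add
        ((hasDerivAt_pow 4 y).div_const 24)).sub (Real.hasDerivAt_cos y)
      refine h1.congr_deriv ?_
      norm_num; ring) (by simp) (fun y hy => by have := sin_ge3 hy; linarith) x hx
  linarith

theorem sin_le5 {x : ℝ} (hx : 0 ≤ x) : Real.sin x ≤ x - x ^ 3 / 6 + x ^ 5 / 120 := by
  have := nonneg_of_deriv (F := fun x => x - x ^ 3 / 6 + x ^ 5 / 120 - Real.sin x)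
    (F' := fun x => 1 - x ^ 2 / 2 + x ^ 4 / 24 - Real.cos x) (fun y => by
      have h1 := (((hasDerivAt_id' y).sub ((hasDerivAt_pow 3 y).div_const 6)).add
        ((hasDerivAt_pow 5 y).div_const 120)).sub (Real.hasDerivAt_sin y)
      refine h1.congr_deriv ?_
      norm_num; ring) (by simp) (fun y hy => by have := cos_le4 hy; linarith) x hx
  linarith

theorem cos_ge6 {x : ℝ} (hx : 0 ≤ x) :
    1 - x ^ 2 / 2 + x ^ 4 / 24 - x ^ 6 / 720 ≤ Real.cos x := by
  have := nonneg_of_deriv (F := fun x => Real.cos x - (1 - x ^ 2 / 2 + x ^ 4 / 24 - x ^ 6 / 720))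
    (F' := fun x => x - x ^ 3 / 6 + x ^ 5 / 120 - Real.sin x) (fun y => by
      have h1 := (Real.hasDerivAt_cos y).sub ((((hasDerivAt_const y (1:ℝ)).sub
        ((hasDerivAt_pow 2 y).div_const 2)).add
        ((hasDerivAt_pow 4 y).div_const 24)).sub ((hasDerivAt_pow 6 y).div_const 720))
      refine h1.congr_deriv ?_
      norm_num; ring) (by simp) (fun y hy => by have := sin_le5 hy; linarith) x hx
  linarith

theorem sin_ge7 {x : ℝ} (hx : 0 ≤ x) :
    x - x ^ 3 / 6 + x ^ 5 / 120 - x ^ 7 / 5040 ≤ Real.sin x := by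
  have := nonneg_of_deriv
    (F := fun x => Real.sin x - (x - x ^ 3 / 6 + x ^ 5 / 120 - x ^ 7 / 5040))
    (F' := fun x => Real.cos x - (1 - x ^ 2 / 2 + x ^ 4 / 24 - x ^ 6 / 720)) (fun y => by
      have h1 := (Real.hasDerivAt_sin y).sub ((((hasDerivAt_id' y).sub
        ((hasDerivAt_pow 3 y).div_const 6)).add
        ((hasDerivAt_pow 5 y).div_const 120)).sub ((hasDerivAt_pow 7 y).div_const 5040))
      refine h1.congr_deriv ?_
      norm_num; ring) (by simp) (fun y hy => by have := cos_ge6 hy; linarith) x hx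
  linarith

theorem cos_le8 {x : ℝ} (hx : 0 ≤ x) :
    Real.cos x ≤ 1 - x ^ 2 / 2 + x ^ 4 / 24 - x ^ 6 / 720 + x ^ 8 / 40320 := by
  have := nonneg_of_deriv
    (F := fun x => 1 - x ^ 2 / 2 + x ^ 4 / 24 - x ^ 6 / 720 + x ^ 8 / 40320 - Real.cos x)
    (F' := fun x => Real.sin x - (x - x ^ 3 / 6 + x ^ 5 / 120 - x ^ 7 / 5040)) (fun y => by
      have h1 := (((((hasDerivAt_const y (1:ℝ)).sub
        ((hasDerivAt_pow 2 y).div_const 2)).add
        ((hasDerivAt_pow 4 y).div_const 24)).sub ((hasDerivAt_pow 6 y).div_const 720)).add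
        ((hasDerivAt_pow 8 y).div_const 40320)).sub (Real.hasDerivAt_cos y)
      refine h1.congr_deriv ?_
      norm_num; ring) (by simp) (fun y hy => by have := sin_ge7 hy; linarith) x hx
  linarith

theorem sin_le9 {x : ℝ} (hx : 0 ≤ x) :
    Real.sin x ≤ x - x ^ 3 / 6 + x ^ 5 / 120 - x ^ 7 / 5040 + x ^ 9 / 362880 := by
  have := nonneg_of_deriv
    (F := fun x => x - x ^ 3 / 6 + x ^ 5 / 120 - x ^ 7 / 5040 + x ^ 9 / 362880 - Real.sin x)
    (F' := fun x => 1 - x ^ 2 / 2 + x ^ 4 / 24 - x ^ 6 / 720 + x ^ 8 / 40320 - Real.cos x)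
    (fun y => by
      have h1 := (((((hasDerivAt_id' y).sub ((hasDerivAt_pow 3 y).div_const 6)).add
        ((hasDerivAt_pow 5 y).div_const 120)).sub ((hasDerivAt_pow 7 y).div_const 5040)).add
        ((hasDerivAt_pow 9 y).div_const 362880)).sub (Real.hasDerivAt_sin y)
      refine h1.congr_deriv ?_
      norm_num; ring) (by simp) (fun y hy => by have := cos_le8 hy; linarith) x hx
  linarith

theorem sin_sub_mul_cos_le {x : ℝ} (hx : 0 ≤ x) :
    Real.sin x - x * Real.cos x ≤ x ^ 3 / 3 - x ^ 5 / 30 + x ^ 7 / 840 := by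
  have := nonneg_of_deriv
    (F := fun x => x ^ 3 / 3 - x ^ 5 / 30 + x ^ 7 / 840 - (Real.sin x - x * Real.cos x))
    (F' := fun x => x * (x - x ^ 3 / 6 + x ^ 5 / 120 - Real.sin x)) (fun y => by
      have h1 := (((((hasDerivAt_pow 3 y).div_const 3)).sub
        ((hasDerivAt_pow 5 y).div_const 30)).add ((hasDerivAt_pow 7 y).div_const 840)).sub
        ((Real.hasDerivAt_sin y).sub ((hasDerivAt_id' y).mul (Real.hasDerivAt_cos y)))
      refine h1.congr_deriv ?_
      norm_num; ring) (by simp) (fun y hy => by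
        have := sin_le5 hy
        exact mul_nonneg hy (by linarith)) x hx
  linarith

end Pool.MP8e.C
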